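import Mathlib

set_option autoImplicit false

open Polynomial

namespace Pool.Agent.Q80.Berg

open scoped Classical in
/-- the multiset of zeros in the open unit interval -/
noncomputable def zs (p : ℝ[X]) : Multiset ℝ := p.roots.filter (fun x => 0 < x ∧ x < 1)

/-- number of zeros in the open unit interval, with multiplicity -/
noncomputable def Z (p : ℝ[X]) : ℕ := Multiset.card (zs p)

lemma count_zs (p : ℝ[X]) (x : ℝ) (hx : 0 < x ∧ x < 1) : (zs p).count x = p.rootMultiplicity x := by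
  classical
  rw [zs, Multiset.count_filter, if_pos hx, count_roots]

lemma mem_zs (p : ℝ[X]) (hp : p ≠ 0) (x : ℝ) : x ∈ zs p ↔ p.eval x = 0 ∧ 0 < x ∧ x < 1 := by
  classical
  rw [zs, Multiset.mem_filter, mem_roots hp, IsRoot]

theorem rolle (p : ℝ[X]) (hp : p ≠ 0) (E : Finset ℝ)
    (hE : ∀ x ∈ E, (x = 0 ∨ x = 1) ∧ p.eval x = 0) :
    Z p + E.card ≤ Z (derivative p) + 1 := by
  classical
  rcases eq_or_ne (derivative p) 0 with hp' | hp'
  · obtain ⟨c, hc⟩ : ∃ c, p = C c := ⟨_, eq_C_of_derivative_eq_zero hp'⟩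
    have hc0 : c ≠ 0 := by
      rintro rfl
      apply hp
      rw [hc, C_0]
    have hE0 : E = ∅ := by
      rw [Finset.eq_empty_iff_forall_notMem]
      intro x hx
      have := (hE x hx).2
      rw [hc, eval_C] at this
      exact hc0 this
    have hZ : Z p = 0 := by
      rw [Z, zs, hc, roots_C]
      simp
    rw [hE0, hZ]
    simp
  set S := (zs p).toFinset with hS
  set T := (zs (derivative p)).toFinset with hT
  have hSm : ∀ x, x ∈ S ↔ p.eval x = 0 ∧ 0 < x ∧ x < 1 := fun x => by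
    rw [hS, Multiset.mem_toFinset, mem_zs p hp]
  have hTm : ∀ x, x ∈ T ↔ (derivative p).eval x = 0 ∧ 0 < x ∧ x < 1 := fun x => by
    rw [hT, Multiset.mem_toFinset, mem_zs _ hp']
  have hdis : Disjoint S E := by
    rw [Finset.disjoint_left]
    intro x hx hxE
    obtain ⟨-, h0, h1⟩ := (hSm x).1 hx
    rcases (hE x hxE).1 with h | h
    · rw [h] at h0; exact lt_irrefl _ h0
    · rw [h] at h1; exact lt_irrefl _ h1
  have hint : (S ∪ E).card ≤ (T \ (S ∪ E)).card + 1 := by
    refine Finset.card_le_sdiff_of_interleaved fun x hx y hy hxy _ => ?_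
    have hm : ∀ x ∈ S ∪ E, p.eval x = 0 ∧ 0 ≤ x ∧ x ≤ 1 := by
      intro x hx
      rcases Finset.mem_union.1 hx with h | h
      · obtain ⟨h1, h2, h3⟩ := (hSm x).1 h
        exact ⟨h1, h2.le, h3.le⟩
      · obtain ⟨h1, h2⟩ := hE x h
        refine ⟨h2, ?_, ?_⟩ <;> rcases h1 with h1 | h1 <;> simp [h1]
    obtain ⟨ex, x0, x1⟩ := hm x hx
    obtain ⟨ey, y0, y1⟩ := hm y hy
    obtain ⟨z, hz1, hz2⟩ := exists_deriv_eq_zero hxy p.continuousOn (ex.trans ey.symm)
    refine ⟨z, ?_, hz1⟩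
    rw [hTm]
    refine ⟨?_, lt_of_le_of_lt x0 hz1.1, lt_of_lt_of_le hz1.2 y1⟩
    rwa [← p.deriv]
  rw [Finset.card_union_of_disjoint hdis] at hint
  have hle : (T \ (S ∪ E)).card ≤ (T \ S).card := by
    apply Finset.card_le_card
    exact Finset.sdiff_subset_sdiff (le_refl T) Finset.subset_union_left
  have e1 : Z p = ∑ x ∈ S, (zs p).count x := (Multiset.toFinset_sum_count_eq _).symm
  have e2 : Z p = (∑ x ∈ S, (p.rootMultiplicity x - 1)) + S.card := by
    rw [e1, Finset.card_eq_sum_ones, ← Finset.sum_add_distrib]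
    apply Finset.sum_congr rfl
    intro x hx
    obtain ⟨h1, h2⟩ := (hSm x).1 hx
    rw [count_zs p x h2]
    have : 0 < p.rootMultiplicity x := (rootMultiplicity_pos hp).2 h1
    omega
  have e3 : (∑ x ∈ S, (derivative p).rootMultiplicity x) + (T \ S).card ≤ Z (derivative p) := by
    have h1 : (∑ x ∈ S, (derivative p).rootMultiplicity x) = ∑ x ∈ S, (zs (derivative p)).count x := by
      apply Finset.sum_congr rfl
      intro x hx
      rw [count_zs _ x ((hSm x).1 hx).2]
    have h2 : (T \ S).card ≤ ∑ x ∈ T \ S, (zs (derivative p)).count x := by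
      rw [Finset.card_eq_sum_ones]
      apply Finset.sum_le_sum
      intro x hx
      have : x ∈ zs (derivative p) := by
        rw [← Multiset.mem_toFinset]
        exact (Finset.mem_sdiff.1 hx).1
      exact Nat.succ_le_iff.2 (Multiset.count_pos.2 this)
    have h3 : (∑ x ∈ S, (zs (derivative p)).count x) + ∑ x ∈ T \ S, (zs (derivative p)).count x
        = Z (derivative p) := by
      rw [← Finset.sum_union Finset.disjoint_sdiff, Finset.union_sdiff_self_eq_union, Z,
        ← Multiset.toFinset_sum_count_eq, ← Finset.sum_subset Finset.subset_union_right]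
      intro x _ hx₂
      rw [hT, Multiset.mem_toFinset] at hx₂
      exact Multiset.count_eq_zero.2 hx₂
    omega
  have e4 : (∑ x ∈ S, (p.rootMultiplicity x - 1)) ≤ ∑ x ∈ S, (derivative p).rootMultiplicity x :=
    Finset.sum_le_sum fun _ _ => rootMultiplicity_sub_one_le_derivative_rootMultiplicity _ _
  omega

/-! ### imaginary parts of polynomials -/

/-- coefficientwise imaginary part -/
noncomputable def imP (P : ℂ[X]) : ℝ[X] := P.sum (fun i a => monomial i a.im)

lemma imP_coeff (P : ℂ[X]) (n : ℕ) : (imP P).coeff n = (P.coeff n).im := by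
  rw [imP, Polynomial.sum_def, finsetSum_coeff]
  simp only [coeff_monomial]
  rw [Finset.sum_ite_eq' P.support n]
  split_ifs with h
  · rfl
  · rw [notMem_support_iff.1 h]
    simp

lemma imP_add (P Q : ℂ[X]) : imP (P + Q) = imP P + imP Q := by
  ext n
  simp [imP_coeff]

lemma imP_derivative (P : ℂ[X]) : derivative (imP P) = imP (derivative P) := by
  ext n
  rw [coeff_derivative, imP_coeff, imP_coeff, coeff_derivative]
  have : ((n : ℂ) + 1) = (((n : ℝ) + 1 : ℝ) : ℂ) := by push_cast; ring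
  rw [this, Complex.im_mul_ofReal]

lemma imP_eval (P : ℂ[X]) (y : ℝ) : (imP P).eval y = (P.eval (y : ℂ)).im := by
  induction P using Polynomial.induction_on' with
  | add p q hp hq => rw [imP_add, eval_add, eval_add, hp, hq, Complex.add_im]
  | monomial n a =>
    have : imP (monomial n a) = monomial n a.im := by
      ext m
      rw [imP_coeff, coeff_monomial, coeff_monomial]
      split_ifs <;> simp
    rw [this, eval_monomial, eval_monomial]
    have h2 : ((y : ℂ)) ^ n = ((y ^ n : ℝ) : ℂ) := by push_cast; ring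
    rw [h2, Complex.im_mul_ofReal]

lemma imP_C_real_mul (r : ℝ) (P : ℂ[X]) : imP (C (r : ℂ) * P) = C r * imP P := by
  ext n
  rw [imP_coeff, coeff_C_mul, coeff_C_mul, imP_coeff, Complex.im_ofReal_mul]

/-! ### the system -/

/-- the two polygons: `N = 4` and `N = 3` with the first root of unity -/
def Good (N : ℕ) (ω : ℂ) : Prop :=
  (N = 4 ∧ ω = Complex.I) ∨ (N = 3 ∧ ω = ⟨-1 / 2, Real.sqrt 3 / 2⟩)

noncomputable def v (ω : ℂ) (j m : ℕ) : ℝ[X] := imP (C (ω ^ j) * (1 + C ω * X) ^ m)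

lemma v_eval (ω : ℂ) (j m : ℕ) (y : ℝ) : (v ω j m).eval y = (ω ^ j * (1 + ω * y) ^ m).im := by
  rw [v, imP_eval]
  simp

lemma v_derivative (ω : ℂ) (j m : ℕ) :
    derivative (v ω j m) = C (m : ℝ) * v ω (j + 1) (m - 1) := by
  rw [v, v, imP_derivative, ← imP_C_real_mul]
  congr 1
  rw [derivative_C_mul, derivative_pow]
  simp only [derivative_add, derivative_one, derivative_mul, derivative_C, derivative_X, zero_mul,
    zero_add, mul_one, map_pow, map_mul, pow_succ, Complex.ofReal_natCast, map_natCast]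
  ring

noncomputable def ml (N k l : ℕ) : ℕ := N * l + k + 1

noncomputable def W (N k : ℕ) (ω : ℂ) (L : ℕ) (c : ℕ → ℝ) (i : ℕ) : ℝ[X] :=
  ∑ l ∈ Finset.range (L + 1), C (c l * ((ml N k l).descFactorial i : ℝ)) * v ω i (ml N k l - i)

lemma W_derivative (N k : ℕ) (ω : ℂ) (L : ℕ) (c : ℕ → ℝ) (i : ℕ) :
    derivative (W N k ω L c i) = W N k ω L c (i + 1) := by
  rw [W, W, derivative_sum]
  apply Finset.sum_congr rfl
  intro l _
  rw [derivative_C_mul, v_derivative, ← mul_assoc, ← C_mul, Nat.descFactorial_succ, Nat.sub_sub]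
  push_cast
  congr 2
  ring

lemma om_pow {N : ℕ} {ω : ℂ} (h : Good N ω) : ω ^ N = 1 := by
  rcases h with ⟨rfl, rfl⟩ | ⟨rfl, rfl⟩
  · exact Complex.I_pow_four
  · have h3 : Real.sqrt 3 * Real.sqrt 3 = 3 := Real.mul_self_sqrt (by norm_num)
    apply Complex.ext
    · simp [pow_succ, Complex.mul_re, Complex.mul_im]
      ring_nf
      rw [show Real.sqrt 3 ^ 2 = 3 by rw [pow_two, h3]]
      norm_num
    · simp [pow_succ, Complex.mul_re, Complex.mul_im]
      ring_nf
      rw [show Real.sqrt 3 ^ 3 = 3 * Real.sqrt 3 by rw [pow_succ, pow_two, h3]]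
      ring

lemma om3 : ((⟨-1 / 2, Real.sqrt 3 / 2⟩ : ℂ)) ^ 2 = -1 - (⟨-1 / 2, Real.sqrt 3 / 2⟩ : ℂ) := by
  have h3 : Real.sqrt 3 * Real.sqrt 3 = 3 := Real.mul_self_sqrt (by norm_num)
  apply Complex.ext
  · simp [pow_succ, Complex.mul_re]
    ring_nf
    rw [show Real.sqrt 3 ^ 2 = 3 by rw [pow_two, h3]]
    norm_num
  · simp [pow_succ, Complex.mul_im]
    ring_nf

/-- values at the vertex -/
lemma vertex {N : ℕ} {ω : ℂ} (h : Good N ω) (n i : ℕ) (hd : N ∣ n + 2 * i) :
    (ω ^ i * (1 + ω) ^ n).im = 0 := by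
  rcases h with ⟨rfl, rfl⟩ | ⟨rfl, rfl⟩
  · obtain ⟨t, ht⟩ := hd
    obtain ⟨n', rfl⟩ : ∃ n', n = 2 * n' := ⟨2 * t - i, by omega⟩
    have h1 : (1 + Complex.I) ^ 2 = 2 * Complex.I := by
      linear_combination Complex.I_sq
    rw [pow_mul, h1, mul_pow]
    have h2 : Complex.I ^ i * (2 ^ n' * Complex.I ^ n') = 2 ^ n' * (Complex.I ^ (i + n')) := by
      rw [pow_add]; ring
    have h3 : i + n' = 2 * t := by omega
    rw [h2, h3, pow_mul, Complex.I_sq]
    have : ((2 : ℂ) ^ n' * (-1) ^ t) = (((2 : ℝ) ^ n' * (-1) ^ t : ℝ) : ℂ) := by push_cast; ring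
    rw [this, Complex.ofReal_im]
  · obtain ⟨t, ht⟩ := hd
    have hω := om3
    have hω3 := om_pow (N := 3) (ω := ⟨-1 / 2, Real.sqrt 3 / 2⟩) (Or.inr ⟨rfl, rfl⟩)
    generalize (⟨-1 / 2, Real.sqrt 3 / 2⟩ : ℂ) = ω at hω hω3
    have h1 : 1 + ω = (-1) * ω ^ 2 := by rw [hω]; ring
    rw [h1, mul_pow, ← pow_mul]
    have h2 : ω ^ i * ((-1) ^ n * ω ^ (2 * n)) = (-1) ^ n * ω ^ (i + 2 * n) := by
      rw [pow_add]; ring
    obtain ⟨w, hw⟩ : ∃ w, i + 2 * n = 3 * w := ⟨2 * t - i, by omega⟩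
    rw [h2, hw, pow_mul, hω3, one_pow, mul_one]
    have : ((-1 : ℂ) ^ n) = (((-1 : ℝ) ^ n : ℝ) : ℂ) := by push_cast; ring
    rw [this, Complex.ofReal_im]

lemma W_eval_zero (N k : ℕ) (ω : ℂ) (L : ℕ) (c : ℕ → ℝ) (i : ℕ) (hi : (ω ^ i).im = 0) :
    (W N k ω L c i).eval 0 = 0 := by
  rw [W, eval_finsetSum]
  apply Finset.sum_eq_zero
  intro l _
  rw [eval_mul, v_eval]
  simp [hi]

lemma W_eval_one {N k : ℕ} {ω : ℂ} (h : Good N ω) (hk : k < N) (L : ℕ) (c : ℕ → ℝ) :
    (W N k ω L c (N - 1 - k)).eval 1 = 0 := by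
  rw [W, eval_finsetSum]
  apply Finset.sum_eq_zero
  intro l _
  rw [eval_mul, v_eval]
  by_cases hi : N - 1 - k ≤ ml N k l
  · have : (ω ^ (N - 1 - k) * (1 + ω * ((1 : ℝ) : ℂ)) ^ (ml N k l - (N - 1 - k))).im = 0 := by
      rw [Complex.ofReal_one, mul_one]
      apply vertex h
      refine ⟨l + 1, ?_⟩
      unfold ml at *
      have : N * (l + 1) = N * l + N := by ring
      omega
    rw [this, mul_zero]
  · rw [Nat.descFactorial_eq_zero_iff_lt.2 (by omega)]
    simp

/-- the last derivative lowers the level -/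
lemma W_last {N k : ℕ} {ω : ℂ} (h : Good N ω) (hk : k < N) (L : ℕ) (c : ℕ → ℝ) :
    W N k ω (L + 1) c N = W N k ω L (fun l => c (l + 1) * ((ml N k (l + 1)).descFactorial N : ℝ)) 0 := by
  rw [W, W, Finset.sum_range_succ']
  have h0 : C (c 0 * ((ml N k 0).descFactorial N : ℝ)) * v ω N (ml N k 0 - N) = 0 := by
    by_cases hk1 : k + 1 = N
    · have h1 : ml N k 0 - N = 0 := by unfold ml; omega
      have h2 : v ω N 0 = 0 := by
        rw [v, om_pow h]
        ext n
        rw [imP_coeff]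
        simp only [map_one, pow_zero, mul_one, coeff_one, coeff_zero]
        split_ifs <;> simp
      rw [h1, h2, mul_zero]
    · rw [Nat.descFactorial_eq_zero_iff_lt.2 (by unfold ml; omega)]
      simp
  rw [h0, add_zero]
  apply Finset.sum_congr rfl
  intro l _
  have h1 : ml N k (l + 1) - N = ml N k l := by
    unfold ml
    have : N * (l + 1) = N * l + N := by ring
    omega
  rw [h1, Nat.descFactorial_zero, Nat.sub_zero]
  have h2 : v ω N (ml N k l) = v ω 0 (ml N k l) := by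
    rw [v, v, om_pow h, pow_zero]
  rw [h2]
  simp

lemma base {N k : ℕ} {ω : ℂ} (h : Good N ω) (hk : k < N) (y : ℝ) (h0 : 0 < y) (h1 : y < 1) :
    0 < (v ω 0 (k + 1)).eval y := by
  rw [v_eval, pow_zero, one_mul]
  rcases h with ⟨rfl, rfl⟩ | ⟨rfl, rfl⟩
  · interval_cases k
    · simp [h0]
    · simp [pow_succ, Complex.mul_re, Complex.mul_im]
      linarith
    · simp [pow_succ, Complex.mul_re, Complex.mul_im]
      nlinarith
    · simp [pow_succ, Complex.mul_re, Complex.mul_im]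
      nlinarith [mul_pos h0 (sub_pos.2 h1), mul_pos (mul_pos h0 (sub_pos.2 h1)) h0]
  · have h3 : Real.sqrt 3 * Real.sqrt 3 = 3 := Real.mul_self_sqrt (by norm_num)
    have hp : 0 < Real.sqrt 3 := Real.sqrt_pos.2 (by norm_num)
    have hω := om3
    have key : ∀ a b : ℝ, ((a : ℂ) + b * (⟨-1 / 2, Real.sqrt 3 / 2⟩ : ℂ)).im = b * (Real.sqrt 3 / 2) := by
      intro a b
      simp
    interval_cases k
    · have e : (1 + (⟨-1 / 2, Real.sqrt 3 / 2⟩ : ℂ) * (y : ℂ)) ^ (0 + 1)
          = ((1 : ℝ) : ℂ) + (y : ℂ) * (⟨-1 / 2, Real.sqrt 3 / 2⟩ : ℂ) := by push_cast; ring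
      rw [e, key]
      positivity
    · have e : (1 + (⟨-1 / 2, Real.sqrt 3 / 2⟩ : ℂ) * (y : ℂ)) ^ (1 + 1)
          = ((1 - y ^ 2 : ℝ) : ℂ) + ((2 * y - y ^ 2 : ℝ) : ℂ) * (⟨-1 / 2, Real.sqrt 3 / 2⟩ : ℂ) := by
        generalize (⟨-1 / 2, Real.sqrt 3 / 2⟩ : ℂ) = w at hω
        push_cast
        linear_combination ((y : ℂ) ^ 2) * hω
      rw [e, key]
      apply mul_pos _ (by positivity)
      nlinarith
    · have e : (1 + (⟨-1 / 2, Real.sqrt 3 / 2⟩ : ℂ) * (y : ℂ)) ^ (2 + 1)
          = ((1 - 3 * y ^ 2 + y ^ 3 : ℝ) : ℂ) + ((3 * y - 3 * y ^ 2 : ℝ) : ℂ) * (⟨-1 / 2, Real.sqrt 3 / 2⟩ : ℂ) := by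
        generalize (⟨-1 / 2, Real.sqrt 3 / 2⟩ : ℂ) = w at hω
        push_cast
        linear_combination (3 * (y : ℂ) ^ 2 + (y : ℂ) ^ 3 * (w - 1)) * hω
      rw [e, key]
      apply mul_pos _ (by positivity)
      nlinarith

lemma ne_zero_of_derivative {p : ℝ[X]} (h : derivative p ≠ 0) : p ≠ 0 := by
  rintro rfl
  simp at h

/-- The Chebyshev property. -/
theorem cheb {N k : ℕ} {ω : ℂ} (h : Good N ω) (hk : k < N) (L : ℕ) :
    ∀ c : ℕ → ℝ, (∃ l, l ≤ L ∧ c l ≠ 0) → W N k ω L c 0 ≠ 0 ∧ Z (W N k ω L c 0) ≤ L := by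
  have hbase : ∀ (L : ℕ) (c : ℕ → ℝ), c 0 ≠ 0 → (∀ l, l ≤ L → 1 ≤ l → c l = 0) →
      W N k ω L c 0 ≠ 0 ∧ Z (W N k ω L c 0) = 0 := by
    intro L c h0 hl
    have e : W N k ω L c 0 = C (c 0) * v ω 0 (k + 1) := by
      rw [W, Finset.sum_eq_single 0]
      · simp [ml]
      · intro l hl1 hl2
        rw [hl l (by have := Finset.mem_range.1 hl1; omega) (by omega)]
        simp
      · intro h
        simp at h
    have hne : W N k ω L c 0 ≠ 0 := by
      intro h2
      have h3 := base h hk (1 / 2) (by norm_num) (by norm_num)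
      have h4 : (W N k ω L c 0).eval (1 / 2) = 0 := by rw [h2, eval_zero]
      rw [e, eval_mul, eval_C] at h4
      rcases mul_eq_zero.1 h4 with h5 | h5
      · exact h0 h5
      · exact h3.ne' h5
    refine ⟨hne, ?_⟩
    rw [Z, Multiset.card_eq_zero, Multiset.eq_zero_iff_forall_notMem]
    intro x hx
    obtain ⟨h1, h2, h3⟩ := (mem_zs _ hne x).1 hx
    rw [e, eval_mul, eval_C] at h1
    rcases mul_eq_zero.1 h1 with h5 | h5
    · exact h0 h5
    · exact (base h hk x h2 h3).ne' h5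
  induction L with
  | zero =>
    intro c hc
    obtain ⟨l, hl, hc⟩ := hc
    have : l = 0 := by omega
    subst this
    have := hbase 0 c hc (fun l h1 h2 => by omega)
    exact ⟨this.1, this.2.le⟩
  | succ L ih =>
    intro c hc
    by_cases hz : ∀ l, l ≤ L + 1 → 1 ≤ l → c l = 0
    · obtain ⟨l, hl, hcl⟩ := hc
      have hl0 : l = 0 := by
        by_contra hne
        exact hcl (hz l hl (by omega))
      subst hl0
      have := hbase (L + 1) c hcl hz
      exact ⟨this.1, by omega⟩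
    · push Not at hz
      obtain ⟨l, hl1, hl2, hl3⟩ := hz
      obtain ⟨l', rfl⟩ : ∃ l', l = l' + 1 := ⟨l - 1, by omega⟩
      have hdf : ((ml N k (l' + 1)).descFactorial N : ℝ) ≠ 0 := by
        have : (ml N k (l' + 1)).descFactorial N ≠ 0 := by
          rw [Ne, Nat.descFactorial_eq_zero_iff_lt]
          unfold ml
          have : N * (l' + 1) = N * l' + N := by ring
          omega
        exact_mod_cast this
      have hih := ih (fun l => c (l + 1) * ((ml N k (l + 1)).descFactorial N : ℝ))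
        ⟨l', by omega, mul_ne_zero hl3 hdf⟩
      rw [← W_last h hk] at hih
      have hD := fun i => W_derivative N k ω (L + 1) c i
      have z0 : (W N k ω (L + 1) c 0).eval 0 = 0 := W_eval_zero N k ω (L + 1) c 0 (by simp)
      have zv := W_eval_one h hk (L + 1) c
      have hrE := fun (i : ℕ) (hi : W N k ω (L + 1) c i ≠ 0) (E : Finset ℝ) hE => by
        have := rolle (W N k ω (L + 1) c i) hi E hE
        rw [hD i] at this
        exact this
      have hne : ∀ i, W N k ω (L + 1) c (i + 1) ≠ 0 → W N k ω (L + 1) c i ≠ 0 := by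
        intro i hi
        rw [← hD i] at hi
        exact ne_zero_of_derivative hi
      -- generic counting step
      have step : ∀ (i e : ℕ) , W N k ω (L + 1) c i ≠ 0 →
          (e = 0 ∨ (e = 1 ∧ ((W N k ω (L + 1) c i).eval 0 = 0 ∨ (W N k ω (L + 1) c i).eval 1 = 0)) ∨
            (e = 2 ∧ ((W N k ω (L + 1) c i).eval 0 = 0 ∧ (W N k ω (L + 1) c i).eval 1 = 0))) →
          Z (W N k ω (L + 1) c i) + e ≤ Z (W N k ω (L + 1) c (i + 1)) + 1 := by
        intro i e hi he
        rcases he with rfl | ⟨rfl, he | he⟩ | ⟨rfl, he1, he2⟩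
        · simpa using hrE i hi ∅ (by simp)
        · simpa using hrE i hi {0} (by simp [he])
        · simpa using hrE i hi {1} (by simp [he])
        · have := hrE i hi {0, 1} (by
            intro x hx
            simp only [Finset.mem_insert, Finset.mem_singleton] at hx
            rcases hx with rfl | rfl
            · exact ⟨Or.inl rfl, he1⟩
            · exact ⟨Or.inr rfl, he2⟩)
          rwa [Finset.card_pair (by norm_num)] at this
      rcases h with ⟨rfl, rfl⟩ | ⟨rfl, rfl⟩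
      · obtain ⟨n4, z4⟩ := hih
        have n3 := hne 3 n4
        have n2 := hne 2 n3
        have n1 := hne 1 n2
        have n0 := hne 0 n1
        have z2 : (W 4 k Complex.I (L + 1) c 2).eval 0 = 0 :=
          W_eval_zero 4 k Complex.I (L + 1) c 2 (by simp [Complex.I_sq])
        refine ⟨n0, ?_⟩
        interval_cases k
        · have s0 := step 0 1 n0 (Or.inr (Or.inl ⟨rfl, Or.inl z0⟩))
          have s1 := step 1 0 n1 (Or.inl rfl)
          have s2 := step 2 1 n2 (Or.inr (Or.inl ⟨rfl, Or.inl z2⟩))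
          have s3 := step 3 1 n3 (Or.inr (Or.inl ⟨rfl, Or.inr zv⟩))
          norm_num at s0 s1 s2 s3
          omega
        · have s0 := step 0 1 n0 (Or.inr (Or.inl ⟨rfl, Or.inl z0⟩))
          have s1 := step 1 0 n1 (Or.inl rfl)
          have s2 := step 2 2 n2 (Or.inr (Or.inr ⟨rfl, z2, zv⟩))
          have s3 := step 3 0 n3 (Or.inl rfl)
          norm_num at s0 s1 s2 s3
          omega
        · have s0 := step 0 1 n0 (Or.inr (Or.inl ⟨rfl, Or.inl z0⟩))
          have s1 := step 1 1 n1 (Or.inr (Or.inl ⟨rfl, Or.inr zv⟩))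
          have s2 := step 2 1 n2 (Or.inr (Or.inl ⟨rfl, Or.inl z2⟩))
          have s3 := step 3 0 n3 (Or.inl rfl)
          norm_num at s0 s1 s2 s3
          omega
        · have s0 := step 0 2 n0 (Or.inr (Or.inr ⟨rfl, z0, zv⟩))
          have s1 := step 1 0 n1 (Or.inl rfl)
          have s2 := step 2 1 n2 (Or.inr (Or.inl ⟨rfl, Or.inl z2⟩))
          have s3 := step 3 0 n3 (Or.inl rfl)
          norm_num at s0 s1 s2 s3
          omega
      · obtain ⟨n3, z3⟩ := hih
        have n2 := hne 2 n3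
        have n1 := hne 1 n2
        have n0 := hne 0 n1
        refine ⟨n0, ?_⟩
        interval_cases k
        · have s0 := step 0 1 n0 (Or.inr (Or.inl ⟨rfl, Or.inl z0⟩))
          have s1 := step 1 0 n1 (Or.inl rfl)
          have s2 := step 2 1 n2 (Or.inr (Or.inl ⟨rfl, Or.inr zv⟩))
          simp only [Nat.reduceAdd, add_zero] at s0 s1 s2
          omega
        · have s0 := step 0 1 n0 (Or.inr (Or.inl ⟨rfl, Or.inl z0⟩))
          have s1 := step 1 1 n1 (Or.inr (Or.inl ⟨rfl, Or.inr zv⟩))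
          have s2 := step 2 0 n2 (Or.inl rfl)
          simp only [Nat.reduceAdd, add_zero] at s0 s1 s2
          omega
        · have s0 := step 0 2 n0 (Or.inr (Or.inr ⟨rfl, z0, zv⟩))
          have s1 := step 1 0 n1 (Or.inl rfl)
          have s2 := step 2 0 n2 (Or.inl rfl)
          simp only [Nat.reduceAdd, add_zero] at s0 s1 s2
          omega

end Pool.Agent.Q80.Berg
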