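import Mathlib
import Pool.Agent.Q80.Berg1

set_option autoImplicit false

open Polynomial

namespace Pool.Agent.Q80.Berg

/-- no zero in the interval: constant sign -/
lemma const_sign (p : ℝ[X]) (h : ∀ x, 0 < x → x < 1 → p.eval x ≠ 0) :
    ∃ ε : ℝ, ε ≠ 0 ∧ ∀ x, 0 < x → x < 1 → 0 < ε * p.eval x := by
  have hcont : ContinuousOn (fun x => p.eval x) (Set.Ioo (0:ℝ) 1) := p.continuousOn
  have key : ∀ x ∈ Set.Ioo (0:ℝ) 1, 0 < p.eval (1/2) * p.eval x := by
    intro x hx
    by_contra hneg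
    push Not at hneg
    have hh : (1/2 : ℝ) ∈ Set.Ioo (0:ℝ) 1 := by constructor <;> norm_num
    have hpre : IsPreconnected (Set.Ioo (0:ℝ) 1) := isPreconnected_Ioo
    have hz : (0:ℝ) ∈ (fun x => p.eval x) '' (Set.Ioo (0:ℝ) 1) := by
      have h1 := h _ hh.1 hh.2
      rcases lt_or_gt_of_ne h1 with h1 | h1
      · have h2 : 0 ≤ p.eval x := by
          by_contra h3
          push Not at h3
          nlinarith
        exact hpre.intermediate_value hh hx hcont ⟨h1.le, h2⟩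
      · have h2 : p.eval x ≤ 0 := by
          by_contra h3
          push Not at h3
          nlinarith
        exact hpre.intermediate_value hx hh hcont ⟨h2, h1.le⟩
    obtain ⟨z, hz1, hz2⟩ := hz
    exact h z hz1.1 hz1.2 hz2
  exact ⟨p.eval (1/2), h _ (by norm_num) (by norm_num), fun x h0 h1 => key x ⟨h0, h1⟩⟩

/-- the points where a polynomial changes sign -/
lemma sign_set (n : ℕ) : ∀ p : ℝ[X], p ≠ 0 → p.natDegree ≤ n →
    ∃ S : Finset ℝ, (∀ z ∈ S, 0 < z ∧ z < 1 ∧ p.eval z = 0) ∧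
      ∃ ε : ℝ, ε ≠ 0 ∧ ∀ x, 0 < x → x < 1 → 0 ≤ ε * (p.eval x * ∏ z ∈ S, (x - z)) := by
  induction n with
  | zero =>
    intro p hp hd
    obtain ⟨ε, h1, h2⟩ := const_sign p (by
      intro x _ _ h0
      rw [eq_C_of_natDegree_le_zero hd, eval_C] at h0
      apply hp
      rw [eq_C_of_natDegree_le_zero hd, h0, C_0])
    exact ⟨∅, by simp, ε, h1, fun x h0 h3 => by simpa using (h2 x h0 h3).le⟩
  | succ n ih =>
    intro p hp hd
    by_cases hz : ∃ z, 0 < z ∧ z < 1 ∧ p.eval z = 0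
    · obtain ⟨z, z0, z1, hz⟩ := hz
      obtain ⟨g, hg⟩ := dvd_iff_isRoot.2 hz
      have hg0 : g ≠ 0 := by
        rintro rfl
        apply hp
        rw [hg, mul_zero]
      have hdg : g.natDegree ≤ n := by
        have : p.natDegree = 1 + g.natDegree := by
          rw [hg, natDegree_mul (X_sub_C_ne_zero z) hg0, natDegree_X_sub_C]
        omega
      obtain ⟨S, hS, ε, he, hs⟩ := ih g hg0 hdg
      classical
      by_cases hzS : z ∈ S
      · refine ⟨S.erase z, ?_, ε, he, ?_⟩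
        · intro w hw
          obtain ⟨a, b, c⟩ := hS w (Finset.mem_of_mem_erase hw)
          refine ⟨a, b, ?_⟩
          rw [hg, eval_mul, c, mul_zero]
        · intro x h0 h1
          have := hs x h0 h1
          rw [← Finset.mul_prod_erase S _ hzS] at this
          rw [hg, eval_mul, eval_sub, eval_X, eval_C]
          have e : ε * ((x - z) * g.eval x * ∏ z ∈ S.erase z, (x - z))
              = ε * (g.eval x * ((x - z) * ∏ z ∈ S.erase z, (x - z))) := by ring
          rw [e]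
          exact this
      · refine ⟨insert z S, ?_, ε, he, ?_⟩
        · intro w hw
          rcases Finset.mem_insert.1 hw with rfl | hw
          · exact ⟨z0, z1, hz⟩
          · obtain ⟨a, b, c⟩ := hS w hw
            refine ⟨a, b, ?_⟩
            rw [hg, eval_mul, c, mul_zero]
        · intro x h0 h1
          have := hs x h0 h1
          rw [Finset.prod_insert hzS, hg, eval_mul, eval_sub, eval_X, eval_C]
          have e : ε * ((x - z) * g.eval x * ((x - z) * ∏ z ∈ S, (x - z)))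
              = (x - z) ^ 2 * (ε * (g.eval x * ∏ z ∈ S, (x - z))) := by ring
          rw [e]
          positivity
    · push Not at hz
      obtain ⟨ε, h1, h2⟩ := const_sign p hz
      exact ⟨∅, by simp, ε, h1, fun x h0 h3 => by simpa using (h2 x h0 h3).le⟩

lemma Z_mul (p q : ℝ[X]) (h : p * q ≠ 0) : Z (p * q) = Z p + Z q := by
  classical
  rw [Z, Z, Z, zs, zs, zs, roots_mul h, Multiset.filter_add, Multiset.card_add]

/-- a polynomial with few zeros in the interval vanishing at given points -/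
lemma factor_simple (U : ℝ[X]) (hU : U ≠ 0) (Y : Finset ℝ) (hY : ∀ y ∈ Y, 0 < y ∧ y < 1 ∧ U.eval y = 0)
    (hZ : Z U ≤ Y.card) :
    ∃ ε : ℝ, ε ≠ 0 ∧ ∀ x, 0 < x → x < 1 → ∃ a : ℝ, 0 < a ∧ ε * U.eval x = a * ∏ y ∈ Y, (x - y) := by
  classical
  have hdvd : (Y.val.map (fun a => X - C a)).prod ∣ U := by
    rw [Multiset.prod_X_sub_C_dvd_iff_le_roots hU, Multiset.le_iff_subset Y.nodup]
    intro y hy
    rw [mem_roots hU]
    exact (hY y hy).2.2
  obtain ⟨g, hg⟩ := hdvd
  have hprod : (Y.val.map (fun a => X - C a)).prod = ∏ y ∈ Y, (X - C y : ℝ[X]) := rfl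
  rw [hprod] at hg
  have hne : (∏ y ∈ Y, (X - C y : ℝ[X])) * g ≠ 0 := by rw [← hg]; exact hU
  have hg0 : g ≠ 0 := right_ne_zero_of_mul hne
  have hZ1 : Z (∏ y ∈ Y, (X - C y : ℝ[X])) = Y.card := by
    rw [Z, zs, roots_prod_X_sub_C, Multiset.filter_eq_self.2]
    · rfl
    · intro y hy
      exact ⟨(hY y hy).1, (hY y hy).2.1⟩
  have hZg : Z g = 0 := by
    rw [hg, Z_mul _ _ hne, hZ1] at hZ
    omega
  obtain ⟨ε, he, hs⟩ := const_sign g (by
    intro x h0 h1 hx
    have : x ∈ zs g := (mem_zs g hg0 x).2 ⟨hx, h0, h1⟩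
    rw [Z, Multiset.card_eq_zero] at hZg
    rw [hZg] at this
    simp at this)
  refine ⟨ε, he, fun x h0 h1 => ⟨ε * g.eval x, hs x h0 h1, ?_⟩⟩
  have h2 : U.eval x = (∏ y ∈ Y, (x - y)) * g.eval x := by
    conv_lhs => rw [hg]
    rw [eval_mul, eval_prod]
    simp
  rw [h2]
  ring

/-- orthogonality on the segment, in the variable `y = 1 - x` -/
def Orth (N k : ℕ) (ω : ℂ) (q : ℝ[X]) (j : ℕ) : Prop :=
  ∀ l < j, ∫ y in (0:ℝ)..1, ((1 - y) ^ k * q.eval ((1 - y) ^ N)) * (v ω 0 (ml N k l)).eval y = 0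

lemma poly_integral_pos (F : ℝ[X]) (hF : F ≠ 0) (h : ∀ x, 0 < x → x < 1 → 0 ≤ F.eval x) :
    0 < ∫ y in (0:ℝ)..1, F.eval y := by
  have hcl : closure (Set.Ioo (0:ℝ) 1) ⊆ {x | 0 ≤ F.eval x} :=
    closure_minimal (fun x hx => h x hx.1 hx.2) (isClosed_le continuous_const F.continuous)
  rw [closure_Ioo (by norm_num)] at hcl
  refine intervalIntegral.integral_pos (by norm_num) F.continuousOn
    (fun x hx => hcl ⟨hx.1.le, hx.2⟩) ?_
  by_contra hno
  push Not at hno
  apply hF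
  apply eq_zero_of_infinite_isRoot
  refine Set.Infinite.mono ?_ (Set.Ioo_infinite (show (0:ℝ) < 1 by norm_num))
  intro x hx
  have h1 := hcl (show x ∈ Set.Icc (0:ℝ) 1 from ⟨hx.1.le, hx.2.le⟩)
  exact le_antisymm (hno x ⟨hx.1.le, hx.2.le⟩) h1

lemma exists_combo (N k : ℕ) (ω : ℂ) (Y : Finset ℝ) :
    ∃ c : ℕ → ℝ, (∃ l, l ≤ Y.card ∧ c l ≠ 0) ∧ ∀ y ∈ Y, (W N k ω Y.card c 0).eval y = 0 := by
  classical
  let f : (Fin (Y.card + 1) → ℝ) →ₗ[ℝ] (Y → ℝ) :=
    { toFun := fun a y => ∑ l : Fin (Y.card + 1), a l * (v ω 0 (ml N k l)).eval (y : ℝ)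
      map_add' := by
        intro a b
        ext y
        simp [add_mul, Finset.sum_add_distrib]
      map_smul' := by
        intro r a
        ext y
        simp [Finset.mul_sum, mul_assoc] }
  have hk : LinearMap.ker f ≠ ⊥ := by
    apply LinearMap.ker_ne_bot_of_finrank_lt
    simp
  obtain ⟨a, ha, hne⟩ := Submodule.exists_mem_ne_zero_of_ne_bot hk
  refine ⟨fun l => if h : l < Y.card + 1 then a ⟨l, h⟩ else 0, ?_, ?_⟩
  · obtain ⟨i, hi⟩ := Function.ne_iff.1 hne
    refine ⟨i, by have := i.2; omega, ?_⟩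
    show (if h : (i : ℕ) < Y.card + 1 then a ⟨i, h⟩ else 0) ≠ 0
    rw [dif_pos i.2]
    exact hi
  · intro y hy
    rw [LinearMap.mem_ker] at ha
    have h1 := congrFun ha ⟨y, hy⟩
    have h2 : ∑ l : Fin (Y.card + 1), a l * (v ω 0 (ml N k l)).eval y = 0 := h1
    rw [W, eval_finsetSum, Finset.sum_range]
    refine (Finset.sum_congr rfl ?_).trans h2
    intro l _
    have hl : (if h : (l : ℕ) < Y.card + 1 then a ⟨l, h⟩ else 0) = a l := by rw [dif_pos l.2]
    rw [eval_mul, eval_C, hl]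
    simp

lemma orth_combo {N k : ℕ} {ω : ℂ} {q : ℝ[X]} {j : ℕ} (h : Orth N k ω q j) (L : ℕ) (hL : L < j)
    (c : ℕ → ℝ) :
    ∫ y in (0:ℝ)..1, ((1 - y) ^ k * q.eval ((1 - y) ^ N)) * (W N k ω L c 0).eval y = 0 := by
  have e : ∀ y : ℝ, ((1 - y) ^ k * q.eval ((1 - y) ^ N)) * (W N k ω L c 0).eval y
      = ∑ l ∈ Finset.range (L + 1), c l * (((1 - y) ^ k * q.eval ((1 - y) ^ N)) * (v ω 0 (ml N k l)).eval y) := by
    intro y
    rw [W, eval_finsetSum, Finset.mul_sum]
    apply Finset.sum_congr rfl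
    intro l _
    simp only [Nat.descFactorial_zero, Nat.cast_one, mul_one, Nat.sub_zero, eval_mul, eval_C]
    ring
  simp_rw [e]
  rw [intervalIntegral.integral_finsetSum]
  · apply Finset.sum_eq_zero
    intro l hl
    rw [intervalIntegral.integral_const_mul, h l (by have := Finset.mem_range.1 hl; omega), mul_zero]
  · intro l _
    apply Continuous.intervalIntegrable
    fun_prop

/-- many sign changes -/
theorem many_sign {N k : ℕ} {ω : ℂ} (hG : Good N ω) (hk : k < N) (q : ℝ[X]) (hq : q ≠ 0) (j : ℕ)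
    (h : Orth N k ω q j) :
    ∃ S : Finset ℝ, (∀ z ∈ S, 0 < z ∧ z < 1 ∧ q.eval z = 0) ∧ j ≤ S.card ∧
      ∃ ε : ℝ, ε ≠ 0 ∧ ∀ x, 0 < x → x < 1 → 0 ≤ ε * (q.eval x * ∏ z ∈ S, (x - z)) := by
  classical
  obtain ⟨S, hS, ε, hε, hsg⟩ := sign_set q.natDegree q hq le_rfl
  refine ⟨S, hS, ?_, ε, hε, hsg⟩
  by_contra hlt
  push Not at hlt
  have hN : 0 < N := by omega
  -- the points
  have hroot : ∀ z ∈ S, ∃ y : ℝ, 0 < y ∧ y < 1 ∧ (1 - y) ^ N = z := by
    intro z hz
    obtain ⟨z0, z1, -⟩ := hS z hz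
    refine ⟨1 - z ^ ((N : ℝ)⁻¹), ?_, ?_, ?_⟩
    · have : z ^ ((N : ℝ)⁻¹) < 1 := Real.rpow_lt_one z0.le z1 (by positivity)
      linarith
    · have : 0 < z ^ ((N : ℝ)⁻¹) := Real.rpow_pos_of_pos z0 _
      linarith
    · rw [sub_sub_cancel, Real.rpow_inv_natCast_pow z0.le (by omega)]
  choose! g hg using hroot
  have hinj : Set.InjOn g (S : Set ℝ) := by
    intro a ha b hb hab
    rw [← (hg a ha).2.2, ← (hg b hb).2.2, hab]
  set Y := S.image g with hY
  have hcard : Y.card = S.card := Finset.card_image_of_injOn hinj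
  obtain ⟨c, hc, hcY⟩ := exists_combo N k ω Y
  obtain ⟨hU0, hUZ⟩ := cheb hG hk Y.card c hc
  set U := W N k ω Y.card c 0 with hU
  have hYm : ∀ y ∈ Y, 0 < y ∧ y < 1 ∧ U.eval y = 0 := by
    intro y hy
    obtain ⟨z, hz, rfl⟩ := Finset.mem_image.1 hy
    exact ⟨(hg z hz).1, (hg z hz).2.1, hcY _ hy⟩
  obtain ⟨ε', hε', hfac⟩ := factor_simple U hU0 Y hYm hUZ
  set F : ℝ[X] := (1 - X) ^ k * q.comp ((1 - X) ^ N) * U with hF
  have hFe : ∀ y, F.eval y = ((1 - y) ^ k * q.eval ((1 - y) ^ N)) * U.eval y := by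
    intro y
    simp [hF, eval_comp]
  have h1X : (1 - X : ℝ[X]) = C (-1) * X + C 1 := by
    simp
    ring
  have hnd : ((1 - X : ℝ[X]) ^ N).natDegree = N := by
    rw [natDegree_pow, h1X, natDegree_linear (by norm_num), mul_one]
  have hF0 : F ≠ 0 := by
    apply mul_ne_zero (mul_ne_zero _ _) hU0
    · apply pow_ne_zero
      intro h0
      have := congrArg (eval 0) h0
      simp at this
    · intro h0
      rw [comp_eq_zero_iff] at h0
      rcases h0 with h0 | ⟨-, h0⟩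
      · exact hq h0
      · have := congrArg natDegree h0
        rw [hnd, natDegree_C] at this
        omega
  have hint : ∫ y in (0:ℝ)..1, F.eval y = 0 := by
    simp_rw [hFe]
    exact orth_combo h Y.card (by omega) c
  -- constant sign
  have hsign : ∀ y, 0 < y → y < 1 → 0 ≤ ((-1) ^ S.card * ε * ε') * F.eval y := by
    intro y y0 y1
    by_cases hyY : y ∈ Y
    · rw [hFe, (hYm y hyY).2.2]
      simp
    have hx0 : 0 < (1 - y) ^ N := by
      apply pow_pos
      linarith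
    have hx1 : (1 - y) ^ N < 1 := pow_lt_one₀ (by linarith) (by linarith) (by omega)
    have hs := hsg _ hx0 hx1
    obtain ⟨a, ha, hUa⟩ := hfac y y0 y1
    -- product signs
    have hP : 0 < (-1) ^ S.card * ((∏ z ∈ S, ((1 - y) ^ N - z)) * ∏ w ∈ Y, (y - w)) := by
      have e1 : ∏ w ∈ Y, (y - w) = ∏ z ∈ S, (y - g z) := Finset.prod_image hinj
      have e2 : (-1 : ℝ) ^ S.card = ∏ z ∈ S, (-1 : ℝ) := by rw [Finset.prod_const]
      rw [e1, e2, ← Finset.prod_mul_distrib, ← Finset.prod_mul_distrib]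
      apply Finset.prod_pos
      intro z hz
      obtain ⟨g0, g1, gz⟩ := hg z hz
      have hne : y ≠ g z := by
        rintro rfl
        exact hyY (Finset.mem_image_of_mem g hz)
      rcases lt_or_gt_of_ne hne with hlt | hgt
      · have : (1 - g z) ^ N < (1 - y) ^ N := pow_lt_pow_left₀ (by linarith) (by linarith) (by omega)
        rw [gz] at this
        nlinarith
      · have : (1 - y) ^ N < (1 - g z) ^ N := pow_lt_pow_left₀ (by linarith) (by linarith) (by omega)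
        rw [gz] at this
        nlinarith
    have h3 : 0 ≤ (((-1) ^ S.card * ε * ε') * F.eval y) *
        ((-1) ^ S.card * ((∏ z ∈ S, ((1 - y) ^ N - z)) * ∏ w ∈ Y, (y - w))) := by
      have hsq : ((-1 : ℝ) ^ S.card) * (-1) ^ S.card = 1 := by
        rw [← pow_add, ← two_mul, pow_mul]
        simp
      have e : (((-1) ^ S.card * ε * ε') * F.eval y) *
        ((-1) ^ S.card * ((∏ z ∈ S, ((1 - y) ^ N - z)) * ∏ w ∈ Y, (y - w)))
        = (((-1 : ℝ) ^ S.card) * (-1) ^ S.card) * (1 - y) ^ k *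
          (ε * (q.eval ((1 - y) ^ N) * ∏ z ∈ S, ((1 - y) ^ N - z))) *
          ((ε' * U.eval y) * ∏ w ∈ Y, (y - w)) := by
        rw [hFe]
        ring
      rw [e, hsq, hUa]
      have e3 : a * (∏ y_1 ∈ Y, (y - y_1)) * ∏ w ∈ Y, (y - w) = a * (∏ w ∈ Y, (y - w)) ^ 2 := by ring
      rw [e3]
      have : 0 ≤ (1 - y) ^ k := pow_nonneg (by linarith) k
      positivity
    exact nonneg_of_mul_nonneg_left h3 hP
  have hcst : ((-1 : ℝ) ^ S.card * ε * ε') ≠ 0 :=
    mul_ne_zero (mul_ne_zero (pow_ne_zero _ (by norm_num)) hε) hε'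
  have hpos := poly_integral_pos (C ((-1 : ℝ) ^ S.card * ε * ε') * F)
    (mul_ne_zero (by rwa [Ne, C_eq_zero]) hF0) (by
      intro x h0 h1
      rw [eval_mul, eval_C]
      exact hsign x h0 h1)
  simp only [eval_mul, eval_C] at hpos
  rw [intervalIntegral.integral_const_mul, hint, mul_zero] at hpos
  exact lt_irrefl _ hpos

end Pool.Agent.Q80.Berg
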