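import Mathlib
import Pool.Agent.Q80.Berg2

set_option autoImplicit false

open Polynomial

namespace Pool.Agent.Q80.Berg

lemma simple_roots {N k : ℕ} {ω : ℂ} (hG : Good N ω) (hk : k < N) (g : ℝ[X]) (hg : g ≠ 0) (j : ℕ)
    (hd : g.natDegree ≤ j + 1) (h : Orth N k ω g j) (x0 : ℝ) :
    ¬ (g.eval x0 = 0 ∧ (derivative g).eval x0 = 0) := by
  classical
  rintro ⟨h0, h0'⟩
  obtain ⟨S, hS, hj, ε, hε, hsg⟩ := many_sign hG hk g hg j h
  have hmult : 2 ≤ g.rootMultiplicity x0 := by
    have := (one_lt_rootMultiplicity_iff_isRoot hg).2 ⟨h0, h0'⟩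
    omega
  have hcr : Multiset.card g.roots ≤ g.natDegree := card_roots' g
  set S' := S.erase x0 with hS'
  have hx0S' : x0 ∉ S' := Finset.notMem_erase x0 S
  set M : Multiset ℝ := x0 ::ₘ x0 ::ₘ S'.val with hM
  have hle : M ≤ g.roots := by
    rw [Multiset.le_iff_count]
    intro a
    rw [count_roots]
    by_cases ha : a = x0
    · subst ha
      rw [hM, Multiset.count_cons_self, Multiset.count_cons_self,
        Multiset.count_eq_zero.2 (by simpa using hx0S')]
      exact hmult
    · rw [hM, Multiset.count_cons_of_ne ha, Multiset.count_cons_of_ne ha]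
      by_cases haS : a ∈ S'
      · have h1 : Multiset.count a S'.val ≤ 1 := Multiset.nodup_iff_count_le_one.1 S'.nodup a
        have h2 : 0 < g.rootMultiplicity a :=
          (rootMultiplicity_pos hg).2 (hS a (Finset.mem_of_mem_erase haS)).2.2
        omega
      · rw [Multiset.count_eq_zero.2 (by simpa using haS)]
        exact Nat.zero_le _
  have hcM : Multiset.card M = S'.card + 2 := by
    rw [hM]
    simp
  have hcl := Multiset.card_le_card hle
  by_cases hx : x0 ∈ S
  · have hc1 : S'.card + 1 = S.card := Finset.card_erase_add_one hx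
    have hMeq : M = g.roots := Multiset.eq_of_le_of_card_le hle (by omega)
    have hcard : Multiset.card g.roots = g.natDegree := by
      rw [← hMeq] at hcr ⊢
      omega
    have hprod := C_leadingCoeff_mul_prod_multiset_X_sub_C hcard
    have heval : ∀ x, g.eval x = g.leadingCoeff * ((x - x0) ^ 2 * ∏ z ∈ S', (x - z)) := by
      intro x
      conv_lhs => rw [← hprod]
      rw [← hMeq, hM, Multiset.map_cons, Multiset.map_cons, Multiset.prod_cons, Multiset.prod_cons]
      have : (Multiset.map (fun a => X - C a) S'.val).prod = ∏ z ∈ S', (X - C z : ℝ[X]) := rfl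
      rw [this]
      simp only [eval_mul, eval_C, eval_sub, eval_X, eval_prod]
      ring
    have hlc : g.leadingCoeff ≠ 0 := leadingCoeff_ne_zero.2 hg
    obtain ⟨x00, x01, -⟩ := hS x0 hx
    have hcon : ∀ x, 0 < x → x < 1 → x ∉ S' → 0 ≤ (ε * g.leadingCoeff) * (x - x0) := by
      intro x a b hxS
      by_cases hxx : x = x0
      · rw [hxx]; simp
      have h1 := hsg x a b
      rw [heval x, ← Finset.mul_prod_erase S _ hx] at h1
      have e : ε * (g.leadingCoeff * ((x - x0) ^ 2 * ∏ z ∈ S', (x - z)) * ((x - x0) * ∏ z ∈ S', (x - z)))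
          = ((ε * g.leadingCoeff) * (x - x0)) * ((x - x0) * ∏ z ∈ S', (x - z)) ^ 2 := by ring
      rw [e] at h1
      have h2 : ∏ z ∈ S', (x - z) ≠ 0 := by
        rw [Finset.prod_ne_zero_iff]
        intro z hz h3
        have : x = z := by linarith
        rw [this] at hxS
        exact hxS hz
      have h3 : 0 < ((x - x0) * ∏ z ∈ S', (x - z)) ^ 2 :=
        lt_of_le_of_ne (sq_nonneg _) (Ne.symm (pow_ne_zero 2 (mul_ne_zero (sub_ne_zero.2 hxx) h2)))
      exact nonneg_of_mul_nonneg_left h1 h3
    have hex : ∀ a b : ℝ, a < b → ∃ x, a < x ∧ x < b ∧ x ∉ S' := by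
      intro a b hab
      obtain ⟨x, hx1, hx2⟩ := ((Set.Ioo_infinite hab).sdiff (S'.finite_toSet)).nonempty
      exact ⟨x, hx1.1, hx1.2, hx2⟩
    obtain ⟨x, xa, xb, xc⟩ := hex 0 x0 x00
    obtain ⟨y, ya, yb, yc⟩ := hex x0 1 x01
    have h1 := hcon x xa (by linarith) xc
    have h2 := hcon y (by linarith) yb yc
    have hne : ε * g.leadingCoeff ≠ 0 := mul_ne_zero hε hlc
    rcases lt_or_gt_of_ne hne with hneg | hpos
    · have : (ε * g.leadingCoeff) * (y - x0) < 0 := mul_neg_of_neg_of_pos hneg (by linarith)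
      linarith
    · have : (ε * g.leadingCoeff) * (x - x0) < 0 := mul_neg_of_pos_of_neg hpos (by linarith)
      linarith
  · have : S' = S := Finset.erase_eq_of_notMem hx
    rw [this] at hcM
    omega

lemma orth_linear {N k : ℕ} {ω : ℂ} {a b : ℝ[X]} {j : ℕ} (ha : Orth N k ω a j) (hb : Orth N k ω b j)
    (α β : ℝ) : Orth N k ω (C α * a + C β * b) j := by
  intro l hl
  have e : ∀ y : ℝ, ((1 - y) ^ k * (C α * a + C β * b).eval ((1 - y) ^ N)) * (v ω 0 (ml N k l)).eval y
      = α * (((1 - y) ^ k * a.eval ((1 - y) ^ N)) * (v ω 0 (ml N k l)).eval y)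
        + β * (((1 - y) ^ k * b.eval ((1 - y) ^ N)) * (v ω 0 (ml N k l)).eval y) := by
    intro y
    simp only [eval_add, eval_mul, eval_C]
    ring
  simp_rw [e]
  rw [intervalIntegral.integral_add, intervalIntegral.integral_const_mul,
    intervalIntegral.integral_const_mul, ha l hl, hb l hl]
  · simp
  · apply Continuous.intervalIntegrable
    fun_prop
  · apply Continuous.intervalIntegrable
    fun_prop

lemma orth_mono {N k : ℕ} {ω : ℂ} {a : ℝ[X]} {i j : ℕ} (ha : Orth N k ω a j) (hij : i ≤ j) :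
    Orth N k ω a i := fun l hl => ha l (by omega)

/-- The Wronskian does not vanish. -/
lemma wronskian {N k : ℕ} {ω : ℂ} (hG : Good N ω) (hk : k < N) (j : ℕ) (a b : ℝ[X])
    (ha : a.Monic) (hb : b.Monic) (hda : a.natDegree = j) (hdb : b.natDegree = j + 1)
    (hoa : Orth N k ω a j) (hob : Orth N k ω b (j + 1)) (x : ℝ) :
    (derivative b).eval x * a.eval x - b.eval x * (derivative a).eval x ≠ 0 := by
  intro hw
  have key : ∀ α β : ℝ, (α ≠ 0 ∨ β ≠ 0) → (C α * a + C β * b) ≠ 0 := by
    intro α β hab h0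
    have h1 : (C α * a + C β * b).coeff (j + 1) = β := by
      rw [coeff_add, coeff_C_mul, coeff_C_mul, coeff_eq_zero_of_natDegree_lt (by omega)]
      have : b.coeff (j + 1) = 1 := by rw [← hdb]; exact hb.coeff_natDegree
      rw [this]
      ring
    rw [h0, coeff_zero] at h1
    rw [← h1, C_0, zero_mul, add_zero] at h0
    rcases hab with h | h
    · rcases mul_eq_zero.1 h0 with h2 | h2
      · exact h (by simpa using h2)
      · exact ha.ne_zero h2
    · exact h h1.symm
  have hdeg : ∀ α β : ℝ, (C α * a + C β * b).natDegree ≤ j + 1 := by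
    intro α β
    refine (natDegree_add_le _ _).trans (max_le ?_ ?_)
    · exact (natDegree_C_mul_le _ _).trans (by omega)
    · exact (natDegree_C_mul_le _ _).trans (by omega)
  have hs := fun (α β : ℝ) (hab : α ≠ 0 ∨ β ≠ 0) =>
    simple_roots hG hk (C α * a + C β * b) (key α β hab) j (hdeg α β)
      (orth_linear hoa (orth_mono hob (by omega)) α β) x
  simp only [eval_add, eval_mul, eval_C, derivative_add, derivative_mul, derivative_C, zero_mul,
    zero_add] at hs
  by_cases h1 : a.eval x = 0 ∧ b.eval x = 0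
  · obtain ⟨h1, h2⟩ := h1
    by_cases h3 : (derivative a).eval x = 0 ∧ (derivative b).eval x = 0
    · exact hs 1 0 (Or.inl one_ne_zero) ⟨by rw [h1]; ring, by rw [h3.1]; ring⟩
    · refine hs ((derivative b).eval x) (-(derivative a).eval x) ?_ ⟨by rw [h1, h2]; ring, by ring⟩
      by_contra h4
      push Not at h4
      exact h3 ⟨by linarith [h4.2], h4.1⟩
  · refine hs (b.eval x) (-a.eval x) ?_ ⟨by ring, by linarith⟩
    by_contra h4
    push Not at h4
    exact h1 ⟨by linarith [h4.2], h4.1⟩

theorem real_part {N k : ℕ} {ω : ℂ} (hG : Good N ω) (hk : k < N) (j : ℕ) (a b : ℝ[X])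
    (ha : a.Monic) (hb : b.Monic) (hda : a.natDegree = j) (hdb : b.natDegree = j + 1)
    (hoa : Orth N k ω a j) (hob : Orth N k ω b (j + 1)) :
    ∃ t s : ℕ → ℝ, a = ∏ ν ∈ Finset.range j, (X - C (t ν)) ∧
      b = ∏ ν ∈ Finset.range (j + 1), (X - C (s ν)) ∧
      0 < s 0 ∧ s j < 1 ∧ ∀ ν, ν < j → s ν < t ν ∧ t ν < s (ν + 1) := by
  classical
  have hw := wronskian hG hk j a b ha hb hda hdb hoa hob
  obtain ⟨S, hS, hj, -⟩ := many_sign hG hk b hb.ne_zero (j + 1) hob
  have hSle : S.val ≤ b.roots := by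
    rw [Multiset.le_iff_subset S.nodup]
    intro z hz
    rw [mem_roots hb.ne_zero]
    exact (hS z hz).2.2
  have hcr : Multiset.card b.roots ≤ b.natDegree := card_roots' b
  have hcl := Multiset.card_le_card hSle
  have hcS : Multiset.card S.val = S.card := rfl
  have hcard : S.card = j + 1 := by omega
  have hSeq : S.val = b.roots := Multiset.eq_of_le_of_card_le hSle (by omega)
  have hbprod : b = ∏ z ∈ S, (X - C z) := by
    have h1 := prod_multiset_X_sub_C_of_monic_of_roots_card_eq hb (by rw [← hSeq]; omega)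
    rw [← hSeq] at h1
    exact h1.symm
  set s : ℕ → ℝ := fun ν => if h : ν < j + 1 then S.orderEmbOfFin hcard ⟨ν, h⟩ else 0 with hs
  have hsm : ∀ ν, ν < j + 1 → s ν ∈ S := by
    intro ν hν
    simp only [hs, dif_pos hν]
    exact Finset.orderEmbOfFin_mem S hcard _
  have hmono : ∀ ν μ, ν < μ → μ < j + 1 → s ν < s μ := by
    intro ν μ h1 h2
    simp only [hs, dif_pos h2, dif_pos (h1.trans h2)]
    exact (S.orderEmbOfFin hcard).strictMono h1
  have hbs : b = ∏ ν ∈ Finset.range (j + 1), (X - C (s ν)) := by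
    rw [hbprod, Finset.prod_range]
    have h1 : ∀ i : Fin (j + 1), s i = S.orderEmbOfFin hcard i := by
      intro i
      simp only [hs, dif_pos i.2]
    simp_rw [h1]
    have h2 : S = Finset.univ.map (S.orderEmbOfFin hcard).toEmbedding := by
      ext x
      constructor
      · intro hx
        have : x ∈ Set.range (S.orderEmbOfFin hcard) := by
          rw [Finset.range_orderEmbOfFin]
          exact hx
        obtain ⟨i, hi⟩ := this
        rw [Finset.mem_map]
        exact ⟨i, Finset.mem_univ _, hi⟩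
      · intro hx
        rw [Finset.mem_map] at hx
        obtain ⟨i, -, hi⟩ := hx
        rw [← hi]
        exact Finset.orderEmbOfFin_mem S hcard i
    conv_lhs => rw [h2]
    rw [Finset.prod_map]
    rfl
  have hbz : ∀ ν, ν < j + 1 → b.eval (s ν) = 0 := fun ν hν => (hS _ (hsm ν hν)).2.2
  have haz : ∀ ν, ν < j + 1 → a.eval (s ν) ≠ 0 := by
    intro ν hν h0
    apply hw (s ν)
    rw [h0, hbz ν hν]
    ring
  have hex : ∀ ν, ν < j → ∃ x, s ν < x ∧ x < s (ν + 1) ∧ a.eval x = 0 := by
    intro ν hν
    by_contra hno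
    push Not at hno
    have hlt := hmono ν (ν + 1) (by omega) (by omega)
    have hane : ∀ x ∈ Set.Icc (s ν) (s (ν + 1)), a.eval x ≠ 0 := by
      intro x hx
      rcases eq_or_lt_of_le hx.1 with h1 | h1
      · rw [← h1]; exact haz ν (by omega)
      rcases eq_or_lt_of_le hx.2 with h2 | h2
      · rw [h2]; exact haz (ν + 1) (by omega)
      exact hno x h1 h2
    obtain ⟨c, hc, hc0⟩ := exists_hasDerivAt_eq_zero (f := fun x => b.eval x / a.eval x)
      (f' := fun x => ((derivative b).eval x * a.eval x - b.eval x * (derivative a).eval x) / (a.eval x) ^ 2)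
      hlt (b.continuousOn.div a.continuousOn hane)
      (by simp only [hbz ν (by omega), hbz (ν + 1) (by omega), zero_div])
      (fun x hx => (b.hasDerivAt x).div (a.hasDerivAt x) (hane x ⟨hx.1.le, hx.2.le⟩))
    rcases div_eq_zero_iff.1 hc0 with h1 | h1
    · exact hw c h1
    · exact hane c ⟨hc.1.le, hc.2.le⟩ (pow_eq_zero_iff (by norm_num) |>.1 h1)
  choose! t ht using hex
  have htm : ∀ ν μ, ν < μ → μ < j → t ν < t μ := by
    intro ν μ h1 h2
    have a1 := (ht ν (by omega)).2.1
    have a2 := (ht μ h2).1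
    rcases Nat.lt_or_ge (ν + 1) μ with h3 | h3
    · have := hmono (ν + 1) μ h3 (by omega)
      linarith
    · have : ν + 1 = μ := by omega
      rw [this] at a1
      linarith
  have hta : a = ∏ ν ∈ Finset.range j, (X - C (t ν)) := by
    have hinj : Set.InjOn t (Finset.range j : Set ℕ) := by
      intro x hx y hy hxy
      rw [Finset.coe_range, Set.mem_Iio] at hx hy
      rcases lt_trichotomy x y with h | h | h
      · exact absurd hxy (htm x y h hy).ne
      · exact h
      · exact absurd hxy (htm y x h hx).ne'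
    set T := (Finset.range j).image t with hT
    have hcT : T.card = j := by rw [hT, Finset.card_image_of_injOn hinj, Finset.card_range]
    have hTle : T.val ≤ a.roots := by
      rw [Multiset.le_iff_subset T.nodup]
      intro z hz
      rw [mem_roots ha.ne_zero]
      obtain ⟨ν, hν, rfl⟩ := Finset.mem_image.1 (Finset.mem_def.2 hz)
      exact (ht ν (Finset.mem_range.1 hν)).2.2
    have hcr : Multiset.card a.roots ≤ a.natDegree := card_roots' a
    have hcT' : Multiset.card T.val = T.card := rfl
    have hTeq : T.val = a.roots := Multiset.eq_of_le_of_card_le hTle (by omega)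
    have h1 := prod_multiset_X_sub_C_of_monic_of_roots_card_eq ha (by rw [← hTeq]; omega)
    rw [← hTeq] at h1
    have h2 : (Multiset.map (fun a => X - C a) T.val).prod = ∏ z ∈ T, (X - C z : ℝ[X]) := rfl
    rw [h2, hT, Finset.prod_image hinj] at h1
    exact h1.symm
  refine ⟨t, s, hta, hbs, (hS _ (hsm 0 (by omega))).1, (hS _ (hsm j (by omega))).2.1, ?_⟩
  intro ν hν
  exact ⟨(ht ν hν).1, (ht ν hν).2.1⟩

end Pool.Agent.Q80.Berg
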