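import Mathlib
import Pool.Agent.Q80.Berg1

set_option autoImplicit false

open Polynomial MeasureTheory

namespace Pool.Agent.Q80.Berg

def Δ : Set (ℝ × ℝ) := {p | 0 < p.1 ∧ 0 < p.2 ∧ p.1 + p.2 < 1}

lemma Δ_open : IsOpen Δ := by
  have h1 : IsOpen {p : ℝ × ℝ | 0 < p.1} := isOpen_lt continuous_const continuous_fst
  have h2 : IsOpen {p : ℝ × ℝ | 0 < p.2} := isOpen_lt continuous_const continuous_snd
  have h3 : IsOpen {p : ℝ × ℝ | p.1 + p.2 < 1} :=
    isOpen_lt (continuous_fst.add continuous_snd) continuous_const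
  exact h1.inter (h2.inter h3)

lemma Δ_int (F : ℝ → ℝ → ℂ) (hF : Continuous (fun p : ℝ × ℝ => F p.1 p.2)) :
    Integrable (Δ.indicator (fun p : ℝ × ℝ => F p.1 p.2)) := by
  rw [integrable_indicator_iff Δ_open.measurableSet]
  have hK : IsCompact (Set.Icc ((0:ℝ), (0:ℝ)) (1, 1)) := isCompact_Icc
  refine (hF.continuousOn.integrableOn_compact hK).mono_set ?_
  intro p hp
  obtain ⟨h1, h2, h3⟩ := hp
  exact ⟨⟨h1.le, h2.le⟩, ⟨by show p.1 ≤ 1; linarith, by show p.2 ≤ 1; linarith⟩⟩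

lemma tri1 (F : ℝ → ℝ → ℂ) (hF : Continuous (fun p : ℝ × ℝ => F p.1 p.2)) :
    ∫ p : ℝ × ℝ, Δ.indicator (fun p : ℝ × ℝ => F p.1 p.2) p
      = ∫ a in (0:ℝ)..1, ∫ b in (0:ℝ)..(1 - a), F a b := by
  rw [Measure.volume_eq_prod, integral_prod _ (Δ_int F hF)]
  have h1 : ∀ a : ℝ, (∫ b : ℝ, Δ.indicator (fun p : ℝ × ℝ => F p.1 p.2) (a, b))
      = (Set.Ioo (0:ℝ) 1).indicator (fun a => ∫ b in (0:ℝ)..(1 - a), F a b) a := by
    intro a
    by_cases ha : 0 < a ∧ a < 1
    · rw [Set.indicator_of_mem (show a ∈ Set.Ioo (0:ℝ) 1 from ha),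
        intervalIntegral.integral_of_le (by linarith [ha.2]), integral_Ioc_eq_integral_Ioo,
        ← integral_indicator measurableSet_Ioo]
      congr 1
      ext b
      by_cases hb : 0 < b ∧ b < 1 - a
      · rw [Set.indicator_of_mem (show b ∈ Set.Ioo (0:ℝ) (1 - a) from hb),
          Set.indicator_of_mem (show (a, b) ∈ Δ from ⟨ha.1, hb.1, by show a + b < 1; linarith [hb.2]⟩)]
      · rw [Set.indicator_of_notMem (show b ∉ Set.Ioo (0:ℝ) (1 - a) from hb),
          Set.indicator_of_notMem]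
        rintro ⟨_, h2, h3⟩
        exact hb ⟨h2, by have : a + b < 1 := h3; linarith⟩
    · rw [Set.indicator_of_notMem (show a ∉ Set.Ioo (0:ℝ) 1 from ha)]
      have : (fun b : ℝ => Δ.indicator (fun p : ℝ × ℝ => F p.1 p.2) (a, b)) = fun _ => 0 := by
        ext b
        rw [Set.indicator_of_notMem]
        rintro ⟨h1, h2, h3⟩
        have h1' : 0 < a := h1
        have h2' : 0 < b := h2
        have h3' : a + b < 1 := h3
        exact ha ⟨h1', by linarith⟩
      rw [this]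
      simp
  simp_rw [h1]
  rw [integral_indicator measurableSet_Ioo, intervalIntegral.integral_of_le (by norm_num),
    integral_Ioc_eq_integral_Ioo]

lemma tri2 (F : ℝ → ℝ → ℂ) (hF : Continuous (fun p : ℝ × ℝ => F p.1 p.2)) :
    ∫ p : ℝ × ℝ, Δ.indicator (fun p : ℝ × ℝ => F p.1 p.2) p
      = ∫ b in (0:ℝ)..1, ∫ a in (0:ℝ)..(1 - b), F a b := by
  have h := tri1 (fun a b => F b a) (hF.comp continuous_swap)
  rw [← h, Measure.volume_eq_prod, ← integral_prod_swap]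
  congr 1
  ext p
  by_cases hp : p ∈ Δ
  · have hp' : p.swap ∈ Δ := by
      obtain ⟨h1, h2, h3⟩ := hp
      exact ⟨h2, h1, by show p.2 + p.1 < 1; linarith⟩
    rw [Set.indicator_of_mem hp, Set.indicator_of_mem hp']
    rfl
  · have hp' : p.swap ∉ Δ := by
      rintro ⟨h1, h2, h3⟩
      exact hp ⟨h2, h1, by have : p.2 + p.1 < 1 := h3; linarith⟩
    rw [Set.indicator_of_notMem hp, Set.indicator_of_notMem hp']

/-- from the triangle to its far edge -/
lemma edge_zero (ω ω' : ℂ) (hne : ω' ≠ ω) (h1 : ω ≠ 1) (k N l : ℕ) (hωω : ω * ω' = 1) (hωN : ω ^ N = 1)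
    (p : ℂ[X]) (hp : ∀ z, p.eval (ω * z) = ω ^ k * p.eval z)
    (hJ : ∫ q : ℝ × ℝ, Δ.indicator (fun q : ℝ × ℝ => p.eval ((q.1 : ℂ) + q.2 * ω)
      * ((q.1 : ℂ) + q.2 * ω') ^ (N * l + k)) q = 0) :
    ∫ t in (0:ℝ)..1, p.eval ((1 - t : ℝ) + (t : ℂ) * ω) * ((1 - t : ℝ) + (t : ℂ) * ω') ^ (N * l + k + 1) = 0 := by
  set n := N * l + k with hn
  set Wf : ℝ → ℝ → ℂ := fun a b => p.eval ((a : ℂ) + b * ω) * ((a : ℂ) + b * ω') ^ (n + 1) with hW
  set Wb : ℝ → ℝ → ℂ := fun a b => ((derivative p).eval ((a : ℂ) + b * ω) * ω) * ((a : ℂ) + b * ω') ^ (n + 1)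
    + p.eval ((a : ℂ) + b * ω) * (((n : ℂ) + 1) * ((a : ℂ) + b * ω') ^ n * ω') with hWb
  set Wa : ℝ → ℝ → ℂ := fun a b => ((derivative p).eval ((a : ℂ) + b * ω)) * ((a : ℂ) + b * ω') ^ (n + 1)
    + p.eval ((a : ℂ) + b * ω) * (((n : ℂ) + 1) * ((a : ℂ) + b * ω') ^ n) with hWa
  have hcont : ∀ (g : ℂ[X]) (w : ℂ), Continuous (fun q : ℝ × ℝ => g.eval ((q.1 : ℂ) + q.2 * w)) := by
    intro g w
    exact g.continuous.comp (by fun_prop)
  have hlin : ∀ w : ℂ, Continuous (fun q : ℝ × ℝ => ((q.1 : ℂ) + q.2 * w)) := fun w => by fun_prop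
  have cb : Continuous (fun q : ℝ × ℝ => Wb q.1 q.2) := by
    simp only [hWb]
    have e1 := hcont (derivative p) ω
    have e2 := hcont p ω
    have e3 := hlin ω'
    fun_prop
  have ca : Continuous (fun q : ℝ × ℝ => Wa q.1 q.2) := by
    simp only [hWa]
    have e1 := hcont (derivative p) ω
    have e2 := hcont p ω
    have e3 := hlin ω'
    fun_prop
  have db : ∀ a b : ℝ, HasDerivAt (fun b : ℝ => Wf a b) (Wb a b) b := by
    intro a b
    have h1 : ∀ w : ℂ, HasDerivAt (fun b : ℝ => ((a : ℂ) + b * w)) w b := by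
      intro w
      have := ((hasDerivAt_id (b : ℂ)).comp_ofReal.mul_const w).const_add (a : ℂ)
      simpa using this
    have h2 : HasDerivAt (fun b : ℝ => p.eval ((a : ℂ) + b * ω)) ((derivative p).eval ((a : ℂ) + b * ω) * ω) b :=
      (p.hasDerivAt _).comp_of_eq b (h1 ω) rfl
    have h3 := (h1 ω').pow (n + 1)
    have h4 := h2.mul h3
    have e : (derivative p).eval ((a : ℂ) + b * ω) * ω * ((fun b : ℝ => (a : ℂ) + b * ω') ^ (n + 1)) b
        + p.eval ((a : ℂ) + b * ω) * (((n + 1 : ℕ) : ℂ) * ((a : ℂ) + b * ω') ^ (n + 1 - 1) * ω') = Wb a b := by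
      simp [hWb]
    rw [e] at h4
    exact h4
  have da : ∀ a b : ℝ, HasDerivAt (fun a : ℝ => Wf a b) (Wa a b) a := by
    intro a b
    have h1 : ∀ w : ℂ, HasDerivAt (fun a : ℝ => ((a : ℂ) + b * w)) 1 a := by
      intro w
      have := ((hasDerivAt_id (a : ℂ)).comp_ofReal.add_const ((b : ℂ) * w))
      simpa using this
    have h2 : HasDerivAt (fun a : ℝ => p.eval ((a : ℂ) + b * ω)) ((derivative p).eval ((a : ℂ) + b * ω) * 1) a :=
      (p.hasDerivAt _).comp_of_eq a (h1 ω) rfl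
    have h3 := (h1 ω').pow (n + 1)
    have h4 := h2.mul h3
    have e : (derivative p).eval ((a : ℂ) + b * ω) * 1 * ((fun a : ℝ => (a : ℂ) + b * ω') ^ (n + 1)) a
        + p.eval ((a : ℂ) + b * ω) * (((n + 1 : ℕ) : ℂ) * ((a : ℂ) + b * ω') ^ (n + 1 - 1) * 1) = Wa a b := by
      simp [hWa]
    rw [e] at h4
    exact h4
  have Jb : ∫ q : ℝ × ℝ, Δ.indicator (fun q : ℝ × ℝ => Wb q.1 q.2) q
      = ∫ a in (0:ℝ)..1, (Wf a (1 - a) - Wf a 0) := by
    rw [tri1 Wb cb]
    congr 1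
    ext a
    apply intervalIntegral.integral_eq_sub_of_hasDerivAt (fun b _ => db a b)
    apply Continuous.intervalIntegrable
    exact cb.comp (by fun_prop : Continuous (fun b : ℝ => (a, b)))
  have Ja : ∫ q : ℝ × ℝ, Δ.indicator (fun q : ℝ × ℝ => Wa q.1 q.2) q
      = ∫ b in (0:ℝ)..1, (Wf (1 - b) b - Wf 0 b) := by
    rw [tri2 Wa ca]
    congr 1
    ext b
    apply intervalIntegral.integral_eq_sub_of_hasDerivAt (fun a _ => da a b)
    apply Continuous.intervalIntegrable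
    exact ca.comp (by fun_prop : Continuous (fun a : ℝ => (a, b)))
  have hcomb : (∫ q : ℝ × ℝ, Δ.indicator (fun q : ℝ × ℝ => Wb q.1 q.2) q)
      - ω * (∫ q : ℝ × ℝ, Δ.indicator (fun q : ℝ × ℝ => Wa q.1 q.2) q) = 0 := by
    rw [← integral_const_mul, ← integral_sub (Δ_int Wb cb) ((Δ_int Wa ca).const_mul ω)]
    have e : ∀ q : ℝ × ℝ, Δ.indicator (fun q : ℝ × ℝ => Wb q.1 q.2) q - ω * Δ.indicator (fun q : ℝ × ℝ => Wa q.1 q.2) q
        = (((n : ℂ) + 1) * (ω' - ω)) * Δ.indicator (fun q : ℝ × ℝ => p.eval ((q.1 : ℂ) + q.2 * ω)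
      * ((q.1 : ℂ) + q.2 * ω') ^ n) q := by
      intro q
      by_cases hq : q ∈ Δ
      · simp only [Set.indicator_of_mem hq, hWa, hWb]
        ring
      · simp only [Set.indicator_of_notMem hq]
        ring
    simp_rw [e]
    rw [integral_const_mul, hJ, mul_zero]
  have cW : Continuous (fun q : ℝ × ℝ => Wf q.1 q.2) := by
    simp only [hW]
    have e2 := hcont p ω
    have e3 := hlin ω'
    fun_prop
  have i1 : IntervalIntegrable (fun a : ℝ => Wf a (1 - a)) volume 0 1 :=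
    (cW.comp (by fun_prop : Continuous (fun a : ℝ => (a, 1 - a)))).intervalIntegrable _ _
  have i2 : IntervalIntegrable (fun a : ℝ => Wf a 0) volume 0 1 :=
    (cW.comp (by fun_prop : Continuous (fun a : ℝ => (a, (0:ℝ))))).intervalIntegrable _ _
  have i3 : IntervalIntegrable (fun a : ℝ => Wf (1 - a) a) volume 0 1 :=
    (cW.comp (by fun_prop : Continuous (fun a : ℝ => (1 - a, a)))).intervalIntegrable _ _
  have i4 : IntervalIntegrable (fun a : ℝ => Wf 0 a) volume 0 1 :=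
    (cW.comp (by fun_prop : Continuous (fun a : ℝ => ((0:ℝ), a)))).intervalIntegrable _ _
  rw [Jb, Ja, intervalIntegral.integral_sub i1 i2, intervalIntegral.integral_sub i3 i4] at hcomb
  have hrev : ∫ a in (0:ℝ)..1, Wf a (1 - a) = ∫ a in (0:ℝ)..1, Wf (1 - a) a := by
    have := intervalIntegral.integral_comp_sub_left (a := (0:ℝ)) (b := 1) (fun a => Wf a (1 - a)) 1
    simp only [sub_sub_cancel, sub_zero, sub_self] at this
    exact this.symm
  have hcancel : ∫ a in (0:ℝ)..1, Wf a 0 = ω * ∫ a in (0:ℝ)..1, Wf 0 a := by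
    rw [← intervalIntegral.integral_const_mul]
    congr 1
    ext a
    simp only [hW]
    have e1 : ((0 : ℝ) : ℂ) + (a : ℂ) * ω = ω * a := by push_cast; ring
    have e2 : (a : ℂ) + ((0 : ℝ) : ℂ) * ω = a := by push_cast; ring
    have e3 : (a : ℂ) + ((0 : ℝ) : ℂ) * ω' = a := by push_cast; ring
    have e4 : ((0 : ℝ) : ℂ) + (a : ℂ) * ω' = ω' * a := by push_cast; ring
    rw [e1, e2, e3, e4, hp, mul_pow]
    have e5 : ω * (ω ^ k * ω' ^ (n + 1)) = 1 := by
      have h6 : ω ^ (N * l) = 1 := by rw [pow_mul, hωN, one_pow]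
      have h7 : ω * (ω ^ k * ω' ^ (n + 1)) = (ω * ω') ^ (k + 1) * ω' ^ (N * l) := by
        rw [hn, mul_pow]
        ring
      have h8 : ω' ^ (N * l) = 1 := by
        have : (ω * ω') ^ (N * l) = 1 := by rw [hωω, one_pow]
        rw [mul_pow, h6, one_mul] at this
        exact this
      rw [h7, hωω, h8]
      simp
    linear_combination (-(p.eval (a : ℂ) * (a : ℂ) ^ (n + 1))) * e5
  rw [hrev, hcancel] at hcomb
  have hfin : (1 - ω) * ∫ a in (0:ℝ)..1, Wf (1 - a) a = 0 := by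
    linear_combination hcomb
  rcases mul_eq_zero.1 hfin with h | h
  · exact absurd (sub_eq_zero.1 h).symm h1
  · exact h

end Pool.Agent.Q80.Berg
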