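import Mathlib
import Pool.Agent.Q80.Berg3
import Pool.Agent.Q80.Berg4

set_option autoImplicit false

open Polynomial MeasureTheory

namespace Pool.Agent.Q80.Berg

lemma exists_antideriv (Q : ℂ[X]) : ∃ F : ℂ[X], derivative F = Q := by
  induction Q using Polynomial.induction_on' with
  | add p q hp hq =>
    obtain ⟨F, hF⟩ := hp
    obtain ⟨G, hG⟩ := hq
    exact ⟨F + G, by rw [derivative_add, hF, hG]⟩
  | monomial n a =>
    refine ⟨monomial (n + 1) (a / (n + 1)), ?_⟩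
    rw [derivative_monomial]
    have : ((n : ℂ) + 1) ≠ 0 := by exact_mod_cast Nat.succ_ne_zero n
    simp only [Nat.add_sub_cancel]
    congr 1
    push_cast
    field_simp

lemma seg_zero (ω ω' : ℂ) (k N l : ℕ) (hωω : ω * ω' = 1) (hωN : ω ^ N = 1)
    (p : ℂ[X]) (hp : ∀ z, p.eval (ω * z) = ω ^ k * p.eval z)
    (hE : ∫ t in (0:ℝ)..1, p.eval ((1 - t : ℝ) + (t : ℂ) * ω) * ((1 - t : ℝ) + (t : ℂ) * ω') ^ (N * l + k + 1) = 0) :
    ∫ x in (0:ℝ)..1, p.eval (x : ℂ) * ((1 + ω * ((1 - x : ℝ) : ℂ)) ^ (N * l + k + 1)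
      - (1 + ω' * ((1 - x : ℝ) : ℂ)) ^ (N * l + k + 1)) = 0 := by
  set m := N * l + k + 1 with hm
  set Q : ℂ[X] := p * (1 + C ω' * (1 - X)) ^ m with hQ
  obtain ⟨F, hF⟩ := exists_antideriv Q
  have hQe : ∀ z, Q.eval z = p.eval z * (1 + ω' * (1 - z)) ^ m := by
    intro z
    simp [hQ]
  have hd : ∀ (c w : ℂ) (t : ℝ), HasDerivAt (fun t : ℝ => F.eval (c + t * w)) (Q.eval (c + t * w) * w) t := by
    intro c w t
    have h1 : HasDerivAt (fun t : ℝ => (c + (t : ℂ) * w)) w t := by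
      have := ((hasDerivAt_id (t : ℂ)).comp_ofReal.mul_const w).const_add c
      simpa using this
    have h2 := (F.hasDerivAt (c + (t : ℂ) * w)).comp_of_eq t h1 rfl
    rw [hF] at h2
    exact h2
  have hFTC : ∀ c w : ℂ, ∫ t in (0:ℝ)..1, Q.eval (c + t * w) * w = F.eval (c + w) - F.eval c := by
    intro c w
    rw [intervalIntegral.integral_eq_sub_of_hasDerivAt (fun t _ => hd c w t)]
    · simp
    · apply Continuous.intervalIntegrable
      have : Continuous (fun t : ℝ => Q.eval (c + (t : ℂ) * w)) := Q.continuous.comp (by fun_prop)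
      fun_prop
  have f1 := hFTC 1 (ω - 1)
  have f2 := hFTC 0 1
  have f3 := hFTC 0 ω
  have e1 : ∫ t in (0:ℝ)..1, Q.eval (1 + (t : ℂ) * (ω - 1)) * (ω - 1) = 0 := by
    have : ∀ t : ℝ, Q.eval (1 + (t : ℂ) * (ω - 1)) * (ω - 1)
        = (ω - 1) * (p.eval ((1 - t : ℝ) + (t : ℂ) * ω) * ((1 - t : ℝ) + (t : ℂ) * ω') ^ m) := by
      intro t
      rw [hQe]
      have a1 : (1 : ℂ) + (t : ℂ) * (ω - 1) = ((1 - t : ℝ) : ℂ) + (t : ℂ) * ω := by push_cast; ring
      have a2 : 1 + ω' * (1 - (((1 - t : ℝ) : ℂ) + (t : ℂ) * ω)) = ((1 - t : ℝ) : ℂ) + (t : ℂ) * ω' := by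
        push_cast
        linear_combination (-(t : ℂ)) * hωω
      rw [a1, a2]
      ring
    simp_rw [this]
    rw [intervalIntegral.integral_const_mul, hE, mul_zero]
  have e2 : ∫ x in (0:ℝ)..1, Q.eval (0 + (x : ℂ) * 1) * 1 = ∫ x in (0:ℝ)..1, p.eval (x : ℂ) * (1 + ω' * ((1 - x : ℝ) : ℂ)) ^ m := by
    congr 1
    ext x
    rw [hQe, zero_add, mul_one, mul_one]
    push_cast
    ring
  have e3 : ∫ x in (0:ℝ)..1, Q.eval (0 + (x : ℂ) * ω) * ω = ∫ x in (0:ℝ)..1, p.eval (x : ℂ) * (1 + ω * ((1 - x : ℝ) : ℂ)) ^ m := by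
    congr 1
    ext x
    rw [hQe, zero_add, mul_comm (x : ℂ) ω, hp]
    have b1 : 1 + ω' * (1 - ω * x) = ω' * (1 + ω * ((1 - x : ℝ) : ℂ)) := by
      push_cast
      linear_combination (-1 : ℂ) * hωω
    rw [b1, mul_pow]
    have b2 : ω ^ k * ω' ^ m * ω = 1 := by
      have h6 : ω ^ (N * l) = 1 := by rw [pow_mul, hωN, one_pow]
      have h8 : ω' ^ (N * l) = 1 := by
        have : (ω * ω') ^ (N * l) = 1 := by rw [hωω, one_pow]
        rw [mul_pow, h6, one_mul] at this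
        exact this
      have h7 : ω ^ k * ω' ^ m * ω = (ω * ω') ^ (k + 1) * ω' ^ (N * l) := by
        rw [hm, mul_pow]
        ring
      rw [h7, hωω, h8]
      simp
    linear_combination (p.eval (x : ℂ) * (1 + ω * ((1 - x : ℝ) : ℂ)) ^ m) * b2
  rw [e1] at f1
  rw [e2] at f2
  rw [e3] at f3
  have hpc : Continuous (fun x : ℝ => p.eval (x : ℂ)) := p.continuous.comp (by fun_prop)
  have : ∀ x : ℝ, p.eval (x : ℂ) * ((1 + ω * ((1 - x : ℝ) : ℂ)) ^ m - (1 + ω' * ((1 - x : ℝ) : ℂ)) ^ m)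
      = p.eval (x : ℂ) * (1 + ω * ((1 - x : ℝ) : ℂ)) ^ m - p.eval (x : ℂ) * (1 + ω' * ((1 - x : ℝ) : ℂ)) ^ m := by
    intro x; ring
  simp_rw [this]
  rw [intervalIntegral.integral_sub, f2, f3]
  · have g1 : (1 : ℂ) + (ω - 1) = ω := by ring
    rw [g1] at f1
    simp only [zero_add]
    linear_combination -f1
  · apply Continuous.intervalIntegrable
    fun_prop
  · apply Continuous.intervalIntegrable
    fun_prop

/-- from the segment to the real orthogonality -/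
lemma orth_of_seg (ω : ℂ) (k N l : ℕ) (q : ℝ[X]) (p : ℂ[X])
    (hpq : ∀ x : ℝ, p.eval (x : ℂ) = ((x ^ k * q.eval (x ^ N) : ℝ) : ℂ))
    (h : ∫ x in (0:ℝ)..1, p.eval (x : ℂ) * ((1 + ω * ((1 - x : ℝ) : ℂ)) ^ (N * l + k + 1)
      - (1 + (starRingEnd ℂ) ω * ((1 - x : ℝ) : ℂ)) ^ (N * l + k + 1)) = 0) :
    ∫ y in (0:ℝ)..1, ((1 - y) ^ k * q.eval ((1 - y) ^ N)) * (v ω 0 (ml N k l)).eval y = 0 := by
  have h1 : ∀ x : ℝ, p.eval (x : ℂ) * ((1 + ω * ((1 - x : ℝ) : ℂ)) ^ (N * l + k + 1)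
      - (1 + (starRingEnd ℂ) ω * ((1 - x : ℝ) : ℂ)) ^ (N * l + k + 1))
      = (2 * Complex.I) * (((x ^ k * q.eval (x ^ N)) * (v ω 0 (ml N k l)).eval (1 - x) : ℝ) : ℂ) := by
    intro x
    rw [hpq, v_eval, pow_zero, one_mul]
    have e : (1 + (starRingEnd ℂ) ω * ((1 - x : ℝ) : ℂ)) ^ (N * l + k + 1)
        = (starRingEnd ℂ) ((1 + ω * ((1 - x : ℝ) : ℂ)) ^ (N * l + k + 1)) := by
      rw [map_pow, map_add, map_mul, map_one, Complex.conj_ofReal]
    rw [e, Complex.sub_conj]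
    simp only [ml]
    push_cast
    ring
  simp_rw [h1] at h
  rw [intervalIntegral.integral_const_mul, intervalIntegral.integral_ofReal] at h
  have h2 : ∫ x in (0:ℝ)..1, (x ^ k * q.eval (x ^ N)) * (v ω 0 (ml N k l)).eval (1 - x) = 0 := by
    rcases mul_eq_zero.1 h with h3 | h3
    · exfalso
      rcases mul_eq_zero.1 h3 with h4 | h4
      · norm_num at h4
      · exact Complex.I_ne_zero h4
    · exact_mod_cast h3
  have := intervalIntegral.integral_comp_sub_left (a := (0:ℝ)) (b := 1)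
    (fun x => (x ^ k * q.eval (x ^ N)) * (v ω 0 (ml N k l)).eval (1 - x)) 1
  simp only [sub_sub_cancel, sub_zero, sub_self] at this
  rw [this]
  exact h2

end Pool.Agent.Q80.Berg
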