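import Mathlib
import Pool.Agent.Q80.Berg5

set_option autoImplicit false

open Polynomial MeasureTheory

namespace Pool.Agent.Q80.Berg

/-- the open regular polygon -/
def G (N : ℕ) : Set ℂ := interior (convexHull ℝ {w : ℂ | w ^ N = 1})

lemma G_open (N : ℕ) : IsOpen (G N) := isOpen_interior

lemma G_inv (N : ℕ) (Φ : ℂ ≃ₗᵢ[ℝ] ℂ) (h : ∀ z : ℂ, (Φ z) ^ N = 1 ↔ z ^ N = 1) (z : ℂ) :
    Φ z ∈ G N ↔ z ∈ G N := by
  have h1 : Φ ⁻¹' (G N) = G N := by
    rw [G]
    have h2 : Φ ⁻¹' (interior (convexHull ℝ {w : ℂ | w ^ N = 1}))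
        = interior (Φ ⁻¹' (convexHull ℝ {w : ℂ | w ^ N = 1})) :=
      Φ.toHomeomorph.preimage_interior _
    rw [h2]
    congr 1
    have h3 : Φ ⁻¹' (convexHull ℝ {w : ℂ | w ^ N = 1}) = Φ.symm '' (convexHull ℝ {w : ℂ | w ^ N = 1}) := by
      exact (Φ.symm.toEquiv.image_eq_preimage_symm _).symm
    rw [h3]
    have h4 := (Φ.symm.toLinearEquiv.toLinearMap).image_convexHull {w : ℂ | w ^ N = 1}
    have h5 : (Φ.symm : ℂ → ℂ) '' (convexHull ℝ {w : ℂ | w ^ N = 1})
        = convexHull ℝ ((Φ.symm : ℂ → ℂ) '' {w : ℂ | w ^ N = 1}) := h4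
    rw [h5]
    congr 1
    ext w
    constructor
    · rintro ⟨u, hu, rfl⟩
      have := h (Φ.symm u)
      rw [Φ.apply_symm_apply] at this
      exact this.1 hu
    · intro hw
      exact ⟨Φ w, (h w).2 hw, Φ.symm_apply_apply w⟩
  exact Set.ext_iff.1 h1 z

lemma G_conj (N : ℕ) (z : ℂ) : (starRingEnd ℂ) z ∈ G N ↔ z ∈ G N := by
  refine G_inv N Complex.conjLIE (fun z => ?_) z
  show ((starRingEnd ℂ) z) ^ N = 1 ↔ z ^ N = 1
  rw [← map_pow]
  constructor
  · intro h
    have := congrArg (starRingEnd ℂ) h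
    simpa using this
  · intro h
    rw [h, map_one]

lemma norm_om {N : ℕ} {ω : ℂ} (h : Good N ω) : ‖ω‖ = 1 := by
  have hN : N ≠ 0 := by rcases h with ⟨rfl, -⟩ | ⟨rfl, -⟩ <;> norm_num
  have := congrArg norm (om_pow h)
  rw [norm_pow, norm_one] at this
  exact (pow_eq_one_iff_of_nonneg (norm_nonneg _) hN).1 this

lemma om_conj {N : ℕ} {ω : ℂ} (h : Good N ω) : ω * (starRingEnd ℂ) ω = 1 := by
  rw [Complex.mul_conj, Complex.normSq_eq_norm_sq, norm_om h]
  simp

/-- multiplication by a unit complex number -/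
noncomputable def rot (u : ℂ) (hu : ‖u‖ = 1) : ℂ ≃ₗᵢ[ℝ] ℂ := rotation ⟨u, by simpa [Submonoid.unitSphere] using hu⟩

lemma rot_apply (u : ℂ) (hu : ‖u‖ = 1) (z : ℂ) : rot u hu z = u * z := rfl

lemma G_rot (N : ℕ) (u : ℂ) (hu : ‖u‖ = 1) (huN : u ^ N = 1) (z : ℂ) : u * z ∈ G N ↔ z ∈ G N := by
  refine G_inv N (rot u hu) (fun z => ?_) z
  rw [rot_apply, mul_pow, huN, one_mul]

/-- null lines -/
lemma line_null (c : ℂ) (hc : c ≠ 0) : ∀ᵐ z : ℂ, (c * z).im ≠ 0 := by
  let L : ℂ →ₗ[ℝ] ℝ :=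
    { toFun := fun z => (c * z).im
      map_add' := by intro a b; simp [mul_add]
      map_smul' := by intro r a; simp; ring }
  have h1 : (volume : Measure ℂ) (LinearMap.ker L : Set ℂ) = 0 := by
    apply Measure.addHaar_submodule
    intro htop
    have : (Complex.I / c) ∈ LinearMap.ker L := by rw [htop]; trivial
    rw [LinearMap.mem_ker] at this
    have h2 : (c * (Complex.I / c)).im = 0 := this
    rw [mul_div_cancel₀ _ hc] at h2
    simp at h2
  rw [ae_iff]
  have : {a : ℂ | ¬ (c * a).im ≠ 0} = (LinearMap.ker L : Set ℂ) := by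
    ext z
    simp only [ne_eq, not_not, Set.mem_ofPred_eq, SetLike.mem_coe, LinearMap.mem_ker]
    rfl
  rw [this, h1]

/-- the open sector between the directions `1` and `ω` -/
def Sec (ω : ℂ) : Set ℂ := {z | 0 < z.im ∧ ((starRingEnd ℂ) ω * z).im < 0}

lemma count_sectors {N : ℕ} {ω : ℂ} (h : Good N ω) (z : ℂ)
    (hz : ∀ r, (((starRingEnd ℂ) ω) ^ r * z).im ≠ 0) (c : ℂ) :
    ∑ r ∈ Finset.range N, (if 0 < (((starRingEnd ℂ) ω) ^ r * z).im ∧
      (((starRingEnd ℂ) ω) ^ (r + 1) * z).im < 0 then c else 0) = c := by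
  rcases h with ⟨rfl, rfl⟩ | ⟨rfl, rfl⟩
  · have h0 := hz 0
    have h1 := hz 1
    simp only [Finset.sum_range_succ, Finset.sum_range_zero]
    have e0 : ((starRingEnd ℂ) Complex.I ^ 0 * z).im = z.im := by simp
    have e1 : ((starRingEnd ℂ) Complex.I ^ 1 * z).im = -z.re := by simp
    have e2 : ((starRingEnd ℂ) Complex.I ^ 2 * z).im = -z.im := by
      simp [pow_succ]
    have e3 : ((starRingEnd ℂ) Complex.I ^ 3 * z).im = z.re := by
      simp [pow_succ]
    have e4 : ((starRingEnd ℂ) Complex.I ^ 4 * z).im = z.im := by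
      simp [pow_succ]
    simp only [Nat.reduceAdd, zero_add, e0, e1, e2, e3, e4]
    rw [e0] at h0
    rw [e1] at h1
    rcases lt_or_gt_of_ne h0 with a | a <;> rcases lt_or_gt_of_ne h1 with b | b
    · have n1 : ¬ (0 < z.im) := by linarith
      have n2 : 0 < z.re := by linarith
      simp [n1, b, n2, a]
      intro hh; linarith
    · have n1 : ¬ (0 < z.im) := by linarith
      have n2 : z.re < 0 := by linarith
      simp [n1, n2, a]
      intro hh; linarith
    · have n1 : ¬ (z.im < 0) := by linarith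
      have n2 : 0 < z.re := by linarith
      simp [n1, a, n2]
      intro hh; linarith
    · have n1 : ¬ (z.im < 0) := by linarith
      have n2 : z.re < 0 := by linarith
      simp [n1, a, n2]
      intro hh; linarith
  · have hω := om3
    have hω3 := om_pow (N := 3) (ω := ⟨-1 / 2, Real.sqrt 3 / 2⟩) (Or.inr ⟨rfl, rfl⟩)
    have h0 := hz 0
    have h1 := hz 1
    have h2 := hz 2
    simp only [Finset.sum_range_succ, Finset.sum_range_zero]
    generalize (⟨-1 / 2, Real.sqrt 3 / 2⟩ : ℂ) = w at *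
    have c3 : ((starRingEnd ℂ) w) ^ 3 = 1 := by rw [← map_pow, hω3, map_one]
    have c2 : ((starRingEnd ℂ) w) ^ 2 = -1 - (starRingEnd ℂ) w := by
      rw [← map_pow, hω, map_sub, map_neg, map_one]
    simp only [Nat.reduceAdd, zero_add, pow_zero, one_mul, pow_one, c3]
    have hsum : (((starRingEnd ℂ) w) ^ 2 * z).im = - z.im - ((starRingEnd ℂ) w * z).im := by
      rw [c2]
      have : (-1 - (starRingEnd ℂ) w) * z = -z - (starRingEnd ℂ) w * z := by ring
      rw [this, Complex.sub_im, Complex.neg_im]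
    rw [hsum]
    rw [hsum] at h2
    rw [pow_zero, one_mul] at h0
    rw [pow_one] at h1
    generalize z.im = x at *
    generalize ((starRingEnd ℂ) w * z).im = y at *
    rcases lt_or_gt_of_ne h0 with a | a <;> rcases lt_or_gt_of_ne h1 with b | b <;>
      rcases lt_or_gt_of_ne h2 with d | d
    · exfalso; linarith
    · rw [if_neg (by rintro ⟨u, u'⟩; linarith), if_neg (by rintro ⟨u, u'⟩; linarith), if_pos ⟨d, a⟩]
      ring
    · rw [if_neg (by rintro ⟨u, u'⟩; linarith), if_pos ⟨b, d⟩, if_neg (by rintro ⟨u, u'⟩; linarith)]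
      ring
    · rw [if_neg (by rintro ⟨u, u'⟩; linarith), if_neg (by rintro ⟨u, u'⟩; linarith), if_pos ⟨d, a⟩]
      ring
    · rw [if_pos ⟨a, b⟩, if_neg (by rintro ⟨u, u'⟩; linarith), if_neg (by rintro ⟨u, u'⟩; linarith)]
      ring
    · rw [if_pos ⟨a, b⟩, if_neg (by rintro ⟨u, u'⟩; linarith), if_neg (by rintro ⟨u, u'⟩; linarith)]
      ring
    · rw [if_neg (by rintro ⟨u, u'⟩; linarith), if_pos ⟨b, d⟩, if_neg (by rintro ⟨u, u'⟩; linarith)]
      ring
    · exfalso; linarith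

lemma G_bdd {N : ℕ} (hN : N ≠ 0) : G N ⊆ Metric.closedBall 0 1 := by
  refine interior_subset.trans ?_
  apply convexHull_min _ (convex_closedBall 0 1)
  intro w hw
  rw [Metric.mem_closedBall, dist_zero_right]
  have := congrArg norm (show w ^ N = 1 from hw)
  rw [norm_pow, norm_one] at this
  exact ((pow_eq_one_iff_of_nonneg (norm_nonneg _) hN).1 this).le

lemma G_intOn {N : ℕ} (hN : N ≠ 0) (f : ℂ → ℂ) (hf : Continuous f) : IntegrableOn f (G N) :=
  (hf.continuousOn.integrableOn_compact (isCompact_closedBall 0 1)).mono_set (G_bdd hN)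

lemma Sec_meas (ω : ℂ) : MeasurableSet (Sec ω) := by
  have h1 : IsOpen {z : ℂ | 0 < z.im} := isOpen_lt continuous_const Complex.continuous_im
  have h2 : IsOpen {z : ℂ | ((starRingEnd ℂ) ω * z).im < 0} :=
    isOpen_lt (Complex.continuous_im.comp (by fun_prop)) continuous_const
  exact (h1.inter h2).measurableSet

theorem sector_integral {N : ℕ} {ω : ℂ} (h : Good N ω) (f : ℂ → ℂ) (hf : Continuous f)
    (hinv : ∀ z, f ((starRingEnd ℂ) ω * z) = f z) :
    ∫ z in G N, f z = (N : ℂ) * ∫ z, (Sec ω ∩ G N).indicator f z := by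
  have hN : N ≠ 0 := by rcases h with ⟨rfl, -⟩ | ⟨rfl, -⟩ <;> norm_num
  set u := (starRingEnd ℂ) ω with hu
  have hnu : ‖u‖ = 1 := by rw [hu, Complex.norm_conj, norm_om h]
  have huN : u ^ N = 1 := by rw [hu, ← map_pow, om_pow h, map_one]
  have hne : u ≠ 0 := by
    intro h0
    rw [h0] at hnu
    simp at hnu
  have hnr : ∀ r : ℕ, ‖u ^ r‖ = 1 := fun r => by rw [norm_pow, hnu, one_pow]
  have hrN : ∀ r : ℕ, (u ^ r) ^ N = 1 := fun r => by rw [← pow_mul, mul_comm, pow_mul, huN, one_pow]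
  have hfr : ∀ (r : ℕ) z, f (u ^ r * z) = f z := by
    intro r
    induction r with
    | zero => intro z; simp
    | succ r ih => intro z; rw [pow_succ, mul_assoc, ih, hinv]
  set g := (Sec ω ∩ G N).indicator f with hg
  have hgi : Integrable g := by
    rw [hg, integrable_indicator_iff ((Sec_meas ω).inter (G_open N).measurableSet)]
    exact (G_intOn hN f hf).mono_set Set.inter_subset_right
  have hmp : ∀ r : ℕ, MeasurePreserving (rot (u ^ r) (hnr r)) := fun r =>
    (rot (u ^ r) (hnr r)).measurePreserving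
  have hme : ∀ r : ℕ, MeasurableEmbedding (rot (u ^ r) (hnr r)) := fun r =>
    (rot (u ^ r) (hnr r)).toHomeomorph.measurableEmbedding
  have hgr : ∀ r : ℕ, ∫ z, g (u ^ r * z) = ∫ z, g z := fun r =>
    (hmp r).integral_comp (hme r) g
  have hgir : ∀ r : ℕ, Integrable (fun z => g (u ^ r * z)) := fun r =>
    ((hmp r).integrable_comp_emb (hme r)).2 hgi
  have hae : ∀ᵐ z : ℂ, (G N).indicator f z = ∑ r ∈ Finset.range N, g (u ^ r * z) := by
    have hall : ∀ᵐ z : ℂ, ∀ r : ℕ, (u ^ r * z).im ≠ 0 := by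
      rw [ae_all_iff]
      intro r
      exact line_null (u ^ r) (pow_ne_zero _ hne)
    filter_upwards [hall] with z hz
    have hc := count_sectors h z hz ((G N).indicator f z)
    rw [← hc]
    apply Finset.sum_congr rfl
    intro r _
    have hG : u ^ r * z ∈ G N ↔ z ∈ G N := G_rot N (u ^ r) (hnr r) (hrN r) z
    have hS : u ^ r * z ∈ Sec ω ↔ (0 < (u ^ r * z).im ∧ (u ^ (r + 1) * z).im < 0) := by
      rw [pow_succ', mul_assoc]
      rfl
    by_cases hc1 : 0 < (u ^ r * z).im ∧ (u ^ (r + 1) * z).im < 0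
    · rw [if_pos hc1]
      by_cases hzG : z ∈ G N
      · rw [hg, Set.indicator_of_mem hzG,
          Set.indicator_of_mem (show u ^ r * z ∈ Sec ω ∩ G N from ⟨hS.2 hc1, hG.2 hzG⟩), hfr]
      · rw [hg, Set.indicator_of_notMem hzG,
          Set.indicator_of_notMem (show u ^ r * z ∉ Sec ω ∩ G N from fun hh => hzG (hG.1 hh.2))]
    · rw [if_neg hc1, hg,
        Set.indicator_of_notMem (show u ^ r * z ∉ Sec ω ∩ G N from fun hh => hc1 (hS.1 hh.1))]
  rw [← integral_indicator (G_open N).measurableSet, integral_congr_ae hae,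
    integral_finsetSum _ (fun r _ => hgir r)]
  simp_rw [hgr]
  rw [Finset.sum_const, Finset.card_range, nsmul_eq_mul]

end Pool.Agent.Q80.Berg
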