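import Mathlib
import Pool.Agent.Q80.Berg6

set_option autoImplicit false

open Polynomial MeasureTheory

namespace Pool.Agent.Q80.Berg

lemma om_im {N : ℕ} {ω : ℂ} (h : Good N ω) : 0 < ω.im := by
  rcases h with ⟨rfl, rfl⟩ | ⟨rfl, rfl⟩
  · simp
  · have : 0 < Real.sqrt 3 := Real.sqrt_pos.2 (by norm_num)
    show 0 < Real.sqrt 3 / 2
    positivity

/-- oblique coordinates -/
noncomputable def eL (ω : ℂ) (hω : ω.im ≠ 0) : (ℝ × ℝ) ≃ₗ[ℝ] ℂ where
  toFun q := (q.1 : ℂ) + q.2 * ω
  invFun z := (z.re - z.im / ω.im * ω.re, z.im / ω.im)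
  map_add' := by intro a b; simp; ring
  map_smul' := by intro r a; simp; ring
  left_inv := by
    intro q
    apply Prod.ext
    · simp
      field_simp
      ring
    · simp
      field_simp
  right_inv := by
    intro z
    apply Complex.ext
    · simp
    · simp
      field_simp

lemma integral_oblique (ω : ℂ) (hω : ω.im ≠ 0) (g : ℂ → ℂ) (h : ∫ z, g z = 0) :
    ∫ q : ℝ × ℝ, g ((q.1 : ℂ) + q.2 * ω) = 0 := by
  set e := (eL ω hω).toContinuousLinearEquiv with he
  have hmap : Measure.map e (volume : Measure (ℝ × ℝ))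
      = Measure.addHaarScalarFactor (Measure.map e volume) volume • (volume : Measure ℂ) :=
    Measure.isAddLeftInvariant_eq_smul _ _
  have hme : MeasurableEmbedding e := e.toHomeomorph.measurableEmbedding
  have h1 := hme.integral_map (μ := (volume : Measure (ℝ × ℝ))) g
  rw [hmap, integral_smul_nnreal_measure, h, smul_zero] at h1
  exact h1.symm

/-- the functional equal to `1` at `1` and `ω` -/
noncomputable def lam (ω : ℂ) (z : ℂ) : ℝ := z.re + (1 - ω.re) / ω.im * z.im

lemma lam_lin (ω : ℂ) : IsLinearMap ℝ (lam ω) := by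
  constructor
  · intro x y
    simp [lam]
    ring
  · intro c x
    simp [lam]
    ring

lemma lam_e (ω : ℂ) (hω : ω.im ≠ 0) (a b : ℝ) : lam ω ((a : ℂ) + b * ω) = a + b := by
  simp [lam]
  field_simp
  ring

lemma lam_root {N : ℕ} {ω : ℂ} (h : Good N ω) (w : ℂ) (hw : w ^ N = 1) : lam ω w ≤ 1 := by
  rcases h with ⟨rfl, rfl⟩ | ⟨rfl, rfl⟩
  · have h1 : (w - 1) * ((w + 1) * ((w - Complex.I) * (w + Complex.I))) = 0 := by
      linear_combination hw + (1 - w ^ 2) * Complex.I_sq
    rcases mul_eq_zero.1 h1 with h1 | h1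
    · rw [show w = 1 by linear_combination h1]
      simp [lam]
    rcases mul_eq_zero.1 h1 with h1 | h1
    · rw [show w = -1 by linear_combination h1]
      simp [lam]
    rcases mul_eq_zero.1 h1 with h1 | h1
    · rw [show w = Complex.I by linear_combination h1]
      simp [lam]
    · rw [show w = -Complex.I by linear_combination h1]
      simp [lam]
  · have hω := om3
    have h3 : Real.sqrt 3 * Real.sqrt 3 = 3 := Real.mul_self_sqrt (by norm_num)
    have hp : 0 < Real.sqrt 3 := Real.sqrt_pos.2 (by norm_num)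
    have h1 : (w - 1) * ((w - ⟨-1 / 2, Real.sqrt 3 / 2⟩) * (w - (-1 - ⟨-1 / 2, Real.sqrt 3 / 2⟩))) = 0 := by
      generalize (⟨-1 / 2, Real.sqrt 3 / 2⟩ : ℂ) = u at hω
      linear_combination hw - (w - 1) * hω
    have hk : (1 - (-1 / 2 : ℝ)) / (Real.sqrt 3 / 2) = Real.sqrt 3 := by
      field_simp
      rw [pow_two, h3]
      norm_num
    unfold lam
    simp only
    rw [hk]
    rcases mul_eq_zero.1 h1 with h1 | h1
    · rw [show w = 1 by linear_combination h1]
      simp
    rcases mul_eq_zero.1 h1 with h1 | h1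
    · rw [sub_eq_zero.1 h1]
      simp only
      nlinarith
    · rw [sub_eq_zero.1 h1]
      simp
      nlinarith

lemma mem_G_iff {N : ℕ} {ω : ℂ} (h : Good N ω) (a b : ℝ) (ha : 0 < a) (hb : 0 < b) :
    (a : ℂ) + b * ω ∈ G N ↔ a + b < 1 := by
  have hω : ω.im ≠ 0 := (om_im h).ne'
  constructor
  · intro hz
    rw [G, mem_interior_iff_mem_nhds, Metric.mem_nhds_iff] at hz
    obtain ⟨ε, hε, hball⟩ := hz
    have h1 : ((a + ε / 2 : ℝ) : ℂ) + b * ω ∈ Metric.ball ((a : ℂ) + b * ω) ε := by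
      rw [Metric.mem_ball, dist_eq_norm]
      have : ((a + ε / 2 : ℝ) : ℂ) + b * ω - ((a : ℂ) + b * ω) = ((ε / 2 : ℝ) : ℂ) := by
        push_cast; ring
      rw [this, Complex.norm_real, Real.norm_eq_abs, abs_of_pos (by linarith)]
      linarith
    have h2 := hball h1
    have h3 : convexHull ℝ {w : ℂ | w ^ N = 1} ⊆ {w | lam ω w ≤ 1} :=
      convexHull_min (fun w hw => lam_root h w hw) (convex_halfSpace_le (lam_lin ω) 1)
    have h4 : lam ω (((a + ε / 2 : ℝ) : ℂ) + b * ω) ≤ 1 := h3 h2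
    rw [lam_e ω hω] at h4
    linarith
  · intro hab
    set e := (eL ω hω).toContinuousLinearEquiv with he
    have hop : IsOpen (e.symm ⁻¹' Δ) := Δ_open.preimage e.symm.continuous
    have hsub : e.symm ⁻¹' Δ ⊆ convexHull ℝ {w : ℂ | w ^ N = 1} := by
      intro z hz
      obtain ⟨h1, h2, h3⟩ := hz
      have hze : z = e (e.symm z) := (e.apply_symm_apply z).symm
      generalize e.symm z = q at *
      have hz2 : z = (q.1 : ℂ) + q.2 * ω := hze
      have hH := convex_convexHull ℝ {w : ℂ | w ^ N = 1}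
      have m1 : (1 : ℂ) ∈ convexHull ℝ {w : ℂ | w ^ N = 1} := subset_convexHull _ _ (one_pow N)
      have mω : ω ∈ convexHull ℝ {w : ℂ | w ^ N = 1} := subset_convexHull _ _ (om_pow h)
      have m0 : (0 : ℂ) ∈ convexHull ℝ {w : ℂ | w ^ N = 1} := by
        rcases h with ⟨rfl, rfl⟩ | ⟨rfl, rfl⟩
        · have mm : (-1 : ℂ) ∈ convexHull ℝ {w : ℂ | w ^ 4 = 1} :=
            subset_convexHull _ _ (by show (-1 : ℂ) ^ 4 = 1; norm_num)
          have := hH m1 mm (by norm_num : (0:ℝ) ≤ 1 / 2) (by norm_num : (0:ℝ) ≤ 1 / 2) (by norm_num)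
          simpa using this
        · have hω2 := om3
          have m2 : (-1 - ⟨-1 / 2, Real.sqrt 3 / 2⟩ : ℂ) ∈ convexHull ℝ {w : ℂ | w ^ 3 = 1} := by
            apply subset_convexHull
            rw [← hω2]
            show (_ ^ 2) ^ 3 = (1 : ℂ)
            rw [← pow_mul, mul_comm 2 3, pow_mul]
            have := om_pow (N := 3) (ω := ⟨-1 / 2, Real.sqrt 3 / 2⟩) (Or.inr ⟨rfl, rfl⟩)
            rw [this, one_pow]
          have k1 := hH mω m2 (by norm_num : (0:ℝ) ≤ 1 / 2) (by norm_num : (0:ℝ) ≤ 1 / 2) (by norm_num)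
          have k2 := hH m1 k1 (by norm_num : (0:ℝ) ≤ 1 / 3) (by norm_num : (0:ℝ) ≤ 2 / 3) (by norm_num)
          convert k2 using 1
          generalize (⟨-1 / 2, Real.sqrt 3 / 2⟩ : ℂ) = u
          simp only [Complex.real_smul]
          push_cast
          ring
      have h3' : q.1 + q.2 < 1 := h3
      have h1' : 0 < q.1 := h1
      have h2' : 0 < q.2 := h2
      have k1 : ((q.1 / (q.1 + q.2)) • (1 : ℂ) + (q.2 / (q.1 + q.2)) • ω) ∈ convexHull ℝ {w : ℂ | w ^ N = 1} :=
        hH m1 mω (by positivity) (by positivity) (by field_simp)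
      have k2 := hH k1 m0 (by linarith : (0:ℝ) ≤ q.1 + q.2) (by linarith : (0:ℝ) ≤ 1 - (q.1 + q.2)) (by ring)
      rw [hz2]
      convert k2 using 1
      have hne : (q.1 + q.2 : ℂ) ≠ 0 := by
        have : ((q.1 + q.2 : ℝ) : ℂ) ≠ 0 := by
          exact_mod_cast (by linarith : (0:ℝ) < q.1 + q.2).ne'
        push_cast at this
        exact this
      simp only [Complex.real_smul]
      push_cast
      field_simp
      ring
    have hin := interior_maximal hsub hop
    apply hin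
    show e.symm ((a : ℂ) + b * ω) ∈ Δ
    have : e.symm ((a : ℂ) + b * ω) = (a, b) := by
      rw [ContinuousLinearEquiv.symm_apply_eq]
      rfl
    rw [this]
    exact ⟨ha, hb, hab⟩

lemma mem_sec {N : ℕ} {ω : ℂ} (h : Good N ω) (a b : ℝ) :
    (a : ℂ) + b * ω ∈ Sec ω ↔ 0 < a ∧ 0 < b := by
  have hi := om_im h
  have h1 : ((a : ℂ) + b * ω).im = b * ω.im := by simp
  have h2 : ((starRingEnd ℂ) ω * ((a : ℂ) + b * ω)).im = -(a * ω.im) := by
    have e : (starRingEnd ℂ) ω * ((a : ℂ) + b * ω) = a * (starRingEnd ℂ) ω + b := by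
      linear_combination (b : ℂ) * om_conj h
    rw [e]
    simp
  show (0 < ((a : ℂ) + b * ω).im ∧ ((starRingEnd ℂ) ω * ((a : ℂ) + b * ω)).im < 0) ↔ _
  rw [h1, h2]
  constructor
  · rintro ⟨x, y⟩
    constructor
    · by_contra hn
      push Not at hn
      nlinarith
    · by_contra hn
      push Not at hn
      nlinarith
  · rintro ⟨x, y⟩
    constructor
    · positivity
    · have : 0 < a * ω.im := by positivity
      linarith

/-- orthogonality over the polygon gives a vanishing integral over the basic triangle -/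
theorem tri_zero {N : ℕ} {ω : ℂ} (h : Good N ω) (f : ℂ → ℂ) (hf : Continuous f)
    (hinv : ∀ z, f ((starRingEnd ℂ) ω * z) = f z) (h0 : ∫ z in G N, f z = 0) :
    ∫ q : ℝ × ℝ, Δ.indicator (fun q : ℝ × ℝ => f ((q.1 : ℂ) + q.2 * ω)) q = 0 := by
  have hN : (N : ℂ) ≠ 0 := by
    rcases h with ⟨rfl, -⟩ | ⟨rfl, -⟩ <;> norm_num
  rw [sector_integral h f hf hinv] at h0
  have h1 : ∫ z, (Sec ω ∩ G N).indicator f z = 0 := by
    rcases mul_eq_zero.1 h0 with h2 | h2
    · exact absurd h2 hN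
    · exact h2
  have h2 := integral_oblique ω (om_im h).ne' _ h1
  rw [← h2]
  congr 1
  ext q
  by_cases hq : q ∈ Δ
  · obtain ⟨a, b, c⟩ := hq
    rw [Set.indicator_of_mem (show q ∈ Δ from ⟨a, b, c⟩), Set.indicator_of_mem (show (q.1 : ℂ) + q.2 * ω ∈ Sec ω ∩ G N from
      ⟨(mem_sec h _ _).2 ⟨a, b⟩, (mem_G_iff h _ _ a b).2 c⟩)]
  · rw [Set.indicator_of_notMem hq, Set.indicator_of_notMem]
    rintro ⟨k1, k2⟩
    obtain ⟨a, b⟩ := (mem_sec h _ _).1 k1
    exact hq ⟨a, b, (mem_G_iff h _ _ a b).1 k2⟩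

end Pool.Agent.Q80.Berg
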