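import Mathlib
import Pool.Agent.Q80.Berg7

set_option autoImplicit false

open Polynomial MeasureTheory

namespace Pool.Agent.Q80.Berg

def OrthG (N d : ℕ) (p : ℂ[X]) : Prop :=
  ∀ r : ℂ[X], r.natDegree < d → ∫ z in G N, p.eval z * (starRingEnd ℂ) (r.eval z) = 0

lemma cont_term (p r : ℂ[X]) : Continuous (fun z : ℂ => p.eval z * (starRingEnd ℂ) (r.eval z)) := by
  have h1 : Continuous (fun z : ℂ => p.eval z) := p.continuous
  have h2 : Continuous (fun z : ℂ => r.eval z) := r.continuous
  exact h1.mul (Complex.continuous_conj.comp h2)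

lemma G_nonempty {N : ℕ} {ω : ℂ} (h : Good N ω) : ∃ z, z ∈ G N :=
  ⟨_, (mem_G_iff h (1 / 4) (1 / 4) (by norm_num) (by norm_num)).2 (by norm_num)⟩

lemma Nne {N : ℕ} {ω : ℂ} (h : Good N ω) : N ≠ 0 := by
  rcases h with ⟨rfl, -⟩ | ⟨rfl, -⟩ <;> norm_num

lemma uniq {N : ℕ} {ω : ℂ} (h : Good N ω) (d : ℕ) (δ : ℂ[X]) (hd : δ.natDegree < d)
    (ho : OrthG N d δ) : δ = 0 := by
  have h1 := ho δ hd
  have h2 : ∀ z : ℂ, δ.eval z * (starRingEnd ℂ) (δ.eval z) = ((Complex.normSq (δ.eval z) : ℝ) : ℂ) :=
    fun z => Complex.mul_conj _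
  simp_rw [h2] at h1
  have hof := integral_ofReal (𝕜 := ℂ) (μ := volume.restrict (G N))
    (f := fun z => Complex.normSq (δ.eval z))
  have h3 : ∫ z in G N, Complex.normSq (δ.eval z) = 0 := by
    have h5 : ((∫ z in G N, Complex.normSq (δ.eval z) : ℝ) : ℂ) = 0 := hof.symm.trans h1
    exact_mod_cast h5
  have hcont : Continuous (fun z : ℂ => Complex.normSq (δ.eval z)) :=
    Complex.continuous_normSq.comp δ.continuous
  have hint : IntegrableOn (fun z : ℂ => Complex.normSq (δ.eval z)) (G N) :=
    (hcont.continuousOn.integrableOn_compact (isCompact_closedBall 0 1)).mono_set (G_bdd (Nne h))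
  rw [setIntegral_eq_zero_iff_of_nonneg_ae (Filter.Eventually.of_forall fun z => Complex.normSq_nonneg _) hint] at h3
  have h4 : Set.EqOn (fun z : ℂ => Complex.normSq (δ.eval z)) 0 (G N) :=
    Measure.eqOn_open_of_ae_eq h3 (G_open N) hcont.continuousOn continuousOn_const
  obtain ⟨z0, hz0⟩ := G_nonempty h
  apply eq_zero_of_infinite_isRoot
  refine (infinite_of_mem_nhds z0 ((G_open N).mem_nhds hz0)).mono ?_
  intro z hz
  have := h4 hz
  simpa using this

lemma rot_orth {N : ℕ} {ω : ℂ} (h : Good N ω) (d : ℕ) (p : ℂ[X]) (ho : OrthG N d p) (c : ℂ) :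
    OrthG N d (C c * p.comp (C ω * X)) := by
  intro r hr
  set u := (starRingEnd ℂ) ω with hu
  have hωu : ω * u = 1 := om_conj h
  set rh : ℂ[X] := r.comp (C u * X) with hrh
  have hdeg : rh.natDegree < d := by
    refine lt_of_le_of_lt ?_ hr
    rw [hrh]
    refine natDegree_comp_le.trans ?_
    have : (C u * X : ℂ[X]).natDegree ≤ 1 := (natDegree_C_mul_le _ _).trans natDegree_X_le
    calc r.natDegree * (C u * X : ℂ[X]).natDegree ≤ r.natDegree * 1 := Nat.mul_le_mul_left _ this
      _ = r.natDegree := mul_one _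
  have h1 := ho rh hdeg
  have hG : ∀ z, rot ω (norm_om h) z ∈ G N ↔ z ∈ G N := fun z => G_rot N ω (norm_om h) (om_pow h) z
  have hpre : (rot ω (norm_om h)) ⁻¹' (G N) = G N := by
    ext z; exact hG z
  have h2 := (rot ω (norm_om h)).measurePreserving.setIntegral_preimage_emb
    (rot ω (norm_om h)).toHomeomorph.measurableEmbedding
    (fun z => p.eval z * (starRingEnd ℂ) (rh.eval z)) (G N)
  rw [hpre, h1] at h2
  have h3 : ∀ z, (C c * p.comp (C ω * X)).eval z * (starRingEnd ℂ) (r.eval z)
      = c * (p.eval (rot ω (norm_om h) z) * (starRingEnd ℂ) (rh.eval (rot ω (norm_om h) z))) := by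
    intro z
    rw [rot_apply, hrh]
    simp only [eval_mul, eval_C, eval_comp, eval_X]
    have : u * (ω * z) = z := by linear_combination z * hωu
    rw [this]
    ring
  simp_rw [h3]
  rw [integral_const_mul, h2, mul_zero]

lemma conj_eval (p : ℂ[X]) (z : ℂ) :
    (p.map (starRingEnd ℂ)).eval z = (starRingEnd ℂ) (p.eval ((starRingEnd ℂ) z)) := by
  have h : z = (starRingEnd ℂ) ((starRingEnd ℂ) z) := (Complex.conj_conj z).symm
  conv_lhs => rw [h]
  rw [eval_map, eval₂_at_apply]

lemma conj_orth {N : ℕ} (d : ℕ) (p : ℂ[X]) (ho : OrthG N d p) :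
    OrthG N d (p.map (starRingEnd ℂ)) := by
  intro r hr
  have hdeg : (r.map (starRingEnd ℂ)).natDegree < d := lt_of_le_of_lt natDegree_map_le hr
  have h1 := ho _ hdeg
  have hG : ∀ z, Complex.conjLIE z ∈ G N ↔ z ∈ G N := fun z => G_conj N z
  have hpre : (Complex.conjLIE) ⁻¹' (G N) = G N := by
    ext z; exact hG z
  have h2 := Complex.conjLIE.measurePreserving.setIntegral_preimage_emb
    Complex.conjLIE.toHomeomorph.measurableEmbedding
    (fun z => (starRingEnd ℂ) (p.eval z * (starRingEnd ℂ) ((r.map (starRingEnd ℂ)).eval z))) (G N)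
  have h3 : ∫ z in G N, (starRingEnd ℂ) (p.eval z * (starRingEnd ℂ) ((r.map (starRingEnd ℂ)).eval z)) = 0 := by
    rw [integral_conj, h1, map_zero]
  rw [hpre, h3] at h2
  rw [← h2]
  congr 1
  ext z
  rw [conj_eval, conj_eval]
  simp only [Complex.conjLIE_apply, Complex.conj_conj, map_mul]

lemma sub_deg {p q : ℂ[X]} (d : ℕ) (hd : 0 < d) (hp : p.Monic) (hq : q.Monic) (hdp : p.natDegree = d)
    (hdq : q.natDegree = d) : (p - q).natDegree < d := by
  rcases eq_or_ne (p - q) 0 with h | h
  · rw [h, natDegree_zero]; exact hd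
  have h1 : (p - q).degree < p.degree := by
    apply degree_sub_lt_left
    · rw [degree_eq_natDegree hp.ne_zero, degree_eq_natDegree hq.ne_zero, hdp, hdq]
    · exact hp.ne_zero
    · rw [hp.leadingCoeff, hq.leadingCoeff]
  rw [degree_eq_natDegree h, degree_eq_natDegree hp.ne_zero, hdp] at h1
  exact_mod_cast h1

lemma prim {N : ℕ} {ω : ℂ} (h : Good N ω) : IsPrimitiveRoot ω N := by
  apply IsPrimitiveRoot.mk_of_lt _ (Nat.pos_of_ne_zero (Nne h)) (om_pow h)
  intro l h0 h1
  have hi := om_im h
  rcases h with ⟨rfl, rfl⟩ | ⟨rfl, rfl⟩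
  · interval_cases l
    · intro h2
      have := congrArg Complex.im h2
      simp at this
    · intro h2
      have := congrArg Complex.re h2
      simp [pow_succ] at this
      norm_num at this
    · intro h2
      have := congrArg Complex.im h2
      simp [pow_succ] at this
  · have hω := om3
    interval_cases l
    · intro h2
      rw [pow_one] at h2
      rw [h2] at hi
      simp at hi
    · intro h2
      rw [hω] at h2
      have := congrArg Complex.im h2
      simp at this

lemma pow_om_eq {N : ℕ} {ω : ℂ} (h : Good N ω) (k m : ℕ) (hk : k < N) (he : ω ^ m = ω ^ k) : m % N = k := by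
  have h1 : ω ^ m = ω ^ (m % N) := by
    conv_lhs => rw [← Nat.div_add_mod m N]
    rw [pow_add, pow_mul, om_pow h, one_pow, one_mul]
  rw [h1] at he
  exact (prim h).pow_inj (Nat.mod_lt _ (Nat.pos_of_ne_zero (Nne h))) hk he

/-- structure of the orthogonal polynomials -/
theorem structure_p {N : ℕ} {ω : ℂ} (h : Good N ω) (j k : ℕ) (hk : k < N) (hj : 0 < j) (p : ℂ[X])
    (hp : p.Monic) (hdp : p.natDegree = j * N + k) (ho : OrthG N (j * N + k) p) :
    (∀ z, p.eval (ω * z) = ω ^ k * p.eval z) ∧
    ∃ q : ℝ[X], q.Monic ∧ q.natDegree = j ∧ p = X ^ k * (q.map (algebraMap ℝ ℂ)).comp (X ^ N) := by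
  set u := (starRingEnd ℂ) ω with hu
  have hωu : ω * u = 1 := om_conj h
  have hNpos : 0 < N := Nat.pos_of_ne_zero (Nne h)
  have hd0 : 0 < j * N + k := by positivity
  have hω0 : ω ≠ 0 := by
    intro h0
    rw [h0, zero_mul] at hωu
    exact zero_ne_one hωu
  have hωd : ω ^ (j * N + k) = ω ^ k := by
    rw [pow_add, mul_comm j N, pow_mul, om_pow h, one_pow, one_mul]
  have hukω : u ^ k * ω ^ k = 1 := by rw [← mul_pow, mul_comm u ω, hωu, one_pow]
  -- rotation
  set pt : ℂ[X] := C (u ^ k) * p.comp (C ω * X) with hpt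
  have hcoef : ∀ m, pt.coeff m = u ^ k * (p.coeff m * ω ^ m) := by
    intro m
    rw [hpt, coeff_C_mul, comp_C_mul_X_coeff]
  have hptd : pt.natDegree = j * N + k := by
    apply natDegree_eq_of_le_of_coeff_ne_zero
    · rw [natDegree_le_iff_coeff_eq_zero]
      intro m hm
      rw [hcoef, coeff_eq_zero_of_natDegree_lt (by omega)]
      ring
    · rw [hcoef, ← hdp, hp.coeff_natDegree, hdp, hωd, one_mul, hukω]
      exact one_ne_zero
  have hptm : pt.Monic := by
    rw [Monic, leadingCoeff, hptd, hcoef, ← hdp, hp.coeff_natDegree, hdp, hωd, one_mul, hukω]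
  have e1 : p = pt := by
    have h1 := uniq h (j * N + k) (p - pt) (sub_deg _ hd0 hp hptm hdp hptd) (by
      intro r hr
      have a1 := ho r hr
      have a2 := rot_orth h _ p ho (u ^ k) r hr
      simp only [eval_sub, sub_mul]
      rw [integral_sub (G_intOn (Nne h) _ (cont_term p r)) (G_intOn (Nne h) _ (cont_term pt r)), a1, a2, sub_zero])
    exact sub_eq_zero.1 h1
  -- conjugation
  set pc : ℂ[X] := p.map (starRingEnd ℂ) with hpc
  have hpcm : pc.Monic := hp.map _
  have hpcd : pc.natDegree = j * N + k := by rw [hpc, hp.natDegree_map, hdp]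
  have e2 : p = pc := by
    have h1 := uniq h (j * N + k) (p - pc) (sub_deg _ hd0 hp hpcm hdp hpcd) (by
      intro r hr
      have a1 := ho r hr
      have a2 := conj_orth _ p ho r hr
      simp only [eval_sub, sub_mul]
      rw [integral_sub (G_intOn (Nne h) _ (cont_term p r)) (G_intOn (Nne h) _ (cont_term pc r)), a1, a2, sub_zero])
    exact sub_eq_zero.1 h1
  have hreal : ∀ m, p.coeff m = ((p.coeff m).re : ℂ) := by
    intro m
    have := congrArg (fun q => coeff q m) e2
    simp only [hpc, coeff_map] at this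
    exact (Complex.conj_eq_iff_re.1 this.symm).symm
  have hzero : ∀ m, m % N ≠ k → p.coeff m = 0 := by
    intro m hm
    have h1 := congrArg (fun q => coeff q m) e1
    simp only [hcoef] at h1
    by_contra hne
    apply hm
    apply pow_om_eq h k m hk
    have h2 : p.coeff m * (1 - u ^ k * ω ^ m) = 0 := by linear_combination h1
    rcases mul_eq_zero.1 h2 with h3 | h3
    · exact absurd h3 hne
    · linear_combination (-(ω ^ k)) * h3 - (ω ^ m) * hukω
  constructor
  · intro z
    have h1 : p.eval (ω * z) = ω ^ k * pt.eval z := by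
      rw [hpt]
      simp only [eval_mul, eval_C, eval_comp, eval_X]
      linear_combination (-(p.eval (ω * z))) * hukω
    rw [h1, ← e1]
  · set q : ℝ[X] := ∑ i ∈ Finset.range (j + 1), monomial i ((p.coeff (N * i + k)).re) with hq
    have hqc : ∀ i, q.coeff i = if i ≤ j then (p.coeff (N * i + k)).re else 0 := by
      intro i
      rw [hq, finsetSum_coeff]
      simp only [coeff_monomial]
      rw [Finset.sum_ite_eq' (Finset.range (j + 1)) i]
      simp only [Finset.mem_range]
      by_cases hij : i ≤ j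
      · rw [if_pos hij, if_pos (by omega)]
      · rw [if_neg hij, if_neg (by omega)]
    have hqj : q.coeff j = 1 := by
      rw [hqc, if_pos le_rfl, mul_comm N j, ← hdp, hp.coeff_natDegree, Complex.one_re]
    have hqle : q.natDegree ≤ j := by
      rw [natDegree_le_iff_coeff_eq_zero]
      intro m hm
      rw [hqc, if_neg (by omega)]
    refine ⟨q, monic_of_natDegree_le_of_coeff_eq_one j hqle hqj,
      natDegree_eq_of_le_of_coeff_ne_zero hqle (by rw [hqj]; exact one_ne_zero), ?_⟩
    rw [← expand_eq_comp_X_pow]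
    ext m
    rw [coeff_X_pow_mul', coeff_expand hNpos]
    by_cases hkm : k ≤ m
    · rw [if_pos hkm]
      by_cases hdv : N ∣ m - k
      · rw [if_pos hdv, coeff_map, hqc]
        obtain ⟨i, hi⟩ := hdv
        have him : (m - k) / N = i := by rw [hi, Nat.mul_div_cancel_left _ hNpos]
        rw [him]
        have hm : m = N * i + k := by omega
        by_cases hij : i ≤ j
        · rw [if_pos hij, ← hm]
          exact hreal m
        · rw [if_neg hij, map_zero]
          apply coeff_eq_zero_of_natDegree_lt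
          rw [hdp, hm]
          have : j * N < N * i := by
            rw [mul_comm j N]
            exact Nat.mul_lt_mul_of_pos_left (by omega) hNpos
          omega
      · rw [if_neg hdv]
        apply hzero
        intro hmod
        apply hdv
        exact ⟨m / N, by
          have := Nat.div_add_mod m N
          omega⟩
    · rw [if_neg hkm]
      apply hzero
      rw [Nat.mod_eq_of_lt (by omega)]
      omega

end Pool.Agent.Q80.Berg
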