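import Mathlib
import Pool.Agent.Q80.Berg8

set_option autoImplicit false

open Polynomial MeasureTheory

namespace Pool.Agent.Q80.Berg

theorem orth_q {N : ℕ} {ω : ℂ} (h : Good N ω) (j k : ℕ) (p : ℂ[X]) (q : ℝ[X])
    (ho : OrthG N (j * N + k) p) (hrot : ∀ z, p.eval (ω * z) = ω ^ k * p.eval z)
    (hpq : p = X ^ k * (q.map (algebraMap ℝ ℂ)).comp (X ^ N)) : Orth N k ω q j := by
  intro l hl
  have hNpos : 0 < N := Nat.pos_of_ne_zero (Nne h)
  have hi := om_im h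
  set u := (starRingEnd ℂ) ω with hu
  have hωu : ω * u = 1 := om_conj h
  have hωN := om_pow h
  have hdeg : (X ^ (N * l + k) : ℂ[X]).natDegree < j * N + k := by
    rw [natDegree_X_pow]
    have : N * l < j * N := by
      rw [mul_comm j N]
      exact Nat.mul_lt_mul_of_pos_left hl hNpos
    omega
  have h1 := ho _ hdeg
  have hrot' : ∀ z, p.eval (u * z) = u ^ k * p.eval z := by
    intro z
    have h2 := hrot (u * z)
    have h3 : ω * (u * z) = z := by linear_combination z * hωu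
    rw [h3] at h2
    have h4 : u ^ k * ω ^ k = 1 := by rw [← mul_pow, mul_comm u ω, hωu, one_pow]
    rw [h2]
    linear_combination (-(p.eval (u * z))) * h4
  have hinv : ∀ z, p.eval (u * z) * (starRingEnd ℂ) ((X ^ (N * l + k) : ℂ[X]).eval (u * z))
      = p.eval z * (starRingEnd ℂ) ((X ^ (N * l + k) : ℂ[X]).eval z) := by
    intro z
    simp only [eval_pow, eval_X]
    rw [hrot', mul_pow, map_mul, map_pow, hu, Complex.conj_conj, ← hu]
    have h4 : u ^ k * ω ^ (N * l + k) = 1 := by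
      rw [pow_add, pow_mul, hωN, one_pow, one_mul, ← mul_pow, mul_comm u ω, hωu, one_pow]
    linear_combination (p.eval z * (starRingEnd ℂ) (z ^ (N * l + k))) * h4
  have h2 := tri_zero h _ (cont_term p (X ^ (N * l + k))) hinv h1
  have h3 : ∫ q : ℝ × ℝ, Δ.indicator (fun q : ℝ × ℝ => p.eval ((q.1 : ℂ) + q.2 * ω)
      * ((q.1 : ℂ) + q.2 * u) ^ (N * l + k)) q = 0 := by
    rw [← h2]
    congr 1
    ext q
    have e : (fun q : ℝ × ℝ => p.eval ((q.1 : ℂ) + q.2 * ω) * ((q.1 : ℂ) + q.2 * u) ^ (N * l + k))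
        = (fun q : ℝ × ℝ => p.eval ((q.1 : ℂ) + q.2 * ω) *
          (starRingEnd ℂ) ((X ^ (N * l + k) : ℂ[X]).eval ((q.1 : ℂ) + q.2 * ω))) := by
      ext q
      simp only [eval_pow, eval_X, map_pow, map_add, map_mul, Complex.conj_ofReal]
      rw [hu]
    rw [e]
  have hne : u ≠ ω := by
    intro h0
    have := congrArg Complex.im h0
    rw [hu, Complex.conj_im] at this
    linarith
  have hne1 : ω ≠ 1 := by
    intro h0
    rw [h0] at hi
    simp at hi
  have h4 := edge_zero ω u hne hne1 k N l hωu hωN p hrot h3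
  have h5 := seg_zero ω u k N l hωu hωN p hrot h4
  refine orth_of_seg ω k N l q p ?_ h5
  intro x
  rw [hpq]
  simp only [eval_mul, eval_pow, eval_X, eval_comp]
  have h6 : ((x : ℂ)) ^ N = (algebraMap ℝ ℂ) (x ^ N) := by
    show (x : ℂ) ^ N = ((x ^ N : ℝ) : ℂ)
    push_cast
    ring
  rw [h6, eval_map, eval₂_at_apply]
  show (x : ℂ) ^ k * ((q.eval (x ^ N) : ℝ) : ℂ) = _
  push_cast
  ring

theorem main (N : ℕ) (hN : N = 3 ∨ N = 4) (k : ℕ) (hk : k < N) (j : ℕ) (hj : 1 ≤ j)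
    (p p' : ℂ[X]) (hp : p.Monic) (hpd : p.natDegree = j * N + k) (ho : OrthG N (j * N + k) p)
    (hp' : p'.Monic) (hpd' : p'.natDegree = (j + 1) * N + k) (ho' : OrthG N ((j + 1) * N + k) p') :
    ∃ t s : ℕ → ℝ,
      p = X ^ k * (∏ ν ∈ Finset.range j, (X - C ((t ν : ℝ) : ℂ))).comp (X ^ N) ∧
      p' = X ^ k * (∏ ν ∈ Finset.range (j + 1), (X - C ((s ν : ℝ) : ℂ))).comp (X ^ N) ∧
      0 < s 0 ∧ s j < 1 ∧ ∀ ν, ν < j → s ν < t ν ∧ t ν < s (ν + 1) := by
  obtain ⟨ω, h⟩ : ∃ ω, Good N ω := by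
    rcases hN with rfl | rfl
    · exact ⟨_, Or.inr ⟨rfl, rfl⟩⟩
    · exact ⟨_, Or.inl ⟨rfl, rfl⟩⟩
  obtain ⟨hr1, a, ha, hda, hpa⟩ := structure_p h j k hk hj p hp hpd ho
  obtain ⟨hr2, b, hb, hdb, hpb⟩ := structure_p h (j + 1) k hk (by omega) p' hp' hpd' ho'
  have oa := orth_q h j k p a ho hr1 hpa
  have ob := orth_q h (j + 1) k p' b ho' hr2 hpb
  obtain ⟨t, s, hat, hbs, h0, h1, h2⟩ := real_part h hk j a b ha hb hda hdb oa ob
  refine ⟨t, s, ?_, ?_, h0, h1, h2⟩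
  · rw [hpa]
    conv_lhs => rw [hat]
    congr 2
    rw [Polynomial.map_prod]
    apply Finset.prod_congr rfl
    intro ν _
    rw [Polynomial.map_sub, map_X, map_C]
    rfl
  · rw [hpb]
    conv_lhs => rw [hbs]
    congr 2
    rw [Polynomial.map_prod]
    apply Finset.prod_congr rfl
    intro ν _
    rw [Polynomial.map_sub, map_X, map_C]
    rfl

end Pool.Agent.Q80.Berg
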