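import Mathlib

/-!
# Bessel functions `J_ν` of real order `ν > -1` on the positive half-line

`J ν x = ∑ (-1)^m / (m! Γ(m+ν+1)) (x/2)^{2m+ν}`. Main facts: the first order system
`J_ν' = (ν/x) J_ν - J_{ν+1}`, `J_{ν+1}' = J_ν - ((ν+1)/x) J_{ν+1}`, the recurrence
`J_{ν-1} + J_{ν+1} = (2ν/x) J_ν`, positivity near the origin.
-/

open Filter Topology Set

namespace Q80.Bes

/-! ### Power series with factorially small coefficients -/

/-- `∑ c_m t^m` -/
noncomputable def ser (c : ℕ → ℝ) (t : ℝ) : ℝ := ∑' m, c m * t ^ m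

lemma summable_fac (C t : ℝ) : Summable fun m : ℕ => C / m.factorial * |t| ^ m := by
  have := (Real.summable_pow_div_factorial |t|).mul_left C
  refine this.congr fun m => ?_
  ring

lemma ser_summable {c : ℕ → ℝ} {C : ℝ} (hc : ∀ m, |c m| ≤ C / m.factorial) (t : ℝ) :
    Summable fun m => c m * t ^ m := by
  apply Summable.of_norm_bounded (summable_fac C t)
  intro m
  rw [Real.norm_eq_abs, abs_mul, abs_pow]
  exact mul_le_mul_of_nonneg_right (hc m) (by positivity)

lemma shift_bound {c : ℕ → ℝ} {C : ℝ} (hc : ∀ m, |c m| ≤ C / m.factorial) (m : ℕ) :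
    |((m : ℝ) + 1) * c (m + 1)| ≤ C / m.factorial := by
  rw [abs_mul, abs_of_nonneg (by positivity : (0 : ℝ) ≤ (m : ℝ) + 1)]
  calc ((m : ℝ) + 1) * |c (m + 1)| ≤ ((m : ℝ) + 1) * (C / (m + 1).factorial) := by
        gcongr; exact hc _
    _ = C / m.factorial := by
        rw [Nat.factorial_succ]; push_cast
        have h1 : (m.factorial : ℝ) ≠ 0 := by positivity
        have h2 : (m : ℝ) + 1 ≠ 0 := by positivity
        field_simp

lemma ser_hasDerivAt {c : ℕ → ℝ} {C : ℝ} (hc : ∀ m, |c m| ≤ C / m.factorial) (t : ℝ) :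
    HasDerivAt (ser c) (ser (fun m => ((m : ℝ) + 1) * c (m + 1)) t) t := by
  set R : ℝ := |t| + 1 with hR
  have hR0 : 0 ≤ R := by positivity
  have htb : t ∈ Metric.ball (0 : ℝ) R := by
    rw [Metric.mem_ball, dist_zero_right, Real.norm_eq_abs]; linarith
  have hu : Summable fun n : ℕ => |c n| * (n * R ^ (n - 1)) := by
    rw [← summable_nat_add_iff 1]
    have hs := summable_fac C R
    apply Summable.of_nonneg_of_le (fun n => by positivity) _ hs
    intro n
    have h1 := shift_bound hc n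
    rw [abs_mul, abs_of_nonneg (by positivity : (0 : ℝ) ≤ (n : ℝ) + 1)] at h1
    rw [Nat.add_sub_cancel, abs_of_nonneg hR0]
    push_cast
    calc |c (n + 1)| * (((n : ℝ) + 1) * R ^ n) = (((n : ℝ) + 1) * |c (n + 1)|) * R ^ n := by ring
      _ ≤ C / n.factorial * R ^ n := by gcongr
  have hd := hasDerivAt_tsum_of_isPreconnected (g := fun n (y : ℝ) => c n * y ^ n)
    (g' := fun n (y : ℝ) => c n * (n * y ^ (n - 1))) hu Metric.isOpen_ball
    (convex_ball (0 : ℝ) R).isPreconnected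
    (by
      intro n y _
      exact (hasDerivAt_pow n y).const_mul (c n))
    (by
      intro n y hy
      rw [Metric.mem_ball, dist_zero_right, Real.norm_eq_abs] at hy
      rw [Real.norm_eq_abs, abs_mul, abs_mul, abs_pow, Nat.abs_cast]
      gcongr)
    htb (ser_summable hc t) htb
  have e : (∑' n : ℕ, c n * (n * t ^ (n - 1))) = ser (fun m => ((m : ℝ) + 1) * c (m + 1)) t := by
    have hsum : Summable fun n : ℕ => c n * (n * t ^ (n - 1)) := by
      rw [← summable_nat_add_iff 1]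
      refine (ser_summable (shift_bound hc) t).congr fun m => ?_
      rw [Nat.add_sub_cancel]; push_cast; ring
    rw [hsum.tsum_eq_zero_add]
    simp only [Nat.cast_zero, zero_mul, mul_zero, zero_add]
    unfold ser
    apply tsum_congr
    intro m
    rw [Nat.add_sub_cancel]; push_cast; ring
  rw [e] at hd
  exact hd

/-! ### The Bessel functions -/

/-- the coefficients `(-1)^m / (m! Γ(m+ν+1))` -/
noncomputable def cf (ν : ℝ) (m : ℕ) : ℝ := (-1) ^ m / (m.factorial * Real.Gamma (m + ν + 1))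

/-- The Bessel function of the first kind,
`J_ν(x) = ∑_{m ≥ 0} (-1)^m / (m! Γ(m+ν+1)) (x/2)^{2m+ν}`. -/
noncomputable def J (ν x : ℝ) : ℝ :=
  ∑' m : ℕ, (-1) ^ m / (m.factorial * Real.Gamma (m + ν + 1)) * (x / 2) ^ (2 * (m : ℝ) + ν)

lemma Gamma_lower {ν : ℝ} (hν : -1 < ν) (m : ℕ) :
    min 1 (ν + 1) * Real.Gamma (ν + 1) ≤ Real.Gamma (m + ν + 1) := by
  have hG : 0 < Real.Gamma (ν + 1) := Real.Gamma_pos_of_pos (by linarith)
  rcases Nat.eq_zero_or_pos m with rfl | hm
  · simp only [Nat.cast_zero, zero_add]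
    exact mul_le_of_le_one_left hG.le (min_le_left _ _)
  · have h1 : (ν + 1) * Real.Gamma (ν + 1) ≤ Real.Gamma (m + ν + 1) := by
      induction m with
      | zero => omega
      | succ m ih =>
        rcases Nat.eq_zero_or_pos m with rfl | hm'
        · have : ((0 + 1 : ℕ) : ℝ) + ν + 1 = (ν + 1) + 1 := by push_cast; ring
          rw [this, Real.Gamma_add_one (s := ν + 1) (by linarith)]
        · have h2 := ih hm'
          have : ((m + 1 : ℕ) : ℝ) + ν + 1 = (m + ν + 1) + 1 := by push_cast; ring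
          have hm1 : (1 : ℝ) ≤ m := by exact_mod_cast hm'
          rw [this, Real.Gamma_add_one (s := (m : ℝ) + ν + 1) (by linarith)]
          have h3 : 0 < Real.Gamma (m + ν + 1) := Real.Gamma_pos_of_pos (by linarith)
          have h4 : 1 * Real.Gamma (m + ν + 1) ≤ (m + ν + 1) * Real.Gamma (m + ν + 1) := by
            gcongr; linarith
          linarith
    exact (mul_le_mul_of_nonneg_right (min_le_right _ _) hG.le).trans h1

lemma cf_bound {ν : ℝ} (hν : -1 < ν) (m : ℕ) :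
    |cf ν m| ≤ (1 / (min 1 (ν + 1) * Real.Gamma (ν + 1))) / m.factorial := by
  have hG : 0 < Real.Gamma (ν + 1) := Real.Gamma_pos_of_pos (by linarith)
  have hm0 : 0 < min 1 (ν + 1) := lt_min one_pos (by linarith)
  have hm : 0 < min 1 (ν + 1) * Real.Gamma (ν + 1) := mul_pos hm0 hG
  have h1 := Gamma_lower hν m
  have h2 : 0 < Real.Gamma (m + ν + 1) := lt_of_lt_of_le hm h1
  unfold cf
  rw [abs_div, abs_pow, abs_neg, abs_one, one_pow, abs_of_pos (by positivity), div_div,
    mul_comm (m.factorial : ℝ)]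
  gcongr

lemma cf_deriv (ν : ℝ) (m : ℕ) : ((m : ℝ) + 1) * cf ν (m + 1) = - cf (ν + 1) m := by
  unfold cf
  rw [Nat.factorial_succ]
  have h1 : (m.factorial : ℝ) ≠ 0 := by positivity
  have h2 : (m : ℝ) + 1 ≠ 0 := by positivity
  have e : ((m + 1 : ℕ) : ℝ) + ν + 1 = m + (ν + 1) + 1 := by push_cast; ring
  rw [e, pow_succ]
  push_cast
  by_cases hG : Real.Gamma (m + (ν + 1) + 1) = 0
  · rw [hG]; simp
  · field_simp

/-- `g_ν(t) = ∑ (-1)^m t^m / (m! Γ(m+ν+1))` -/
noncomputable def g (ν t : ℝ) : ℝ := ser (cf ν) t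

lemma g_hasDerivAt {ν : ℝ} (hν : -1 < ν) (t : ℝ) : HasDerivAt (g ν) (-g (ν + 1) t) t := by
  have h := ser_hasDerivAt (cf_bound hν) t
  have e : ser (fun m => ((m : ℝ) + 1) * cf ν (m + 1)) t = - g (ν + 1) t := by
    unfold g ser
    rw [← tsum_neg]
    apply tsum_congr
    intro m
    show ((m : ℝ) + 1) * cf ν (m + 1) * t ^ m = _
    rw [cf_deriv]; ring
  rw [e] at h
  exact h

/-- `g_{ν-1} = ν g_ν - t g_{ν+1}` -/
lemma g_rec {ν : ℝ} (hν : 0 < ν) (t : ℝ) : g (ν - 1) t = ν * g ν t - t * g (ν + 1) t := by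
  have hs1 := ser_summable (cf_bound (by linarith : -1 < ν)) t
  have hs2 : Summable fun m : ℕ => (m : ℝ) * cf ν m * t ^ m := by
    rw [← summable_nat_add_iff 1]
    have := (ser_summable (shift_bound (cf_bound (by linarith : -1 < ν))) t).mul_right t
    refine this.congr fun m => ?_
    push_cast; ring
  have e1 : t * g (ν + 1) t = - ∑' m : ℕ, (m : ℝ) * cf ν m * t ^ m := by
    rw [hs2.tsum_eq_zero_add]
    simp only [Nat.cast_zero, zero_mul, zero_add]
    unfold g ser
    rw [← tsum_mul_left, ← tsum_neg]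
    apply tsum_congr
    intro m
    have := cf_deriv ν m
    push_cast
    rw [this]; ring
  rw [e1, sub_neg_eq_add]
  unfold g ser
  rw [← tsum_mul_left, ← Summable.tsum_add (hs1.mul_left ν) hs2]
  apply tsum_congr
  intro m
  have e2 : cf (ν - 1) m = (m + ν) * cf ν m := by
    unfold cf
    have e3 : (m : ℝ) + (ν - 1) + 1 = m + ν := by ring
    have hpos : (0 : ℝ) < m + ν := by positivity
    have hG : Real.Gamma (m + ν) ≠ 0 := (Real.Gamma_pos_of_pos hpos).ne'
    rw [e3, Real.Gamma_add_one hpos.ne']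
    field_simp
  rw [e2]; ring

lemma J_eq {ν x : ℝ} (hx : 0 < x) : J ν x = (x / 2) ^ ν * g ν (x ^ 2 / 4) := by
  unfold J g ser
  rw [← tsum_mul_left]
  apply tsum_congr
  intro m
  have h2 : 0 < x / 2 := by positivity
  rw [Real.rpow_add h2, Real.rpow_mul h2.le, Real.rpow_natCast]
  have : (x / 2) ^ (2 : ℝ) = x ^ 2 / 4 := by
    rw [show (2 : ℝ) = ((2 : ℕ) : ℝ) by norm_num, Real.rpow_natCast]; ring
  rw [this, cf]; ring

/-- `J_ν' = (ν/x) J_ν - J_{ν+1}` -/
theorem J_hasDerivAt {ν x : ℝ} (hν : -1 < ν) (hx : 0 < x) :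
    HasDerivAt (J ν) (ν / x * J ν x - J (ν + 1) x) x := by
  have heq : J ν =ᶠ[𝓝 x] fun y => (y / 2) ^ ν * g ν (y ^ 2 / 4) := by
    filter_upwards [lt_mem_nhds hx] with y hy
    exact J_eq hy
  have h2 : 0 < x / 2 := by positivity
  have hd1 : HasDerivAt (fun y : ℝ => (y / 2) ^ ν) (1 / 2 * ν * (x / 2) ^ (ν - 1)) x := by
    have := ((hasDerivAt_id x).div_const 2).rpow_const (p := ν) (Or.inl h2.ne')
    simpa using this
  have hd2 : HasDerivAt (fun y : ℝ => g ν (y ^ 2 / 4)) (-g (ν + 1) (x ^ 2 / 4) * (x / 2)) x := by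
    have h3 : HasDerivAt (fun y : ℝ => y ^ 2 / 4) (x / 2) x := by
      refine ((hasDerivAt_pow 2 x).div_const 4).congr_deriv ?_
      push_cast; ring
    exact (g_hasDerivAt hν (x ^ 2 / 4)).comp x h3
  refine ((hd1.mul hd2).congr_of_eventuallyEq heq).congr_deriv ?_
  rw [J_eq hx, J_eq hx, Real.rpow_sub h2, Real.rpow_add h2, Real.rpow_one]
  field_simp
  ring

/-- `J_{ν-1} = (2ν/x) J_ν - J_{ν+1}` -/
theorem J_rec {ν x : ℝ} (hν : 0 < ν) (hx : 0 < x) :
    J (ν - 1) x = 2 * ν / x * J ν x - J (ν + 1) x := by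
  have h2 : 0 < x / 2 := by positivity
  rw [J_eq hx, J_eq hx, J_eq hx, g_rec hν, Real.rpow_sub h2, Real.rpow_add h2, Real.rpow_one]
  field_simp
  ring

/-- `J_{ν+1}' = J_ν - ((ν+1)/x) J_{ν+1}` -/
theorem J_succ_hasDerivAt {ν x : ℝ} (hν : -1 < ν) (hx : 0 < x) :
    HasDerivAt (J (ν + 1)) (J ν x - (ν + 1) / x * J (ν + 1) x) x := by
  have h := J_hasDerivAt (ν := ν + 1) (by linarith) hx
  have h2 := J_rec (ν := ν + 1) (by linarith) hx
  rw [add_sub_cancel_right] at h2
  have e : (ν + 1) / x * J (ν + 1) x - J (ν + 1 + 1) x = J ν x - (ν + 1) / x * J (ν + 1) x := by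
    rw [h2]; ring
  rw [e] at h
  exact h

/-- `J_ν > 0` on `(0, 3/2]` for `ν ≥ 0`. -/
theorem J_pos {ν x : ℝ} (hν : 0 ≤ ν) (hx : 0 < x) (hx1 : x ≤ 3 / 2) : 0 < J ν x := by
  rw [J_eq hx]
  apply mul_pos (by positivity)
  set t : ℝ := x ^ 2 / 4 with ht
  have ht0 : 0 ≤ t := by positivity
  have ht1 : t ≤ 9 / 16 := by rw [ht]; nlinarith
  have hG : 0 < Real.Gamma (ν + 1) := Real.Gamma_pos_of_pos (by linarith)
  have hs := ser_summable (cf_bound (by linarith : -1 < ν)) t
  unfold g ser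
  rw [hs.tsum_eq_zero_add]
  have hc0 : cf ν 0 = 1 / Real.Gamma (ν + 1) := by simp [cf]
  rw [hc0, pow_zero, mul_one]
  have hb : ∀ m : ℕ, |cf ν (m + 1) * t ^ (m + 1)| ≤
      1 / Real.Gamma (ν + 1) * (t ^ (m + 1) / (m + 1).factorial) := by
    intro m
    have h1 := cf_bound (by linarith : -1 < ν) (m + 1)
    rw [min_eq_left (by linarith : (1 : ℝ) ≤ ν + 1), one_mul] at h1
    rw [abs_mul, abs_of_nonneg (by positivity : 0 ≤ t ^ (m + 1))]
    calc |cf ν (m + 1)| * t ^ (m + 1) ≤ 1 / Real.Gamma (ν + 1) / (m + 1).factorial * t ^ (m + 1) := by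
          gcongr
      _ = _ := by ring
  have hexp : HasSum (fun m : ℕ => t ^ (m + 1) / (m + 1).factorial) (Real.exp t - 1) := by
    have h1 : HasSum (fun m : ℕ => t ^ m / m.factorial) (Real.exp t) := by
      rw [Real.exp_eq_exp_ℝ]
      exact NormedSpace.expSeries_div_hasSum_exp t
    exact (hasSum_nat_add_iff (f := fun m : ℕ => t ^ m / (m.factorial : ℝ)) 1).2
      (by simpa using h1)
  have hle : |∑' m : ℕ, cf ν (m + 1) * t ^ (m + 1)| ≤ 1 / Real.Gamma (ν + 1) * (Real.exp t - 1) := by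
    have hs2 := (hexp.mul_left (1 / Real.Gamma (ν + 1)))
    have := tsum_of_norm_bounded hs2 (fun m => by rw [Real.norm_eq_abs]; exact hb m)
    rwa [Real.norm_eq_abs] at this
  have hexp2 : Real.exp t - 1 < 1 := by
    have h1 : Real.exp t ≤ Real.exp (9 / 16) := Real.exp_le_exp.2 ht1
    have h2 : Real.exp (9 / 16) < 2 := by
      have h3 := Real.exp_bound' (x := 9 / 16) (by norm_num) (by norm_num) (n := 6) (by norm_num)
      refine lt_of_le_of_lt h3 ?_
      norm_num [Finset.sum_range_succ, Nat.factorial]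
    linarith
  have h5 := neg_le_of_abs_le hle
  have h6 : 1 / Real.Gamma (ν + 1) * (Real.exp t - 1) < 1 / Real.Gamma (ν + 1) := by
    apply mul_lt_of_lt_one_right (by positivity) hexp2
  linarith

end Q80.Bes
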