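import Mathlib

/-! Real-rooted real polynomials: factorisation and closedness under limits. -/

open Polynomial Filter Topology

namespace Q80.RR

/-- all complex zeros are real (the zero polynomial is allowed) -/
def OnlyReal (p : ℝ[X]) : Prop := p = 0 ∨ ∀ z : ℂ, aeval z p = 0 → z.im = 0

lemma aeval_ofReal (x : ℝ) (p : ℝ[X]) : aeval (x : ℂ) p = ((p.eval x : ℝ) : ℂ) := by
  rw [← Complex.coe_algebraMap, aeval_algebraMap_apply]
  simp

/-- A real polynomial with only real zeros is a product of linear factors. -/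
lemma exists_factor (P : ℝ[X]) (h : ∀ z : ℂ, aeval z P = 0 → z.im = 0) :
    ∃ s : Multiset ℝ, s.card = P.natDegree ∧
      P = C P.leadingCoeff * (s.map (fun r => X - C r)).prod := by
  induction hn : P.natDegree using Nat.strong_induction_on generalizing P with
  | _ n ih =>
    by_cases hd : n = 0
    · refine ⟨0, by simp [hd], ?_⟩
      rw [hd] at hn
      have := eq_C_of_natDegree_eq_zero hn
      rw [this]
      simp
    · have hdeg : (P.map (algebraMap ℝ ℂ)).degree ≠ 0 := by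
        rw [degree_map]
        intro h0
        exact hd (hn ▸ natDegree_eq_of_degree_eq_some h0)
      obtain ⟨z, hz⟩ := IsAlgClosed.exists_root _ hdeg
      have hz' : aeval z P = 0 := by
        rw [IsRoot.def, eval_map] at hz
        simpa [aeval_def] using hz
      have him := h z hz'
      have hre : (z.re : ℂ) = z := Complex.ext (by simp) (by simp [him])
      have hroot : P.eval z.re = 0 := by
        have : aeval ((z.re : ℝ) : ℂ) P = 0 := by rw [hre]; exact hz'
        rw [aeval_ofReal] at this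
        exact_mod_cast this
      obtain ⟨Q, hQ⟩ := dvd_iff_isRoot.mpr hroot
      have hP0 : P ≠ 0 := by rintro rfl; simp at hn; exact hd hn.symm
      have hQ0 : Q ≠ 0 := by rintro rfl; simp at hQ; exact hP0 hQ
      have hdegQ : Q.natDegree + 1 = n := by
        rw [← hn, hQ, natDegree_mul (X_sub_C_ne_zero _) hQ0, natDegree_X_sub_C, add_comm]
      obtain ⟨s, hs, hQs⟩ := ih Q.natDegree (by omega) Q (fun w hw => h w (by
        rw [hQ, map_mul, hw, mul_zero])) rfl
      refine ⟨z.re ::ₘ s, by rw [Multiset.card_cons, hs, hdegQ], ?_⟩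
      rw [Multiset.map_cons, Multiset.prod_cons]
      have hlc : P.leadingCoeff = Q.leadingCoeff := by
        rw [hQ, leadingCoeff_mul, leadingCoeff_X_sub_C, one_mul]
      rw [hlc]
      conv_lhs => rw [hQ, hQs]
      ring

lemma norm_aeval_prod (s : Multiset ℝ) (z : ℂ) :
    ‖aeval z (s.map (fun r => (X - C r : ℝ[X]))).prod‖ = (s.map fun r : ℝ => ‖z - (r : ℂ)‖).prod := by
  induction s using Multiset.induction with
  | empty => simp
  | cons a s ih =>
    rw [Multiset.map_cons, Multiset.prod_cons, map_mul, norm_mul, ih, Multiset.map_cons,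
      Multiset.prod_cons]
    simp

lemma prod_ratio (s : Multiset ℝ) (x y Y : ℝ) (hy : 0 ≤ y) (hyY : y ≤ Y) :
    y ^ s.card * (s.map fun r : ℝ => ‖(⟨x, Y⟩ : ℂ) - (r : ℂ)‖).prod ≤
      Y ^ s.card * (s.map fun r : ℝ => ‖(⟨x, y⟩ : ℂ) - (r : ℂ)‖).prod := by
  induction s using Multiset.induction with
  | empty => simp
  | cons a s ih =>
    have key : y * ‖(⟨x, Y⟩ : ℂ) - (a : ℂ)‖ ≤ Y * ‖(⟨x, y⟩ : ℂ) - (a : ℂ)‖ := by
      have hY : 0 ≤ Y := hy.trans hyY
      have e1 : ‖(⟨x, Y⟩ : ℂ) - (a : ℂ)‖ = Real.sqrt ((x - a) ^ 2 + Y ^ 2) := by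
        rw [Complex.norm_eq_sqrt_sq_add_sq]; simp
      have e2 : ‖(⟨x, y⟩ : ℂ) - (a : ℂ)‖ = Real.sqrt ((x - a) ^ 2 + y ^ 2) := by
        rw [Complex.norm_eq_sqrt_sq_add_sq]; simp
      rw [e1, e2]
      have h1 : y * Real.sqrt ((x - a) ^ 2 + Y ^ 2) =
          Real.sqrt (y ^ 2 * ((x - a) ^ 2 + Y ^ 2)) := by
        rw [Real.sqrt_mul (sq_nonneg _), Real.sqrt_sq hy]
      have h2 : Y * Real.sqrt ((x - a) ^ 2 + y ^ 2) =
          Real.sqrt (Y ^ 2 * ((x - a) ^ 2 + y ^ 2)) := by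
        rw [Real.sqrt_mul (sq_nonneg _), Real.sqrt_sq hY]
      rw [h1, h2]
      apply Real.sqrt_le_sqrt
      have : y ^ 2 ≤ Y ^ 2 := by gcongr
      nlinarith [mul_le_mul_of_nonneg_right this (sq_nonneg (x - a))]
    rw [Multiset.map_cons, Multiset.prod_cons, Multiset.map_cons, Multiset.prod_cons,
      Multiset.card_cons, pow_succ, pow_succ]
    calc y ^ s.card * y * (‖(⟨x, Y⟩ : ℂ) - (a : ℂ)‖ * (s.map fun r : ℝ => ‖(⟨x, Y⟩ : ℂ) - (r : ℂ)‖).prod)
        = (y * ‖(⟨x, Y⟩ : ℂ) - (a : ℂ)‖) *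
          (y ^ s.card * (s.map fun r : ℝ => ‖(⟨x, Y⟩ : ℂ) - (r : ℂ)‖).prod) := by ring
      _ ≤ (Y * ‖(⟨x, y⟩ : ℂ) - (a : ℂ)‖) *
          (Y ^ s.card * (s.map fun r : ℝ => ‖(⟨x, y⟩ : ℂ) - (r : ℂ)‖).prod) := by
          apply mul_le_mul key ih
          · apply mul_nonneg (pow_nonneg hy _)
            apply Multiset.prod_nonneg
            intro b hb
            obtain ⟨r, -, rfl⟩ := Multiset.mem_map.1 hb
            exact norm_nonneg _
          · exact mul_nonneg (hy.trans hyY) (norm_nonneg _)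
      _ = _ := by ring

lemma norm_ratio {P : ℝ[X]} (h : OnlyReal P) {n : ℕ} (hn : P.natDegree ≤ n) (x y Y : ℝ)
    (hy : 0 ≤ y) (hyY : y ≤ Y) :
    y ^ n * ‖aeval (⟨x, Y⟩ : ℂ) P‖ ≤ Y ^ n * ‖aeval (⟨x, y⟩ : ℂ) P‖ := by
  rcases h with h | h
  · rw [h]; simp
  · obtain ⟨s, hs, hP⟩ := exists_factor P h
    have hY : 0 ≤ Y := hy.trans hyY
    rw [hP, map_mul, map_mul, norm_mul, norm_mul, norm_aeval_prod, norm_aeval_prod]
    have h1 := prod_ratio s x y Y hy hyY
    have h2 : n = s.card + (n - s.card) := by omega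
    rw [h2, pow_add, pow_add]
    have h3 : y ^ (n - s.card) ≤ Y ^ (n - s.card) := by gcongr
    have h5 : ‖aeval (⟨x, Y⟩ : ℂ) (C P.leadingCoeff)‖ = |P.leadingCoeff| := by simp
    have h6 : ‖aeval (⟨x, y⟩ : ℂ) (C P.leadingCoeff)‖ = |P.leadingCoeff| := by simp
    rw [h5, h6]
    have hnn : 0 ≤ (s.map fun r : ℝ => ‖(⟨x, y⟩ : ℂ) - (r : ℂ)‖).prod := by
      apply Multiset.prod_nonneg
      intro b hb
      obtain ⟨r, -, rfl⟩ := Multiset.mem_map.1 hb
      exact norm_nonneg _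
    calc y ^ s.card * y ^ (n - s.card) *
          (|P.leadingCoeff| * (s.map fun r : ℝ => ‖(⟨x, Y⟩ : ℂ) - (r : ℂ)‖).prod)
        = |P.leadingCoeff| * ((y ^ (n - s.card)) *
          (y ^ s.card * (s.map fun r : ℝ => ‖(⟨x, Y⟩ : ℂ) - (r : ℂ)‖).prod)) := by ring
      _ ≤ |P.leadingCoeff| * ((Y ^ (n - s.card)) *
          (Y ^ s.card * (s.map fun r : ℝ => ‖(⟨x, y⟩ : ℂ) - (r : ℂ)‖).prod)) := by
          apply mul_le_mul_of_nonneg_left _ (abs_nonneg _)
          apply mul_le_mul h3 h1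
          · apply mul_nonneg (pow_nonneg hy _)
            apply Multiset.prod_nonneg
            intro b hb
            obtain ⟨r, -, rfl⟩ := Multiset.mem_map.1 hb
            exact norm_nonneg _
          · positivity
      _ = _ := by ring

lemma aeval_conj (p : ℝ[X]) (z : ℂ) :
    aeval ((starRingEnd ℂ) z) p = (starRingEnd ℂ) (aeval z p) := by
  rw [aeval_def, aeval_def, eval₂_eq_sum_range, eval₂_eq_sum_range, map_sum]
  apply Finset.sum_congr rfl
  intro i _
  simp

/-- Limits of real-rooted polynomials of bounded degree are real-rooted. -/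
theorem onlyReal_of_tendsto {ι : Type*} {l : Filter ι} [NeBot l] {P : ι → ℝ[X]} {Q : ℝ[X]}
    (n : ℕ) (hdeg : ∀ᶠ i in l, (P i).natDegree ≤ n) (hP : ∀ᶠ i in l, OnlyReal (P i))
    (hlim : ∀ z : ℂ, Tendsto (fun i => aeval z (P i)) l (𝓝 (aeval z Q))) : OnlyReal Q := by
  by_cases hQ : Q = 0
  · exact Or.inl hQ
  right
  have key : ∀ x y Y : ℝ, 0 ≤ y → y ≤ Y →
      y ^ n * ‖aeval (⟨x, Y⟩ : ℂ) Q‖ ≤ Y ^ n * ‖aeval (⟨x, y⟩ : ℂ) Q‖ := by
    intro x y Y hy hyY
    refine le_of_tendsto_of_tendsto ((hlim _).norm.const_mul (y ^ n))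
      ((hlim _).norm.const_mul (Y ^ n)) ?_
    filter_upwards [hdeg, hP] with i h1 h2
    exact norm_ratio h2 h1 x y Y hy hyY
  have main : ∀ z : ℂ, aeval z Q = 0 → ¬ 0 < z.im := by
    intro z hz hpos
    apply hQ
    have hinf : ∀ k : ℕ, aeval (⟨z.re, z.im + k⟩ : ℂ) Q = 0 := by
      intro k
      have h1 := key z.re z.im (z.im + k) hpos.le (by linarith [(Nat.cast_nonneg k : (0:ℝ) ≤ k)])
      have h2 : (⟨z.re, z.im⟩ : ℂ) = z := rfl
      rw [h2, hz, norm_zero, mul_zero] at h1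
      have h3 : 0 < z.im ^ n := pow_pos hpos n
      have h4 : ‖aeval (⟨z.re, z.im + k⟩ : ℂ) Q‖ ≤ 0 := by
        by_contra hcon
        push Not at hcon
        have := mul_pos h3 hcon
        linarith
      exact norm_le_zero_iff.1 h4
    have hmap : Q.map (algebraMap ℝ ℂ) = 0 := by
      apply eq_zero_of_infinite_isRoot
      apply Set.infinite_of_injective_forall_mem (f := fun k : ℕ => (⟨z.re, z.im + k⟩ : ℂ))
      · intro a b hab
        have := congrArg Complex.im hab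
        simpa using this
      · intro k
        change (Q.map (algebraMap ℝ ℂ)).IsRoot _
        rw [IsRoot.def, eval_map_algebraMap]
        exact hinf k
    exact (Polynomial.map_eq_zero _).1 hmap
  intro z hz
  rcases lt_trichotomy z.im 0 with h | h | h
  · exfalso
    apply main ((starRingEnd ℂ) z)
    · rw [aeval_conj, hz, map_zero]
    · simpa using h
  · exact h
  · exact absurd h (main z hz)

end Q80.RR
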