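import Mathlib
import Pool.Agent.Q80.RR

/-!
# Real-rooted polynomials: derivatives and the Laguerre inequality
-/

open Polynomial

namespace Q80.RR

lemma inv_im_neg {z : ℂ} (hz : 0 < z.im) (r : ℝ) : ((z - r)⁻¹).im < 0 := by
  rw [Complex.inv_im]
  apply div_neg_of_neg_of_pos
  · simp [hz]
  · apply Complex.normSq_pos.2
    intro h
    have := congrArg Complex.im h
    simp at this
    linarith

lemma sub_ne {z : ℂ} (hz : 0 < z.im) (r : ℝ) : z - r ≠ 0 := by
  intro h
  have := congrArg Complex.im h
  simp at this
  linarith

lemma derivs (s : Multiset ℝ) {z : ℂ} (hz : 0 < z.im) :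
    let g : ℝ[X] := (s.map (fun r => X - C r)).prod
    aeval z g ≠ 0 ∧
    aeval z (derivative g) = aeval z g * (s.map fun r : ℝ => (z - r)⁻¹).sum := by
  induction s using Multiset.induction with
  | empty => simp
  | cons a s ih =>
    obtain ⟨h1, h2⟩ := ih
    simp only [Multiset.map_cons, Multiset.prod_cons, Multiset.sum_cons]
    set g : ℝ[X] := (s.map (fun r => X - C r)).prod
    have ha := sub_ne hz a
    have e1 : aeval z (X - C a : ℝ[X]) = z - a := by simp
    have d1 : derivative ((X - C a) * g) = g + (X - C a) * derivative g := by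
      rw [derivative_mul, derivative_X_sub_C, one_mul]
    refine ⟨?_, ?_⟩
    · rw [map_mul, e1]; exact mul_ne_zero ha h1
    · rw [d1, map_add, map_mul, map_mul, e1, h2]
      field_simp

lemma onlyReal_of_upper {p : ℝ[X]} (h : ∀ z : ℂ, 0 < z.im → aeval z p ≠ 0) : OnlyReal p := by
  right
  intro z hz
  rcases lt_trichotomy z.im 0 with h1 | h1 | h1
  · exfalso
    apply h (starRingEnd ℂ z) (by simpa using h1)
    rw [aeval_conj, hz, map_zero]
  · exact h1
  · exact absurd hz (h z h1)

/-- derivatives of real-rooted polynomials are real-rooted -/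
theorem onlyReal_derivative {p : ℝ[X]} (h : OnlyReal p) : OnlyReal (derivative p) := by
  rcases h with rfl | hr
  · left; simp
  by_cases hd : derivative p = 0
  · exact Or.inl hd
  obtain ⟨s, hs, hfac⟩ := exists_factor p hr
  apply onlyReal_of_upper
  intro z hz
  obtain ⟨h1, h2⟩ := derivs s hz
  have hs0 : s ≠ 0 := by
    rintro rfl
    apply hd
    rw [hfac]; simp
  rw [hfac, derivative_C_mul, map_mul, h2]
  apply mul_ne_zero
  · rw [aeval_C, Complex.coe_algebraMap]
    have : p.leadingCoeff ≠ 0 := by
      intro h0
      apply hd
      rw [leadingCoeff_eq_zero.1 h0]; simp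
    exact_mod_cast this
  · apply mul_ne_zero h1
    intro hzero
    have him := congrArg Complex.im hzero
    have hneg : ∀ t : Multiset ℝ, t ≠ 0 → ((t.map fun r : ℝ => (z - r)⁻¹).sum).im < 0 := by
      intro t
      induction t using Multiset.induction with
      | empty => intro h; exact absurd rfl h
      | cons a t ih =>
        intro _
        rw [Multiset.map_cons, Multiset.sum_cons, Complex.add_im]
        have h3 := inv_im_neg hz a
        rcases eq_or_ne t 0 with rfl | ht
        · simpa using h3
        · linarith [ih ht]
    have := hneg s hs0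
    rw [him] at this
    simp at this

theorem onlyReal_iterate_derivative {p : ℝ[X]} (h : OnlyReal p) (m : ℕ) :
    OnlyReal (derivative^[m] p) := by
  induction m with
  | zero => exact h
  | succ m ih => rw [Function.iterate_succ_apply']; exact onlyReal_derivative ih

theorem onlyReal_mul {p q : ℝ[X]} (hp : OnlyReal p) (hq : OnlyReal q) : OnlyReal (p * q) := by
  rcases hp with rfl | hp
  · left; simp
  rcases hq with rfl | hq
  · left; simp
  right
  intro z hz
  rw [map_mul] at hz
  rcases mul_eq_zero.1 hz with h | h
  · exact hp z h
  · exact hq z h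

lemma laguerre_prod (s : Multiset ℝ) (x : ℝ) :
    let g : ℝ[X] := (s.map (fun r => X - C r)).prod
    g.eval x * (derivative (derivative g)).eval x ≤ (derivative g).eval x ^ 2 := by
  induction s using Multiset.induction with
  | empty => simp
  | cons a s ih =>
    simp only [Multiset.map_cons, Multiset.prod_cons]
    simp only at ih
    set g : ℝ[X] := (s.map (fun r => X - C r)).prod
    have d1 : derivative ((X - C a) * g) = g + (X - C a) * derivative g := by
      rw [derivative_mul, derivative_X_sub_C, one_mul]
    have d2 : derivative (derivative ((X - C a) * g)) =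
        C 2 * derivative g + (X - C a) * derivative (derivative g) := by
      rw [d1, derivative_add, derivative_mul, derivative_X_sub_C, one_mul, map_ofNat]; ring
    rw [d2, d1]
    simp only [eval_add, eval_mul, eval_sub, eval_X, eval_C]
    nlinarith [mul_le_mul_of_nonneg_left ih (sq_nonneg (x - a)), sq_nonneg (g.eval x)]

/-- Laguerre's inequality `p p'' ≤ p'^2` on the real line. -/
theorem laguerre {p : ℝ[X]} (h : OnlyReal p) (x : ℝ) :
    p.eval x * (derivative (derivative p)).eval x ≤ (derivative p).eval x ^ 2 := by
  rcases h with rfl | hr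
  · simp
  obtain ⟨s, hs, hfac⟩ := exists_factor p hr
  have h1 := laguerre_prod s x
  simp only at h1
  rw [hfac]
  simp only [derivative_C_mul, eval_mul, eval_C]
  nlinarith [mul_le_mul_of_nonneg_left h1 (sq_nonneg p.leadingCoeff)]

end Q80.RR
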