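import Mathlib
import Pool.Agent.Q80.RR2

/-!
# Multiplier sequences and the Schur composition
-/

open Polynomial Filter Topology

namespace Q80.RR

/-- `∑ a_k x^k ↦ ∑ γ_k a_k x^k` -/
noncomputable def hm (γ : ℕ → ℝ) (p : ℝ[X]) : ℝ[X] :=
  ∑ k ∈ Finset.range (p.natDegree + 1), monomial k (γ k * p.coeff k)

lemma coeff_hm (γ : ℕ → ℝ) (p : ℝ[X]) (k : ℕ) : (hm γ p).coeff k = γ k * p.coeff k := by
  unfold hm
  rw [finsetSum_coeff]
  simp only [coeff_monomial]
  rw [Finset.sum_ite_eq']
  split_ifs with h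
  · rfl
  · rw [Finset.mem_range] at h
    rw [coeff_eq_zero_of_natDegree_lt (by omega), mul_zero]

lemma hm_natDegree_le (γ : ℕ → ℝ) (p : ℝ[X]) : (hm γ p).natDegree ≤ p.natDegree := by
  rw [natDegree_le_iff_coeff_eq_zero]
  intro k hk
  rw [coeff_hm, coeff_eq_zero_of_natDegree_lt hk, mul_zero]

lemma aeval_hm (γ : ℕ → ℝ) (p : ℝ[X]) (z : ℂ) :
    aeval z (hm γ p) = ∑ k ∈ Finset.range (p.natDegree + 1), ((γ k * p.coeff k : ℝ) : ℂ) * z ^ k := by
  unfold hm
  rw [map_sum]
  apply Finset.sum_congr rfl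
  intro k _
  rw [aeval_monomial, Complex.coe_algebraMap]

lemma hm_hm (γ δ : ℕ → ℝ) (p : ℝ[X]) : hm γ (hm δ p) = hm (fun k => γ k * δ k) p := by
  ext k
  rw [coeff_hm, coeff_hm, coeff_hm, mul_assoc]

lemma hm_one (p : ℝ[X]) : hm (fun _ => 1) p = p := by
  ext k; rw [coeff_hm, one_mul]

/-- `γ` is a multiplier sequence -/
def MS (γ : ℕ → ℝ) : Prop := ∀ p : ℝ[X], OnlyReal p → OnlyReal (hm γ p)

lemma ms_mul {γ δ : ℕ → ℝ} (hγ : MS γ) (hδ : MS δ) : MS (fun k => γ k * δ k) := by
  intro p hp
  rw [← hm_hm]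
  exact hγ _ (hδ _ hp)

lemma onlyReal_C_mul {c : ℝ} {p : ℝ[X]} (h : OnlyReal p) : OnlyReal (C c * p) := by
  by_cases hc : c = 0
  · left; rw [hc]; simp
  rcases h with rfl | h
  · left; simp
  · right
    intro z hz
    rw [map_mul, aeval_C, Complex.coe_algebraMap] at hz
    rcases mul_eq_zero.1 hz with h1 | h1
    · exact absurd (by exact_mod_cast h1) hc
    · exact h z h1

lemma ms_const_mul {γ : ℕ → ℝ} (hγ : MS γ) (c : ℝ) : MS (fun k => c * γ k) := by
  intro p hp
  have : hm (fun k => c * γ k) p = C c * hm γ p := by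
    ext k; rw [coeff_C_mul, coeff_hm, coeff_hm, mul_assoc]
  rw [this]
  exact onlyReal_C_mul (hγ p hp)

lemma onlyReal_comp_C_mul {c : ℝ} {p : ℝ[X]} (h : OnlyReal p) : OnlyReal (p.comp (C c * X)) := by
  by_cases hc : c = 0
  · rw [hc]
    simp only [C_0, zero_mul]
    rw [comp_zero]
    by_cases h0 : p.eval 0 = 0
    · left; rw [h0]; simp
    · right
      intro z hz
      rw [aeval_C, Complex.coe_algebraMap] at hz
      exact absurd (by exact_mod_cast hz) h0
  rcases h with rfl | h
  · left; simp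
  · right
    intro z hz
    rw [aeval_comp, map_mul, aeval_C, aeval_X, Complex.coe_algebraMap] at hz
    have := h _ hz
    rw [Complex.im_ofReal_mul] at this
    rw [mul_eq_zero] at this
    rcases this with h1 | h1
    · exact absurd h1 hc
    · exact h1

lemma ms_pow (c : ℝ) : MS (fun k => c ^ k) := by
  intro p hp
  have : hm (fun k => c ^ k) p = p.comp (C c * X) := by
    ext k
    rw [coeff_hm, comp_C_mul_X_coeff, mul_comm]
  rw [this]
  exact onlyReal_comp_C_mul hp

lemma onlyReal_of_X_pow_mul {m : ℕ} {q : ℝ[X]} (h : OnlyReal (X ^ m * q)) : OnlyReal q := by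
  rcases h with h | h
  · left
    exact (mul_eq_zero.1 h).resolve_left (pow_ne_zero _ X_ne_zero)
  · right
    intro z hz
    exact h z (by rw [map_mul, hz, mul_zero])

lemma onlyReal_X_pow (m : ℕ) : OnlyReal (X ^ m : ℝ[X]) := by
  right
  intro z hz
  rw [map_pow, aeval_X] at hz
  rw [eq_zero_of_pow_eq_zero hz]; simp

lemma ms_add (j : ℕ) : MS (fun k => (k : ℝ) + j) := by
  intro p hp
  rcases j with _ | j
  · have : hm (fun k => (k : ℝ) + (0 : ℕ)) p = X ^ 1 * derivative p := by
      ext k
      rw [coeff_hm, pow_one]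
      rcases k with _ | k
      · simp
      · rw [coeff_X_mul, coeff_derivative]; push_cast; ring
    rw [this]
    exact onlyReal_mul (onlyReal_X_pow 1) (onlyReal_derivative hp)
  · apply onlyReal_of_X_pow_mul (m := j)
    have : X ^ j * hm (fun k => (k : ℝ) + (j + 1 : ℕ)) p = derivative (X ^ (j + 1) * p) := by
      have h1 : X * hm (fun k => (k : ℝ) + (j + 1 : ℕ)) p = X * (C ((j + 1 : ℕ) : ℝ) * p + X * derivative p) := by
        congr 1
        ext k
        rw [coeff_hm, coeff_add, coeff_C_mul]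
        rcases k with _ | k
        · simp
        · rw [coeff_X_mul, coeff_derivative]; push_cast; ring
      have h2 := mul_left_cancel₀ X_ne_zero h1
      rw [h2, derivative_mul, derivative_X_pow]
      simp only [Nat.add_sub_cancel]
      push_cast
      ring
    rw [this]
    exact onlyReal_derivative (onlyReal_mul (onlyReal_X_pow _) hp)

lemma ms_of_tendsto {γ : ℕ → ℕ → ℝ} {δ : ℕ → ℝ} (h : ∀ N, MS (γ N))
    (hlim : ∀ k, Tendsto (fun N => γ N k) atTop (𝓝 (δ k))) : MS δ := by
  intro p hp
  refine onlyReal_of_tendsto (l := (atTop : Filter ℕ)) (P := fun N => hm (γ N) p) p.natDegree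
    (Eventually.of_forall fun N => hm_natDegree_le _ _) (Eventually.of_forall fun N => h N p hp) ?_
  intro z
  simp only [aeval_hm]
  apply tendsto_finsetSum
  intro k _
  apply Tendsto.mul_const
  exact (Complex.continuous_ofReal.tendsto _).comp ((hlim k).mul_const _)

/-- `1/k!` is a multiplier sequence -/
theorem ms_inv_factorial : MS (fun k => 1 / (k.factorial : ℝ)) := by
  have h1 : ∀ N : ℕ, MS (fun k => ∏ j ∈ Finset.range N, ((k : ℝ) + (j + 1 : ℕ))) := by
    intro N
    induction N with
    | zero => simp only [Finset.range_zero, Finset.prod_empty]; intro p hp; rw [hm_one]; exact hp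
    | succ N ih =>
      simp only [Finset.prod_range_succ]
      exact ms_mul ih (ms_add (N + 1))
  have h2 : ∀ N : ℕ, MS (fun k => (1 / (N.factorial : ℝ)) * (((1 / (N : ℝ)) ^ k) *
      ∏ j ∈ Finset.range N, ((k : ℝ) + (j + 1 : ℕ)))) :=
    fun N => ms_const_mul (ms_mul (ms_pow _) (h1 N)) _
  refine ms_of_tendsto h2 ?_
  intro k
  induction k with
  | zero =>
    have : ∀ N : ℕ, ∏ j ∈ Finset.range N, (((0 : ℕ) : ℝ) + (j + 1 : ℕ)) = N.factorial := by
      intro N
      rw [← Finset.prod_range_add_one_eq_factorial]; push_cast; simp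
    simp only [this]
    apply tendsto_const_nhds.congr
    intro N
    have : (N.factorial : ℝ) ≠ 0 := by positivity
    simp [this]
  | succ k ih =>
    -- ratio (N + k + 1) / (N (k + 1))
    have h3 : Tendsto (fun N : ℕ => ((N : ℝ) + k + 1) / (N * (k + 1))) atTop (𝓝 (1 / (k + 1))) := by
      have h4 : Tendsto (fun N : ℕ => (1 : ℝ) / (k + 1) + 1 / (N : ℝ)) atTop (𝓝 (1 / (k + 1) + 0)) :=
        tendsto_const_nhds.add tendsto_one_div_atTop_nhds_zero_nat
      rw [add_zero] at h4
      refine h4.congr' ?_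
      filter_upwards [eventually_gt_atTop 0] with N hN
      have : (N : ℝ) ≠ 0 := by positivity
      field_simp
      ring
    have h5 := ih.mul h3
    have h6 : (1 : ℝ) / (k.factorial : ℝ) * (1 / (k + 1)) = 1 / ((k + 1).factorial : ℝ) := by
      rw [Nat.factorial_succ]; push_cast; field_simp
    rw [h6] at h5
    refine h5.congr' ?_
    filter_upwards [eventually_gt_atTop 0] with N hN
    have hN0 : (N : ℝ) ≠ 0 := by positivity
    have h7 : ∀ M : ℕ, (∏ j ∈ Finset.range M, ((k : ℝ) + (j + 1 : ℕ))) * ((M : ℝ) + k + 1) =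
        (∏ j ∈ Finset.range M, (((k + 1 : ℕ) : ℝ) + (j + 1 : ℕ))) * (k + 1) := by
      intro M
      induction M with
      | zero => simp
      | succ M ihM =>
        rw [Finset.prod_range_succ, Finset.prod_range_succ]
        push_cast at ihM ⊢
        linear_combination ((k : ℝ) + (M + 1 + 1)) * ihM
    have h8 := h7 N
    have h9 : ((N : ℝ) * (k + 1)) ≠ 0 := by positivity
    rw [pow_succ]
    have h10 : (∏ j ∈ Finset.range N, (((k + 1 : ℕ) : ℝ) + (j + 1 : ℕ))) =
        (∏ j ∈ Finset.range N, ((k : ℝ) + (j + 1 : ℕ))) * ((N : ℝ) + k + 1) / (k + 1) := by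
      rw [h8]; field_simp
    rw [h10]
    field_simp


/-! ### Schur's composition theorem -/

/-- one step -/
lemma good_step {F H : ℂ[X]} (hF0 : F ≠ 0) (hF : ∀ y : ℂ, F.eval y = 0 → y.im = 0)
    (hH : ∀ y : ℂ, 0 ≤ y.im → F.eval y ≠ 0 → H.eval y ≠ 0) {β : ℝ} (hβ : 0 < β) {z : ℂ}
    (hz : 0 < z.im) :
    ∀ y : ℂ, 0 ≤ y.im → F.eval y ≠ 0 → (z • derivative H + (β : ℂ) • H).eval y ≠ 0 := by
  intro y hy hFy
  have hHy := hH y hy hFy
  have hroots : ∀ w ∈ H.roots, w.im ≤ 0 := by
    intro w hw
    by_contra hcon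
    push Not at hcon
    have h1 : F.eval w ≠ 0 := fun h => by rw [hF w h] at hcon; exact lt_irrefl _ hcon
    exact hH w hcon.le h1 ((mem_roots'.1 hw).2)
  have h1 := (IsAlgClosed.splits H).eval_derivative_eq_eval_mul_sum hHy
  have hsum : ∀ s : Multiset ℂ, (∀ w ∈ s, w.im ≤ 0) → ((s.map fun w => 1 / (y - w)).sum).im ≤ 0 := by
    intro s
    induction s using Multiset.induction with
    | empty => intro _; simp
    | cons a s ih =>
      intro hs
      rw [Multiset.map_cons, Multiset.sum_cons, Complex.add_im]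
      have h2 := ih (fun w hw => hs w (Multiset.mem_cons_of_mem hw))
      have h3 : (1 / (y - a)).im ≤ 0 := by
        rw [one_div, Complex.inv_im]
        have h4 : 0 ≤ (y - a).im := by
          rw [Complex.sub_im]; linarith [hs a (Multiset.mem_cons_self _ _)]
        rw [neg_div]
        have := div_nonneg h4 (Complex.normSq_nonneg (y - a))
        linarith
      linarith
  have h2 := hsum _ hroots
  rw [eval_add, eval_smul, eval_smul, h1, smul_eq_mul, smul_eq_mul]
  intro h0
  have hz0 : z ≠ 0 := by rintro rfl; simp at hz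
  have h3 : (β : ℂ) / z + (H.roots.map fun w => 1 / (y - w)).sum = 0 := by
    have : H.eval y * z * ((β : ℂ) / z + (H.roots.map fun w => 1 / (y - w)).sum) = 0 := by
      rw [← h0]; field_simp; ring
    rcases mul_eq_zero.1 this with h4 | h4
    · exact absurd h4 (mul_ne_zero hHy hz0)
    · exact h4
  have h4 := congrArg Complex.im h3
  rw [Complex.add_im, Complex.zero_im] at h4
  have h5 : ((β : ℂ) / z).im < 0 := by
    rw [div_eq_mul_inv, Complex.im_ofReal_mul, Complex.inv_im]
    have : 0 < Complex.normSq z := Complex.normSq_pos.2 hz0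
    have h6 : -z.im / Complex.normSq z < 0 := div_neg_of_neg_of_pos (by linarith) this
    exact mul_neg_of_pos_of_neg hβ h6
  linarith

/-- the operator `g(z D)` on `ℂ[X]` -/
lemma good_prod {F : ℂ[X]} (hF0 : F ≠ 0) (hF : ∀ y : ℂ, F.eval y = 0 → y.im = 0) {z : ℂ}
    (hz : 0 < z.im) (s : Multiset ℝ) (hs : ∀ β ∈ s, 0 < β) :
    ∀ y : ℂ, 0 ≤ y.im → F.eval y ≠ 0 →
      ((aeval (z • (derivative : Module.End ℂ ℂ[X]))
        ((s.map fun β : ℝ => (X + C (β : ℂ) : ℂ[X])).prod)) F).eval y ≠ 0 := by
  induction s using Multiset.induction with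
  | empty => intro y _ h; simpa using h
  | cons a s ih =>
    have h1 := ih (fun β hβ => hs β (Multiset.mem_cons_of_mem hβ))
    have h2 := good_step hF0 hF h1 (hs a (Multiset.mem_cons_self _ _)) hz
    intro y hy hFy
    have h3 := h2 y hy hFy
    rw [Multiset.map_cons, Multiset.prod_cons, map_mul, map_add, aeval_X, aeval_C,
      Module.End.mul_apply, LinearMap.add_apply, LinearMap.smul_apply, Module.algebraMap_end_apply]
    exact h3

lemma eval_zero_op (z : ℂ) (g : ℂ[X]) (F : ℂ[X]) :
    ((aeval (z • (derivative : Module.End ℂ ℂ[X])) g) F).eval 0 =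
      ∑ k ∈ Finset.range (g.natDegree + 1), g.coeff k * z ^ k * (k.factorial * F.coeff k) := by
  have hpow : ∀ k : ℕ, (((z • (derivative : Module.End ℂ ℂ[X])) ^ k) F).eval 0 =
      z ^ k * (k.factorial * F.coeff k) := by
    intro k
    have h1 : ((z • (derivative : Module.End ℂ ℂ[X])) ^ k) F = z ^ k • derivative^[k] F := by
      rw [_root_.smul_pow, LinearMap.smul_apply, Module.End.pow_apply]
    rw [h1, eval_smul, ← coeff_zero_eq_eval_zero, coeff_iterate_derivative, zero_add,
      Nat.descFactorial_self, nsmul_eq_mul, smul_eq_mul]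
  conv_lhs => rw [as_sum_range_C_mul_X_pow g]
  rw [map_sum, LinearMap.sum_apply, eval_finsetSum]
  apply Finset.sum_congr rfl
  intro k _
  rw [map_mul, map_pow, aeval_X, aeval_C, Module.End.mul_apply, Module.algebraMap_end_apply,
    eval_smul, hpow, smul_eq_mul, mul_assoc]

/-- **Schur's composition theorem**: if `f` has only real zeros and `g` only negative zeros then
`∑ k! g_k f_k x^k` has only real zeros. -/
theorem schur_comp (s : Multiset ℝ) (hs : ∀ β ∈ s, 0 < β) :
    MS (fun k => (k.factorial : ℝ) * ((s.map fun β : ℝ => (X + C β : ℝ[X])).prod).coeff k) := by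
  set g : ℝ[X] := (s.map fun β : ℝ => (X + C β : ℝ[X])).prod with hg
  -- first the case `f(0) ≠ 0`
  have key : ∀ f : ℝ[X], OnlyReal f → f.eval 0 ≠ 0 →
      OnlyReal (hm (fun k => (k.factorial : ℝ) * g.coeff k) f) := by
    intro f hf hf0
    have hf1 : f ≠ 0 := by rintro rfl; simp at hf0
    have hf2 := hf.resolve_left hf1
    apply onlyReal_of_upper
    intro z hz
    set F : ℂ[X] := f.map (algebraMap ℝ ℂ) with hFdef
    have hF0 : F ≠ 0 := (Polynomial.map_ne_zero_iff (algebraMap ℝ ℂ).injective).2 hf1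
    have hF : ∀ y : ℂ, F.eval y = 0 → y.im = 0 := by
      intro y hy
      rw [hFdef, eval_map_algebraMap] at hy
      exact hf2 y hy
    have hF00 : F.eval 0 ≠ 0 := by
      rw [hFdef, eval_map_algebraMap]
      have := aeval_ofReal 0 f
      rw [Complex.ofReal_zero] at this
      rw [this]
      exact_mod_cast hf0
    have h1 := good_prod hF0 hF hz s hs 0 (by simp) hF00
    have h2 : (s.map fun β : ℝ => (X + C (β : ℂ) : ℂ[X])).prod = g.map (algebraMap ℝ ℂ) := by
      rw [hg, Polynomial.map_multiset_prod, Multiset.map_map]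
      congr 1
      apply Multiset.map_congr rfl
      intro β _
      simp
    rw [h2, eval_zero_op] at h1
    intro h3
    apply h1
    rw [aeval_hm] at h3
    have h4 : (g.map (algebraMap ℝ ℂ)).natDegree = g.natDegree := natDegree_map _
    rw [h4]
    -- compare the two sums
    have h5 : ∀ N, g.natDegree ≤ N → ∑ k ∈ Finset.range (N + 1),
        (g.map (algebraMap ℝ ℂ)).coeff k * z ^ k * (k.factorial * F.coeff k) =
        ∑ k ∈ Finset.range (g.natDegree + 1),
        (g.map (algebraMap ℝ ℂ)).coeff k * z ^ k * (k.factorial * F.coeff k) := by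
      intro N hN
      symm
      apply Finset.sum_subset
      · intro x hx; rw [Finset.mem_range] at hx ⊢; omega
      · intro x _ hx
        rw [Finset.mem_range] at hx
        rw [coeff_eq_zero_of_natDegree_lt (by rw [h4]; omega)]; ring
    have h6 : ∀ N, f.natDegree ≤ N → ∑ k ∈ Finset.range (N + 1),
        (((k.factorial : ℝ) * g.coeff k * f.coeff k : ℝ) : ℂ) * z ^ k =
        ∑ k ∈ Finset.range (f.natDegree + 1),
        (((k.factorial : ℝ) * g.coeff k * f.coeff k : ℝ) : ℂ) * z ^ k := by
      intro N hN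
      symm
      apply Finset.sum_subset
      · intro x hx; rw [Finset.mem_range] at hx ⊢; omega
      · intro x _ hx
        rw [Finset.mem_range] at hx
        rw [coeff_eq_zero_of_natDegree_lt (by omega : f.natDegree < x)]; simp
    rw [← h5 (max g.natDegree f.natDegree) (le_max_left _ _), ← h3,
      ← h6 (max g.natDegree f.natDegree) (le_max_right _ _)]
    apply Finset.sum_congr rfl
    intro k _
    rw [coeff_map, hFdef, coeff_map, Complex.coe_algebraMap]
    push_cast
    ring
  intro f hf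
  by_cases hf1 : f = 0
  · left; rw [hf1]; ext k; rw [coeff_hm]; simp
  have hf2 := hf.resolve_left hf1
  -- shift
  have hev : ∀ᶠ ε in 𝓝[≠] (0 : ℝ), f.eval ε ≠ 0 := by
    have hfin : ({x : ℝ | f.eval x = 0}).Finite := by
      refine (f.roots.toFinset.finite_toSet).subset ?_
      intro x hx
      simp only [Finset.mem_coe, Multiset.mem_toFinset, mem_roots hf1, IsRoot.def]
      exact hx
    have h1 : ({x : ℝ | f.eval x = 0} \ {0}).Finite := hfin.subset Set.sdiff_subset
    have h2 : ({x : ℝ | f.eval x = 0} \ {0})ᶜ ∈ 𝓝 (0 : ℝ) :=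
      h1.isClosed.isOpen_compl.mem_nhds (by simp)
    rw [eventually_nhdsWithin_iff]
    filter_upwards [h2] with x hx hx0 h0
    exact hx ⟨h0, hx0⟩
  have hcomp : ∀ ε : ℝ, (f.comp (X + C ε)).natDegree ≤ f.natDegree := by
    intro ε
    rw [natDegree_comp, natDegree_X_add_C, mul_one]
  refine onlyReal_of_tendsto (l := 𝓝[≠] (0 : ℝ))
    (P := fun ε => hm (fun k => (k.factorial : ℝ) * g.coeff k) (f.comp (X + C ε))) f.natDegree
    (Eventually.of_forall fun ε => (hm_natDegree_le _ _).trans (hcomp ε)) ?_ ?_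
  · filter_upwards [hev] with ε hε
    apply key
    · right
      intro z hz
      rw [aeval_comp, map_add, aeval_X, aeval_C, Complex.coe_algebraMap] at hz
      have := hf2 _ hz
      simpa using this
    · rw [eval_comp]; simpa using hε
  · intro z
    have h1 : ∀ ε : ℝ, aeval z (hm (fun k => (k.factorial : ℝ) * g.coeff k) (f.comp (X + C ε))) =
        ∑ k ∈ Finset.range (f.natDegree + 1),
          (((k.factorial : ℝ) * g.coeff k * (f.comp (X + C ε)).coeff k : ℝ) : ℂ) * z ^ k := by
      intro ε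
      rw [aeval_hm]
      have : (f.comp (X + C ε)).natDegree = f.natDegree := by
        rw [natDegree_comp, natDegree_X_add_C, mul_one]
      rw [this]
    simp only [h1, aeval_hm]
    apply tendsto_finsetSum
    intro k _
    apply Tendsto.mul_const
    refine (Complex.continuous_ofReal.tendsto _).comp ?_
    apply Tendsto.const_mul
    have h2 : ∀ ε : ℝ, (f.comp (X + C ε)).coeff k = (hasseDeriv k f).eval ε := by
      intro ε
      rw [← taylor_coeff, taylor_apply]
    simp only [h2]
    have h3 : f.coeff k = (hasseDeriv k f).eval 0 := by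
      rw [← taylor_coeff, taylor_apply]; simp
    rw [h3]
    exact ((hasseDeriv k f).continuous.tendsto 0).mono_left nhdsWithin_le_nhds

end Q80.RR
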