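import Mathlib
import Pool.Agent.Q80.Schur

/-!
# Fractional powers `k^σ` acting on the Chebyshev polynomials `T_n(1 - 2x)`
-/

open Polynomial Filter Topology MeasureTheory Set

namespace Q80.RR

/-- a polynomial of degree `≤ n` with `n` sign changes has only real zeros -/
theorem onlyReal_of_signs {n : ℕ} (p : ℝ[X]) (hdeg : p.natDegree ≤ n) (h0 : p.eval 0 = 0)
    (w : ℕ → ℝ) (hw1 : 0 < w 1) (hw : ∀ j, 1 ≤ j → j < n → w j < w (j + 1)) (hn : 1 ≤ n)
    (hs : ∀ j, 1 ≤ j → j ≤ n → 0 < (-1 : ℝ) ^ j * p.eval (w j)) : OnlyReal p := by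
  have hp0 : p ≠ 0 := by
    rintro rfl
    have := hs 1 le_rfl hn
    simp at this
  have hex : ∀ j : ℕ, ∃ r : ℝ, (j = 0 → r = 0) ∧ (1 ≤ j → j < n → w j < r ∧ r < w (j + 1)) ∧
      (j < n → p.eval r = 0) := by
    intro j
    rcases Nat.eq_zero_or_pos j with rfl | hj
    · exact ⟨0, fun _ => rfl, fun h => absurd h (by norm_num), fun _ => h0⟩
    · by_cases hjn : j < n
      · have h1 := hs j hj hjn.le
        have h2 := hs (j + 1) (by omega) (by omega)
        have h3 := hw j hj hjn
        have hc : ContinuousOn (fun x => (-1 : ℝ) ^ j * p.eval x) (Icc (w j) (w (j + 1))) := by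
          fun_prop
        have h4 : (-1 : ℝ) ^ j * p.eval (w (j + 1)) < 0 := by
          rw [pow_succ] at h2; linarith
        obtain ⟨r, hr, hr0⟩ := intermediate_value_Ioo' h3.le hc ⟨h4, h1⟩
        refine ⟨r, fun h => absurd h (by omega), fun _ _ => hr, fun _ => ?_⟩
        have : (-1 : ℝ) ^ j ≠ 0 := by positivity
        exact (mul_eq_zero.1 hr0).resolve_left this
      · exact ⟨0, fun h => absurd h (by omega), fun _ h => absurd h hjn, fun h => absurd h hjn⟩
  choose r hr0 hr1 hr2 using hex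
  have hmono : ∀ i j : ℕ, i < j → j < n → r i < r j := by
    intro i j hij hjn
    induction j with
    | zero => omega
    | succ j ih =>
      have hj1 := hr1 (j + 1) (by omega) hjn
      have hstep : r j < r (j + 1) := by
        rcases Nat.eq_zero_or_pos j with rfl | hj
        · rw [hr0 0 rfl]
          exact hw1.trans hj1.1
        · exact ((hr1 j hj (by omega)).2).trans hj1.1
      rcases Nat.lt_succ_iff_lt_or_eq.1 hij with h | h
      · exact (ih h (by omega)).trans hstep
      · rw [h]; exact hstep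
  have hinj : Set.InjOn r (Finset.range n : Set ℕ) := by
    intro i hi j hj hij
    rw [Finset.mem_coe, Finset.mem_range] at hi hj
    rcases lt_trichotomy i j with h | h | h
    · exact absurd hij (hmono i j h hj).ne
    · exact h
    · exact absurd hij (hmono j i h hi).ne'
  have hcard : ((Finset.range n).image r).card = n := by
    rw [Finset.card_image_of_injOn hinj, Finset.card_range]
  have hsub : ((Finset.range n).image r).val ≤ p.roots := by
    rw [Multiset.le_iff_subset (Finset.nodup _)]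
    intro x hx
    rw [Finset.mem_val, Finset.mem_image] at hx
    obtain ⟨j, hj, rfl⟩ := hx
    rw [mem_roots hp0, IsRoot.def]
    exact hr2 j (Finset.mem_range.1 hj)
  have h1 := Multiset.card_le_card hsub
  rw [Finset.card_val, hcard] at h1
  have h2 : p.roots.card = p.natDegree := le_antisymm (card_roots' p) (hdeg.trans h1)
  have h3 := C_leadingCoeff_mul_prod_multiset_X_sub_C h2
  right
  intro z hz
  rw [← h3, map_mul, aeval_C, Complex.coe_algebraMap] at hz
  rcases mul_eq_zero.1 hz with h4 | h4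
  · exact absurd (by exact_mod_cast h4) (leadingCoeff_ne_zero.2 hp0)
  · rw [map_multiset_prod, Multiset.prod_eq_zero_iff, Multiset.map_map, Multiset.mem_map] at h4
    obtain ⟨a, _, ha⟩ := h4
    simp only [Function.comp_apply, map_sub, aeval_X, aeval_C, Complex.coe_algebraMap] at ha
    rw [sub_eq_zero.1 ha]; simp

/-! ### The Chebyshev polynomials -/

/-- `T_n (1 - 2x)` -/
noncomputable def ff (n : ℕ) : ℝ[X] := (Chebyshev.T ℝ n).comp (C 1 - C 2 * X)

/-- `(1 - cos θ)/2 = sin² (θ/2)` -/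
noncomputable def ss (θ : ℝ) : ℝ := (1 - Real.cos θ) / 2

lemma ff_ss (n : ℕ) (θ : ℝ) : (ff n).eval (ss θ) = Real.cos (n * θ) := by
  unfold ff ss
  rw [eval_comp]
  simp only [eval_sub, eval_mul, eval_C, eval_X]
  have : (1 - 2 * ((1 - Real.cos θ) / 2)) = Real.cos θ := by ring
  rw [this, Chebyshev.T_real_cos]
  push_cast; rfl

lemma ff_natDegree (n : ℕ) : (ff n).natDegree ≤ n := by
  unfold ff
  refine natDegree_comp_le.trans ?_
  rw [Chebyshev.natDegree_T]
  have : (C 1 - C 2 * X : ℝ[X]).natDegree ≤ 1 := by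
    compute_degree
  calc (n : ℤ).natAbs * (C 1 - C 2 * X : ℝ[X]).natDegree ≤ (n : ℤ).natAbs * 1 :=
        Nat.mul_le_mul_left _ this
    _ = n := by simp

lemma ss_pos {θ : ℝ} (h0 : 0 < θ) (h1 : θ ≤ Real.pi) : 0 < ss θ := by
  unfold ss
  have : Real.cos θ < Real.cos 0 := Real.cos_lt_cos_of_nonneg_of_le_pi le_rfl h1 h0
  rw [Real.cos_zero] at this
  linarith

lemma ss_lt {a b : ℝ} (h0 : 0 ≤ a) (h1 : b ≤ Real.pi) (h : a < b) : ss a < ss b := by
  unfold ss
  have : Real.cos b < Real.cos a := Real.cos_lt_cos_of_nonneg_of_le_pi h0 h1 h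
  linarith

lemma ss_hasDerivAt (θ : ℝ) : HasDerivAt ss (Real.sin θ / 2) θ := by
  unfold ss
  have := ((Real.hasDerivAt_cos θ).const_sub 1).div_const 2
  simpa using this

lemma ff_deriv (n : ℕ) (θ : ℝ) :
    (derivative (ff n)).eval (ss θ) * (Real.sin θ / 2) = -(n * Real.sin (n * θ)) := by
  have h1 : HasDerivAt (fun t => (ff n).eval (ss t))
      ((derivative (ff n)).eval (ss θ) * (Real.sin θ / 2)) θ :=
    ((ff n).hasDerivAt (ss θ)).comp θ (ss_hasDerivAt θ)
  have h2 : HasDerivAt (fun t : ℝ => Real.cos (n * t)) (-(n * Real.sin (n * θ))) θ := by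
    have := (Real.hasDerivAt_cos (n * θ)).comp θ ((hasDerivAt_id θ).const_mul (n : ℝ))
    simp only [Function.comp_def, id] at this
    refine this.congr_deriv ?_
    ring
  have h3 : (fun t => (ff n).eval (ss t)) = fun t : ℝ => Real.cos (n * t) := by
    funext t; exact ff_ss n t
  rw [h3] at h1
  exact h1.unique h2

/-- `∑ k/(k+u) a_k x^k` -/
noncomputable def PP (u : ℝ) (n : ℕ) : ℝ[X] := hm (fun k => (k : ℝ) / (k + u)) (ff n)

lemma PP_ode {u : ℝ} (hu : 0 < u) (n : ℕ) :
    X * derivative (PP u n) + C u * PP u n = X * derivative (ff n) := by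
  ext k
  rw [coeff_add, coeff_C_mul]
  rcases k with _ | k
  · simp [PP, coeff_hm]
  · rw [coeff_X_mul, coeff_X_mul, coeff_derivative, coeff_derivative, PP, coeff_hm]
    have : ((k : ℝ) + 1 + u) ≠ 0 := by positivity
    push_cast
    field_simp

/-- `s^u P_u(s)` -/
noncomputable def gg (u : ℝ) (n : ℕ) (θ : ℝ) : ℝ := ss θ ^ u * (PP u n).eval (ss θ)

lemma gg_hasDerivAt {u : ℝ} (hu : 0 < u) (n : ℕ) {θ : ℝ} (h0 : 0 < θ) (h1 : θ ≤ Real.pi) :
    HasDerivAt (gg u n) (ss θ ^ u * (-(n * Real.sin (n * θ)))) θ := by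
  have hs := ss_pos h0 h1
  have h2 : HasDerivAt (fun x : ℝ => x ^ u * (PP u n).eval x)
      (ss θ ^ u * (derivative (ff n)).eval (ss θ)) (ss θ) := by
    have h3 := (Real.hasDerivAt_rpow_const (x := ss θ) (p := u) (Or.inl hs.ne')).mul
      ((PP u n).hasDerivAt (ss θ))
    refine h3.congr_deriv ?_
    have h4 := congrArg (eval (ss θ)) (PP_ode hu n)
    simp only [eval_add, eval_mul, eval_X, eval_C] at h4
    rw [Real.rpow_sub_one hs.ne']
    field_simp
    linear_combination h4
  have h5 := h2.comp θ (ss_hasDerivAt θ)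
  refine h5.congr_deriv ?_
  rw [mul_assoc, ff_deriv]

lemma gg_continuous {u : ℝ} (hu : 0 < u) (n : ℕ) : Continuous (gg u n) := by
  unfold gg
  have h1 : Continuous ss := by unfold ss; fun_prop
  apply Continuous.mul
  · exact h1.rpow_const fun _ => Or.inr hu.le
  · exact (PP u n).continuous.comp h1

/-- `j π / n` -/
noncomputable def th (n j : ℕ) : ℝ := j * Real.pi / n

lemma step_aux {u : ℝ} (hu : 0 < u) {n : ℕ} (hn : 0 < n) {j : ℕ} (hj : j < n) :
    0 < (-1 : ℝ) ^ (j + 1) * gg u n (th n (j + 1)) + (-1) ^ j * gg u n (th n j) -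
      2 * ss (th n j) ^ u ∧
    (-1 : ℝ) ^ (j + 1) * gg u n (th n (j + 1)) + (-1) ^ j * gg u n (th n j) -
      2 * ss (th n (j + 1)) ^ u < 0 := by
  have hn' : (0 : ℝ) < n := by exact_mod_cast hn
  have hpi := Real.pi_pos
  have h0 : 0 ≤ th n j := by unfold th; positivity
  have hlt : th n j < th n (j + 1) := by
    unfold th
    push_cast
    rw [div_lt_div_iff_of_pos_right hn']
    nlinarith
  have hle : th n (j + 1) ≤ Real.pi := by
    unfold th
    rw [div_le_iff₀ hn']
    have : ((j + 1 : ℕ) : ℝ) ≤ n := by exact_mod_cast hj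
    nlinarith
  have hcj : ∀ i : ℕ, Real.cos (n * th n i) = (-1) ^ i := by
    intro i
    have : (n : ℝ) * th n i = i * Real.pi := by unfold th; field_simp
    rw [this, Real.cos_nat_mul_pi]
  -- sign of sine
  have hsin : ∀ θ ∈ Ioo (th n j) (th n (j + 1)), 0 < (-1 : ℝ) ^ j * Real.sin (n * θ) := by
    intro θ hθ
    have h1 : Real.sin (n * θ - j * Real.pi) = (-1) ^ j * Real.sin (n * θ) := by
      exact_mod_cast Real.sin_sub_nat_mul_pi (n * θ) j
    rw [← h1]
    apply Real.sin_pos_of_pos_of_lt_pi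
    · have := hθ.1
      unfold th at this
      rw [div_lt_iff₀ hn'] at this
      linarith
    · have := hθ.2
      unfold th at this
      rw [lt_div_iff₀ hn'] at this
      push_cast at this
      linarith
  have hder : ∀ c : ℝ, ∀ θ ∈ Ioo (th n j) (th n (j + 1)),
      HasDerivAt (fun t => (-1 : ℝ) ^ (j + 1) * (gg u n t - c * Real.cos (n * t)))
        ((ss θ ^ u - c) * (n * ((-1 : ℝ) ^ j * Real.sin (n * θ)))) θ := by
    intro c θ hθ
    have h1 := gg_hasDerivAt hu n (h0.trans_lt hθ.1) (hθ.2.le.trans hle)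
    have h2 : HasDerivAt (fun t : ℝ => Real.cos (n * t)) (-(n * Real.sin (n * θ))) θ := by
      have := (Real.hasDerivAt_cos (n * θ)).comp θ ((hasDerivAt_id θ).const_mul (n : ℝ))
      simp only [Function.comp_def, id] at this
      refine this.congr_deriv ?_
      ring
    have h3 := (h1.sub (h2.const_mul c)).const_mul ((-1 : ℝ) ^ (j + 1))
    refine h3.congr_deriv ?_
    rw [pow_succ]; ring
  have hcont : ∀ c : ℝ, ContinuousOn (fun t => (-1 : ℝ) ^ (j + 1) * (gg u n t - c * Real.cos (n * t)))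
      (Icc (th n j) (th n (j + 1))) := by
    intro c
    apply Continuous.continuousOn
    have := gg_continuous hu n
    fun_prop
  have hA : (-1 : ℝ) ^ (j + 1) * (-1 : ℝ) ^ (j + 1) = 1 := by
    rw [← mul_pow]; norm_num
  have hB : (-1 : ℝ) ^ (j + 1) * (-1 : ℝ) ^ j = -1 := by
    rw [pow_succ, mul_comm ((-1 : ℝ) ^ j) (-1), mul_assoc, ← mul_pow]; norm_num
  constructor
  · -- increasing
    have hmono : StrictMonoOn (fun t => (-1 : ℝ) ^ (j + 1) * (gg u n t -
        (ss (th n j) ^ u) * Real.cos (n * t))) (Icc (th n j) (th n (j + 1))) := by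
      apply strictMonoOn_of_deriv_pos (convex_Icc _ _) (hcont _)
      intro θ hθ
      rw [interior_Icc] at hθ
      rw [(hder _ θ hθ).deriv]
      apply mul_pos
      · have h2 : ss (th n j) < ss θ := ss_lt h0 (hθ.2.le.trans hle) hθ.1
        have h3 : 0 ≤ ss (th n j) := by unfold ss; linarith [Real.cos_le_one (th n j)]
        have := Real.rpow_lt_rpow h3 h2 hu
        linarith
      · exact mul_pos hn' (hsin θ hθ)
    have := hmono (left_mem_Icc.2 hlt.le) (right_mem_Icc.2 hlt.le) hlt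
    simp only [hcj] at this
    have e1 : (-1 : ℝ) ^ (j + 1) * (gg u n (th n (j + 1)) - ss (th n j) ^ u * (-1) ^ (j + 1)) =
        (-1 : ℝ) ^ (j + 1) * gg u n (th n (j + 1)) - ss (th n j) ^ u := by
      linear_combination (-(ss (th n j) ^ u)) * hA
    have e2 : (-1 : ℝ) ^ (j + 1) * (gg u n (th n j) - ss (th n j) ^ u * (-1) ^ j) =
        -((-1 : ℝ) ^ j * gg u n (th n j)) + ss (th n j) ^ u := by
      rw [pow_succ]
      have : (-1 : ℝ) ^ j * (-1 : ℝ) ^ j = 1 := by rw [← mul_pow]; norm_num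
      linear_combination (ss (th n j) ^ u) * this
    rw [e1, e2] at this
    linarith
  · have hmono : StrictAntiOn (fun t => (-1 : ℝ) ^ (j + 1) * (gg u n t -
        (ss (th n (j + 1)) ^ u) * Real.cos (n * t))) (Icc (th n j) (th n (j + 1))) := by
      apply strictAntiOn_of_deriv_neg (convex_Icc _ _) (hcont _)
      intro θ hθ
      rw [interior_Icc] at hθ
      rw [(hder _ θ hθ).deriv]
      apply mul_neg_of_neg_of_pos
      · have h2 : ss θ < ss (th n (j + 1)) := ss_lt (h0.trans hθ.1.le) hle hθ.2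
        have h3 : 0 ≤ ss θ := by unfold ss; linarith [Real.cos_le_one θ]
        have := Real.rpow_lt_rpow h3 h2 hu
        linarith
      · exact mul_pos hn' (hsin θ hθ)
    have := hmono (left_mem_Icc.2 hlt.le) (right_mem_Icc.2 hlt.le) hlt
    simp only [hcj] at this
    have e1 : (-1 : ℝ) ^ (j + 1) * (gg u n (th n (j + 1)) - ss (th n (j + 1)) ^ u * (-1) ^ (j + 1)) =
        (-1 : ℝ) ^ (j + 1) * gg u n (th n (j + 1)) - ss (th n (j + 1)) ^ u := by
      linear_combination (-(ss (th n (j + 1)) ^ u)) * hA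
    have e2 : (-1 : ℝ) ^ (j + 1) * (gg u n (th n j) - ss (th n (j + 1)) ^ u * (-1) ^ j) =
        -((-1 : ℝ) ^ j * gg u n (th n j)) + ss (th n (j + 1)) ^ u := by
      rw [pow_succ]
      have : (-1 : ℝ) ^ j * (-1 : ℝ) ^ j = 1 := by rw [← mul_pow]; norm_num
      linear_combination (ss (th n (j + 1)) ^ u) * this
    rw [e1, e2] at this
    linarith

lemma sign_PP {u : ℝ} (hu : 0 < u) {n : ℕ} (hn : 0 < n) {j : ℕ} (hj1 : 1 ≤ j) (hj : j ≤ n) :
    0 < (-1 : ℝ) ^ j * (PP u n).eval (ss (th n j)) := by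
  have key : ∀ j ≤ n, 0 ≤ (-1 : ℝ) ^ j * gg u n (th n j) ∧
      (-1 : ℝ) ^ j * gg u n (th n j) ≤ 2 * ss (th n j) ^ u := by
    intro j
    induction j with
    | zero =>
      intro _
      have : ss (th n 0) = 0 := by unfold th ss; simp
      unfold gg
      rw [this, Real.zero_rpow hu.ne']
      simp
    | succ j ih =>
      intro hjn
      obtain ⟨h1, h2⟩ := ih (by omega)
      obtain ⟨h3, h4⟩ := step_aux hu hn (by omega : j < n)
      constructor <;> linarith
  obtain ⟨i, rfl⟩ : ∃ i, j = i + 1 := ⟨j - 1, by omega⟩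
  obtain ⟨h1, h2⟩ := key i (by omega)
  obtain ⟨h3, h4⟩ := step_aux hu hn (by omega : i < n)
  have h5 : 0 < (-1 : ℝ) ^ (i + 1) * gg u n (th n (i + 1)) := by linarith
  unfold gg at h5
  have hs : 0 < ss (th n (i + 1)) ^ u := by
    apply Real.rpow_pos_of_pos
    apply ss_pos
    · unfold th
      have := Real.pi_pos
      positivity
    · unfold th
      rw [div_le_iff₀ (by exact_mod_cast hn)]
      have : ((i + 1 : ℕ) : ℝ) ≤ n := by exact_mod_cast hj
      nlinarith [Real.pi_pos]
  have h6 : (-1 : ℝ) ^ (i + 1) * (ss (th n (i + 1)) ^ u * (PP u n).eval (ss (th n (i + 1)))) =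
      ss (th n (i + 1)) ^ u * ((-1 : ℝ) ^ (i + 1) * (PP u n).eval (ss (th n (i + 1)))) := by ring
  rw [h6] at h5
  exact (mul_pos_iff_of_pos_left hs).1 h5

/-- evaluation of `hm` at a real point -/
lemma eval_hm (γ : ℕ → ℝ) (p : ℝ[X]) (x : ℝ) :
    (hm γ p).eval x = ∑ k ∈ Finset.range (p.natDegree + 1), γ k * p.coeff k * x ^ k := by
  unfold hm
  rw [eval_finsetSum]
  apply Finset.sum_congr rfl
  intro k _
  rw [eval_monomial]

/-- the mixture -/
theorem frac_onlyReal {σ : ℝ} (hσ : σ ∈ Ioo (0 : ℝ) 1) {n : ℕ} (hn : 1 ≤ n) :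
    OnlyReal (hm (fun k => (k : ℝ) ^ σ) (ff n)) := by
  have hpi := Real.pi_pos
  have hn' : (0 : ℝ) < n := by exact_mod_cast hn
  refine onlyReal_of_signs (n := n) _ ((hm_natDegree_le _ _).trans (ff_natDegree n)) ?_
    (fun j => ss (th n j)) ?_ ?_ hn ?_
  · rw [← coeff_zero_eq_eval_zero, coeff_hm]
    simp [Real.zero_rpow hσ.1.ne']
  · apply ss_pos
    · unfold th; positivity
    · unfold th
      rw [div_le_iff₀ hn']
      have : ((1 : ℕ) : ℝ) ≤ n := by exact_mod_cast hn
      nlinarith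
  · intro j _ hj
    apply ss_lt
    · unfold th; positivity
    · unfold th
      rw [div_le_iff₀ hn']
      have : ((j + 1 : ℕ) : ℝ) ≤ n := by exact_mod_cast hj
      nlinarith
    · unfold th
      rw [div_lt_div_iff_of_pos_right hn']
      push_cast
      nlinarith
  · intro j hj1 hj
    set w := ss (th n j) with hw
    set I := ∫ t in Ioi (0 : ℝ), Real.rpowIntegrand₀₁ σ t 1 with hI
    have hIpos : 0 < I := Real.integral_rpowIntegrand₀₁_one_pos hσ
    have h1 : I * (hm (fun k => (k : ℝ) ^ σ) (ff n)).eval w =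
        ∫ t in Ioi (0 : ℝ), ∑ k ∈ Finset.range ((ff n).natDegree + 1),
          (ff n).coeff k * w ^ k * Real.rpowIntegrand₀₁ σ t k := by
      rw [integral_finsetSum]
      · rw [eval_hm, Finset.mul_sum]
        apply Finset.sum_congr rfl
        intro k _
        rw [integral_const_mul, Real.integral_rpowIntegrand₀₁_eq_rpow_mul_const hσ (Nat.cast_nonneg k)]
        ring
      · intro k _
        exact (Real.integrableOn_rpowIntegrand₀₁_Ioi hσ (Nat.cast_nonneg k)).const_mul _
    have h2 : ∀ t ∈ Ioi (0 : ℝ), ∑ k ∈ Finset.range ((ff n).natDegree + 1),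
          (ff n).coeff k * w ^ k * Real.rpowIntegrand₀₁ σ t k = t ^ (σ - 1) * (PP t n).eval w := by
      intro t ht
      have ht' : (0 : ℝ) < t := ht
      rw [PP, eval_hm, Finset.mul_sum]
      apply Finset.sum_congr rfl
      intro k _
      rw [Real.rpowIntegrand₀₁_eq_pow_div hσ ht'.le (Nat.cast_nonneg k)]
      have : t + (k : ℝ) ≠ 0 := by positivity
      rw [add_comm (k : ℝ) t]
      field_simp
    have h3 : 0 < ∫ t in Ioi (0 : ℝ), (-1 : ℝ) ^ j * ∑ k ∈ Finset.range ((ff n).natDegree + 1),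
          (ff n).coeff k * w ^ k * Real.rpowIntegrand₀₁ σ t k := by
      have hint : IntegrableOn (fun t => (-1 : ℝ) ^ j * ∑ k ∈ Finset.range ((ff n).natDegree + 1),
          (ff n).coeff k * w ^ k * Real.rpowIntegrand₀₁ σ t k) (Ioi (0 : ℝ)) := by
        apply Integrable.const_mul
        apply integrable_finsetSum
        intro k _
        exact (Real.integrableOn_rpowIntegrand₀₁_Ioi hσ (Nat.cast_nonneg k)).const_mul _
      have hpos : ∀ t ∈ Ioi (0 : ℝ), 0 < (-1 : ℝ) ^ j *
          ∑ k ∈ Finset.range ((ff n).natDegree + 1),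
          (ff n).coeff k * w ^ k * Real.rpowIntegrand₀₁ σ t k := by
        intro t ht
        rw [h2 t ht]
        have ht' : (0 : ℝ) < t := ht
        have := sign_PP ht' hn hj1 hj
        have h4 : 0 < t ^ (σ - 1) := Real.rpow_pos_of_pos ht' _
        calc (0 : ℝ) < t ^ (σ - 1) * ((-1 : ℝ) ^ j * (PP t n).eval w) := mul_pos h4 this
          _ = _ := by ring
      rw [setIntegral_pos_iff_support_of_nonneg_ae _ hint]
      · have : Ioi (0 : ℝ) ⊆ (Function.support fun t => (-1 : ℝ) ^ j *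
            ∑ k ∈ Finset.range ((ff n).natDegree + 1),
            (ff n).coeff k * w ^ k * Real.rpowIntegrand₀₁ σ t k) ∩ Ioi 0 :=
          fun t ht => ⟨(hpos t ht).ne', ht⟩
        refine lt_of_lt_of_le ?_ (measure_mono this)
        simp
      · filter_upwards [ae_restrict_mem measurableSet_Ioi] with t ht
        exact (hpos t ht).le
    rw [integral_const_mul, ← h1] at h3
    have h5 : (-1 : ℝ) ^ j * (I * (hm (fun k => (k : ℝ) ^ σ) (ff n)).eval w) =
        I * ((-1 : ℝ) ^ j * (hm (fun k => (k : ℝ) ^ σ) (ff n)).eval w) := by ring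
    rw [h5] at h3
    exact (mul_pos_iff_of_pos_left hIpos).1 h3

end Q80.RR
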