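import Mathlib
import Pool.Agent.Q80.FracPow

/-!
# `∑ k^s x^k / (k!)^m`, `m ≥ 3`, is a limit of real-rooted polynomials
-/

open Polynomial Filter Topology

namespace Q80.RR

lemma ms_id : MS (fun _ => 1) := fun p hp => by rw [hm_one]; exact hp

lemma ms_pow_of {γ : ℕ → ℝ} (h : MS γ) (N : ℕ) : MS (fun k => γ k ^ N) := by
  induction N with
  | zero => simpa using ms_id
  | succ N ih => simp only [pow_succ]; exact ms_mul ih h

/-- all positive exponents -/
theorem rpow_onlyReal {s : ℝ} (hs : 0 < s) {n : ℕ} (hn : 1 ≤ n) :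
    OnlyReal (hm (fun k => (k : ℝ) ^ s) (ff n)) := by
  -- non-integer exponents
  have key : ∀ s : ℝ, 0 < s → s - ⌊s⌋₊ ≠ 0 → OnlyReal (hm (fun k => (k : ℝ) ^ s) (ff n)) := by
    intro s hs hne
    have h1 := Nat.floor_le hs.le
    have h2 := Nat.lt_floor_add_one s
    have hσ : s - ⌊s⌋₊ ∈ Set.Ioo (0 : ℝ) 1 := ⟨lt_of_le_of_ne (by linarith) (Ne.symm hne), by linarith⟩
    have h3 := frac_onlyReal hσ hn
    have h4 := ms_pow_of (ms_add 0) ⌊s⌋₊ _ h3
    rw [hm_hm] at h4
    have : (fun k : ℕ => ((k : ℝ) + (0 : ℕ)) ^ ⌊s⌋₊ * (k : ℝ) ^ (s - ⌊s⌋₊)) = fun k : ℕ => (k : ℝ) ^ s := by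
      funext k
      rcases Nat.eq_zero_or_pos k with rfl | hk
      · rw [Nat.cast_zero, Real.zero_rpow hσ.1.ne', Real.zero_rpow hs.ne', mul_zero]
      · have hk' : (0 : ℝ) < k := by exact_mod_cast hk
        rw [Nat.cast_zero, add_zero, ← Real.rpow_natCast, ← Real.rpow_add hk']
        congr 1; ring
    rw [this] at h4
    exact h4
  by_cases hne : s - ⌊s⌋₊ ≠ 0
  · exact key s hs hne
  push Not at hne
  refine onlyReal_of_tendsto (l := (atTop : Filter ℕ))
    (P := fun j => hm (fun k => (k : ℝ) ^ (s + 1 / ((j : ℝ) + 2))) (ff n)) (ff n).natDegree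
    (Eventually.of_forall fun j => hm_natDegree_le _ _) (Eventually.of_forall fun j => ?_) ?_
  · have hj : (0 : ℝ) < (j : ℝ) + 2 := by positivity
    have h1 : 0 < 1 / ((j : ℝ) + 2) := by positivity
    have h2 : 1 / ((j : ℝ) + 2) < 1 := by
      rw [div_lt_one hj]
      linarith [(Nat.cast_nonneg j : (0 : ℝ) ≤ j)]
    apply key _ (by linarith)
    have hfl : ⌊s + 1 / ((j : ℝ) + 2)⌋₊ = ⌊s⌋₊ := by
      rw [Nat.floor_eq_iff (by linarith)]
      constructor <;> linarith
    rw [hfl]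
    intro h3
    linarith
  · intro z
    simp only [aeval_hm]
    apply tendsto_finsetSum
    intro k _
    apply Tendsto.mul_const
    refine (Complex.continuous_ofReal.tendsto _).comp ?_
    apply Tendsto.mul_const
    rcases Nat.eq_zero_or_pos k with rfl | hk
    · rw [Nat.cast_zero, Real.zero_rpow hs.ne']
      apply tendsto_const_nhds.congr
      intro j
      have : s + 1 / ((j : ℝ) + 2) ≠ 0 := by positivity
      rw [Real.zero_rpow this]
    · have hk' : (k : ℝ) ≠ 0 := by positivity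
      have h1 : Tendsto (fun j : ℕ => s + 1 / ((j : ℝ) + 2)) atTop (𝓝 (s + 0)) := by
        apply Tendsto.const_add
        have h2 : Tendsto (fun j : ℕ => (j : ℝ) + 2) atTop atTop :=
          tendsto_atTop_add_const_right _ _ tendsto_natCast_atTop_atTop
        simp only [one_div]
        exact h2.inv_tendsto_atTop
      rw [add_zero] at h1
      exact (Real.continuousAt_const_rpow hk').tendsto.comp h1

/-! ### coefficients of `T_n(1 - 2x)` -/

lemma double_fact (k : ℕ) : (k.factorial : ℝ) * ((∏ l ∈ Finset.range k, (2 * l + 1) : ℕ) : ℝ) * 2 ^ k =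
    ((2 * k).factorial : ℝ) := by
  induction k with
  | zero => simp
  | succ k ih =>
    rw [Finset.prod_range_succ, Nat.factorial_succ, pow_succ,
      show 2 * (k + 1) = (2 * k + 1) + 1 by ring, Nat.factorial_succ, Nat.factorial_succ]
    push_cast at ih ⊢
    rw [← ih]
    ring

lemma ff_coeff (n k : ℕ) : (ff n).coeff k =
    (-4) ^ k * (∏ l ∈ Finset.range k, ((n : ℝ) ^ 2 - l ^ 2)) / ((2 * k).factorial : ℝ) := by
  have h1 : ff n = (taylor 1 (Chebyshev.T ℝ n)).comp (C (-2) * X) := by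
    unfold ff
    rw [taylor_apply, comp_assoc]
    congr 1
    rw [add_comp, X_comp, C_comp]
    simp [C_neg]
    ring
  have h2 : (k.factorial : ℝ) * (hasseDeriv k (Chebyshev.T ℝ n)).eval 1 =
      (derivative^[k] (Chebyshev.T ℝ n)).eval 1 := by
    rw [← factorial_smul_hasseDeriv, LinearMap.smul_apply, eval_smul, nsmul_eq_mul]
  rw [h1, comp_C_mul_X_coeff, taylor_coeff]
  rw [Chebyshev.iterate_derivative_T_eval_one_eq_div] at h2
  have h3 := double_fact k
  have h4 : (k.factorial : ℝ) ≠ 0 := by positivity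
  have h5 : ((∏ l ∈ Finset.range k, (2 * l + 1) : ℕ) : ℝ) ≠ 0 := by
    have : 0 < ∏ l ∈ Finset.range k, (2 * l + 1) := Finset.prod_pos fun l _ => by omega
    positivity
  have h6 : (hasseDeriv k (Chebyshev.T ℝ n)).eval 1 = (∏ l ∈ Finset.range k, ((n : ℝ) ^ 2 - l ^ 2)) /
      (k.factorial * ((∏ l ∈ Finset.range k, (2 * l + 1) : ℕ) : ℝ)) := by
    have h7 : (((∏ l ∈ Finset.range k, ((n : ℤ) ^ 2 - (l : ℤ) ^ 2) : ℤ)) : ℝ) =
        ∏ l ∈ Finset.range k, ((n : ℝ) ^ 2 - l ^ 2) := by push_cast; rfl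
    rw [← h7]
    rw [eq_div_iff (mul_ne_zero h4 h5)]
    rw [eq_div_iff h5] at h2
    rw [← h2]; ring
  rw [h6, ← h3]
  have h8 : (-4 : ℝ) ^ k = (-2) ^ k * 2 ^ k := by rw [← mul_pow]; norm_num
  rw [h8]
  have h9 : (2 : ℝ) ^ k ≠ 0 := by positivity
  field_simp

/-- normalised coefficients -/
noncomputable def tau (n k : ℕ) : ℝ :=
  (∏ l ∈ Finset.range k, (1 - (l : ℝ) ^ 2 / (n : ℝ) ^ 2)) / ((2 * k).factorial : ℝ)

lemma ff_coeff_tau {n : ℕ} (hn : 1 ≤ n) (k : ℕ) :
    (-(1 / (4 * (n : ℝ) ^ 2))) ^ k * (ff n).coeff k = tau n k := by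
  have hn' : (n : ℝ) ≠ 0 := by positivity
  rw [ff_coeff]
  unfold tau
  have h1 : ∏ l ∈ Finset.range k, ((n : ℝ) ^ 2 - l ^ 2) =
      ((n : ℝ) ^ 2) ^ k * ∏ l ∈ Finset.range k, (1 - (l : ℝ) ^ 2 / (n : ℝ) ^ 2) := by
    rw [← Finset.card_range k, ← Finset.prod_const, Finset.card_range, ← Finset.prod_mul_distrib]
    apply Finset.prod_congr rfl
    intro l _
    field_simp
  rw [h1, ← mul_div_assoc]
  congr 1
  have h2 : (-(1 / (4 * (n : ℝ) ^ 2))) ^ k * (-4) ^ k * ((n : ℝ) ^ 2) ^ k = 1 := by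
    rw [← mul_pow, ← mul_pow]
    have : (-(1 / (4 * (n : ℝ) ^ 2))) * (-4) * (n : ℝ) ^ 2 = 1 := by field_simp
    rw [this, one_pow]
  calc _ = (-(1 / (4 * (n : ℝ) ^ 2))) ^ k * (-4) ^ k * ((n : ℝ) ^ 2) ^ k *
        ∏ l ∈ Finset.range k, (1 - (l : ℝ) ^ 2 / (n : ℝ) ^ 2) := by ring
    _ = _ := by rw [h2, one_mul]

lemma tau_prod {n : ℕ} (hn : 1 ≤ n) (k : ℕ) :
    0 ≤ ∏ l ∈ Finset.range k, (1 - (l : ℝ) ^ 2 / (n : ℝ) ^ 2) ∧
    ∏ l ∈ Finset.range k, (1 - (l : ℝ) ^ 2 / (n : ℝ) ^ 2) ≤ 1 := by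
  have hn' : (0 : ℝ) < n := by exact_mod_cast hn
  by_cases hk : k ≤ n
  · have h : ∀ l ∈ Finset.range k, 0 ≤ (1 - (l : ℝ) ^ 2 / (n : ℝ) ^ 2) ∧
        (1 - (l : ℝ) ^ 2 / (n : ℝ) ^ 2) ≤ 1 := by
      intro l hl
      have h1 : (l : ℝ) ≤ n := by
        have := Finset.mem_range.1 hl
        exact_mod_cast (by omega : l ≤ n)
      have h2 : (l : ℝ) ^ 2 / (n : ℝ) ^ 2 ≤ 1 := by
        rw [div_le_one (by positivity)]
        exact pow_le_pow_left₀ (Nat.cast_nonneg _) h1 2
      have h3 : 0 ≤ (l : ℝ) ^ 2 / (n : ℝ) ^ 2 := by positivity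
      constructor <;> linarith
    exact ⟨Finset.prod_nonneg fun l hl => (h l hl).1,
      Finset.prod_le_one (fun l hl => (h l hl).1) (fun l hl => (h l hl).2)⟩
  · have : ∏ l ∈ Finset.range k, (1 - (l : ℝ) ^ 2 / (n : ℝ) ^ 2) = 0 := by
      apply Finset.prod_eq_zero (Finset.mem_range.2 (by omega : n < k))
      rw [div_self (by positivity), sub_self]
    rw [this]; norm_num

lemma tau_nonneg {n : ℕ} (hn : 1 ≤ n) (k : ℕ) : 0 ≤ tau n k :=
  div_nonneg (tau_prod hn k).1 (by positivity)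

lemma tau_le {n : ℕ} (hn : 1 ≤ n) (k : ℕ) : tau n k ≤ 1 / ((2 * k).factorial : ℝ) :=
  div_le_div_of_nonneg_right (tau_prod hn k).2 (by positivity)

lemma tau_tendsto (k : ℕ) : Tendsto (fun n => tau n k) atTop (𝓝 (1 / ((2 * k).factorial : ℝ))) := by
  unfold tau
  apply Tendsto.div_const
  have h1 : Tendsto (fun n : ℕ => ∏ l ∈ Finset.range k, (1 - (l : ℝ) ^ 2 / (n : ℝ) ^ 2)) atTop
      (𝓝 (∏ l ∈ Finset.range k, (1 - (l : ℝ) ^ 2 * 0))) := by
    apply tendsto_finsetProd
    intro l _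
    apply Tendsto.const_sub
    have h2 : Tendsto (fun n : ℕ => 1 / (n : ℝ) ^ 2) atTop (𝓝 0) := by
      have h3 : Tendsto (fun n : ℕ => (n : ℝ) ^ 2) atTop atTop :=
        (tendsto_pow_atTop (by norm_num)).comp tendsto_natCast_atTop_atTop
      simp only [one_div]
      exact h3.inv_tendsto_atTop
    refine (h2.const_mul ((l : ℝ) ^ 2)).congr fun n => by ring
  simpa using h1

/-! ### Laguerre polynomials -/

/-- `∑ C(n,k) x^k / (n^k k!)` -/
noncomputable def lag (n : ℕ) : ℝ[X] :=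
  hm (fun k => 1 / (k.factorial : ℝ)) ((1 + C (1 / (n : ℝ)) * X) ^ n)

lemma lag_coeff (n k : ℕ) : (lag n).coeff k =
    (n.choose k : ℝ) / (n : ℝ) ^ k / (k.factorial : ℝ) := by
  unfold lag
  rw [coeff_hm]
  have h1 : ((1 + C (1 / (n : ℝ)) * X : ℝ[X]) ^ n) = ((X + 1) ^ n).comp (C (1 / (n : ℝ)) * X) := by
    rw [pow_comp, add_comp, X_comp, one_comp]; ring
  rw [h1, comp_C_mul_X_coeff, coeff_X_add_one_pow, one_div_pow]
  field_simp

lemma lag_nonneg (n k : ℕ) : 0 ≤ (lag n).coeff k := by rw [lag_coeff]; positivity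

lemma lag_le {n : ℕ} (hn : 1 ≤ n) (k : ℕ) : (lag n).coeff k ≤ 1 / (k.factorial : ℝ) ^ 2 := by
  rw [lag_coeff]
  have h1 : (n.choose k : ℝ) ≤ (n : ℝ) ^ k / (k.factorial : ℝ) := Nat.choose_le_pow_div k n
  have hn' : (0 : ℝ) < n := by exact_mod_cast hn
  have h2 : (n.choose k : ℝ) / (n : ℝ) ^ k ≤ 1 / (k.factorial : ℝ) := by
    rw [div_le_iff₀ (by positivity)]
    calc (n.choose k : ℝ) ≤ (n : ℝ) ^ k / (k.factorial : ℝ) := h1
      _ = 1 / (k.factorial : ℝ) * (n : ℝ) ^ k := by ring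
  calc (n.choose k : ℝ) / (n : ℝ) ^ k / (k.factorial : ℝ) ≤ 1 / (k.factorial : ℝ) / (k.factorial : ℝ) :=
        div_le_div_of_nonneg_right h2 (by positivity)
    _ = _ := by rw [sq]; field_simp

lemma lag_tendsto (k : ℕ) :
    Tendsto (fun n => (lag n).coeff k) atTop (𝓝 (1 / (k.factorial : ℝ) ^ 2)) := by
  simp only [lag_coeff]
  have h1 : (1 : ℝ) / (k.factorial : ℝ) ^ 2 = 1 / (k.factorial : ℝ) / (k.factorial : ℝ) := by
    rw [sq]; field_simp
  rw [h1]
  apply Tendsto.div_const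
  induction k with
  | zero => simp
  | succ k ih =>
    have ih' := ih (by rw [sq]; field_simp)
    have h3 : Tendsto (fun n : ℕ => ((n : ℝ) - k) / (n * (k + 1))) atTop (𝓝 (1 / (k + 1))) := by
      have h4 : Tendsto (fun n : ℕ => (1 : ℝ) / (k + 1) - k / (k + 1) * (1 / (n : ℝ))) atTop
          (𝓝 (1 / (k + 1) - k / (k + 1) * 0)) :=
        (tendsto_one_div_atTop_nhds_zero_nat.const_mul _).const_sub _
      rw [mul_zero, sub_zero] at h4
      refine h4.congr' ?_
      filter_upwards [eventually_gt_atTop 0] with n hn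
      have : (n : ℝ) ≠ 0 := by positivity
      field_simp
    have h5 := ih'.mul h3
    have h6 : (1 : ℝ) / (k.factorial : ℝ) * (1 / (k + 1)) = 1 / ((k + 1).factorial : ℝ) := by
      rw [Nat.factorial_succ]; push_cast; field_simp
    rw [h6] at h5
    refine h5.congr' ?_
    filter_upwards [eventually_gt_atTop 0, eventually_ge_atTop k] with n hn hkn
    have hn0 : (n : ℝ) ≠ 0 := by positivity
    have h7 : (n.choose (k + 1) : ℝ) * (k + 1) = n.choose k * ((n : ℝ) - k) := by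
      have := Nat.choose_succ_right_eq n k
      have h8 : ((n - k : ℕ) : ℝ) = n - k := Nat.cast_sub hkn
      rw [← h8]
      exact_mod_cast this
    have h9 : (n.choose (k + 1) : ℝ) = n.choose k * ((n : ℝ) - k) / (k + 1) := by
      rw [← h7]; field_simp
    rw [h9, pow_succ]
    field_simp

lemma lag_onlyReal (n : ℕ) : OnlyReal (lag n) := by
  apply ms_inv_factorial
  right
  intro z hz
  have h1 : aeval z (1 + C (1 / (n : ℝ)) * X : ℝ[X]) = 0 := by
    rw [map_pow] at hz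
    exact eq_zero_of_pow_eq_zero hz
  have h2 := onlyReal_comp_C_mul (c := 1 / (n : ℝ)) (p := 1 + X) (Or.inr (by
    intro w hw
    rw [map_add, map_one, aeval_X] at hw
    have : w = -1 := by linear_combination hw
    rw [this]; simp))
  rw [add_comp, one_comp, X_comp] at h2
  rcases h2 with h2 | h2
  · exfalso
    have := congrArg (eval 0) h2
    simp at this
  · exact h2 z h1

lemma lag_zero (n : ℕ) : (lag n).coeff 0 = 1 := by rw [lag_coeff]; simp

/-- `k! (L²)_k` is a multiplier sequence -/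
lemma ms_lag (n : ℕ) : MS (fun k => (k.factorial : ℝ) * (lag n ^ 2).coeff k) := by
  have hne : lag n ≠ 0 := by
    intro h
    have := lag_zero n
    rw [h] at this
    simp at this
  obtain ⟨s, hs, hfac⟩ := exists_factor (lag n) ((lag_onlyReal n).resolve_left hne)
  have hneg : ∀ r ∈ s, r < 0 := by
    intro r hr
    by_contra hcon
    push Not at hcon
    have h1 : (lag n).eval r = 0 := by
      rw [hfac, eval_mul, eval_multiset_prod, Multiset.prod_eq_zero, mul_zero]
      rw [Multiset.map_map, Multiset.mem_map]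
      exact ⟨r, hr, by simp⟩
    have h2 : 0 < (lag n).eval r := by
      rw [eval_eq_sum_range, Finset.sum_range_succ']
      have h3 : 0 ≤ ∑ k ∈ Finset.range (lag n).natDegree, (lag n).coeff (k + 1) * r ^ (k + 1) :=
        Finset.sum_nonneg fun k _ => mul_nonneg (lag_nonneg n _) (by positivity)
      rw [lag_zero]
      simp only [pow_zero, mul_one]
      linarith
    linarith
  have h3 : lag n ^ 2 = C ((lag n).leadingCoeff ^ 2) *
      (((s + s).map fun r => -r).map fun β : ℝ => (X + C β : ℝ[X])).prod := by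
    conv_lhs => rw [hfac]
    rw [mul_pow, ← C_pow, sq (Multiset.prod _), Multiset.map_map, Multiset.map_add, Multiset.prod_add]
    congr 1
    have : (fun r => X - C r : ℝ → ℝ[X]) = ((fun β : ℝ => (X + C β : ℝ[X])) ∘ fun r => -r) := by
      funext r; simp [sub_eq_add_neg]
    rw [this]
  have h4 := schur_comp ((s + s).map fun r => -r) (by
    intro β hβ
    rw [Multiset.mem_map] at hβ
    obtain ⟨r, hr, rfl⟩ := hβ
    rw [Multiset.mem_add, or_self] at hr
    linarith [hneg r hr])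
  have h5 := ms_const_mul h4 ((lag n).leadingCoeff ^ 2)
  have h6 : (fun k : ℕ => (k.factorial : ℝ) * (lag n ^ 2).coeff k) = fun k : ℕ =>
      (lag n).leadingCoeff ^ 2 * ((k.factorial : ℝ) *
        ((((s + s).map fun r => -r).map fun β : ℝ => (X + C β : ℝ[X])).prod).coeff k) := by
    funext k
    rw [h3, coeff_C_mul]; ring
  rw [h6]
  exact h5

lemma vander (k : ℕ) : ∑ x ∈ Finset.HasAntidiagonal.antidiagonal k,
    (1 : ℝ) / (x.1.factorial : ℝ) ^ 2 * (1 / (x.2.factorial : ℝ) ^ 2) =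
    ((2 * k).factorial : ℝ) / (k.factorial : ℝ) ^ 4 := by
  have h1 := Nat.add_choose_eq k k k
  have h2 : ((k + k).choose k : ℝ) * (k.factorial : ℝ) ^ 2 = ((2 * k).factorial : ℝ) := by
    have := Nat.add_choose_mul_factorial_mul_factorial k k
    rw [two_mul, ← this]; push_cast; ring
  have h3 : ((k + k).choose k : ℝ) = ∑ x ∈ Finset.HasAntidiagonal.antidiagonal k,
      (k.factorial : ℝ) ^ 2 * ((1 : ℝ) / (x.1.factorial : ℝ) ^ 2 * (1 / (x.2.factorial : ℝ) ^ 2)) := by
    rw [h1]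
    push_cast
    apply Finset.sum_congr rfl
    intro x hx
    have hx' : x.1 + x.2 = k := Finset.HasAntidiagonal.mem_antidiagonal.1 hx
    have h4 : (k.choose x.1 : ℝ) * x.1.factorial * x.2.factorial = k.factorial := by
      have := Nat.choose_mul_factorial_mul_factorial (n := k) (k := x.1) (by omega)
      rw [show k - x.1 = x.2 by omega] at this
      exact_mod_cast this
    have h5 : (k.choose x.2 : ℝ) = k.choose x.1 := by
      rw [← hx']
      have := Nat.choose_symm_add (a := x.1) (b := x.2)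
      exact_mod_cast this.symm
    rw [h5, ← h4]
    have h6 : (x.1.factorial : ℝ) ≠ 0 := by positivity
    have h7 : (x.2.factorial : ℝ) ≠ 0 := by positivity
    field_simp
  rw [← Finset.mul_sum] at h3
  have h8 : (k.factorial : ℝ) ≠ 0 := by positivity
  rw [← h2, h3]
  field_simp

lemma lag2_nonneg (n k : ℕ) : 0 ≤ (lag n ^ 2).coeff k := by
  rw [sq, coeff_mul]
  exact Finset.sum_nonneg fun x _ => mul_nonneg (lag_nonneg n _) (lag_nonneg n _)

lemma lag2_le {n : ℕ} (hn : 1 ≤ n) (k : ℕ) :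
    (lag n ^ 2).coeff k ≤ ((2 * k).factorial : ℝ) / (k.factorial : ℝ) ^ 4 := by
  rw [sq, coeff_mul, ← vander]
  exact Finset.sum_le_sum fun x _ => mul_le_mul (lag_le hn _) (lag_le hn _) (lag_nonneg n _)
    (by positivity)

lemma lag2_tendsto (k : ℕ) : Tendsto (fun n => (lag n ^ 2).coeff k) atTop
    (𝓝 (((2 * k).factorial : ℝ) / (k.factorial : ℝ) ^ 4)) := by
  simp only [sq, coeff_mul]
  rw [← vander]
  apply tendsto_finsetSum
  intro x _
  exact (lag_tendsto _).mul (lag_tendsto _)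

/-- the approximating polynomials -/
noncomputable def happ (s : ℝ) (m : ℕ) (n : ℕ) : ℝ[X] :=
  hm (fun k => (1 / (k.factorial : ℝ)) ^ m * ((k.factorial : ℝ) * (lag n ^ 2).coeff k))
    (hm (fun k => (-(1 / (4 * (n : ℝ) ^ 2))) ^ k) (hm (fun k => (k : ℝ) ^ s) (ff n)))

lemma happ_onlyReal {s : ℝ} (hs : 0 < s) (m : ℕ) {n : ℕ} (hn : 1 ≤ n) : OnlyReal (happ s m n) := by
  unfold happ
  apply ms_mul (ms_pow_of ms_inv_factorial m) (ms_lag n)
  apply ms_pow
  exact rpow_onlyReal hs hn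

lemma happ_coeff (s : ℝ) (m : ℕ) {n : ℕ} (hn : 1 ≤ n) (k : ℕ) : (happ s m n).coeff k =
    (1 / (k.factorial : ℝ)) ^ m * ((k.factorial : ℝ) * (lag n ^ 2).coeff k) *
      ((k : ℝ) ^ s * tau n k) := by
  unfold happ
  rw [coeff_hm, coeff_hm, coeff_hm, ← ff_coeff_tau hn k]
  ring

/-- limit coefficient -/
noncomputable def cc (s : ℝ) (m k : ℕ) : ℝ := (k : ℝ) ^ s / (k.factorial : ℝ) ^ (m + 3)

lemma cc_eq (s : ℝ) (m k : ℕ) : (1 / (k.factorial : ℝ)) ^ m * ((k.factorial : ℝ) *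
    (((2 * k).factorial : ℝ) / (k.factorial : ℝ) ^ 4)) * ((k : ℝ) ^ s * (1 / ((2 * k).factorial : ℝ))) =
    cc s m k := by
  unfold cc
  have h1 : (k.factorial : ℝ) ≠ 0 := by positivity
  have h2 : ((2 * k).factorial : ℝ) ≠ 0 := by positivity
  rw [pow_add, one_div, inv_pow]
  field_simp

lemma cc_nonneg (s : ℝ) (m k : ℕ) : 0 ≤ cc s m k := by unfold cc; positivity

lemma happ_coeff_nonneg (s : ℝ) (m : ℕ) {n : ℕ} (hn : 1 ≤ n) (k : ℕ) :
    0 ≤ (happ s m n).coeff k := by
  rw [happ_coeff s m hn]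
  have h1 := lag2_nonneg n k
  have h2 := tau_nonneg hn k
  positivity

lemma happ_coeff_le (s : ℝ) (m : ℕ) {n : ℕ} (hn : 1 ≤ n) (k : ℕ) :
    (happ s m n).coeff k ≤ cc s m k := by
  rw [happ_coeff s m hn, ← cc_eq]
  have h1 := lag2_nonneg n k
  have h2 := tau_nonneg hn k
  have h3 := lag2_le hn k
  have h4 := tau_le hn k
  gcongr

lemma happ_coeff_tendsto (s : ℝ) (m k : ℕ) :
    Tendsto (fun n => (happ s m n).coeff k) atTop (𝓝 (cc s m k)) := by
  rw [← cc_eq]
  have h1 := ((lag2_tendsto k).const_mul (k.factorial : ℝ)).const_mul ((1 / (k.factorial : ℝ)) ^ m)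
  have h2 := (tau_tendsto k).const_mul ((k : ℝ) ^ s)
  refine (h1.mul h2).congr' ?_
  filter_upwards [eventually_ge_atTop 1] with n hn
  rw [happ_coeff s m hn]

lemma cc_summable {s : ℝ} (hs : 0 < s) (m : ℕ) (R : ℝ) (hR : 0 ≤ R) :
    Summable (fun k => cc s m k * R ^ k) := by
  set M := ⌈s⌉₊ with hM
  have hle : s ≤ M := Nat.le_ceil s
  refine Summable.of_nonneg_of_le (fun k => mul_nonneg (cc_nonneg _ _ _) (by positivity)) ?_
    ((Real.summable_pow_div_factorial (Real.exp 1 * R)).mul_left (M.factorial : ℝ))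
  intro k
  unfold cc
  rcases Nat.eq_zero_or_pos k with rfl | hk
  · rw [Nat.cast_zero, Real.zero_rpow hs.ne']
    simp
  · have hk1 : (1 : ℝ) ≤ k := by exact_mod_cast hk
    have h1 : (k : ℝ) ^ s ≤ (k : ℝ) ^ M := by
      rw [← Real.rpow_natCast]
      exact Real.rpow_le_rpow_of_exponent_le hk1 hle
    have h2 : (k : ℝ) ^ M ≤ (M.factorial : ℝ) * Real.exp 1 ^ k := by
      have h3 := Real.pow_div_factorial_le_exp (k : ℝ) (Nat.cast_nonneg k) M
      rw [div_le_iff₀ (by positivity)] at h3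
      have h4 : Real.exp (k : ℝ) = Real.exp 1 ^ k := by rw [← Real.exp_nat_mul, mul_one]
      rw [← h4]; linarith
    have h5 : (1 : ℝ) ≤ (k.factorial : ℝ) := by exact_mod_cast Nat.factorial_pos k
    have h6 : (k.factorial : ℝ) ≤ (k.factorial : ℝ) ^ (m + 3) :=
      le_self_pow₀ h5 (by omega)
    calc (k : ℝ) ^ s / (k.factorial : ℝ) ^ (m + 3) * R ^ k
        ≤ ((M.factorial : ℝ) * Real.exp 1 ^ k) / (k.factorial : ℝ) * R ^ k := by
          apply mul_le_mul_of_nonneg_right _ (by positivity)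
          apply div_le_div₀ (by positivity) (h1.trans h2) (by positivity) h6
      _ = (M.factorial : ℝ) * ((Real.exp 1 * R) ^ k / (k.factorial : ℝ)) := by
          rw [mul_pow]; ring

/-- **Main approximation theorem** -/
theorem happ_tendsto {s : ℝ} (hs : 0 < s) (m : ℕ) :
    TendstoLocallyUniformly (fun (n : ℕ) (z : ℂ) => aeval z (happ s m n))
      (fun z => ∑' k, (cc s m k : ℂ) * z ^ k) atTop := by
  rw [Metric.tendstoLocallyUniformly_iff]
  intro ε hε z0
  set R := ‖z0‖ + 1 with hR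
  have hR0 : 0 ≤ R := by positivity
  have hsum := cc_summable hs m R hR0
  have hlim : Tendsto (fun n => ∑' k, |(happ s m n).coeff k - cc s m k| * R ^ k) atTop
      (𝓝 (∑' _k : ℕ, (0 : ℝ))) := by
    apply tendsto_tsum_of_dominated_convergence hsum
    · intro k
      have h1 := ((happ_coeff_tendsto s m k).sub_const (cc s m k)).abs.mul_const (R ^ k)
      simpa using h1
    · filter_upwards [eventually_ge_atTop 1] with n hn k
      rw [Real.norm_eq_abs, abs_mul, abs_abs, abs_of_nonneg (by positivity : 0 ≤ R ^ k)]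
      apply mul_le_mul_of_nonneg_right _ (by positivity)
      rw [abs_le]
      constructor <;> linarith [happ_coeff_nonneg s m hn k, happ_coeff_le s m hn k, cc_nonneg s m k]
  rw [tsum_zero] at hlim
  refine ⟨Metric.ball z0 1, Metric.ball_mem_nhds _ one_pos, ?_⟩
  have h2 := (Metric.tendsto_nhds.1 hlim) ε hε
  filter_upwards [h2, eventually_ge_atTop 1] with n hn hn1 z hz
  have hzR : ‖z‖ ≤ R := by
    have h3 : ‖z - z0‖ < 1 := by rwa [mem_ball_iff_norm] at hz
    have h4 := norm_add_le (z - z0) z0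
    rw [sub_add_cancel] at h4
    linarith
  have hs1 : Summable fun k => (cc s m k : ℂ) * z ^ k := by
    refine Summable.of_norm_bounded hsum fun k => ?_
    rw [norm_mul, norm_pow, Complex.norm_real, Real.norm_eq_abs, abs_of_nonneg (cc_nonneg _ _ _)]
    exact mul_le_mul_of_nonneg_left (pow_le_pow_left₀ (norm_nonneg _) hzR k) (cc_nonneg _ _ _)
  have hs2 : Summable fun k => (((happ s m n).coeff k : ℝ) : ℂ) * z ^ k := by
    refine Summable.of_norm_bounded hsum fun k => ?_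
    rw [norm_mul, norm_pow, Complex.norm_real, Real.norm_eq_abs,
      abs_of_nonneg (happ_coeff_nonneg s m hn1 k)]
    exact mul_le_mul (happ_coeff_le s m hn1 k) (pow_le_pow_left₀ (norm_nonneg _) hzR k)
      (by positivity) (cc_nonneg _ _ _)
  have hpoly : aeval z (happ s m n) = ∑' k, (((happ s m n).coeff k : ℝ) : ℂ) * z ^ k := by
    rw [aeval_eq_sum_range, tsum_eq_sum (s := Finset.range ((happ s m n).natDegree + 1))]
    · apply Finset.sum_congr rfl
      intro k _
      rw [Algebra.smul_def, Complex.coe_algebraMap]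
    · intro k hk
      rw [Finset.mem_range] at hk
      rw [coeff_eq_zero_of_natDegree_lt (by omega)]; simp
  have hs3 : Summable fun k => |(happ s m n).coeff k - cc s m k| * R ^ k := by
    refine Summable.of_nonneg_of_le (fun k => by positivity) (fun k => ?_) hsum
    apply mul_le_mul_of_nonneg_right _ (by positivity)
    rw [abs_le]
    constructor <;> linarith [happ_coeff_nonneg s m hn1 k, happ_coeff_le s m hn1 k, cc_nonneg s m k]
  rw [dist_comm, dist_eq_norm, hpoly, ← hs2.tsum_sub hs1]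
  have h5 : ‖∑' k, ((((happ s m n).coeff k : ℝ) : ℂ) * z ^ k - (cc s m k : ℂ) * z ^ k)‖ ≤
      ∑' k, |(happ s m n).coeff k - cc s m k| * R ^ k := by
    apply tsum_of_norm_bounded hs3.hasSum
    intro k
    rw [← sub_mul, norm_mul, norm_pow, ← Complex.ofReal_sub, Complex.norm_real, Real.norm_eq_abs]
    exact mul_le_mul_of_nonneg_left (pow_le_pow_left₀ (norm_nonneg _) hzR k) (abs_nonneg _)
  have h6 : ∑' k, |(happ s m n).coeff k - cc s m k| * R ^ k < ε := by
    rw [Real.dist_eq, sub_zero] at hn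
    exact (abs_lt.1 hn).2
  exact h5.trans_lt h6

lemma happ_ne_zero {s : ℝ} (m : ℕ) {n : ℕ} (hn : 1 ≤ n) : happ s m n ≠ 0 := by
  intro h
  have h1 := happ_coeff s m hn 1
  rw [h, coeff_zero] at h1
  have h2 : 0 < (lag n ^ 2).coeff 1 := by
    rw [sq, mul_coeff_one, lag_zero, lag_coeff]
    have : (n : ℝ) ≠ 0 := by positivity
    simp [this]
  have h3 : 0 < tau n 1 := by
    unfold tau; simp
  simp at h1
  rcases h1 with h1 | h1
  · rw [h1] at h2; exact lt_irrefl _ h2
  · rw [h1] at h3; exact lt_irrefl _ h3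

end Q80.RR
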