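import Mathlib
import Pool.Agent.Q80.FracLimit

/-!
# A test with Laguerre polynomials

If `s` is a sequence such that `0 ≤ ∑ s_k a_k x^k` whenever `p = ∑ a_k x^k` satisfies `0 ≤ p x` and
`r p(xr) ≤ p x` for all `r ∈ [0,1]`, then `s_k / k!` is a multiplier sequence.
-/

open Polynomial Filter Topology MeasureTheory Set

namespace Q80.RR

/-- partial fractions with residues of one sign -/
theorem onlyReal_of_interp {F M : ℝ[X]} {n : ℕ} (hF : F.natDegree ≤ n) (hMn : M.natDegree = n)
    (hM0 : M ≠ 0) (hM : ∀ z : ℂ, aeval z M = 0 → z.im = 0)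
    (hs : ∀ x, M.eval x = 0 → (derivative M).eval x ≠ 0 ∧
      F.eval x / (derivative M).eval x ≤ 0) : OnlyReal F := by
  classical
  obtain ⟨s, hcard, hfac⟩ := exists_factor M hM
  set lc := M.leadingCoeff with hlc
  have hlc0 : lc ≠ 0 := leadingCoeff_ne_zero.2 hM0
  -- the multiset is nodup
  have hroots : M.roots = s := by
    have h1 : M.roots = (C lc * (s.map (fun r => X - C r)).prod).roots := by rw [← hfac]
    rw [h1, roots_C_mul _ hlc0, roots_multiset_prod_X_sub_C]
  have hroot : ∀ x ∈ s, M.eval x = 0 := by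
    intro x hx
    rw [← hroots] at hx
    exact (mem_roots'.1 hx).2
  have hnodup : s.Nodup := by
    rw [Multiset.nodup_iff_count_le_one]
    intro a
    by_contra hcon
    push Not at hcon
    rw [← hroots, count_roots] at hcon
    have h1 := (one_lt_rootMultiplicity_iff_isRoot hM0).1 hcon
    exact (hs a h1.1).1 h1.2
  set t : Finset ℝ := ⟨s, hnodup⟩ with ht
  have htcard : t.card = n := by rw [ht, Finset.card_mk, hcard, hMn]
  have hMt : M = C lc * ∏ r ∈ t, (X - C r) := by
    rw [hfac]; rfl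
  have hroot' : ∀ x ∈ t, M.eval x = 0 := fun x hx => hroot x (Finset.mem_mk.1 hx)
  set v : ℝ → ℂ := fun r => (r : ℂ) with hv
  have hinj : Set.InjOn v t := fun a _ b _ h => Complex.ofReal_injective h
  have hnod : M.map (algebraMap ℝ ℂ) = C (lc : ℂ) * Lagrange.nodal t v := by
    conv_lhs => rw [hMt]
    rw [Polynomial.map_mul, Polynomial.map_C, Lagrange.nodal_eq, Polynomial.map_prod]
    congr 1
    apply Finset.prod_congr rfl
    intro i _
    simp [hv]
  set a := F.coeff n / lc with ha
  set G : ℂ[X] := F.map (algebraMap ℝ ℂ) - C (a : ℂ) * M.map (algebraMap ℝ ℂ) with hG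
  have hdeg : G.degree < t.card := by
    rw [htcard, degree_lt_iff_coeff_zero]
    intro m hm
    rw [hG, coeff_sub, coeff_C_mul, coeff_map, coeff_map]
    rcases eq_or_lt_of_le hm with h | h
    · rw [← h]
      have : M.coeff n = lc := by rw [hlc, leadingCoeff, hMn]
      rw [this, ha]
      have hc : (lc : ℂ) ≠ 0 := by exact_mod_cast hlc0
      simp only [Complex.coe_algebraMap]
      push_cast
      field_simp
      ring
    · rw [coeff_eq_zero_of_natDegree_lt (lt_of_le_of_lt hF h),
        coeff_eq_zero_of_natDegree_lt (by rw [hMn]; exact h)]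
      simp
  have hint := Lagrange.eq_interpolate hinj hdeg
  have hGv : ∀ x ∈ t, G.eval (v x) = ((F.eval x : ℝ) : ℂ) := by
    intro x hx
    rw [hG, eval_sub, eval_mul, eval_C, eval_map_algebraMap, eval_map_algebraMap]
    simp only [hv]
    rw [aeval_ofReal, aeval_ofReal, hroot' x hx]
    simp
  by_cases hB : ∀ x ∈ t, F.eval x = 0
  · -- F = a M
    have h1 : G = 0 := by
      rw [hint]
      have : ∀ x ∈ t, G.eval (v x) = (0 : ℝ → ℂ) x := by
        intro x hx
        rw [hGv x hx, hB x hx]; simp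
      rw [Lagrange.interpolate_eq_of_values_eq_on _ _ this]
      simp
    have h2 : F = C a * M := by
      apply Polynomial.map_injective (algebraMap ℝ ℂ) (algebraMap ℝ ℂ).injective
      rw [Polynomial.map_mul, Polynomial.map_C]
      rw [hG, sub_eq_zero] at h1
      exact h1
    rw [h2]
    exact onlyReal_C_mul (Or.inr hM)
  push Not at hB
  obtain ⟨x0, hx0, hFx0⟩ := hB
  apply onlyReal_of_upper
  intro z hz
  have hzne : ∀ i ∈ t, z ≠ v i := fun i _ h => by
    rw [h] at hz; simp [hv] at hz
  have h1 : aeval z F = a * aeval z M + G.eval z := by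
    rw [hG, eval_sub, eval_mul, eval_C, eval_map_algebraMap, eval_map_algebraMap]; ring
  have h2 : G.eval z = eval z (Lagrange.nodal t v) *
      ∑ i ∈ t, Lagrange.nodalWeight t v i * (z - v i)⁻¹ * G.eval (v i) := by
    conv_lhs => rw [hint]
    rw [Lagrange.eval_interpolate_not_at_node _ hzne]
  have h3 : ∀ i ∈ t, Lagrange.nodalWeight t v i = (lc : ℂ) / (((derivative M).eval i : ℝ) : ℂ) := by
    intro i hi
    rw [Lagrange.nodalWeight_eq_eval_derivative_nodal hi]
    have h4 : derivative (M.map (algebraMap ℝ ℂ)) = C (lc : ℂ) * derivative (Lagrange.nodal t v) := by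
      rw [hnod, derivative_C_mul]
    have h5 := congrArg (eval (v i)) h4
    rw [derivative_map, eval_map_algebraMap, eval_mul, eval_C] at h5
    simp only [hv] at h5 ⊢
    rw [aeval_ofReal] at h5
    have h6 := (hs i (hroot' i hi)).1
    have h7 : (((derivative M).eval i : ℝ) : ℂ) ≠ 0 := by exact_mod_cast h6
    have hc : (lc : ℂ) ≠ 0 := by exact_mod_cast hlc0
    rw [h5]
    rw [h5] at h7
    have h8 := right_ne_zero_of_mul h7
    field_simp
  have hMz : aeval z M = lc * eval z (Lagrange.nodal t v) := by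
    rw [← eval_map_algebraMap, hnod, eval_mul, eval_C]
  have hMz0 : aeval z M ≠ 0 := fun h => by
    have := hM z h; linarith
  have h9 : aeval z F = aeval z M * (a + ∑ i ∈ t,
      (((F.eval i / (derivative M).eval i : ℝ)) : ℂ) * (z - i)⁻¹) := by
    rw [h1, h2, hMz, mul_add, mul_comm (a : ℂ), Finset.mul_sum, Finset.mul_sum]
    congr 1
    apply Finset.sum_congr rfl
    intro i hi
    rw [h3 i hi, hGv i hi]
    push_cast
    simp only [hv]
    ring
  rw [h9]
  apply mul_ne_zero hMz0
  intro h0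
  have h10 := congrArg Complex.im h0
  rw [Complex.add_im, Complex.ofReal_im, zero_add, Complex.im_sum, Complex.zero_im] at h10
  have h11 : ∀ i ∈ t, 0 ≤ ((((F.eval i / (derivative M).eval i : ℝ)) : ℂ) * (z - i)⁻¹).im := by
    intro i hi
    rw [Complex.im_ofReal_mul]
    exact mul_nonneg_of_nonpos_of_nonpos (hs i (hroot' i hi)).2 (inv_im_neg hz i).le
  have h12 := (Finset.sum_eq_zero_iff_of_nonneg h11).1 h10 x0 hx0
  rw [Complex.im_ofReal_mul] at h12
  rcases mul_eq_zero.1 h12 with h13 | h13
  · rcases div_eq_zero_iff.1 h13 with h14 | h14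
    · exact hFx0 h14
    · exact (hs x0 (hroot' x0 hx0)).1 h14
  · exact (inv_im_neg hz x0).ne h13

/-! ### Laguerre polynomials -/

/-- `∑ (-1)^k C(n,k) x^k / k!` -/
noncomputable def Lg (n : ℕ) : ℝ[X] :=
  hm (fun k => (-1) ^ k * (1 / (k.factorial : ℝ))) ((X + 1) ^ n)

lemma Lg_coeff (n k : ℕ) : (Lg n).coeff k = (-1) ^ k * (1 / (k.factorial : ℝ)) * (n.choose k : ℝ) := by
  unfold Lg
  rw [coeff_hm, coeff_X_add_one_pow]

lemma Lg_onlyReal (n : ℕ) : OnlyReal (Lg n) := by
  apply ms_mul (ms_pow (-1)) ms_inv_factorial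
  right
  intro z hz
  rw [map_pow, map_add, map_one, aeval_X] at hz
  have h1 := eq_zero_of_pow_eq_zero hz
  have : z = -1 := by linear_combination h1
  rw [this]; simp

lemma Lg_ode (n : ℕ) : X * derivative (derivative (Lg n)) + (1 - X) * derivative (Lg n) +
    C (n : ℝ) * Lg n = 0 := by
  have key : ∀ k : ℕ, ((k : ℝ) + 1) ^ 2 * (Lg n).coeff (k + 1) + ((n : ℝ) - k) * (Lg n).coeff k = 0 := by
    intro k
    rw [Lg_coeff, Lg_coeff]
    have h1 : ((n.choose (k + 1) : ℝ)) * (k + 1) = n.choose k * ((n : ℝ) - k) := by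
      rcases le_or_gt k n with hkn | hkn
      · have := Nat.choose_succ_right_eq n k
        have h8 : ((n - k : ℕ) : ℝ) = n - k := Nat.cast_sub hkn
        rw [← h8]
        exact_mod_cast this
      · rw [Nat.choose_eq_zero_of_lt hkn, Nat.choose_eq_zero_of_lt (by omega)]; simp
    have h2 : (k.factorial : ℝ) ≠ 0 := by positivity
    have h3 : ((k : ℝ) + 1) ≠ 0 := by positivity
    rw [Nat.factorial_succ, pow_succ]
    push_cast
    field_simp
    linear_combination (-(-1 : ℝ) ^ k) * h1
  ext k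
  rw [coeff_add, coeff_add, coeff_C_mul, sub_mul, one_mul, coeff_sub, coeff_zero]
  have h0 := key k
  rcases k with _ | k
  · rw [mul_coeff_zero, mul_coeff_zero, coeff_X_zero]
    simp only [coeff_derivative]
    push_cast at h0 ⊢
    linear_combination h0
  · rw [coeff_X_mul, coeff_X_mul]
    simp only [coeff_derivative]
    push_cast at h0 ⊢
    linear_combination h0

/-- `L + 2 x L'` -/
noncomputable def Mg (n : ℕ) : ℝ[X] := Lg n + C 2 * (X * derivative (Lg n))

lemma Mg_coeff (n k : ℕ) : (Mg n).coeff k = (2 * k + 1) * (Lg n).coeff k := by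
  unfold Mg
  rw [coeff_add, coeff_C_mul]
  rcases k with _ | k
  · rw [mul_coeff_zero, coeff_X_zero]; push_cast; ring
  · rw [coeff_X_mul, coeff_derivative]; push_cast; ring

lemma Lg_natDegree (n : ℕ) : (Lg n).natDegree = n := by
  apply natDegree_eq_of_le_of_coeff_ne_zero
  · rw [natDegree_le_iff_coeff_eq_zero]
    intro k hk
    rw [Lg_coeff, Nat.choose_eq_zero_of_lt hk]; simp
  · rw [Lg_coeff, Nat.choose_self]
    have : (n.factorial : ℝ) ≠ 0 := by positivity
    simp [this]

lemma Mg_natDegree (n : ℕ) : (Mg n).natDegree = n := by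
  apply natDegree_eq_of_le_of_coeff_ne_zero
  · rw [natDegree_le_iff_coeff_eq_zero]
    intro k hk
    rw [Mg_coeff, Lg_coeff, Nat.choose_eq_zero_of_lt hk]; simp
  · rw [Mg_coeff, Lg_coeff, Nat.choose_self]
    have : (n.factorial : ℝ) ≠ 0 := by positivity
    have h2 : (2 * (n : ℝ) + 1) ≠ 0 := by positivity
    simp [this, h2]

lemma Lg_zero (n : ℕ) : (Lg n).eval 0 = 1 := by
  rw [← coeff_zero_eq_eval_zero, Lg_coeff]; simp

lemma Mg_ne (n : ℕ) : Mg n ≠ 0 := by
  intro h
  have := Mg_coeff n 0
  rw [h, Lg_coeff] at this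
  simp at this

lemma Lg_ne (n : ℕ) : Lg n ≠ 0 := by
  intro h
  have := Lg_zero n
  rw [h] at this
  simp at this

lemma Mg_pos {n : ℕ} {x : ℝ} (hx : x ≤ 0) : 0 < (Mg n).eval x := by
  rw [eval_eq_sum_range, Finset.sum_range_succ']
  have h1 : ∀ k, 0 ≤ (Mg n).coeff k * x ^ k := by
    intro k
    rw [Mg_coeff, Lg_coeff]
    have : (-1 : ℝ) ^ k * x ^ k = (-x) ^ k := by rw [← mul_pow]; ring
    have h2 : 0 ≤ (-x) ^ k := pow_nonneg (by linarith) k
    have : (2 * (k : ℝ) + 1) * ((-1) ^ k * (1 / (k.factorial : ℝ)) * (n.choose k : ℝ)) * x ^ k =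
      (2 * (k : ℝ) + 1) * (1 / (k.factorial : ℝ)) * (n.choose k : ℝ) * (-x) ^ k := by
      rw [← this]; ring
    rw [this]
    positivity
  have h2 : (Mg n).coeff 0 = 1 := by rw [Mg_coeff, Lg_coeff]; simp
  rw [h2]
  have h3 : 0 ≤ ∑ k ∈ Finset.range (Mg n).natDegree, (Mg n).coeff (k + 1) * x ^ (k + 1) :=
    Finset.sum_nonneg fun k _ => h1 _
  simp only [pow_zero, mul_one]
  linarith

lemma Mg_onlyReal {n : ℕ} (hn : 1 ≤ n) : ∀ z : ℂ, aeval z (Mg n) = 0 → z.im = 0 := by
  have h : OnlyReal (Mg n) := by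
    apply onlyReal_of_upper
    intro z hz h0
    have hL := (Lg_onlyReal n).resolve_left (Lg_ne n)
    obtain ⟨s, hs, hfac⟩ := exists_factor (Lg n) hL
    obtain ⟨h1, h2⟩ := derivs s hz
    set g : ℝ[X] := (s.map (fun r => X - C r)).prod with hg
    set c := (Lg n).leadingCoeff with hc
    have hc0 : c ≠ 0 := leadingCoeff_ne_zero.2 (Lg_ne n)
    have hz0 : z ≠ 0 := by rintro rfl; simp at hz
    have e1 : Mg n = C c * (g + C 2 * (X * derivative g)) := by
      unfold Mg
      conv_lhs => rw [hfac]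
      rw [derivative_C_mul]; ring
    rw [e1, map_mul, map_add, map_mul, map_mul, aeval_C, aeval_C, aeval_X, h2,
      Complex.coe_algebraMap] at h0
    have e2 : aeval z g * (1 + 2 * (z * (s.map fun r : ℝ => (z - r)⁻¹).sum)) = 0 := by
      rcases mul_eq_zero.1 h0 with h3 | h3
      · exact absurd (by exact_mod_cast h3) hc0
      · rw [← h3]; push_cast; ring
    have e3 := (mul_eq_zero.1 e2).resolve_left h1
    have e4 : (s.map fun r : ℝ => (z - r)⁻¹).sum = -(1 / 2 : ℝ) * z⁻¹ := by
      generalize (s.map fun r : ℝ => (z - r)⁻¹).sum = SS at e3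
      have : z * SS = -(1 / 2) := by linear_combination (1 / 2) * e3
      push_cast
      field_simp
      linear_combination 2 * this
    have e5 : 0 < ((-(1 / 2 : ℝ) : ℂ) * z⁻¹).im := by
      have h4 := inv_im_neg hz 0
      rw [Complex.ofReal_zero, sub_zero] at h4
      have : (-(1 / 2 : ℝ) : ℂ) = ((-(1 / 2 : ℝ) : ℝ) : ℂ) := by push_cast; rfl
      rw [this, Complex.im_ofReal_mul]
      linarith
    have e6 : ∀ t : Multiset ℝ, ((t.map fun r : ℝ => (z - r)⁻¹).sum).im ≤ 0 := by
      intro t
      induction t using Multiset.induction with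
      | empty => simp
      | cons a t ih =>
        rw [Multiset.map_cons, Multiset.sum_cons, Complex.add_im]
        linarith [inv_im_neg hz a]
    have e7 := e6 s
    rw [e4] at e7
    linarith
  exact h.resolve_left (Mg_ne n)

lemma S_alg (L L' x m κ : ℝ) (hκ : κ = 4 * m + 2) (h : 1 + κ * x ≠ 0) :
    (1 : ℝ) * (L ^ 2 + (L + 2 * x * L') ^ 2 / (1 + κ * x)) + x * ((2 : ℕ) * L ^ (2 - 1) * L' +
        ((2 : ℕ) * (L + 2 * x * L') ^ (2 - 1) * ((1 + 2 * x) * L' - 2 * m * L) * (1 + κ * x) -
          (L + 2 * x * L') ^ 2 * κ) / (1 + κ * x) ^ 2) =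
        (L + 2 * x * L') ^ 2 * (2 + 2 * x + κ * x + 2 * κ * x ^ 2) / (1 + κ * x) ^ 2 := by
  obtain rfl : m = (κ - 2) / 4 := by rw [hκ]; ring
  obtain ⟨D, hD⟩ : ∃ D, D = 1 + κ * x := ⟨_, rfl⟩
  rw [← hD] at h ⊢
  simp only [Nat.cast_ofNat, Nat.add_one_sub_one, pow_one]
  field_simp
  rw [hD]
  ring

/-- the monotone quantity -/
lemma mono_S (n : ℕ) : MonotoneOn (fun x : ℝ => x * ((Lg n).eval x ^ 2 +
    (Mg n).eval x ^ 2 / (1 + (4 * n + 2) * x))) (Ici 0) := by
  have hpos : ∀ x : ℝ, 0 ≤ x → 0 < 1 + (4 * (n : ℝ) + 2) * x := by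
    intro x hx; positivity
  apply monotoneOn_of_deriv_nonneg (convex_Ici 0)
  · apply ContinuousOn.mul continuousOn_id
    apply ContinuousOn.add
    · exact ((Lg n).continuous.pow 2).continuousOn
    · apply ContinuousOn.div
      · exact ((Mg n).continuous.pow 2).continuousOn
      · fun_prop
      · intro x hx; exact (hpos x hx).ne'
  · rw [interior_Ici]
    intro x hx
    have hx' : (0 : ℝ) < x := hx
    have h0 := hpos x hx'.le
    have h1 : DifferentiableAt ℝ (fun x : ℝ => x * ((Lg n).eval x ^ 2 +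
      (Mg n).eval x ^ 2 / (1 + (4 * n + 2) * x))) x := by
      apply DifferentiableAt.mul differentiableAt_id
      apply DifferentiableAt.add
      · exact ((Lg n).differentiable x).pow 2
      · apply DifferentiableAt.div
        · exact ((Mg n).differentiable x).pow 2
        · fun_prop
        · exact h0.ne'
    exact h1.differentiableWithinAt
  · rw [interior_Ici]
    intro x hx
    have hx' : (0 : ℝ) < x := hx
    have h0 := hpos x hx'.le
    set κ : ℝ := 4 * (n : ℝ) + 2 with hκ
    have hden : HasDerivAt (fun x : ℝ => 1 + κ * x) κ x := by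
      have := ((hasDerivAt_id x).const_mul κ).const_add 1
      simpa using this
    have h1 := (hasDerivAt_id x).mul ((((Lg n).hasDerivAt x).pow 2).add
      ((((Mg n).hasDerivAt x).pow 2).div hden h0.ne'))
    have h2 : deriv (fun x : ℝ => x * ((Lg n).eval x ^ 2 + (Mg n).eval x ^ 2 / (1 + κ * x))) x = _ :=
      h1.deriv
    rw [h2]
    -- values
    have e1 : (Mg n).eval x = (Lg n).eval x + 2 * x * (derivative (Lg n)).eval x := by
      unfold Mg
      simp only [eval_add, eval_mul, eval_C, eval_X]; ring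
    have e2 : (derivative (Mg n)).eval x = 3 * (derivative (Lg n)).eval x +
        2 * x * (derivative (derivative (Lg n))).eval x := by
      unfold Mg
      simp only [derivative_add, derivative_mul, derivative_C, derivative_X, eval_add, eval_mul,
        eval_C, eval_X, eval_zero, eval_one]
      ring
    have e3 := congrArg (eval x) (Lg_ode n)
    simp only [eval_add, eval_mul, eval_sub, eval_X, eval_C, eval_one, eval_zero] at e3
    have e4 : (derivative (Mg n)).eval x = (1 + 2 * x) * (derivative (Lg n)).eval x -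
        2 * n * (Lg n).eval x := by
      rw [e2]; linear_combination 2 * e3
    simp only [id, Pi.add_apply, Pi.mul_apply, Pi.div_apply, Pi.pow_apply]
    set L := (Lg n).eval x
    set L' := (derivative (Lg n)).eval x
    have key : (1 : ℝ) * (L ^ 2 + (Mg n).eval x ^ 2 / (1 + κ * x)) + x * ((2 : ℕ) * L ^ (2 - 1) * L' +
        ((2 : ℕ) * (Mg n).eval x ^ (2 - 1) * (derivative (Mg n)).eval x * (1 + κ * x) -
          (Mg n).eval x ^ 2 * κ) / (1 + κ * x) ^ 2) =
        (Mg n).eval x ^ 2 * (2 + 2 * x + κ * x + 2 * κ * x ^ 2) / (1 + κ * x) ^ 2 := by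
      rw [e4, e1]
      exact S_alg L L' x n κ hκ h0.ne'
    rw [key]
    have hκ0 : 0 ≤ κ := by rw [hκ]; positivity
    positivity

/-! ### the test condition -/

/-- the test condition -/
def Good (s : ℕ → ℝ) : Prop := ∀ (p : ℝ[X]) (x : ℝ), 0 ≤ x → 0 ≤ p.eval x →
  (∀ r ∈ Icc (0 : ℝ) 1, r * p.eval (x * r) ≤ p.eval x) → 0 ≤ (hm s p).eval x

lemma good_const {c : ℝ} (hc : 0 ≤ c) : Good (fun _ => c) := by
  intro p x _ hp _
  have : hm (fun _ => c) p = C c * p := by
    ext k; rw [coeff_C_mul, coeff_hm]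
  rw [this, eval_mul, eval_C]
  exact mul_nonneg hc hp

lemma hm_add_eval (s t : ℕ → ℝ) (p : ℝ[X]) : hm (fun k => s k + t k) p = hm s p + hm t p := by
  ext k; rw [coeff_add, coeff_hm, coeff_hm, coeff_hm]; ring

lemma good_add {s t : ℕ → ℝ} (hs : Good s) (ht : Good t) : Good (fun k => s k + t k) := by
  intro p x hx hp h
  rw [hm_add_eval, eval_add]
  exact add_nonneg (hs p x hx hp h) (ht p x hx hp h)

lemma good_const_mul {s : ℕ → ℝ} (hs : Good s) {c : ℝ} (hc : 0 ≤ c) : Good (fun k => c * s k) := by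
  intro p x hx hp h
  have : hm (fun k => c * s k) p = C c * hm s p := by
    ext k; rw [coeff_C_mul, coeff_hm, coeff_hm, mul_assoc]
  rw [this, eval_mul, eval_C]
  exact mul_nonneg hc (hs p x hx hp h)

lemma good_sub_pow {r : ℝ} (hr : r ∈ Icc (0 : ℝ) 1) : Good (fun k => 1 - r ^ (k + 1)) := by
  intro p x hx hp h
  have : hm (fun k => 1 - r ^ (k + 1)) p = p - C r * p.comp (C r * X) := by
    ext k; rw [coeff_sub, coeff_C_mul, comp_C_mul_X_coeff, coeff_hm, pow_succ]; ring
  rw [this, eval_sub, eval_mul, eval_C, eval_comp, eval_mul, eval_C, eval_X, mul_comm r x]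
  linarith [h r hr]

lemma good_integral {α : Type*} [MeasurableSpace α] {μ : Measure α} {f : α → ℕ → ℝ}
    (hint : ∀ k, Integrable (fun t => f t k) μ) (hg : ∀ᵐ t ∂μ, Good (f t)) :
    Good (fun k => ∫ t, f t k ∂μ) := by
  intro p x hx hp h
  have h1 : (hm (fun k => ∫ t, f t k ∂μ) p).eval x = ∫ t, (hm (f t) p).eval x ∂μ := by
    rw [eval_hm]
    have : ∀ t, (hm (f t) p).eval x = ∑ k ∈ Finset.range (p.natDegree + 1),
        f t k * (p.coeff k * x ^ k) := by
      intro t
      rw [eval_hm]
      apply Finset.sum_congr rfl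
      intro k _; ring
    simp only [this]
    rw [integral_finsetSum]
    · apply Finset.sum_congr rfl
      intro k _
      rw [integral_mul_const]; ring
    · intro k _
      exact (hint k).mul_const _
  rw [h1]
  apply integral_nonneg_of_ae
  filter_upwards [hg] with t ht
  exact ht p x hx hp h

lemma node_facts {n : ℕ} {x : ℝ} (hx : (Mg n).eval x = 0) :
    0 < x ∧ (Lg n).eval x ≠ 0 ∧
    (∀ r ∈ Icc (0 : ℝ) 1, |r * (Lg n).eval (x * r)| ≤ |(Lg n).eval x|) ∧
    (derivative (Mg n)).eval x = -((1 + 2 * x) / (2 * x) + 2 * n) * (Lg n).eval x := by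
  have hx0 : 0 < x := by
    by_contra hcon
    push Not at hcon
    have := Mg_pos (n := n) hcon
    rw [hx] at this
    exact lt_irrefl _ this
  have hmono := mono_S n
  have h1 : ∀ y ∈ Icc 0 x, y * (Lg n).eval y ^ 2 ≤ x * (Lg n).eval x ^ 2 := by
    intro y hy
    have h2 := hmono (mem_Ici.2 hy.1) (mem_Ici.2 hx0.le) hy.2
    simp only [hx] at h2
    have h3 : 0 ≤ y * ((Mg n).eval y ^ 2 / (1 + (4 * n + 2) * y)) := by
      have := hy.1
      positivity
    have h4 : (0 : ℝ) ^ 2 / (1 + (4 * n + 2) * x) = 0 := by simp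
    rw [h4, add_zero, mul_add] at h2
    linarith
  refine ⟨hx0, ?_, ?_, ?_⟩
  · intro h0
    apply Lg_ne n
    apply eq_zero_of_infinite_isRoot
    refine (Ioo_infinite hx0).mono ?_
    intro y hy
    have h2 := h1 y ⟨hy.1.le, hy.2.le⟩
    rw [h0] at h2
    have h3 : y * (Lg n).eval y ^ 2 = 0 := by
      apply le_antisymm
      · simpa using h2
      · have := hy.1; positivity
    rcases mul_eq_zero.1 h3 with h4 | h4
    · exact absurd h4 hy.1.ne'
    · exact pow_eq_zero_iff (two_ne_zero) |>.1 h4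
  · intro r hr
    rw [← sq_le_sq, mul_pow]
    have h2 := h1 (x * r) ⟨mul_nonneg hx0.le hr.1, by nlinarith [hr.1, hr.2]⟩
    have h3 : r * (Lg n).eval (x * r) ^ 2 ≤ (Lg n).eval x ^ 2 := by
      rw [mul_assoc] at h2
      exact le_of_mul_le_mul_left h2 hx0
    have h4 : r ^ 2 * (Lg n).eval (x * r) ^ 2 ≤ r * (Lg n).eval (x * r) ^ 2 := by
      apply mul_le_mul_of_nonneg_right _ (sq_nonneg _)
      nlinarith [hr.1, hr.2]
    linarith
  · have e1 : (Mg n).eval x = (Lg n).eval x + 2 * x * (derivative (Lg n)).eval x := by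
      unfold Mg
      simp only [eval_add, eval_mul, eval_C, eval_X]; ring
    have e2 : (derivative (Mg n)).eval x = 3 * (derivative (Lg n)).eval x +
        2 * x * (derivative (derivative (Lg n))).eval x := by
      unfold Mg
      simp only [derivative_add, derivative_mul, derivative_C, derivative_X, eval_add, eval_mul,
        eval_C, eval_X, eval_zero, eval_one]
      ring
    have e3 := congrArg (eval x) (Lg_ode n)
    simp only [eval_add, eval_mul, eval_sub, eval_X, eval_C, eval_one, eval_zero] at e3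
    rw [hx] at e1
    have e5 : (derivative (Lg n)).eval x = -(Lg n).eval x / (2 * x) := by
      rw [eq_div_iff (by positivity)]; linear_combination -e1
    have e4 : (derivative (Mg n)).eval x = (1 + 2 * x) * (derivative (Lg n)).eval x -
        2 * n * (Lg n).eval x := by
      rw [e2]; linear_combination 2 * e3
    rw [e4, e5]
    field_simp
    ring

lemma hm_neg (s : ℕ → ℝ) (p : ℝ[X]) : hm s (-p) = -hm s p := by
  ext k; rw [coeff_neg, coeff_hm, coeff_hm, coeff_neg]; ring

theorem good_onlyReal {s : ℕ → ℝ} (hs : Good s) (n : ℕ) : OnlyReal (hm s (Lg n)) := by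
  rcases Nat.eq_zero_or_pos n with rfl | hn
  · have : hm s (Lg 0) = C (s 0) := by
      ext k
      rw [coeff_hm, Lg_coeff, coeff_C]
      rcases k with _ | k
      · simp
      · simp
    rw [this]
    by_cases h0 : s 0 = 0
    · left; rw [h0]; simp
    · right
      intro z hz
      rw [aeval_C, Complex.coe_algebraMap] at hz
      exact absurd (by exact_mod_cast hz) h0
  refine onlyReal_of_interp (M := Mg n) (n := n) ((hm_natDegree_le _ _).trans (Lg_natDegree n).le)
    (Mg_natDegree n) (Mg_ne n) (Mg_onlyReal hn) ?_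
  intro x hx
  obtain ⟨hx0, hL0, hr, hM'⟩ := node_facts hx
  have hc : 0 < (1 + 2 * x) / (2 * x) + 2 * n := by positivity
  rw [hM']
  refine ⟨mul_ne_zero (neg_ne_zero.2 hc.ne') hL0, ?_⟩
  rcases lt_or_gt_of_ne hL0 with hneg | hpos
  · have h1 : 0 ≤ (hm s (-Lg n)).eval x := by
      apply hs _ _ hx0.le
      · rw [eval_neg]; linarith
      · intro r hr'
        have h2 := hr r hr'
        rw [eval_neg, eval_neg]
        rw [abs_of_neg hneg] at h2
        have := neg_abs_le (r * (Lg n).eval (x * r))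
        linarith
    rw [hm_neg, eval_neg] at h1
    apply div_nonpos_of_nonpos_of_nonneg (by linarith)
    nlinarith
  · have h1 : 0 ≤ (hm s (Lg n)).eval x := by
      apply hs _ _ hx0.le
      · exact hpos.le
      · intro r hr'
        have h2 := hr r hr'
        rw [abs_of_pos hpos] at h2
        exact (le_abs_self _).trans h2
    apply div_nonpos_of_nonneg_of_nonpos h1
    nlinarith

/-- a real-rooted polynomial with nonnegative coefficients gives a multiplier sequence -/
lemma ms_of_nonneg {p : ℝ[X]} (hp : OnlyReal p) (h0 : 0 < p.coeff 0) (hnn : ∀ k, 0 ≤ p.coeff k) :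
    MS (fun k => (k.factorial : ℝ) * p.coeff k) := by
  have hne : p ≠ 0 := by
    rintro rfl
    simp at h0
  obtain ⟨s, hs, hfac⟩ := exists_factor p (hp.resolve_left hne)
  have hneg : ∀ r ∈ s, r < 0 := by
    intro r hr
    by_contra hcon
    push Not at hcon
    have h1 : p.eval r = 0 := by
      rw [hfac, eval_mul, eval_multiset_prod, Multiset.prod_eq_zero, mul_zero]
      rw [Multiset.map_map, Multiset.mem_map]
      exact ⟨r, hr, by simp⟩
    have h2 : 0 < p.eval r := by
      rw [eval_eq_sum_range, Finset.sum_range_succ']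
      have h3 : 0 ≤ ∑ k ∈ Finset.range p.natDegree, p.coeff (k + 1) * r ^ (k + 1) :=
        Finset.sum_nonneg fun k _ => mul_nonneg (hnn _) (by positivity)
      simp only [pow_zero, mul_one]
      linarith
    linarith
  have h3 : p = C p.leadingCoeff *
      ((s.map fun r => -r).map fun β : ℝ => (X + C β : ℝ[X])).prod := by
    conv_lhs => rw [hfac]
    rw [Multiset.map_map]
    congr 1
    have : (fun r => X - C r : ℝ → ℝ[X]) = ((fun β : ℝ => (X + C β : ℝ[X])) ∘ fun r => -r) := by
      funext r; simp [sub_eq_add_neg]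
    rw [this]
  have h4 := schur_comp (s.map fun r => -r) (by
    intro β hβ
    rw [Multiset.mem_map] at hβ
    obtain ⟨r, hr, rfl⟩ := hβ
    linarith [hneg r hr])
  have h5 := ms_const_mul h4 p.leadingCoeff
  have h6 : (fun k : ℕ => (k.factorial : ℝ) * p.coeff k) = fun k : ℕ =>
      p.leadingCoeff * ((k.factorial : ℝ) *
        (((s.map fun r => -r).map fun β : ℝ => (X + C β : ℝ[X])).prod).coeff k) := by
    funext k
    conv_lhs => rw [h3, coeff_C_mul]
    ring
  rw [h6]
  exact h5

lemma choose_tendsto (k : ℕ) : Tendsto (fun n : ℕ => (n.choose k : ℝ) / (n : ℝ) ^ k) atTop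
    (𝓝 (1 / (k.factorial : ℝ))) := by
  have h1 := (lag_tendsto k).mul_const (k.factorial : ℝ)
  have h2 : (k.factorial : ℝ) ≠ 0 := by positivity
  have e1 : 1 / (k.factorial : ℝ) ^ 2 * (k.factorial : ℝ) = 1 / (k.factorial : ℝ) := by
    rw [sq]; field_simp
  rw [e1] at h1
  refine h1.congr fun n => ?_
  rw [lag_coeff]
  field_simp

/-- **The test**: a sequence `s ≥ 0` satisfying the test condition makes `s_k / k!` a multiplier
sequence. -/
theorem ms_of_good {s : ℕ → ℝ} (hs : Good s) (h0 : ∀ k, 0 ≤ s k) :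
    MS (fun k => s k / (k.factorial : ℝ)) := by
  -- first with a positive constant added
  have key : ∀ ε : ℝ, 0 < ε → MS (fun k => (s k + ε) / (k.factorial : ℝ)) := by
    intro ε hε
    have hg : Good (fun k => s k + ε) := good_add hs (good_const hε.le)
    have h1 : ∀ n : ℕ, MS (fun k => (s k + ε) * ((n.choose k : ℝ) / (n : ℝ) ^ k)) := by
      intro n
      have h2 := ms_pow (-(1 / (n : ℝ))) _ (good_onlyReal hg n)
      have hc : ∀ k, (hm (fun k => (-(1 / (n : ℝ))) ^ k) (hm (fun k => s k + ε) (Lg n))).coeff k =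
          (s k + ε) * ((n.choose k : ℝ) / (n : ℝ) ^ k) / (k.factorial : ℝ) := by
        intro k
        rw [coeff_hm, coeff_hm, Lg_coeff]
        have : (-(1 / (n : ℝ))) ^ k * (-1) ^ k = 1 / (n : ℝ) ^ k := by
          rw [← mul_pow, ← one_div_pow]; ring_nf
        calc _ = ((-(1 / (n : ℝ))) ^ k * (-1) ^ k) * ((s k + ε) * (1 / (k.factorial : ℝ)) *
              (n.choose k : ℝ)) := by ring
          _ = _ := by rw [this]; field_simp
      have h3 := ms_of_nonneg h2 (by
        rw [hc]; simp only [Nat.choose_zero_right, pow_zero, Nat.factorial_zero]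
        have := h0 0
        simp only [Nat.cast_one, div_one, mul_one]
        linarith) (by
        intro k
        rw [hc]
        have := h0 k
        positivity)
      simp only [hc] at h3
      have e : (fun k : ℕ => (k.factorial : ℝ) * ((s k + ε) * ((n.choose k : ℝ) / (n : ℝ) ^ k) /
          (k.factorial : ℝ))) = fun k => (s k + ε) * ((n.choose k : ℝ) / (n : ℝ) ^ k) := by
        funext k
        have : (k.factorial : ℝ) ≠ 0 := by positivity
        field_simp
      rw [e] at h3
      exact h3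
    refine ms_of_tendsto h1 ?_
    intro k
    have := (choose_tendsto k).const_mul (s k + ε)
    rw [mul_one_div] at this
    exact this
  refine ms_of_tendsto (fun N => key (1 / ((N : ℝ) + 1)) (by positivity)) ?_
  intro k
  have h1 : Tendsto (fun N : ℕ => (s k + 1 / ((N : ℝ) + 1)) / (k.factorial : ℝ)) atTop
      (𝓝 ((s k + 0) / (k.factorial : ℝ))) :=
    (tendsto_one_div_add_atTop_nhds_zero_nat.const_add (s k)).div_const _
  rw [add_zero] at h1
  exact h1

end Q80.RR
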