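import Mathlib
import Pool.Agent.Q80.LagTest

/-!
# A test with Chebyshev polynomials

If `s` (with `s 0 = 0`) is a sequence such that `0 ≤ ∑ s_k a_k x^k` whenever `p = ∑ a_k x^k`
satisfies `0 ≤ p x` and `p(xr) ≤ p x` for all `r ∈ [0,1]`, then `k! s_k / (2k)!` is a multiplier
sequence.
-/

open Polynomial Filter Topology MeasureTheory Set

namespace Q80.RR

/-- the test condition -/
def GoodC (s : ℕ → ℝ) : Prop := ∀ (p : ℝ[X]) (x : ℝ), 0 ≤ x → 0 ≤ p.eval x →
  (∀ r ∈ Icc (0 : ℝ) 1, p.eval (x * r) ≤ p.eval x) → 0 ≤ (hm s p).eval x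

lemma goodC_const_mul {s : ℕ → ℝ} (hs : GoodC s) {c : ℝ} (hc : 0 ≤ c) :
    GoodC (fun k => c * s k) := by
  intro p x hx hp h
  have : hm (fun k => c * s k) p = C c * hm s p := by
    ext k; rw [coeff_C_mul, coeff_hm, coeff_hm, mul_assoc]
  rw [this, eval_mul, eval_C]
  exact mul_nonneg hc (hs p x hx hp h)

lemma goodC_sub_pow {r : ℝ} (hr : r ∈ Icc (0 : ℝ) 1) : GoodC (fun k => 1 - r ^ k) := by
  intro p x hx hp h
  have : hm (fun k => 1 - r ^ k) p = p - p.comp (C r * X) := by
    ext k; rw [coeff_sub, comp_C_mul_X_coeff, coeff_hm]; ring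
  rw [this, eval_sub, eval_comp, eval_mul, eval_C, eval_X, mul_comm r x]
  linarith [h r hr]

lemma goodC_integral {α : Type*} [MeasurableSpace α] {μ : Measure α} {f : α → ℕ → ℝ}
    (hint : ∀ k, Integrable (fun t => f t k) μ) (hg : ∀ᵐ t ∂μ, GoodC (f t)) :
    GoodC (fun k => ∫ t, f t k ∂μ) := by
  intro p x hx hp h
  have h1 : (hm (fun k => ∫ t, f t k ∂μ) p).eval x = ∫ t, (hm (f t) p).eval x ∂μ := by
    rw [eval_hm]
    have : ∀ t, (hm (f t) p).eval x = ∑ k ∈ Finset.range (p.natDegree + 1),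
        f t k * (p.coeff k * x ^ k) := by
      intro t
      rw [eval_hm]
      apply Finset.sum_congr rfl
      intro k _; ring
    simp only [this]
    rw [integral_finsetSum]
    · apply Finset.sum_congr rfl
      intro k _
      rw [integral_mul_const]; ring
    · intro k _
      exact (hint k).mul_const _
  rw [h1]
  apply integral_nonneg_of_ae
  filter_upwards [hg] with t ht
  exact ht p x hx hp h

lemma ff_abs_le (n : ℕ) {y : ℝ} (hy : y ∈ Icc (0 : ℝ) 1) : |(ff n).eval y| ≤ 1 := by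
  have h1 : ss (Real.arccos (1 - 2 * y)) = y := by
    unfold ss
    rw [Real.cos_arccos (by linarith [hy.2]) (by linarith [hy.1])]
    ring
  rw [← h1, ff_ss]
  exact Real.abs_cos_le_one _

lemma ff_node {n : ℕ} (hn : 0 < n) (j : ℕ) : (ff n).eval (ss (th n j)) = (-1) ^ j := by
  rw [ff_ss]
  have hn' : (n : ℝ) ≠ 0 := by positivity
  have : (n : ℝ) * th n j = j * Real.pi := by unfold th; field_simp
  rw [this, Real.cos_nat_mul_pi]

lemma goodC_sign {s : ℕ → ℝ} (hs : GoodC s) {n : ℕ} (hn : 0 < n) {j : ℕ} (hj1 : 1 ≤ j)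
    (hj : j ≤ n) : 0 ≤ (-1 : ℝ) ^ j * (hm s (ff n)).eval (ss (th n j)) := by
  have hn' : (0 : ℝ) < n := by exact_mod_cast hn
  have hx0 : 0 < ss (th n j) := by
    apply ss_pos
    · unfold th
      have := Real.pi_pos
      positivity
    · unfold th
      rw [div_le_iff₀ hn']
      have : (j : ℝ) ≤ n := by exact_mod_cast hj
      nlinarith [Real.pi_pos]
  have hx1 : ss (th n j) ≤ 1 := by
    unfold ss; linarith [Real.neg_one_le_cos (th n j)]
  have h1 := hs (C ((-1 : ℝ) ^ j) * ff n) (ss (th n j)) hx0.le (by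
    rw [eval_mul, eval_C, ff_node hn, ← mul_pow]; norm_num) (by
    intro r hr
    rw [eval_mul, eval_C, eval_mul, eval_C, ff_node hn, ← mul_pow]
    norm_num
    have h2 := ff_abs_le n (y := ss (th n j) * r) ⟨mul_nonneg hx0.le hr.1,
      mul_le_one₀ hx1 hr.1 hr.2⟩
    calc (-1 : ℝ) ^ j * (ff n).eval (ss (th n j) * r) ≤ |(-1 : ℝ) ^ j * (ff n).eval (ss (th n j) * r)| :=
          le_abs_self _
      _ = |(ff n).eval (ss (th n j) * r)| := by rw [abs_mul, abs_pow]; simp
      _ ≤ 1 := h2)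
  have h2 : hm s (C ((-1 : ℝ) ^ j) * ff n) = C ((-1 : ℝ) ^ j) * hm s (ff n) := by
    ext k; rw [coeff_hm, coeff_C_mul, coeff_C_mul, coeff_hm]; ring
  rw [h2, eval_mul, eval_C] at h1
  exact h1

theorem goodC_onlyReal {s : ℕ → ℝ} (hs : GoodC s) (hs0 : s 0 = 0) {n : ℕ} (hn : 1 ≤ n) :
    OnlyReal (hm s (ff n)) := by
  have hpi := Real.pi_pos
  have hn' : (0 : ℝ) < n := by exact_mod_cast hn
  have key : ∀ ε : ℝ, 0 < ε → OnlyReal (hm (fun k => s k + ε * ((k : ℝ) / (k + 1))) (ff n)) := by
    intro ε hε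
    refine onlyReal_of_signs (n := n) _ ((hm_natDegree_le _ _).trans (ff_natDegree n)) ?_
      (fun j => ss (th n j)) ?_ ?_ hn ?_
    · rw [← coeff_zero_eq_eval_zero, coeff_hm]
      simp [hs0]
    · apply ss_pos
      · unfold th; positivity
      · unfold th
        rw [div_le_iff₀ hn']
        have : ((1 : ℕ) : ℝ) ≤ n := by exact_mod_cast hn
        nlinarith
    · intro j _ hj
      apply ss_lt
      · unfold th; positivity
      · unfold th
        rw [div_le_iff₀ hn']
        have : ((j + 1 : ℕ) : ℝ) ≤ n := by exact_mod_cast hj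
        nlinarith
      · unfold th
        rw [div_lt_div_iff_of_pos_right hn']
        push_cast
        nlinarith
    · intro j hj1 hj
      have h1 : hm (fun k => s k + ε * ((k : ℝ) / (k + 1))) (ff n) = hm s (ff n) + C ε * PP 1 n := by
        ext k
        rw [coeff_add, coeff_C_mul, coeff_hm, coeff_hm, PP, coeff_hm]; ring
      rw [h1, eval_add, eval_mul, eval_C, mul_add]
      have h2 := goodC_sign hs hn hj1 hj
      have h3 := sign_PP one_pos hn hj1 hj
      have h4 : (-1 : ℝ) ^ j * (ε * (PP 1 n).eval (ss (th n j))) =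
        ε * ((-1 : ℝ) ^ j * (PP 1 n).eval (ss (th n j))) := by ring
      rw [h4]
      exact add_pos_of_nonneg_of_pos h2 (mul_pos hε h3)
  refine onlyReal_of_tendsto (l := (atTop : Filter ℕ))
    (P := fun N : ℕ => hm (fun k => s k + (1 / ((N : ℝ) + 1)) * ((k : ℝ) / (k + 1))) (ff n))
    (ff n).natDegree (Eventually.of_forall fun N => hm_natDegree_le _ _)
    (Eventually.of_forall fun N => key _ (by positivity)) ?_
  intro z
  simp only [aeval_hm]
  apply tendsto_finsetSum
  intro k _
  apply Tendsto.mul_const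
  refine (Complex.continuous_ofReal.tendsto _).comp ?_
  apply Tendsto.mul_const
  have h1 : Tendsto (fun N : ℕ => s k + (1 / ((N : ℝ) + 1)) * ((k : ℝ) / (k + 1))) atTop
      (𝓝 (s k + 0 * ((k : ℝ) / (k + 1)))) :=
    (tendsto_one_div_add_atTop_nhds_zero_nat.mul_const _).const_add _
  rw [zero_mul, add_zero] at h1
  exact h1

/-- version without positivity of the constant coefficient -/
lemma ms_of_nonneg' {p : ℝ[X]} (hp : OnlyReal p) (hp0 : p ≠ 0) (hnn : ∀ k, 0 ≤ p.coeff k) :
    MS (fun k => (k.factorial : ℝ) * p.coeff k) := by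
  have hc : ∀ (ε : ℝ) (k : ℕ), (p.comp (X + C ε)).coeff k = (hasseDeriv k p).eval ε := by
    intro ε k
    rw [← taylor_apply, taylor_coeff]
  have key : ∀ ε : ℝ, 0 < ε → MS (fun k => (k.factorial : ℝ) * (hasseDeriv k p).eval ε) := by
    intro ε hε
    have h1 : OnlyReal (p.comp (X + C ε)) := by
      right
      intro z hz
      rw [aeval_comp, map_add, aeval_X, aeval_C, Complex.coe_algebraMap] at hz
      have := (hp.resolve_left hp0) _ hz
      simpa using this
    have h2 := ms_of_nonneg h1 (by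
      rw [hc, hasseDeriv_zero, LinearMap.id_apply, eval_eq_sum_range]
      apply Finset.sum_pos'
      · intro k _; exact mul_nonneg (hnn k) (by positivity)
      · refine ⟨p.natDegree, by simp, ?_⟩
        apply mul_pos _ (by positivity)
        exact lt_of_le_of_ne (hnn _) (Ne.symm (leadingCoeff_ne_zero.2 hp0))) (by
      intro k
      rw [hc, eval_eq_sum_range]
      apply Finset.sum_nonneg
      intro i _
      rw [hasseDeriv_coeff]
      have := hnn (i + k)
      positivity)
    simp only [hc] at h2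
    exact h2
  refine ms_of_tendsto (fun N : ℕ => key (1 / ((N : ℝ) + 1)) (by positivity)) ?_
  intro k
  apply Tendsto.const_mul
  have h1 : Tendsto (fun N : ℕ => (hasseDeriv k p).eval (1 / ((N : ℝ) + 1))) atTop
      (𝓝 ((hasseDeriv k p).eval 0)) :=
    ((hasseDeriv k p).continuous.tendsto 0).comp tendsto_one_div_add_atTop_nhds_zero_nat
  have h2 : (hasseDeriv k p).eval 0 = p.coeff k := by
    rw [← coeff_zero_eq_eval_zero, hasseDeriv_coeff]; simp
  rw [h2] at h1
  exact h1

/-- **The Chebyshev test** -/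
theorem ms_of_goodC {s : ℕ → ℝ} (hs : GoodC s) (h0 : s 0 = 0) (hnn : ∀ k, 0 ≤ s k) (h1 : s 1 ≠ 0) :
    MS (fun k => (k.factorial : ℝ) * (s k / ((2 * k).factorial : ℝ))) := by
  have key : ∀ n : ℕ, MS (fun k => (k.factorial : ℝ) * (s k * tau (n + 1) k)) := by
    intro n
    have hn : 1 ≤ n + 1 := by omega
    have h2 := ms_pow (-(1 / (4 * ((n + 1 : ℕ) : ℝ) ^ 2))) _ (goodC_onlyReal hs h0 hn)
    have hc : ∀ k, (hm (fun k => (-(1 / (4 * ((n + 1 : ℕ) : ℝ) ^ 2))) ^ k) (hm s (ff (n + 1)))).coeff k =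
        s k * tau (n + 1) k := by
      intro k
      rw [coeff_hm, coeff_hm, ← ff_coeff_tau hn]; ring
    have h3 := ms_of_nonneg' h2 (by
      intro h
      have h4 := hc 1
      rw [h, coeff_zero] at h4
      rcases mul_eq_zero.1 h4.symm with h5 | h5
      · exact h1 h5
      · unfold tau at h5
        simp at h5) (by
      intro k
      rw [hc]
      exact mul_nonneg (hnn k) (tau_nonneg hn k))
    simp only [hc] at h3
    exact h3
  refine ms_of_tendsto key ?_
  intro k
  apply Tendsto.const_mul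
  have h2 := ((tau_tendsto k).comp (tendsto_add_atTop_nat 1)).const_mul (s k)
  rw [mul_one_div] at h2
  exact h2

end Q80.RR
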