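import Mathlib

/-!
# Self-inversive polynomials `½ (x^n H(1/x) + H̄(x))`
-/

open Polynomial Filter Topology Metric

namespace Q80.Circ

/-- minimum principle -/
lemma exists_zero {f : ℂ → ℂ} (hf : Differentiable ℂ f) {z₀ : ℂ} {r : ℝ} (hr : 0 < r)
    (h : ∀ z ∈ sphere z₀ r, ‖f z₀‖ < ‖f z‖) : ∃ z ∈ ball z₀ r, f z = 0 := by
  by_contra hcon
  push Not at hcon
  have hne : ∀ z ∈ closedBall z₀ r, f z ≠ 0 := by
    intro z hz h0
    rcases (mem_closedBall.1 hz).lt_or_eq with h1 | h1
    · exact hcon z (mem_ball.2 h1) h0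
    · have := h z (mem_sphere.2 h1)
      rw [h0, norm_zero] at this
      exact absurd (norm_nonneg (f z₀)) (not_le.2 this)
  have hcomp : IsCompact (sphere z₀ r) := isCompact_sphere z₀ r
  have hnon : (sphere z₀ r).Nonempty := NormedSpace.sphere_nonempty.2 hr.le
  obtain ⟨w, hw, hmin⟩ := hcomp.exists_isMinOn hnon hf.continuous.norm.continuousOn
  have hw0 : 0 < ‖f w‖ := norm_pos_iff.2 (hne w (sphere_subset_closedBall hw))
  have hd : DiffContOnCl ℂ (fun z => (f z)⁻¹) (ball z₀ r) := by
    apply DifferentiableOn.diffContOnCl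
    rw [closure_ball z₀ hr.ne']
    intro z hz
    exact ((hf z).inv (hne z hz)).differentiableWithinAt
  have h1 := Complex.norm_le_of_forall_mem_frontier_norm_le isBounded_ball hd (C := ‖f w‖⁻¹) (by
    intro z hz
    rw [frontier_ball z₀ hr.ne'] at hz
    rw [norm_inv]
    exact inv_anti₀ hw0 (hmin hz)) (subset_closure (mem_ball_self hr))
  rw [norm_inv] at h1
  have h2 := h w hw
  have h3 : 0 < ‖f z₀‖ := norm_pos_iff.2 (hne z₀ (mem_closedBall_self hr.le))
  have h4 := (inv_le_inv₀ h3 hw0).1 h1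
  linarith

/-- Hurwitz' theorem -/
lemma hurwitz {F : ℕ → ℂ → ℂ} {f : ℂ → ℂ} (hF : ∀ n, Differentiable ℂ (F n)) {z₀ : ℂ} {r : ℝ}
    (hr : 0 < r) (hlim : TendstoUniformlyOn F f atTop (closedBall z₀ r)) (hfa : AnalyticAt ℂ f z₀)
    (hf0 : f z₀ = 0) (hne : ¬ ∀ᶠ z in 𝓝 z₀, f z = 0) : ∀ᶠ n in atTop, ∃ z ∈ ball z₀ r, F n z = 0 := by
  have h1 := hfa.eventually_eq_zero_or_eventually_ne_zero.resolve_left hne
  rw [eventually_nhdsWithin_iff] at h1
  obtain ⟨ε, hε, h2⟩ := Metric.eventually_nhds_iff.1 h1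
  set δ := min (ε / 2) (r / 2) with hδ
  have hδ0 : 0 < δ := lt_min (by positivity) (by positivity)
  have hδε : δ < ε := lt_of_le_of_lt (min_le_left _ _) (by linarith)
  have hδr : δ < r := lt_of_le_of_lt (min_le_right _ _) (by linarith)
  have hsph : ∀ z ∈ sphere z₀ δ, f z ≠ 0 := by
    intro z hz
    apply h2
    · rw [mem_sphere.1 hz]; exact hδε
    · intro h; rw [Set.mem_singleton_iff.1 h, mem_sphere, dist_self] at hz; exact hδ0.ne hz
  have hcont : ContinuousOn f (sphere z₀ δ) := by
    have h3 : ContinuousOn f (closedBall z₀ r) :=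
      hlim.continuousOn (Eventually.of_forall fun n => (hF n).continuous.continuousOn).frequently
    exact h3.mono (sphere_subset_closedBall.trans (closedBall_subset_closedBall hδr.le))
  obtain ⟨w, hw, hmin⟩ := (isCompact_sphere z₀ δ).exists_isMinOn
    (NormedSpace.sphere_nonempty.2 hδ0.le) hcont.norm
  set m := ‖f w‖ with hm
  have hm0 : 0 < m := norm_pos_iff.2 (hsph w hw)
  rw [Metric.tendstoUniformlyOn_iff] at hlim
  filter_upwards [hlim (m / 3) (by positivity)] with n hn
  obtain ⟨z, hz, hz0⟩ := exists_zero (hF n) hδ0 (z₀ := z₀) (by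
    intro z hz
    have h3 := hn z₀ (mem_closedBall_self hr.le)
    have h4 := hn z (sphere_subset_closedBall.trans (closedBall_subset_closedBall hδr.le) hz)
    rw [hf0, dist_eq_norm, zero_sub, norm_neg] at h3
    have h5 : m ≤ ‖f z‖ := hmin hz
    have h6 : ‖f z‖ ≤ ‖F n z‖ + dist (f z) (F n z) := by
      rw [dist_eq_norm]
      calc ‖f z‖ = ‖F n z + (f z - F n z)‖ := by congr 1; ring
        _ ≤ _ := norm_add_le _ _
    linarith)
  exact ⟨z, ball_subset_ball hδr.le hz, hz0⟩

/-- complex conjugation of the coefficients -/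
noncomputable def cj (H : ℂ[X]) : ℂ[X] := H.map (starRingEnd ℂ)

lemma cj_eval (H : ℂ[X]) (x : ℂ) : (cj H).eval x = starRingEnd ℂ (H.eval (starRingEnd ℂ x)) := by
  unfold cj
  rw [eval_map, eval₂_eq_sum_range, eval_eq_sum_range, map_sum]
  apply Finset.sum_congr rfl
  intro i _
  rw [map_mul, map_pow, Complex.conj_conj]

/-- `½ (x^n H(1/x) + H̄(x))` -/
noncomputable def pp (n : ℕ) (H : ℂ[X]) : ℂ[X] := C (1 / 2) * (reflect n H + cj H)

lemma reflect_eval {n : ℕ} {H : ℂ[X]} (h : H.natDegree ≤ n) {x : ℂ} (hx : x ≠ 0) :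
    (reflect n H).eval x = x ^ n * H.eval x⁻¹ := by
  have hi : x⁻¹ ≠ 0 := inv_ne_zero hx
  let _ := invertibleOfNonzero hi
  have h1 := eval₂_reflect_mul_pow (RingHom.id ℂ) x⁻¹ n H h
  rw [invOf_eq_inv, inv_inv, eval₂_id, eval₂_id] at h1
  rw [← h1]
  have : x ^ n * x⁻¹ ^ n = 1 := by rw [← mul_pow, mul_inv_cancel₀ hx, one_pow]
  linear_combination (-(eval x (reflect n H))) * this

lemma reflect_succ {n : ℕ} {H : ℂ[X]} (h : H.natDegree ≤ n) :
    reflect (n + 1) H = X * reflect n H := by
  ext i
  rw [coeff_reflect]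
  rcases i with _ | i
  · rw [revAt_le (Nat.zero_le _)]
    simp
    exact coeff_eq_zero_of_natDegree_lt (by omega)
  · rw [coeff_X_mul, coeff_reflect]
    by_cases hi : i ≤ n
    · rw [revAt_le (by omega), revAt_le hi]
      congr 1; omega
    · rw [revAt_eq_self_of_lt (by omega), revAt_eq_self_of_lt (by omega),
        coeff_eq_zero_of_natDegree_lt (by omega), coeff_eq_zero_of_natDegree_lt (by omega)]

/-- `H` without zeros in the closed disc: all zeros on the circle -/
theorem good {n : ℕ} {H : ℂ[X]} (hn : H.natDegree < n) (h : ∀ z : ℂ, ‖z‖ ≤ 1 → H.eval z ≠ 0) :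
    ∀ z : ℂ, (pp n H).eval z = 0 → ‖z‖ = 1 := by
  obtain ⟨k, rfl⟩ : ∃ k, n = k + 1 := ⟨n - 1, by omega⟩
  have hk : H.natDegree ≤ k := by omega
  -- no zeros in the open disc
  have hin : ∀ z : ℂ, ‖z‖ < 1 → (pp (k + 1) H).eval z ≠ 0 := by
    intro z hz
    have hR : ∀ x : ℂ, ‖x‖ ≤ 1 → (cj H).eval x ≠ 0 := by
      intro x hx
      rw [cj_eval]
      intro h0
      apply h (starRingEnd ℂ x) (by rwa [Complex.norm_conj])
      simpa using h0
    have hle : ‖(reflect k H).eval z / (cj H).eval z‖ ≤ 1 := by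
      refine Complex.norm_le_of_forall_mem_frontier_norm_le (U := ball (0 : ℂ) 1) isBounded_ball
        (f := fun x => (reflect k H).eval x / (cj H).eval x) ?_ ?_ ?_
      · apply DifferentiableOn.diffContOnCl
        rw [closure_ball (0 : ℂ) one_ne_zero]
        intro x hx
        apply DifferentiableAt.differentiableWithinAt
        exact (reflect k H).differentiable.differentiableAt.div
          (cj H).differentiable.differentiableAt (hR x (by simpa using hx))
      · intro x hx
        rw [frontier_ball (0 : ℂ) one_ne_zero, mem_sphere, dist_zero_right] at hx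
        have hx0 : x ≠ 0 := by rintro rfl; simp at hx
        have h1 : x⁻¹ = starRingEnd ℂ x := by
          rw [Complex.inv_def, Complex.normSq_eq_norm_sq, hx]; simp
        rw [norm_div, reflect_eval hk hx0, norm_mul, norm_pow, hx, one_pow, one_mul, h1, cj_eval,
          Complex.norm_conj, div_self]
        exact norm_ne_zero_iff.2 (h _ (by rw [Complex.norm_conj, hx]))
      · exact subset_closure (by simpa using hz)
    unfold pp
    rw [eval_mul, eval_C, eval_add, reflect_succ hk, eval_mul, eval_X]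
    intro h0
    have h1 : z * (reflect k H).eval z + (cj H).eval z = 0 := by
      rcases mul_eq_zero.1 h0 with h2 | h2
      · norm_num at h2
      · exact h2
    have h2 := hR z hz.le
    have h3 : z * ((reflect k H).eval z / (cj H).eval z) = -1 := by
      field_simp
      linear_combination h1
    have h4 := congrArg norm h3
    rw [norm_mul, norm_neg, norm_one] at h4
    nlinarith [norm_nonneg z, norm_nonneg ((reflect k H).eval z / (cj H).eval z)]
  intro z hz
  rcases lt_trichotomy ‖z‖ 1 with h1 | h1 | h1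
  · exact absurd hz (hin z h1)
  · exact h1
  · exfalso
    have hz0 : z ≠ 0 := by rintro rfl; simp at h1; linarith
    set y := (starRingEnd ℂ z)⁻¹ with hy
    have hy0 : y ≠ 0 := inv_ne_zero (by simpa using hz0)
    have hynorm : ‖y‖ < 1 := by
      rw [hy, norm_inv, Complex.norm_conj]
      exact inv_lt_one_of_one_lt₀ h1
    apply hin y hynorm
    unfold pp at hz ⊢
    rw [eval_mul, eval_C, eval_add, reflect_eval (by omega) hz0, cj_eval] at hz
    rw [eval_mul, eval_C, eval_add, reflect_eval (by omega) hy0, cj_eval]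
    have h2 : z ^ (k + 1) * H.eval z⁻¹ + starRingEnd ℂ (H.eval (starRingEnd ℂ z)) = 0 := by
      rcases mul_eq_zero.1 hz with h2 | h2
      · norm_num at h2
      · exact h2
    have h3 : y⁻¹ = starRingEnd ℂ z := by rw [hy, inv_inv]
    have h4 : starRingEnd ℂ y = z⁻¹ := by rw [hy, map_inv₀, Complex.conj_conj]
    rw [h3, h4]
    have h5 := congrArg (starRingEnd ℂ) h2
    rw [map_add, map_mul, map_pow, Complex.conj_conj, map_zero] at h5
    have h6 : y ^ (k + 1) * (starRingEnd ℂ z) ^ (k + 1) = 1 := by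
      rw [← mul_pow, hy, inv_mul_cancel₀ (by simpa using hz0), one_pow]
    have h7 : y ^ (k + 1) * H.eval (starRingEnd ℂ z) + starRingEnd ℂ (H.eval z⁻¹) = 0 := by
      linear_combination y ^ (k + 1) * h5 - starRingEnd ℂ (H.eval z⁻¹) * h6
    rw [h7, mul_zero]

/-- `H` with a zero in the open disc: for large `n` there are zeros inside the circle -/
theorem bad {H : ℂ[X]} (hH : H ≠ 0) {w : ℂ} (hw : ‖w‖ < 1) (h0 : H.eval w = 0) :
    ∀ᶠ n in atTop, ∃ z : ℂ, ‖z‖ < 1 ∧ (pp n H).eval z = 0 := by
  set z₀ := starRingEnd ℂ w with hz₀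
  have hz₀n : ‖z₀‖ < 1 := by rw [hz₀, Complex.norm_conj]; exact hw
  set r := (1 - ‖z₀‖) / 2 with hr
  have hr0 : 0 < r := by rw [hr]; linarith
  have hsub : ∀ z ∈ closedBall z₀ r, ‖z‖ ≤ 1 - r := by
    intro z hz
    rw [mem_closedBall, dist_eq_norm] at hz
    calc ‖z‖ = ‖(z - z₀) + z₀‖ := by congr 1; ring
      _ ≤ ‖z - z₀‖ + ‖z₀‖ := norm_add_le _ _
      _ ≤ 1 - r := by rw [hr] at hz ⊢; linarith
  have hF : ∀ n : ℕ, Differentiable ℂ (fun z => (pp n H).eval z) := fun n => (pp n H).differentiable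
  have hlim : TendstoUniformlyOn (fun (n : ℕ) z => (pp n H).eval z)
      (fun z => 1 / 2 * (cj H).eval z) atTop (closedBall z₀ r) := by
    rw [Metric.tendstoUniformlyOn_iff]
    intro ε hε
    set M := ∑ i ∈ Finset.range (H.natDegree + 1), ‖H.coeff i‖ with hM
    have hM0 : 0 ≤ M := Finset.sum_nonneg fun i _ => norm_nonneg _
    have h1r : 0 ≤ 1 - r := by rw [hr]; linarith [norm_nonneg z₀]
    have h1r' : 1 - r < 1 := by linarith
    have hpow : Tendsto (fun n : ℕ => 1 / 2 * ((1 - r) ^ (n - H.natDegree) * M)) atTop (𝓝 0) := by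
      have h1 : Tendsto (fun n : ℕ => (1 - r) ^ (n - H.natDegree)) atTop (𝓝 0) :=
        (tendsto_pow_atTop_nhds_zero_of_lt_one h1r h1r').comp (tendsto_sub_atTop_nat _)
      have h2 := (h1.mul_const M).const_mul (1 / 2)
      rwa [zero_mul, mul_zero] at h2
    filter_upwards [hpow.eventually (gt_mem_nhds hε), eventually_ge_atTop H.natDegree] with n hn hdn
    intro z hz
    have hz1 := hsub z hz
    rw [dist_eq_norm]
    unfold pp
    rw [eval_mul, eval_C, eval_add]
    have e1 : 1 / 2 * (cj H).eval z - 1 / 2 * ((reflect n H).eval z + (cj H).eval z) =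
        -(1 / 2 * (reflect n H).eval z) := by ring
    rw [e1, norm_neg, norm_mul]
    refine lt_of_le_of_lt ?_ hn
    have e2 : ‖(1 / 2 : ℂ)‖ = 1 / 2 := by norm_num
    rw [e2]
    apply mul_le_mul_of_nonneg_left _ (by norm_num)
    have e3 : (reflect n H).eval z = ∑ i ∈ Finset.range (H.natDegree + 1), H.coeff i * z ^ (n - i) := by
      have h2 : reflect n H = ∑ i ∈ Finset.range (H.natDegree + 1), C (H.coeff i) * X ^ (n - i) := by
        ext j
        rw [coeff_reflect, finsetSum_coeff]
        simp only [coeff_C_mul, coeff_X_pow]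
        by_cases hj : j ≤ n
        · rw [revAt_le hj, Finset.sum_eq_single (n - j)]
          · rw [if_pos (by omega), mul_one]
          · intro i hi hij
            rw [Finset.mem_range] at hi
            rw [if_neg (by omega), mul_zero]
          · intro hj2
            rw [Finset.mem_range] at hj2
            rw [coeff_eq_zero_of_natDegree_lt (by omega), zero_mul]
        · rw [revAt_eq_self_of_lt (by omega), coeff_eq_zero_of_natDegree_lt (by omega)]
          symm
          apply Finset.sum_eq_zero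
          intro i _
          rw [if_neg (by omega), mul_zero]
      rw [h2, eval_finsetSum]
      simp
    rw [e3]
    refine (norm_sum_le _ _).trans ?_
    rw [hM, Finset.mul_sum]
    apply Finset.sum_le_sum
    intro i hi
    rw [Finset.mem_range] at hi
    rw [norm_mul, norm_pow, mul_comm]
    apply mul_le_mul_of_nonneg_right _ (norm_nonneg _)
    calc ‖z‖ ^ (n - i) ≤ (1 - r) ^ (n - i) := pow_le_pow_left₀ (norm_nonneg _) hz1 _
      _ ≤ (1 - r) ^ (n - H.natDegree) := pow_le_pow_of_le_one h1r h1r'.le (by omega)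
  have hcj : cj H ≠ 0 := (Polynomial.map_ne_zero_iff (starRingEnd ℂ).injective).2 hH
  have hev := hurwitz hF hr0 hlim
    (by
      apply Differentiable.analyticAt
      exact (cj H).differentiable.const_mul _)
    (by rw [cj_eval, hz₀, Complex.conj_conj, h0]; simp)
    (by
      intro h
      apply hcj
      have h1 : ∃ᶠ z in 𝓝[≠] z₀, (cj H).eval z = 0 := by
        apply Eventually.frequently
        apply eventually_nhdsWithin_of_eventually_nhds
        filter_upwards [h] with z hz
        rcases mul_eq_zero.1 hz with h2 | h2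
        · norm_num at h2
        · exact h2
      apply eq_zero_of_infinite_isRoot
      have h3 : {z | (cj H).eval z = 0} ∈ 𝓝 z₀ := by
        filter_upwards [h] with z hz
        rcases mul_eq_zero.1 hz with h2 | h2
        · norm_num at h2
        · exact h2
      exact infinite_of_mem_nhds z₀ h3)
  filter_upwards [hev] with n hn
  obtain ⟨z, hz, hz0⟩ := hn
  refine ⟨z, ?_, hz0⟩
  have := hsub z (ball_subset_closedBall hz)
  linarith

end Q80.Circ
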