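import Mathlib
import Pool.Agent.Q80.Circ1

/-!
# Polynomials with spiral image
-/

open Polynomial Filter Topology Metric Complex

namespace Q80.Circ

lemma cayley_re {z : ℂ} (hz : ‖z‖ < 1) : 0 < ((1 + z) / (1 - z)).re := by
  have h1 : (1 : ℂ) - z ≠ 0 := by
    intro h
    have : z = 1 := by linear_combination -h
    rw [this] at hz; simp at hz
  have h2 : 0 < Complex.normSq (1 - z) := Complex.normSq_pos.2 h1
  rw [Complex.div_re]
  have h3 : Complex.normSq z < 1 := by
    rw [Complex.normSq_eq_norm_sq]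
    have := norm_nonneg z
    nlinarith
  rw [Complex.normSq_apply] at h3
  rw [← add_div]
  apply div_pos _ h2
  simp
  nlinarith

lemma one_sub_ne {z : ℂ} (hz : ‖z‖ < 1) : (1 : ℂ) - z ≠ 0 := by
  intro h
  have : z = 1 := by linear_combination -h
  rw [this] at hz; simp at hz

lemma one_add_ne {z : ℂ} (hz : ‖z‖ < 1) : (1 : ℂ) + z ≠ 0 := by
  intro h
  have : z = -1 := by linear_combination h
  rw [this] at hz; simp at hz

/-- `((1+z)/(1-z))^{(1+i)/2}` -/
noncomputable def F0 (z : ℂ) : ℂ := exp ((1 + I) / 2 * log ((1 + z) / (1 - z)))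

lemma F0_deriv {z : ℂ} (hz : ‖z‖ < 1) : ∃ d : ℂ, d ≠ 0 ∧ HasDerivAt F0 d z := by
  have h1 : HasDerivAt (fun z : ℂ => (1 + z) / (1 - z)) (2 / (1 - z) ^ 2) z := by
    have h2 := ((hasDerivAt_id z).const_add 1).div ((hasDerivAt_id z).const_sub 1) (one_sub_ne hz)
    refine h2.congr_deriv ?_
    simp only [id]
    congr 1
    ring
  have h3 : (1 + z) / (1 - z) ∈ Complex.slitPlane := Or.inl (cayley_re hz)
  have h4 := ((h1.clog h3).const_mul ((1 + I) / 2)).cexp
  refine ⟨_, ?_, h4⟩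
  have h5 := one_sub_ne hz
  have h6 := one_add_ne hz
  have h7 : (1 + I : ℂ) ≠ 0 := by
    intro h
    have := congrArg Complex.re h
    simp at this
  have h8 := Complex.exp_ne_zero ((1 + I) / 2 * log ((1 + z) / (1 - z)))
  refine mul_ne_zero h8 (mul_ne_zero (div_ne_zero h7 two_ne_zero) ?_)
  exact div_ne_zero (div_ne_zero two_ne_zero (pow_ne_zero 2 h5)) (div_ne_zero h6 h5)

lemma F0_zero : F0 0 = 1 := by unfold F0; simp

lemma F0_good {z : ℂ} (hz : ‖z‖ < 1) (k : ℕ) : F0 z + (Real.exp (2 * Real.pi * k) : ℝ) ≠ 0 := by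
  intro h
  have h1 : F0 z = exp ((2 * Real.pi * k : ℝ) + Real.pi * I) := by
    rw [Complex.exp_add, Complex.exp_pi_mul_I, ← Complex.ofReal_exp]
    linear_combination h
  unfold F0 at h1
  rw [Complex.exp_eq_exp_iff_exists_int] at h1
  obtain ⟨j, hj⟩ := h1
  set L := log ((1 + z) / (1 - z)) with hL
  have h2 : L = (1 - I) * ((2 * Real.pi * k : ℝ) + Real.pi * I + j * (2 * Real.pi * I)) := by
    rw [← hj]
    have : I * I = -1 := Complex.I_mul_I
    linear_combination (L / 2) * this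
  have h3 : L.im = Real.pi * (2 * j + 1) - 2 * Real.pi * k := by
    rw [h2]
    simp
    ring
  have h4 : |L.im| < Real.pi / 2 := by
    rw [hL, Complex.log_im, Complex.abs_arg_lt_pi_div_two_iff]
    exact Or.inl (cayley_re hz)
  rw [h3] at h4
  have hpi := Real.pi_pos
  have h5 : Real.pi * (2 * j + 1) - 2 * Real.pi * k = Real.pi * ((2 * j + 1 - 2 * k : ℤ) : ℝ) := by
    push_cast; ring
  rw [h5, abs_mul, abs_of_pos hpi] at h4
  have h6 : |((2 * j + 1 - 2 * k : ℤ) : ℝ)| < 1 / 2 := by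
    by_contra hcon
    push Not at hcon
    nlinarith
  have h7 : (1 : ℝ) ≤ |((2 * j + 1 - 2 * k : ℤ) : ℝ)| := by
    have h8 : (1 : ℤ) ≤ |2 * j + 1 - 2 * k| := Int.one_le_abs (by omega)
    exact_mod_cast h8
  linarith

/-- the point `tanh (π(2k+1))` -/
noncomputable def zk (k : ℕ) : ℝ :=
  (Real.exp (2 * (Real.pi * (2 * k + 1))) - 1) / (Real.exp (2 * (Real.pi * (2 * k + 1))) + 1)

lemma zk_pos (k : ℕ) : 0 ≤ zk k := by
  unfold zk
  have h1 : 1 ≤ Real.exp (2 * (Real.pi * (2 * k + 1))) := by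
    rw [← Real.exp_zero]
    apply Real.exp_le_exp.2
    have := Real.pi_pos
    positivity
  apply div_nonneg (by linarith) (by linarith)

lemma zk_lt (k : ℕ) : zk k < 1 := by
  unfold zk
  have h1 := Real.exp_pos (2 * (Real.pi * (2 * k + 1)))
  rw [div_lt_one (by linarith)]
  linarith

lemma zk_mono {k K : ℕ} (h : k ≤ K) : zk k ≤ zk K := by
  unfold zk
  have h1 := Real.exp_pos (2 * (Real.pi * (2 * k + 1)))
  have h2 : Real.exp (2 * (Real.pi * (2 * k + 1))) ≤ Real.exp (2 * (Real.pi * (2 * K + 1))) := by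
    apply Real.exp_le_exp.2
    have h3 : (k : ℝ) ≤ K := by exact_mod_cast h
    have := Real.pi_pos
    nlinarith
  rw [div_le_div_iff₀ (by linarith) (by linarith)]
  nlinarith

lemma F0_bad (k : ℕ) : F0 (zk k) + (Real.exp (Real.pi * (2 * k + 1)) : ℝ) = 0 := by
  set c : ℝ := Real.pi * (2 * k + 1) with hc
  have h1 : ((1 : ℂ) + (zk k : ℝ)) / (1 - (zk k : ℝ)) = ((Real.exp (2 * c) : ℝ) : ℂ) := by
    have h2 : (1 + zk k) / (1 - zk k) = Real.exp (2 * c) := by
      have h3 := Real.exp_pos (2 * c)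
      have h4 : zk k = (Real.exp (2 * c) - 1) / (Real.exp (2 * c) + 1) := rfl
      have h5 : Real.exp (2 * c) + 1 ≠ 0 := by positivity
      rw [h4]
      have h6 : 1 - (Real.exp (2 * c) - 1) / (Real.exp (2 * c) + 1) = 2 / (Real.exp (2 * c) + 1) := by
        field_simp; ring
      have h7 : 1 + (Real.exp (2 * c) - 1) / (Real.exp (2 * c) + 1) =
          2 * Real.exp (2 * c) / (Real.exp (2 * c) + 1) := by
        field_simp; ring
      rw [h6, h7]
      field_simp
    rw [← h2]; push_cast; rfl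
  unfold F0
  rw [h1, ← Complex.ofReal_log (Real.exp_pos _).le, Real.log_exp]
  have h2 : (1 + I) / 2 * ((2 * c : ℝ) : ℂ) = (c : ℂ) + (k * (2 * Real.pi * I) + Real.pi * I) := by
    rw [hc]; push_cast; ring
  rw [h2, Complex.exp_add, Complex.exp_add, Complex.exp_pi_mul_I]
  have h3 : exp ((k : ℂ) * (2 * Real.pi * I)) = 1 := Complex.exp_nat_mul_two_pi_mul_I k
  rw [h3, ← Complex.ofReal_exp]
  ring

/-- Taylor polynomials -/
lemma taylor_approx {ρ : ℝ} (hρ0 : 0 < ρ) (hρ1 : ρ < 1) : ∃ T : ℕ → ℂ[X],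
    TendstoUniformlyOn (fun n z => (T n).eval z) F0 atTop (closedBall 0 ρ) := by
  obtain ⟨r, hr1, hr2⟩ := exists_between hρ1
  obtain ⟨R, hR1, hR2⟩ := exists_between hr2
  have hr0 : 0 < r := hρ0.trans hr1
  have hR0 : 0 < R := hr0.trans hR1
  lift R to NNReal using hR0.le
  lift r to NNReal using hr0.le
  have hd : DifferentiableOn ℂ F0 (closedBall 0 (R : ℝ)) := by
    intro z hz
    rw [mem_closedBall, dist_zero_right] at hz
    obtain ⟨d, _, h⟩ := F0_deriv (lt_of_le_of_lt hz hR2)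
    exact h.differentiableAt.differentiableWithinAt
  have hps := hd.hasFPowerSeriesOnBall (by exact_mod_cast hR0)
  set p := cauchyPowerSeries F0 0 (R : ℝ)
  have hlim := hps.tendstoUniformlyOn' (r' := r) (by
    rw [ENNReal.coe_lt_coe]; exact_mod_cast hR1)
  refine ⟨fun n => ∑ k ∈ Finset.range n, C (p.coeff k) * X ^ k, ?_⟩
  have h1 := hlim.mono (s' := closedBall 0 ρ) (by
    intro z hz
    rw [mem_closedBall] at hz
    rw [mem_ball]
    linarith)
  refine h1.congr (Eventually.of_forall fun n z _ => ?_)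
  simp only [sub_zero]
  rw [FormalMultilinearSeries.partialSum, eval_finsetSum]
  apply Finset.sum_congr rfl
  intro k _
  rw [FormalMultilinearSeries.apply_eq_pow_smul_coeff, eval_mul, eval_C, eval_pow, eval_X,
    smul_eq_mul, mul_comm]

/-- **the spiral polynomial** -/
theorem spiral (K : ℕ) : ∃ G : ℂ[X], G.coeff 0 = 0 ∧
    (∀ k ≤ K, ∀ w : ℂ, ‖w‖ ≤ 1 → (C (((1 + Real.exp (2 * Real.pi * k) : ℝ)) : ℂ) + G).eval w ≠ 0) ∧
    (∀ k ≤ K, ∃ w : ℂ, ‖w‖ < 1 ∧
      (C (((1 + Real.exp (Real.pi * (2 * k + 1)) : ℝ)) : ℂ) + G).eval w = 0) := by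
  obtain ⟨ρ, hρ1, hρ2⟩ := exists_between (zk_lt K)
  have hρ0 : 0 < ρ := (zk_pos K).trans_lt hρ1
  obtain ⟨T, hT⟩ := taylor_approx hρ0 hρ2
  set G : ℕ → ℂ[X] := fun n => (T n).comp (C (ρ : ℂ) * X) - C ((T n).eval 0) with hG
  have hGe : ∀ n w, (G n).eval w = (T n).eval (ρ * w) - (T n).eval 0 := by
    intro n w
    simp only [hG]
    rw [eval_sub, eval_comp, eval_mul, eval_C, eval_X, eval_C]
  have hG0 : ∀ n, (G n).coeff 0 = 0 := by
    intro n
    rw [coeff_zero_eq_eval_zero, hGe, mul_zero, sub_self]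
  -- uniform convergence
  have hlim : TendstoUniformlyOn (fun n w => (G n).eval w) (fun w => F0 (ρ * w) - 1) atTop
      (closedBall 0 1) := by
    rw [Metric.tendstoUniformlyOn_iff] at hT ⊢
    intro ε hε
    filter_upwards [hT (ε / 2) (by positivity)] with n hn
    intro w hw
    rw [mem_closedBall, dist_zero_right] at hw
    have h1 := hn (ρ * w) (by
      rw [mem_closedBall, dist_zero_right, norm_mul, Complex.norm_real, Real.norm_eq_abs,
        abs_of_pos hρ0]
      nlinarith)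
    have h2 := hn 0 (by simpa using hρ0.le)
    rw [F0_zero] at h2
    rw [hGe, dist_eq_norm] at *
    calc ‖F0 (ρ * w) - 1 - ((T n).eval (ρ * w) - (T n).eval 0)‖ =
          ‖(F0 (ρ * w) - (T n).eval (ρ * w)) - (1 - (T n).eval 0)‖ := by congr 1; ring
      _ ≤ ‖F0 (ρ * w) - (T n).eval (ρ * w)‖ + ‖1 - (T n).eval 0‖ := norm_sub_le _ _
      _ < ε := by
          linarith
  have hin : ∀ w : ℂ, ‖w‖ ≤ 1 → ‖(ρ : ℂ) * w‖ < 1 := by
    intro w hw
    rw [norm_mul, Complex.norm_real, Real.norm_eq_abs, abs_of_pos hρ0]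
    nlinarith
  -- good
  have hgood : ∀ k : ℕ, ∀ᶠ n in atTop, ∀ w : ℂ, ‖w‖ ≤ 1 →
      (C (((1 + Real.exp (2 * Real.pi * k) : ℝ)) : ℂ) + G n).eval w ≠ 0 := by
    intro k
    set f : ℂ → ℂ := fun w => F0 (ρ * w) + (Real.exp (2 * Real.pi * k) : ℝ) with hf
    have hcont : ContinuousOn f (closedBall 0 1) := by
      intro w hw
      rw [mem_closedBall, dist_zero_right] at hw
      obtain ⟨d, _, h⟩ := F0_deriv (hin w hw)
      apply ContinuousAt.continuousWithinAt
      apply ContinuousAt.add _ continuousAt_const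
      exact ContinuousAt.comp (g := F0) (f := fun w : ℂ => (ρ : ℂ) * w) h.continuousAt (by fun_prop)
    obtain ⟨w0, hw0, hmin⟩ := (isCompact_closedBall (0 : ℂ) 1).exists_isMinOn
      ⟨0, by simp⟩ hcont.norm
    have hm : 0 < ‖f w0‖ := by
      rw [norm_pos_iff]
      rw [mem_closedBall, dist_zero_right] at hw0
      exact F0_good (hin w0 hw0) k
    filter_upwards [(Metric.tendstoUniformlyOn_iff.1 hlim) ‖f w0‖ hm] with n hn
    intro w hw h0
    have hwm : w ∈ closedBall (0 : ℂ) 1 := by simpa using hw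
    have h1 := hn w hwm
    have h2 : ‖f w0‖ ≤ ‖f w‖ := hmin hwm
    have h3 : f w = F0 (ρ * w) - 1 - (G n).eval w := by
      rw [eval_add, eval_C] at h0
      have h4 : (G n).eval w = -(1 + (Real.exp (2 * Real.pi * k) : ℝ)) := by
        push_cast at h0 ⊢
        linear_combination h0
      rw [h4]
      simp only [hf]
      ring
    rw [h3, ← dist_eq_norm] at h2
    linarith
  have hbad : ∀ k ≤ K, ∀ᶠ n in atTop, ∃ w : ℂ, ‖w‖ < 1 ∧
      (C (((1 + Real.exp (Real.pi * (2 * k + 1)) : ℝ)) : ℂ) + G n).eval w = 0 := by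
    intro k hk
    set c : ℂ := (((1 + Real.exp (Real.pi * (2 * k + 1)) : ℝ)) : ℂ) with hc
    set w0 : ℝ := zk k / ρ with hw0
    have hw00 : 0 ≤ w0 := div_nonneg (zk_pos k) hρ0.le
    have hw01 : w0 < 1 := by
      rw [hw0, div_lt_one hρ0]; exact (zk_mono hk).trans_lt hρ1
    set r := (1 - w0) / 2 with hr
    have hr0 : 0 < r := by rw [hr]; linarith
    have hsub : ∀ z ∈ closedBall (w0 : ℂ) r, ‖z‖ ≤ 1 - r := by
      intro z hz
      rw [mem_closedBall, dist_eq_norm] at hz
      calc ‖z‖ = ‖(z - w0) + w0‖ := by congr 1; ring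
        _ ≤ ‖z - w0‖ + ‖(w0 : ℂ)‖ := norm_add_le _ _
        _ ≤ 1 - r := by
            rw [Complex.norm_real, Real.norm_eq_abs, abs_of_nonneg hw00]
            rw [hr] at hz ⊢; linarith
    have hρw : (ρ : ℂ) * (w0 : ℂ) = (zk k : ℝ) := by
      rw [hw0]
      have : (ρ : ℂ) ≠ 0 := by exact_mod_cast hρ0.ne'
      push_cast
      field_simp
    have hnw : ‖(w0 : ℂ)‖ ≤ 1 := by
      rw [Complex.norm_real, Real.norm_eq_abs, abs_of_nonneg hw00]; exact hw01.le
    obtain ⟨d, hd0, hd⟩ := F0_deriv (hin w0 hnw)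
    have hdg : HasDerivAt (fun z : ℂ => c + (F0 (ρ * z) - 1)) (d * ρ) w0 := by
      have h1 : HasDerivAt (fun z : ℂ => (ρ : ℂ) * z) (ρ : ℂ) (w0 : ℂ) := by
        simpa using (hasDerivAt_id (w0 : ℂ)).const_mul (ρ : ℂ)
      exact ((hd.comp (w0 : ℂ) h1).sub_const 1).const_add c
    have hev := hurwitz (F := fun n z => (C c + G n).eval z) (f := fun z => c + (F0 (ρ * z) - 1))
      (fun n => (C c + G n).differentiable) hr0 (z₀ := (w0 : ℂ)) (by
        rw [Metric.tendstoUniformlyOn_iff] at hlim ⊢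
        intro ε hε
        filter_upwards [hlim ε hε] with n hn
        intro z hz
        have h1 := hn z (by
          rw [mem_closedBall, dist_zero_right]
          have := hsub z hz
          linarith)
        rw [eval_add, eval_C, dist_add_left]
        exact h1)
      (by
        have h1 : DifferentiableOn ℂ (fun z : ℂ => c + (F0 (ρ * z) - 1)) (ball 0 1) := by
          intro z hz
          rw [mem_ball, dist_zero_right] at hz
          obtain ⟨d, _, h⟩ := F0_deriv (hin z hz.le)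
          apply DifferentiableAt.differentiableWithinAt
          apply DifferentiableAt.const_add
          apply DifferentiableAt.sub_const
          exact DifferentiableAt.comp (g := F0) (f := fun z : ℂ => (ρ : ℂ) * z) z
            h.differentiableAt (by fun_prop)
        apply h1.analyticAt
        apply isOpen_ball.mem_nhds
        rw [mem_ball, dist_zero_right, Complex.norm_real, Real.norm_eq_abs, abs_of_nonneg hw00]
        exact hw01)
      (by
        rw [hρw, hc]
        have := F0_bad k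
        push_cast at this ⊢
        linear_combination this)
      (by
        intro h
        have h1 : HasDerivAt (fun z : ℂ => c + (F0 (ρ * z) - 1)) 0 (w0 : ℂ) :=
          (hasDerivAt_const (w0 : ℂ) (0 : ℂ)).congr_of_eventuallyEq h
        have h2 := hdg.unique h1
        have h3 : (ρ : ℂ) ≠ 0 := by exact_mod_cast hρ0.ne'
        exact mul_ne_zero hd0 h3 h2)
    filter_upwards [hev] with n hn
    obtain ⟨z, hz, hz0⟩ := hn
    refine ⟨z, ?_, hz0⟩
    have := hsub z (ball_subset_closedBall hz)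
    linarith
  have hall1 : ∀ᶠ n in atTop, ∀ k ∈ Finset.range (K + 1), ∀ w : ℂ, ‖w‖ ≤ 1 →
      (C (((1 + Real.exp (2 * Real.pi * k) : ℝ)) : ℂ) + G n).eval w ≠ 0 := by
    rw [Filter.eventually_all_finset]
    intro k _; exact hgood k
  have hall2 : ∀ᶠ n in atTop, ∀ k ∈ Finset.range (K + 1), ∃ w : ℂ, ‖w‖ < 1 ∧
      (C (((1 + Real.exp (Real.pi * (2 * k + 1)) : ℝ)) : ℂ) + G n).eval w = 0 := by
    rw [Filter.eventually_all_finset]
    intro k hk
    exact hbad k (by rw [Finset.mem_range] at hk; omega)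
  obtain ⟨n, h1, h2⟩ := (hall1.and hall2).exists
  exact ⟨G n, hG0 n, fun k hk => h1 k (Finset.mem_range.2 (by omega)),
    fun k hk => h2 k (Finset.mem_range.2 (by omega))⟩

end Q80.Circ
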