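import Mathlib

/-!
# Jacobi's identity `∑ (-1)^j (2j+1) q^(j(j+1)/2) = ∏ (1 - q^m)^3` for `0 < q < 1`
-/

namespace Pool.Agent.Q80.Jac

open Filter Topology Finset

/-- Triangular numbers. -/
def T (j : ℕ) : ℕ := j * (j + 1) / 2

lemma two_T (j : ℕ) : 2 * T j = j * (j + 1) :=
  Nat.mul_div_cancel' (even_iff_two_dvd.1 (Nat.even_mul_succ_self j))

lemma T_zero : T 0 = 0 := rfl

lemma T_succ (j : ℕ) : T (j + 1) = T j + (j + 1) := by
  have h1 := two_T j
  have h2 := two_T (j + 1)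
  have : 2 * T (j + 1) = 2 * (T j + (j + 1)) := by
    rw [h2, mul_add 2, h1]; ring
  omega

lemma le_T (j : ℕ) : j ≤ T j := by
  induction j with
  | zero => simp
  | succ j ih => rw [T_succ]; omega

/-- The finite products. -/
noncomputable def e (q : ℝ) (m : ℕ) : ℝ := ∏ k ∈ range m, (1 - q ^ (k + 1))

lemma e_zero (q : ℝ) : e q 0 = 1 := by simp [e]

lemma e_succ (q : ℝ) (m : ℕ) : e q (m + 1) = e q m * (1 - q ^ (m + 1)) := by
  unfold e; rw [prod_range_succ]

lemma fac_pos {q : ℝ} (h0 : 0 < q) (h1 : q < 1) (k : ℕ) : 0 < 1 - q ^ (k + 1) := by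
  have : q ^ (k + 1) < 1 := pow_lt_one₀ h0.le h1 (Nat.succ_ne_zero k)
  linarith

lemma e_pos {q : ℝ} (h0 : 0 < q) (h1 : q < 1) (m : ℕ) : 0 < e q m :=
  prod_pos fun k _ => fac_pos h0 h1 k

lemma e_anti {q : ℝ} (h0 : 0 < q) (h1 : q < 1) : Antitone (e q) := by
  apply antitone_nat_of_succ_le
  intro m
  rw [e_succ]
  have h := e_pos h0 h1 m
  have h2 : 0 < q ^ (m + 1) := by positivity
  nlinarith

/-- Gaussian binomials. -/
noncomputable def gb (q : ℝ) : ℕ → ℕ → ℝ
  | _, 0 => 1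
  | 0, _ + 1 => 0
  | m + 1, k + 1 => gb q m k + q ^ (k + 1) * gb q m (k + 1)

lemma gb_zero_right (q : ℝ) (m : ℕ) : gb q m 0 = 1 := by
  cases m <;> rfl

lemma gb_succ (q : ℝ) (m k : ℕ) :
    gb q (m + 1) (k + 1) = gb q m k + q ^ (k + 1) * gb q m (k + 1) := rfl

lemma gb_of_lt (q : ℝ) : ∀ {m k : ℕ}, m < k → gb q m k = 0 := by
  intro m
  induction m with
  | zero => intro k hk; cases k with
    | zero => omega
    | succ k => rfl
  | succ m ih =>
    intro k hk
    cases k with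
    | zero => omega
    | succ k => rw [gb_succ, ih (by omega), ih (by omega)]; ring

lemma gb_eq {q : ℝ} (h0 : 0 < q) (h1 : q < 1) : ∀ m k : ℕ,
    gb q (m + k) k * (e q k * e q m) = e q (m + k) := by
  intro m
  induction m with
  | zero =>
    intro k
    induction k with
    | zero => simp [gb_zero_right, e_zero]
    | succ k ih =>
      rw [zero_add] at ih ⊢
      rw [gb_succ, gb_of_lt q (Nat.lt_succ_self k), mul_zero, add_zero, e_succ]
      linear_combination (1 - q ^ (k + 1)) * ih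
  | succ m ihm =>
    intro k
    induction k with
    | zero => simp [gb_zero_right, e_zero]
    | succ k ihk =>
      have e1 : m + 1 + (k + 1) = (m + 1 + k) + 1 := by ring
      have i1 := ihm (k + 1)
      have e2 : m + (k + 1) = m + 1 + k := by ring
      rw [e2] at i1
      rw [e1, gb_succ, e_succ q (m + 1 + k), e_succ q k, e_succ q m]
      rw [e_succ q m] at ihk
      rw [e_succ q k] at i1
      have hp : q ^ (m + 1 + k + 1) = q ^ (m + 1) * q ^ (k + 1) := by rw [← pow_add]; ring_nf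
      rw [hp]
      linear_combination (1 - q ^ (k + 1)) * ihk + q ^ (k + 1) * (1 - q ^ (m + 1)) * i1

lemma gb_pascal {q : ℝ} (h0 : 0 < q) (h1 : q < 1) (m k : ℕ) :
    gb q (m + k + 1) (k + 1) = q ^ m * gb q (m + k) k + gb q (m + k) (k + 1) := by
  have hek := e_pos h0 h1
  cases m with
  | zero =>
    rw [zero_add, gb_succ, gb_of_lt q (Nat.lt_succ_self k)]
    ring
  | succ m =>
    have a1 := gb_eq h0 h1 (m + 1) k
    have a2 := gb_eq h0 h1 m (k + 1)
    have a3 := gb_eq h0 h1 (m + 1) (k + 1)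
    have e2 : m + (k + 1) = m + 1 + k := by ring
    have e3 : m + 1 + (k + 1) = m + 1 + k + 1 := by ring
    rw [e2] at a2
    rw [e3, e_succ q (m + 1 + k)] at a3
    rw [e_succ q k] at a2 a3
    rw [e_succ q m] at a1 a3
    have hp : q ^ (m + 1 + k + 1) = q ^ (m + 1) * q ^ (k + 1) := by rw [← pow_add]; ring_nf
    rw [hp] at a3
    have hne : (e q k * (1 - q ^ (k + 1))) * (e q m * (1 - q ^ (m + 1))) ≠ 0 := by
      have := fac_pos h0 h1 k
      have := fac_pos h0 h1 m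
      have := hek k
      have := hek m
      positivity
    apply mul_right_cancel₀ hne
    rw [a3]
    linear_combination (-(q ^ (m + 1) * (1 - q ^ (k + 1)))) * a1 - (1 - q ^ (m + 1)) * a2

/-- the double step. -/
lemma gb_two_step {q : ℝ} (h0 : 0 < q) (h1 : q < 1) (m k : ℕ) (hk : k ≤ m) :
    gb q (m + 2) (k + 2) = q ^ (m - k) * gb q m k + (1 + q ^ (m + 1)) * gb q m (k + 1) +
      q ^ (k + 2) * gb q m (k + 2) := by
  obtain ⟨d, rfl⟩ := Nat.exists_eq_add_of_le' hk
  rw [Nat.add_sub_cancel]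
  rw [show d + k + 2 = (d + k + 1) + 1 from rfl, show k + 2 = (k + 1) + 1 from rfl, gb_succ,
    gb_pascal h0 h1 d k]
  cases d with
  | zero =>
    rw [zero_add, gb_of_lt q (show k + 1 < k + 1 + 1 by omega), gb_of_lt q (show k < k + 1 by omega),
      gb_of_lt q (show k < k + 1 + 1 by omega)]
    ring
  | succ d =>
    have := gb_pascal h0 h1 d (k + 1)
    have e2 : d + (k + 1) = d + 1 + k := by ring
    rw [e2] at this
    rw [this]
    have hp : q ^ (d + 1 + k + 1) = q ^ d * q ^ (k + 1 + 1) := by rw [← pow_add]; ring_nf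
    rw [hp]
    ring

lemma gb_mid {q : ℝ} (h0 : 0 < q) (h1 : q < 1) (n : ℕ) :
    gb q (2 * n + 1) n = gb q (2 * n + 1) (n + 1) := by
  have a1 := gb_eq h0 h1 (n + 1) n
  have a2 := gb_eq h0 h1 n (n + 1)
  have e1 : n + 1 + n = 2 * n + 1 := by ring
  have e2 : n + (n + 1) = 2 * n + 1 := by ring
  rw [e1] at a1
  rw [e2] at a2
  have h := e_pos h0 h1
  have hne : e q n * e q (n + 1) ≠ 0 := mul_ne_zero (h _).ne' (h _).ne'
  apply mul_right_cancel₀ hne
  rw [a1, mul_comm (e q n), a2]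

/-- The finite form of the identity. -/
lemma finite_id {q : ℝ} (h0 : 0 < q) (h1 : q < 1) (n : ℕ) :
    ∑ j ∈ range (n + 1), (-1) ^ j * (2 * (j : ℝ) + 1) * q ^ T j * gb q (2 * n + 1) (n + 1 + j) =
      e q n ^ 2 := by
  induction n with
  | zero =>
    simp [T_zero, e_zero]
    rw [gb_succ, gb_zero_right, gb_of_lt q (by norm_num)]
    ring
  | succ n ih =>
    set v : ℕ → ℝ := fun j => (-1) ^ j * q ^ T j * gb q (2 * n + 1) (n + 1 + j) with hv
    have hv1 : v (n + 1) = 0 := by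
      rw [hv]; simp only; rw [gb_of_lt q (by omega)]; ring
    have hv2 : v (n + 2) = 0 := by
      rw [hv]; simp only; rw [gb_of_lt q (by omega)]; ring
    have hQ : q ≠ 0 := h0.ne'
    -- the terms
    have hterm : ∀ j, j ≤ n → (-1) ^ (j + 1) * (2 * ((j + 1 : ℕ) : ℝ) + 1) * q ^ T (j + 1) *
        gb q (2 * (n + 1) + 1) (n + 1 + 1 + (j + 1)) =
        (2 * (j : ℝ) + 3) * ((1 + q ^ (2 * n + 2)) * v (j + 1) -
          q ^ (n + 1) * (v j + v (j + 2))) := by
      intro j hj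
      have h2 := gb_two_step h0 h1 (2 * n + 1) (n + 1 + j) (by omega)
      have i1 : 2 * n + 1 + 2 = 2 * (n + 1) + 1 := by ring
      have i2 : n + 1 + j + 2 = n + 1 + 1 + (j + 1) := by ring
      have i3 : 2 * n + 1 - (n + 1 + j) = n - j := by omega
      have i4 : n + 1 + j + 1 = n + 1 + (j + 1) := by ring
      rw [i1, i3, i4] at h2
      rw [i2] at h2
      rw [h2, hv]
      simp only
      rw [show n + 1 + (j + 2) = n + 1 + 1 + (j + 1) by ring]
      rw [T_succ (j + 1), T_succ j]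
      have p1 : q ^ (n + 1) = q ^ (n - j) * q ^ (j + 1) := by
        rw [← pow_add]; congr 1; omega
      have p2 : q ^ (n + 1 + 1 + (j + 1)) = q ^ (n + 1) * q ^ (j + 1 + 1) := by
        rw [← pow_add]; congr 1; ring
      rw [p2]
      push_cast
      rw [pow_add q (T j + (j + 1)) (j + 1 + 1), pow_add q (T j) (j + 1)]
      have i5 : 2 * n + 1 + 1 = 2 * n + 2 := by ring
      rw [i5, pow_succ (-1 : ℝ) (j + 1), pow_succ (-1 : ℝ) j]
      linear_combination
        ((-1) ^ j * (2 * (j : ℝ) + 3) * q ^ T j * gb q (2 * n + 1) (n + 1 + j)) * p1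
    -- the zeroth term
    have hzero : (-1 : ℝ) ^ 0 * (2 * ((0 : ℕ) : ℝ) + 1) * q ^ T 0 *
        gb q (2 * (n + 1) + 1) (n + 1 + 1 + 0) =
        (1 + q ^ (2 * n + 2)) * v 0 + q ^ (n + 1) * v 0 - q ^ (n + 1) * v 1 := by
      have h2 := gb_two_step h0 h1 (2 * n + 1) n (by omega)
      have i1 : 2 * n + 1 + 2 = 2 * (n + 1) + 1 := by ring
      have i3 : 2 * n + 1 - n = n + 1 := by omega
      rw [i1, i3, gb_mid h0 h1] at h2
      rw [hv]
      simp only
      rw [T_succ 0, T_zero]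
      simp only [pow_zero, CharP.cast_eq_zero, mul_zero, zero_add, mul_one, add_zero, pow_one]
      rw [show n + 1 + 1 = n + 2 by ring, h2]
      have p2 : q ^ (n + 2) = q ^ (n + 1) * q := by ring
      rw [p2]
      ring
    rw [sum_range_succ', hzero]
    rw [sum_congr rfl (fun j hj => hterm j (by rw [mem_range] at hj; omega))]
    -- summation by parts
    have hS : ∑ j ∈ range (n + 1), (2 * (j : ℝ) + 1) * v j = e q n ^ 2 := by
      rw [← ih]
      apply sum_congr rfl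
      intro j _
      rw [hv]; simp only; ring
    have key : ∀ m, ∑ j ∈ range m, (2 * (j : ℝ) + 3) * ((1 + q ^ (2 * n + 2)) * v (j + 1) -
        q ^ (n + 1) * (v j + v (j + 2))) + ((1 + q ^ (2 * n + 2)) * v 0 + q ^ (n + 1) * v 0 -
        q ^ (n + 1) * v 1) =
        (1 - q ^ (n + 1)) ^ 2 * ∑ j ∈ range m, (2 * (j : ℝ) + 1) * v j +
          (1 + q ^ (2 * n + 2)) * (2 * (m : ℝ) + 1) * v m - q ^ (n + 1) * ((2 * m - 1) * v m) -
          q ^ (n + 1) * (2 * m + 1) * v (m + 1) := by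
      intro m
      induction m with
      | zero => simp
      | succ m ihm =>
        rw [sum_range_succ, sum_range_succ]
        have hq2 : q ^ (2 * n + 2) = (q ^ (n + 1)) ^ 2 := by rw [← pow_mul]; ring_nf
        rw [hq2] at ihm ⊢
        push_cast
        linear_combination ihm
    rw [key (n + 1), hS, hv1, hv2, e_succ]
    ring

/-- The infinite product. -/
noncomputable def E (q : ℝ) : ℝ := ⨅ m, e q m

lemma tendsto_E {q : ℝ} (h0 : 0 < q) (h1 : q < 1) : Tendsto (e q) atTop (𝓝 (E q)) :=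
  tendsto_atTop_ciInf (e_anti h0 h1) ⟨0, by rintro _ ⟨m, rfl⟩; exact (e_pos h0 h1 m).le⟩

lemma E_le {q : ℝ} (h0 : 0 < q) (h1 : q < 1) (m : ℕ) : E q ≤ e q m :=
  ciInf_le ⟨0, by rintro _ ⟨m, rfl⟩; exact (e_pos h0 h1 m).le⟩ m

lemma exp_le_fac {q : ℝ} (h0 : 0 < q) (h1 : q < 1) (k : ℕ) :
    Real.exp (-(q ^ (k + 1) / (1 - q))) ≤ 1 - q ^ (k + 1) := by
  set x := q ^ (k + 1) with hx
  have hxq : x ≤ q := by
    rw [hx]; exact pow_le_of_le_one h0.le h1.le (Nat.succ_ne_zero k)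
  have hx0 : 0 < x := by positivity
  have hx1 : 0 < 1 - x := by linarith
  have hq1 : 0 < 1 - q := by linarith
  have h2 : x / (1 - x) ≤ x / (1 - q) := by gcongr
  have h3 : (1 - x)⁻¹ ≤ Real.exp (x / (1 - x)) := by
    have := Real.add_one_le_exp (x / (1 - x))
    have e1 : x / (1 - x) + 1 = (1 - x)⁻¹ := by field_simp; ring
    linarith
  have h4 : (1 - x)⁻¹ ≤ Real.exp (x / (1 - q)) := h3.trans (Real.exp_le_exp.2 h2)
  rw [Real.exp_neg]
  exact inv_le_of_inv_le₀ hx1 h4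

lemma E_pos {q : ℝ} (h0 : 0 < q) (h1 : q < 1) : 0 < E q := by
  have hq1 : 0 < 1 - q := by linarith
  have hlow : ∀ m, Real.exp (-(q / (1 - q) / (1 - q))) ≤ e q m := by
    intro m
    have h2 : Real.exp (-(∑ k ∈ range m, q ^ (k + 1) / (1 - q))) ≤ e q m := by
      rw [← sum_neg_distrib, Real.exp_sum]
      exact Finset.prod_le_prod (fun k _ => (Real.exp_pos _).le) (fun k _ => exp_le_fac h0 h1 k)
    refine le_trans ?_ h2
    apply Real.exp_le_exp.2
    apply neg_le_neg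
    rw [← sum_div]
    have h3 : ∑ k ∈ range m, q ^ (k + 1) ≤ q / (1 - q) := by
      have : ∑ k ∈ range m, q ^ (k + 1) = q * ∑ k ∈ range m, q ^ k := by
        rw [mul_sum]; apply sum_congr rfl; intro k _; ring
      rw [this, div_eq_mul_inv]
      apply mul_le_mul_of_nonneg_left _ h0.le
      rw [← tsum_geometric_of_lt_one h0.le h1]
      exact (summable_geometric_of_lt_one h0.le h1).sum_le_tsum _ (fun i _ => by positivity)
    gcongr
  exact (Real.exp_pos _).trans_le (le_ciInf hlow)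

/-- The terms of Jacobi's series. -/
noncomputable def a (q : ℝ) (j : ℕ) : ℝ := (2 * (j : ℝ) + 1) * q ^ T j

lemma a_pos {q : ℝ} (h0 : 0 < q) (j : ℕ) : 0 < a q j := by unfold a; positivity

lemma a_le {q : ℝ} (h0 : 0 < q) (h1 : q < 1) (j : ℕ) : a q j ≤ (2 * (j : ℝ) + 1) * q ^ j := by
  unfold a
  have : q ^ T j ≤ q ^ j := pow_le_pow_of_le_one h0.le h1.le (le_T j)
  gcongr

lemma summable_lin {q : ℝ} (h0 : 0 < q) (h1 : q < 1) :
    Summable fun j : ℕ => (2 * (j : ℝ) + 1) * q ^ j := by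
  have hn : ‖q‖ < 1 := by rwa [Real.norm_eq_abs, abs_of_pos h0]
  have s1 := (summable_pow_mul_geometric_of_norm_lt_one 1 hn).mul_left 2
  have s2 := summable_geometric_of_lt_one h0.le h1
  refine (s1.add s2).congr (fun j => ?_)
  rw [pow_one]; ring

lemma summable_a {q : ℝ} (h0 : 0 < q) (h1 : q < 1) : Summable (a q) :=
  Summable.of_nonneg_of_le (fun j => (a_pos h0 j).le) (a_le h0 h1) (summable_lin h0 h1)

lemma summable_alt {q : ℝ} (h0 : 0 < q) (h1 : q < 1) : Summable fun j => (-1) ^ j * a q j := by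
  apply Summable.of_norm
  refine (summable_a h0 h1).congr (fun j => ?_)
  rw [norm_mul, norm_pow, norm_neg, norm_one, one_pow, one_mul, Real.norm_eq_abs,
    abs_of_pos (a_pos h0 j)]

lemma gb_bound {q : ℝ} (h0 : 0 < q) (h1 : q < 1) (n j : ℕ) :
    0 ≤ gb q (2 * n + 1) (n + 1 + j) ∧ gb q (2 * n + 1) (n + 1 + j) ≤ (E q)⁻¹ := by
  have hE := E_pos h0 h1
  have he := e_pos h0 h1
  rcases Nat.lt_or_ge n j with h | h
  · rw [gb_of_lt q (by omega)]
    exact ⟨le_rfl, by positivity⟩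
  · obtain ⟨d, rfl⟩ := Nat.exists_eq_add_of_le' h
    have h2 := gb_eq h0 h1 d (d + j + 1 + j)
    have e1 : d + (d + j + 1 + j) = 2 * (d + j) + 1 := by ring
    rw [e1] at h2
    have hval : gb q (2 * (d + j) + 1) (d + j + 1 + j) =
        e q (2 * (d + j) + 1) / (e q (d + j + 1 + j) * e q d) := by
      rw [eq_div_iff (mul_pos (he _) (he _)).ne']
      exact h2
    rw [hval]
    constructor
    · have := he (2 * (d + j) + 1)
      have := he (d + j + 1 + j)
      have := he d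
      positivity
    · rw [div_le_iff₀ (mul_pos (he _) (he _)), inv_mul_eq_div, le_div_iff₀ hE]
      have h3 : e q (2 * (d + j) + 1) ≤ e q (d + j + 1 + j) := e_anti h0 h1 (by omega)
      have h4 : E q ≤ e q d := E_le h0 h1 d
      have := he (2 * (d + j) + 1)
      exact mul_le_mul h3 h4 hE.le (he _).le

lemma gb_tendsto {q : ℝ} (h0 : 0 < q) (h1 : q < 1) (j : ℕ) :
    Tendsto (fun n => gb q (2 * n + 1) (n + 1 + j)) atTop (𝓝 (E q)⁻¹) := by
  have hE := E_pos h0 h1
  have he := e_pos h0 h1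
  have ht := tendsto_E h0 h1
  have t1 : Tendsto (fun n => e q (2 * n + 1)) atTop (𝓝 (E q)) :=
    ht.comp (tendsto_atTop_mono (fun n => by omega : ∀ n : ℕ, n ≤ 2 * n + 1) tendsto_id)
  have t2 : Tendsto (fun n => e q (n + 1 + j)) atTop (𝓝 (E q)) :=
    ht.comp (tendsto_atTop_mono (fun n => by omega : ∀ n : ℕ, n ≤ n + 1 + j) tendsto_id)
  have t3 : Tendsto (fun n => e q (n - j)) atTop (𝓝 (E q)) :=
    ht.comp (tendsto_sub_atTop_nat j)
  have t4 := t1.div (t2.mul t3) (mul_pos hE hE).ne'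
  have e1 : E q / (E q * E q) = (E q)⁻¹ := by field_simp
  rw [e1] at t4
  refine t4.congr' ?_
  filter_upwards [eventually_ge_atTop j] with n hn
  obtain ⟨d, rfl⟩ := Nat.exists_eq_add_of_le' hn
  have h2 := gb_eq h0 h1 d (d + j + 1 + j)
  have e1 : d + (d + j + 1 + j) = 2 * (d + j) + 1 := by ring
  rw [e1] at h2
  simp only [Pi.div_apply, Pi.mul_apply, Nat.add_sub_cancel]
  rw [div_eq_iff (mul_pos (he _) (he _)).ne']
  exact h2.symm

/-- **Jacobi's identity.** -/
theorem jacobi {q : ℝ} (h0 : 0 < q) (h1 : q < 1) :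
    ∑' j, (-1) ^ j * a q j = E q ^ 3 := by
  have hE := E_pos h0 h1
  have hlim : Tendsto (fun n => ∑' j, (-1) ^ j * a q j * gb q (2 * n + 1) (n + 1 + j)) atTop
      (𝓝 (∑' j, (-1) ^ j * a q j * (E q)⁻¹)) := by
    refine tendsto_tsum_of_dominated_convergence (bound := fun j => a q j * (E q)⁻¹)
      ((summable_a h0 h1).mul_right _) (fun j => (gb_tendsto h0 h1 j).const_mul _) ?_
    refine Eventually.of_forall fun n j => ?_
    rw [norm_mul, norm_mul, norm_pow, norm_neg, norm_one, one_pow, one_mul, Real.norm_eq_abs,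
      abs_of_pos (a_pos h0 j), Real.norm_eq_abs, abs_of_nonneg (gb_bound h0 h1 n j).1]
    exact mul_le_mul_of_nonneg_left (gb_bound h0 h1 n j).2 (a_pos h0 j).le
  have hfin : ∀ n, ∑' j, (-1) ^ j * a q j * gb q (2 * n + 1) (n + 1 + j) = e q n ^ 2 := by
    intro n
    rw [← finite_id h0 h1 n]
    rw [tsum_eq_sum (s := range (n + 1))]
    · apply sum_congr rfl
      intro j _
      unfold a
      ring
    · intro j hj
      rw [mem_range, not_lt] at hj
      rw [gb_of_lt q (by omega), mul_zero]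
  have hlim2 : Tendsto (fun n => e q n ^ 2) atTop (𝓝 (E q ^ 2)) := (tendsto_E h0 h1).pow 2
  have heq := tendsto_nhds_unique (hlim.congr hfin) hlim2
  rw [tsum_mul_right] at heq
  have : ∑' j, (-1) ^ j * a q j = (∑' j, (-1) ^ j * a q j) * (E q)⁻¹ * E q := by
    field_simp
  rw [this, heq]
  ring

/-- Quantitative monotonicity of the product. -/
lemma E_ratio {q q₀ : ℝ} (h0 : 0 < q) (hq : q ≤ q₀) (h1 : q₀ < 1) :
    (1 - q) * E q₀ ≤ (1 - q₀) * E q := by
  have h00 : 0 < q₀ := h0.trans_le hq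
  have hq1 : q < 1 := hq.trans_lt h1
  have hm : ∀ m, (1 - q) * e q₀ (m + 1) ≤ (1 - q₀) * e q (m + 1) := by
    intro m
    unfold e
    rw [prod_range_succ', prod_range_succ']
    have h2 : ∏ k ∈ range m, (1 - q₀ ^ (k + 1 + 1)) ≤ ∏ k ∈ range m, (1 - q ^ (k + 1 + 1)) := by
      apply Finset.prod_le_prod
      · intro k _; exact (fac_pos h00 h1 _).le
      · intro k _
        have : q ^ (k + 1 + 1) ≤ q₀ ^ (k + 1 + 1) := by gcongr
        linarith
    have h3 : 0 ≤ (1 - q) * (1 - q₀) := mul_nonneg (by linarith) (by linarith)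
    have := mul_le_mul_of_nonneg_left h2 h3
    simp only [zero_add, pow_one]
    linarith
  have t1 : Tendsto (fun m => (1 - q) * e q₀ (m + 1)) atTop (𝓝 ((1 - q) * E q₀)) :=
    (((tendsto_add_atTop_iff_nat 1).2 (tendsto_E h00 h1))).const_mul _
  have t2 : Tendsto (fun m => (1 - q₀) * e q (m + 1)) atTop (𝓝 ((1 - q₀) * E q)) :=
    (((tendsto_add_atTop_iff_nat 1).2 (tendsto_E h0 hq1))).const_mul _
  exact le_of_tendsto_of_tendsto' t1 t2 hm

/-- The slope of `J = E^3` is bounded away from zero. -/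
lemma J_slope {q q₀ : ℝ} (h0 : 0 < q) (hq : q ≤ q₀) (h1 : q₀ < 1) :
    3 * E q₀ ^ 3 / (1 - q₀) * (q₀ - q) ≤ E q ^ 3 - E q₀ ^ 3 := by
  have h00 : 0 < q₀ := h0.trans_le hq
  have hE0 := E_pos h00 h1
  have hp : 0 < 1 - q₀ := by linarith
  have h := E_ratio h0 hq h1
  have hr : E q₀ * (1 + (q₀ - q) / (1 - q₀)) ≤ E q := by
    have : E q₀ * (1 + (q₀ - q) / (1 - q₀)) = (1 - q) * E q₀ / (1 - q₀) := by
      field_simp; ring
    rw [this, div_le_iff₀ hp]
    linarith
  have hd : 0 ≤ (q₀ - q) / (1 - q₀) := div_nonneg (by linarith) hp.le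
  have hcube : (E q₀ * (1 + (q₀ - q) / (1 - q₀))) ^ 3 ≤ E q ^ 3 := by gcongr
  have hexp : E q₀ ^ 3 * (1 + 3 * ((q₀ - q) / (1 - q₀))) ≤
      (E q₀ * (1 + (q₀ - q) / (1 - q₀))) ^ 3 := by
    rw [mul_pow]
    apply mul_le_mul_of_nonneg_left _ (by positivity)
    nlinarith [pow_nonneg hd 2, pow_nonneg hd 3]
  have e3 : 3 * E q₀ ^ 3 / (1 - q₀) * (q₀ - q) = E q₀ ^ 3 * (3 * ((q₀ - q) / (1 - q₀))) := by
    field_simp
  rw [e3]
  linarith

end Pool.Agent.Q80.Jac
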