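import Mathlib
import Pool.Agent.Q80.RR2

/-!
# Legendre polynomials and the Legendre operator `D = ∂ (x² - 1) ∂`
-/

open Polynomial

namespace Q80.Leg

/-- `D p = ((x² - 1) p')'` -/
noncomputable def Dop (p : ℝ[X]) : ℝ[X] := derivative ((X ^ 2 - 1) * derivative p)

lemma Dop_add (p q : ℝ[X]) : Dop (p + q) = Dop p + Dop q := by
  unfold Dop; rw [derivative_add, mul_add, derivative_add]

lemma Dop_C_mul (c : ℝ) (p : ℝ[X]) : Dop (C c * p) = C c * Dop p := by
  unfold Dop; rw [derivative_C_mul, mul_left_comm, derivative_C_mul]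

lemma Dop_smul (c : ℝ) (p : ℝ[X]) : Dop (c • p) = c • Dop p := by
  rw [smul_eq_C_mul, smul_eq_C_mul, Dop_C_mul]

/-- the Legendre operator as a linear map -/
noncomputable def DL : ℝ[X] →ₗ[ℝ] ℝ[X] where
  toFun := Dop
  map_add' := Dop_add
  map_smul' c p := by rw [Dop_smul]; rfl

lemma c2 : (C (2 : ℝ) : ℝ[X]) = 2 := map_ofNat C 2

/-- `∂^m D = ((x² - 1)∂² + 2(m+1)x∂ + m(m+1)) ∂^m` -/
lemma iterate_Dop (m : ℕ) (p : ℝ[X]) : derivative^[m] (Dop p) =
    (X ^ 2 - 1) * derivative^[m + 2] p + C (2 * ((m : ℝ) + 1)) * X * derivative^[m + 1] p +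
      C ((m : ℝ) * (m + 1)) * derivative^[m] p := by
  induction m with
  | zero =>
    unfold Dop
    simp only [Function.iterate_succ_apply', Function.iterate_zero, id]
    rw [derivative_mul]
    simp [c2]
    ring
  | succ m ih =>
    rw [Function.iterate_succ_apply', ih]
    simp only [Function.iterate_succ_apply']
    set q := derivative^[m] p
    simp only [derivative_add, derivative_sub, derivative_mul, derivative_pow, derivative_X,
      derivative_one, derivative_C, map_sub, map_mul, map_add, map_ofNat, map_one, Nat.cast_add,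
      Nat.cast_one, map_natCast]
    simp
    ring

/-- `P` is a family of Legendre polynomials (in an arbitrary normalisation): `P k` has degree `k`
and solves `(1 - x²) y'' - 2 x y' + k (k + 1) y = 0`. -/
def IsLegendre (P : ℕ → ℝ[X]) : Prop :=
  ∀ k : ℕ, (P k).degree = k ∧
    (1 - X ^ 2) * derivative (derivative (P k)) - 2 * X * derivative (P k) +
      (k : ℝ[X]) * ((k : ℝ[X]) + 1) * P k = 0

lemma Dop_legendre {P : ℕ → ℝ[X]} (hP : IsLegendre P) (k : ℕ) :
    Dop (P k) = ((k : ℝ) * (k + 1)) • P k := by
  have h := (hP k).2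
  unfold Dop
  rw [derivative_mul, smul_eq_C_mul]
  simp only [derivative_sub, derivative_pow, derivative_X, derivative_one]
  simp only [map_mul, map_add, map_natCast, map_one]
  simp [c2]
  linear_combination -h

lemma span_legendre {P : ℕ → ℝ[X]} (hP : IsLegendre P) : Submodule.span ℝ (Set.range P) = ⊤ := by
  let S : Polynomial.Sequence ℝ := ⟨P, fun k => (hP k).1⟩
  apply S.span
  intro i
  exact (leadingCoeff_ne_zero.2 (S.ne_zero i)).isUnit

/-- the multiplier operator exists -/
lemma exists_mult {P : ℕ → ℝ[X]} (hP : IsLegendre P) (γ : ℕ → ℝ) :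
    ∃ Γ : ℝ[X] →ₗ[ℝ] ℝ[X], ∀ k, Γ (P k) = γ k • P k := by
  let S : Polynomial.Sequence ℝ := ⟨P, fun k => (hP k).1⟩
  have hu : ∀ i, IsUnit (S i).leadingCoeff := fun i =>
    (leadingCoeff_ne_zero.2 (S.ne_zero i)).isUnit
  refine ⟨(S.basis hu).constr ℝ (fun k => γ k • P k), fun k => ?_⟩
  have : P k = S.basis hu k := (S.basis_eq_self hu k).symm
  conv_lhs => rw [this]
  rw [Module.Basis.constr_basis]

/-! ### Rodrigues' formula -/

/-- Rodrigues' formula, without normalisation. -/
noncomputable def rod (k : ℕ) : ℝ[X] := derivative^[k] ((X ^ 2 - 1) ^ k)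

lemma rod_ode (k m : ℕ) :
    let u : ℝ[X] := (X ^ 2 - 1) ^ k
    (X ^ 2 - 1) * derivative^[m + 2] u + C (2 * ((m : ℝ) + 1)) * X * derivative^[m + 1] u +
      C ((m : ℝ) * (m + 1)) * derivative^[m] u =
    C (2 * (k : ℝ)) * X * derivative^[m + 1] u + C (2 * (k : ℝ) * (m + 1)) * derivative^[m] u := by
  intro u
  have h0 : (X ^ 2 - 1) * derivative u = C (2 * (k : ℝ)) * X * u := by
    rcases Nat.eq_zero_or_pos k with rfl | hk
    · simp [u]
    · obtain ⟨j, rfl⟩ : ∃ j, k = j + 1 := ⟨k - 1, by omega⟩
      simp only [u]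
      rw [derivative_pow]
      simp only [Nat.add_sub_cancel, derivative_sub, derivative_pow, derivative_X, derivative_one]
      simp
      ring
  induction m with
  | zero =>
    have h1 := congrArg derivative h0
    simp only [Function.iterate_succ_apply', Function.iterate_zero, id]
    rw [derivative_mul, derivative_mul, derivative_mul] at h1
    simp only [derivative_sub, derivative_pow, derivative_X, derivative_one, derivative_C] at h1
    simp at h1 ⊢
    linear_combination h1
  | succ m ih =>
    have h1 := congrArg derivative ih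
    simp only [Function.iterate_succ_apply'] at h1 ⊢
    set v := derivative^[m] u
    simp only [derivative_add, derivative_sub, derivative_mul, derivative_pow, derivative_X,
      derivative_one, derivative_C, map_mul, map_add, map_ofNat, map_one, map_natCast] at h1 ⊢
    simp at h1 ⊢
    linear_combination h1

theorem isLegendre_rod : IsLegendre rod := by
  intro k
  constructor
  · have hm : ((X ^ 2 - 1 : ℝ[X]) ^ k).Monic := by
      apply Monic.pow
      have : (X ^ 2 - 1 : ℝ[X]) = X ^ 2 - C 1 := by simp
      rw [this]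
      exact monic_X_pow_sub_C _ (by norm_num)
    have hd : ((X ^ 2 - 1 : ℝ[X]) ^ k).natDegree = 2 * k := by
      rw [natDegree_pow]
      have : (X ^ 2 - 1 : ℝ[X]) = X ^ 2 - C 1 := by simp
      rw [this, natDegree_X_pow_sub_C, mul_comm]
    have hcoeff : (rod k).coeff k ≠ 0 := by
      unfold rod
      rw [coeff_iterate_derivative]
      have : ((X ^ 2 - 1 : ℝ[X]) ^ k).coeff (k + k) = 1 := by
        rw [← two_mul, ← hd]; exact hm
      rw [this]
      simp only [nsmul_eq_mul, mul_one]
      have h0 : (k + k).descFactorial k ≠ 0 := by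
        intro h; rw [Nat.descFactorial_eq_zero_iff_lt] at h; omega
      exact_mod_cast h0
    apply le_antisymm
    · apply degree_le_of_natDegree_le
      unfold rod
      refine (natDegree_iterate_derivative _ k).trans ?_
      rw [hd]; omega
    · exact le_degree_of_ne_zero hcoeff
  · rcases Nat.eq_zero_or_pos k with rfl | hk
    · simp [rod]
    · have h := rod_ode k k
      simp only [Function.iterate_succ_apply', ← rod.eq_def] at h
      simp only [map_mul, map_add, map_ofNat, map_one, map_natCast] at h
      linear_combination -h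

/-- rescaling a Legendre family -/
lemma IsLegendre.rescale {P : ℕ → ℝ[X]} (hP : IsLegendre P) {c : ℕ → ℝ} (hc : ∀ k, c k ≠ 0) :
    IsLegendre fun k => C (c k) * P k := by
  intro k
  refine ⟨?_, ?_⟩
  · rw [degree_C_mul (hc k)]; exact (hP k).1
  · have h := (hP k).2
    simp only [derivative_C_mul]
    linear_combination C (c k) * h

end Q80.Leg
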