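import Mathlib

/-!
# A Gaussian pair and its moments

For `x, y > 0` the numbers
`M_k(x,y) = (x+y)^k - k! ∑_{i+j=k-1} x^{i+1/2} y^{j+1/2} / (Γ(i+3/2) Γ(j+3/2))` are the moments of a
positive measure on `[0, max x y]`.
-/

open Filter Topology Set MeasureTheory

namespace Q80.ML

/-- the negative part of `mu` -/
noncomputable def neg (m m' : ℝ → ℝ) : ℕ → ℝ
  | 0 => 0
  | k + 1 => ((k + 1).factorial : ℝ) * ∑ p ∈ Finset.HasAntidiagonal.antidiagonal k,
      (m ((p.1 : ℝ) + 1 / 2) / Real.Gamma ((p.1 : ℝ) + 3 / 2)) *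
        (m' ((p.2 : ℝ) + 1 / 2) / Real.Gamma ((p.2 : ℝ) + 3 / 2))

/-- the positive part -/
noncomputable def pos (m m' : ℝ → ℝ) (k : ℕ) : ℝ :=
  (k.factorial : ℝ) * ∑ p ∈ Finset.HasAntidiagonal.antidiagonal k,
      (m (p.1 : ℝ) / (p.1.factorial : ℝ)) * (m' (p.2 : ℝ) / (p.2.factorial : ℝ))

/-- the coefficients `mu` -/
noncomputable def mu (m m' : ℝ → ℝ) (k : ℕ) : ℝ := pos m m' k - neg m m' k

/-- `x ^ s` as a function of `s` -/
noncomputable def pw (x : ℝ) : ℝ → ℝ := fun s => x ^ s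

lemma pos_pw (x y : ℝ) (k : ℕ) : pos (pw x) (pw y) k = (x + y) ^ k := by
  unfold pos pw
  rw [add_pow, Finset.Nat.antidiagonal_eq_map, Finset.sum_map, Finset.mul_sum]
  apply Finset.sum_congr rfl
  intro i hi
  have hik : i ≤ k := by rw [Finset.mem_range] at hi; omega
  simp only [Function.Embedding.coeFn_mk, Real.rpow_natCast]
  rw [Nat.cast_choose ℝ hik]
  have h1 : (i.factorial : ℝ) ≠ 0 := by positivity
  have h2 : ((k - i).factorial : ℝ) ≠ 0 := by positivity
  field_simp

/-- `1/Γ(k+3/2)` -/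
noncomputable def ee (k : ℕ) : ℝ := 1 / Real.Gamma ((k : ℝ) + 3 / 2)

lemma Gamma_half_pos (k : ℕ) : 0 < Real.Gamma ((k : ℝ) + 3 / 2) :=
  Real.Gamma_pos_of_pos (by positivity)

lemma ee_pos (k : ℕ) : 0 < ee k := one_div_pos.2 (Gamma_half_pos k)

lemma ee_succ (k : ℕ) : ((k : ℝ) + 3 / 2) * ee (k + 1) = ee k := by
  unfold ee
  have h1 : ((k + 1 : ℕ) : ℝ) + 3 / 2 = ((k : ℝ) + 3 / 2) + 1 := by push_cast; ring
  have h0 : (k : ℝ) + 3 / 2 ≠ 0 := by positivity
  rw [h1, Real.Gamma_add_one h0]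
  have := (Gamma_half_pos k).ne'
  field_simp

lemma ee_zero : 1 / 2 * ee 0 = 1 / √Real.pi := by
  unfold ee
  have h1 : ((0 : ℕ) : ℝ) + 3 / 2 = 1 / 2 + 1 := by norm_num
  rw [h1, Real.Gamma_add_one (by norm_num), Real.Gamma_one_half_eq]
  have : √Real.pi ≠ 0 := by positivity
  field_simp

lemma rpow_half {x : ℝ} (hx : 0 < x) (k : ℕ) : x ^ ((k : ℝ) + 1 / 2) = x ^ k * √x := by
  rw [Real.rpow_add hx, Real.rpow_natCast, Real.sqrt_eq_rpow]

/-- normal form of the negative part at `k + 1` -/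
lemma neg_pw {x y : ℝ} (hx : 0 < x) (hy : 0 < y) (k : ℕ) : neg (pw x) (pw y) (k + 1) =
    ((k + 1).factorial : ℝ) * (√x * √y) * ∑ i ∈ Finset.range (k + 1),
      (ee i * ee (k - i)) * (x ^ i * y ^ (k - i)) := by
  simp only [neg, pw]
  rw [Finset.Nat.antidiagonal_eq_map, Finset.sum_map, Finset.mul_sum, Finset.mul_sum]
  apply Finset.sum_congr rfl
  intro i _
  simp only [Function.Embedding.coeFn_mk]
  rw [rpow_half hx, rpow_half hy]
  unfold ee
  ring

/-- the recurrence for the negative part -/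
lemma neg_rec {x y : ℝ} (hx : 0 < x) (hy : 0 < y) (k : ℕ) : neg (pw x) (pw y) (k + 1) =
    (x + y) * neg (pw x) (pw y) k + (k.factorial : ℝ) * ee k / √Real.pi *
      (√x * (√y * y ^ k) + √y * (√x * x ^ k)) := by
  rcases k with _ | k
  · rw [neg_pw hx hy]
    simp only [neg]
    rw [div_eq_mul_one_div _ (√Real.pi), ← ee_zero]
    simp
    ring
  · rw [neg_pw hx hy, neg_pw hx hy]
    -- S = ∑_{i ≤ k+1} e_i e_{k+1-i} x^i y^{k+1-i}
    have key : ((k : ℝ) + 2) * ∑ i ∈ Finset.range (k + 1 + 1),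
        (ee i * ee (k + 1 - i)) * (x ^ i * y ^ (k + 1 - i)) =
        (x + y) * ∑ i ∈ Finset.range (k + 1), (ee i * ee (k - i)) * (x ^ i * y ^ (k - i)) +
        ee (k + 1) / √Real.pi * (y ^ (k + 1) + x ^ (k + 1)) := by
      have h1 : ((k : ℝ) + 2) * ∑ i ∈ Finset.range (k + 1 + 1),
          (ee i * ee (k + 1 - i)) * (x ^ i * y ^ (k + 1 - i)) =
          (∑ i ∈ Finset.range (k + 1 + 1), ((i : ℝ) + 1 / 2) * ee i * ee (k + 1 - i) *
            (x ^ i * y ^ (k + 1 - i))) +
          ∑ i ∈ Finset.range (k + 1 + 1), ee i * ((((k + 1 - i : ℕ) : ℝ) + 1 / 2) * ee (k + 1 - i)) *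
            (x ^ i * y ^ (k + 1 - i)) := by
        rw [← Finset.sum_add_distrib, Finset.mul_sum]
        apply Finset.sum_congr rfl
        intro i hi
        have hik : i ≤ k + 1 := by rw [Finset.mem_range] at hi; omega
        rw [Nat.cast_sub hik]
        push_cast
        ring
      rw [h1, Finset.sum_range_succ', Finset.sum_range_succ (n := k + 1)]
      have h2 : ∑ i ∈ Finset.range (k + 1), (((i + 1 : ℕ) : ℝ) + 1 / 2) * ee (i + 1) *
          ee (k + 1 - (i + 1)) * (x ^ (i + 1) * y ^ (k + 1 - (i + 1))) =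
          x * ∑ i ∈ Finset.range (k + 1), (ee i * ee (k - i)) * (x ^ i * y ^ (k - i)) := by
        rw [Finset.mul_sum]
        apply Finset.sum_congr rfl
        intro i hi
        have h3 := ee_succ i
        have h4 : (((i + 1 : ℕ) : ℝ) + 1 / 2) * ee (i + 1) = ee i := by
          rw [← h3]; push_cast; ring
        rw [h4, show k + 1 - (i + 1) = k - i by omega, pow_succ]
        ring
      have h5 : ∑ i ∈ Finset.range (k + 1), ee i * ((((k + 1 - i : ℕ) : ℝ) + 1 / 2) * ee (k + 1 - i)) *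
            (x ^ i * y ^ (k + 1 - i)) =
          y * ∑ i ∈ Finset.range (k + 1), (ee i * ee (k - i)) * (x ^ i * y ^ (k - i)) := by
        rw [Finset.mul_sum]
        apply Finset.sum_congr rfl
        intro i hi
        have hik : i ≤ k := by rw [Finset.mem_range] at hi; omega
        have h3 := ee_succ (k - i)
        have h6 : k + 1 - i = (k - i) + 1 := by omega
        have h4 : (((k + 1 - i : ℕ) : ℝ) + 1 / 2) * ee (k + 1 - i) = ee (k - i) := by
          rw [h6, ← h3]; push_cast; ring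
        rw [h4, h6, pow_succ]
        ring
      rw [h2, h5]
      have h7 := ee_zero
      simp only [Nat.cast_zero, zero_add, Nat.sub_zero, Nat.sub_self, pow_zero, mul_one, one_mul]
      linear_combination (ee (k + 1) * y ^ (k + 1) + ee (k + 1) * x ^ (k + 1)) * h7
    rw [Nat.factorial_succ (k + 1)]
    push_cast
    linear_combination (((k + 1).factorial : ℝ) * (√x * √y)) * key

/-- `∫_0^1 (1-s²)^k ds` -/
lemma wallis (k : ℕ) : ∫ s in (0 : ℝ)..1, (1 - s ^ 2) ^ k = √Real.pi / 2 * (k.factorial : ℝ) * ee k := by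
  induction k with
  | zero =>
    have h := ee_zero
    have h2 : √Real.pi ≠ 0 := by positivity
    rw [eq_div_iff h2] at h
    simp
    linarith
  | succ k ih =>
    have h1 : ∀ s ∈ uIcc (0 : ℝ) 1, HasDerivAt (fun s : ℝ => s * (1 - s ^ 2) ^ (k + 1))
        ((2 * (k : ℝ) + 3) * (1 - s ^ 2) ^ (k + 1) - (2 * (k : ℝ) + 2) * (1 - s ^ 2) ^ k) s := by
      intro s _
      have h2 : HasDerivAt (fun s : ℝ => 1 - s ^ 2) (-(2 * s)) s := by
        simpa using (hasDerivAt_pow 2 s).const_sub 1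
      have h3 := (hasDerivAt_id s).mul (h2.pow (k + 1))
      refine h3.congr_deriv ?_
      simp only [id, Nat.add_sub_cancel, Pi.pow_apply]
      push_cast
      ring
    have h4 := intervalIntegral.integral_eq_sub_of_hasDerivAt h1 (by
      apply Continuous.intervalIntegrable; fun_prop)
    rw [intervalIntegral.integral_sub (by apply Continuous.intervalIntegrable; fun_prop)
      (by apply Continuous.intervalIntegrable; fun_prop), intervalIntegral.integral_const_mul,
      intervalIntegral.integral_const_mul, ih] at h4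
    simp at h4
    have h5 := ee_succ k
    have h6 : (2 * (k : ℝ) + 3) ≠ 0 := by positivity
    apply mul_left_cancel₀ h6
    rw [Nat.factorial_succ]
    push_cast
    rw [← h5] at h4
    linear_combination h4

lemma wallis_scaled {y : ℝ} (hy : 0 < y) (k : ℕ) : ∫ s in (0 : ℝ)..√y, (y - s ^ 2) ^ k =
    y ^ k * √y * (√Real.pi / 2 * (k.factorial : ℝ) * ee k) := by
  have hs : √y ^ 2 = y := Real.sq_sqrt hy.le
  have h1 := intervalIntegral.integral_comp_mul_left (a := 0) (b := 1)
    (fun s : ℝ => (y - s ^ 2) ^ k) (c := √y) (by positivity)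
  rw [mul_zero, mul_one, smul_eq_mul] at h1
  have h2 : ∫ s in (0 : ℝ)..1, (y - (√y * s) ^ 2) ^ k = y ^ k * ∫ s in (0 : ℝ)..1, (1 - s ^ 2) ^ k := by
    rw [← intervalIntegral.integral_const_mul]
    apply intervalIntegral.integral_congr
    intro s _
    simp only
    rw [← mul_pow, mul_pow √y s, hs]
    congr 1; ring
  rw [h2, wallis] at h1
  have h3 : √y ≠ 0 := by positivity
  field_simp at h1 ⊢
  linear_combination -h1

/-- the weights -/
noncomputable def wt (x s : ℝ) : ℝ := 2 / Real.pi * (√x / (x + s ^ 2))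

lemma wt_continuous {x : ℝ} (hx : 0 < x) : Continuous (wt x) := by
  unfold wt
  apply Continuous.mul continuous_const
  apply Continuous.div continuous_const (by fun_prop)
  intro s; positivity

lemma wt_nonneg {x : ℝ} (hx : 0 < x) (s : ℝ) : 0 ≤ wt x s := by unfold wt; positivity

lemma wt_zero {x y : ℝ} (hx : 0 < x) (hy : 0 < y) : ∫ s in (0 : ℝ)..√y, wt x s =
    2 / Real.pi * Real.arctan (√y / √x) := by
  have hsx : √x ≠ 0 := by positivity
  have h1 : ∀ s ∈ uIcc (0 : ℝ) √y, HasDerivAt (fun s : ℝ => 2 / Real.pi * Real.arctan (s / √x))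
      (wt x s) s := by
    intro s _
    have h2 := ((hasDerivAt_id s).div_const √x).arctan.const_mul (2 / Real.pi)
    refine h2.congr_deriv ?_
    unfold wt
    simp only [id]
    have h3 : √x ^ 2 = x := Real.sq_sqrt hx.le
    have h4 : 1 + (s / √x) ^ 2 = (x + s ^ 2) / x := by
      rw [div_pow, h3]; field_simp
    rw [h4]
    have h5 : x + s ^ 2 ≠ 0 := by positivity
    field_simp
    rw [h3]
  rw [intervalIntegral.integral_eq_sub_of_hasDerivAt h1
    ((wt_continuous hx).intervalIntegrable _ _)]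
  simp

/-- the moments -/
noncomputable def mm (x y : ℝ) (k : ℕ) : ℝ :=
  (∫ s in (0 : ℝ)..√y, (y - s ^ 2) ^ k * wt x s) + ∫ s in (0 : ℝ)..√x, (x - s ^ 2) ^ k * wt y s

lemma half_rec {x y : ℝ} (hx : 0 < x) (hy : 0 < y) (k : ℕ) :
    ∫ s in (0 : ℝ)..√y, (y - s ^ 2) ^ (k + 1) * wt x s =
      (x + y) * (∫ s in (0 : ℝ)..√y, (y - s ^ 2) ^ k * wt x s) -
        2 / Real.pi * √x * ∫ s in (0 : ℝ)..√y, (y - s ^ 2) ^ k := by
  have hc := wt_continuous hx
  rw [← intervalIntegral.integral_const_mul, ← intervalIntegral.integral_const_mul,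
    ← intervalIntegral.integral_sub (by apply Continuous.intervalIntegrable; fun_prop)
      (by apply Continuous.intervalIntegrable; fun_prop)]
  apply intervalIntegral.integral_congr
  intro s _
  simp only
  unfold wt
  have : x + s ^ 2 ≠ 0 := by positivity
  rw [pow_succ]
  field_simp
  ring

/-- **The moment identity** -/
theorem mu_pw {x y : ℝ} (hx : 0 < x) (hy : 0 < y) (k : ℕ) : mu (pw x) (pw y) k = mm x y k := by
  induction k with
  | zero =>
    unfold mu mm
    rw [pos_pw]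
    simp only [neg, pow_zero, one_mul, sub_zero]
    rw [wt_zero hx hy, wt_zero hy hx]
    have h1 : √y / √x = (√x / √y)⁻¹ := by rw [inv_div]
    have h2 : 0 < √x / √y := by positivity
    rw [h1, Real.arctan_inv_of_pos h2]
    have := Real.pi_ne_zero
    field_simp
    ring
  | succ k ih =>
    have h1 : mu (pw x) (pw y) (k + 1) = (x + y) * mu (pw x) (pw y) k -
        (k.factorial : ℝ) * ee k / √Real.pi * (√x * (√y * y ^ k) + √y * (√x * x ^ k)) := by
      unfold mu
      rw [neg_rec hx hy, pos_pw, pos_pw]; ring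
    have h2 : mm x y (k + 1) = (x + y) * mm x y k -
        (2 / Real.pi * √x * (∫ s in (0 : ℝ)..√y, (y - s ^ 2) ^ k) +
        2 / Real.pi * √y * ∫ s in (0 : ℝ)..√x, (x - s ^ 2) ^ k) := by
      unfold mm
      rw [half_rec hx hy, half_rec hy hx]
      ring
    rw [h1, h2, ih, wallis_scaled hx, wallis_scaled hy]
    have h3 : √Real.pi ^ 2 = Real.pi := Real.sq_sqrt Real.pi_pos.le
    have h4 : √Real.pi ≠ 0 := by positivity
    have h5 : 2 / Real.pi = 2 / √Real.pi ^ 2 := by rw [h3]
    rw [h5]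
    field_simp

end Q80.ML
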