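import Mathlib
import Pool.Agent.Q80.MLa

/-!
# Mixtures: positivity of the alternating sums for moment functions of measures
-/

open Filter Topology Set MeasureTheory

namespace Q80.ML

/-- `∑_k (-t)^k/k! mu_{k+n}` -/
noncomputable def F (m m' : ℝ → ℝ) (n : ℕ) (t : ℝ) : ℝ :=
  ∑' k : ℕ, (-t) ^ k / (k.factorial : ℝ) * mu m m' (k + n)

lemma summable_exp_bound (t R : ℝ) (n : ℕ) :
    Summable fun k : ℕ => |t| ^ k / (k.factorial : ℝ) * R ^ (k + n) := by
  refine ((Real.summable_pow_div_factorial (|t| * R)).mul_left (R ^ n)).congr fun k => ?_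
  rw [pow_add, mul_pow]; ring

lemma half_hasSum {x y : ℝ} (hx : 0 < x) (hy : 0 < y) (n : ℕ) (t : ℝ) :
    HasSum (fun k : ℕ => (-t) ^ k / (k.factorial : ℝ) *
      ∫ s in (0 : ℝ)..√y, (y - s ^ 2) ^ (k + n) * wt x s)
      (∫ s in (0 : ℝ)..√y, (y - s ^ 2) ^ n * Real.exp (-t * (y - s ^ 2)) * wt x s) := by
  have hc := wt_continuous hx
  have hsum := summable_exp_bound t y n
  have h := intervalIntegral.hasSum_integral_of_dominated_convergence (μ := volume) (a := 0)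
    (b := √y)
    (F := fun (k : ℕ) (s : ℝ) => (-t) ^ k / (k.factorial : ℝ) * ((y - s ^ 2) ^ (k + n) * wt x s))
    (f := fun s => (y - s ^ 2) ^ n * Real.exp (-t * (y - s ^ 2)) * wt x s)
    (fun k s => (|t| ^ k / (k.factorial : ℝ) * y ^ (k + n)) * wt x s)
    (fun k => (Continuous.aestronglyMeasurable (by fun_prop)))
    (fun k => Eventually.of_forall fun s hs => ?_)
    (Eventually.of_forall fun s _ => hsum.mul_right _) ?_
    (Eventually.of_forall fun s _ => ?_)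
  · simpa only [intervalIntegral.integral_const_mul] using h
  · rw [uIoc_of_le (Real.sqrt_nonneg y)] at hs
    have h1 : s ^ 2 ≤ y := by
      have := Real.sq_sqrt hy.le
      nlinarith [hs.1, hs.2, Real.sqrt_nonneg y]
    have h2 : |(y - s ^ 2)| ≤ y := by
      rw [abs_of_nonneg (by linarith)]; nlinarith [sq_nonneg s]
    rw [Real.norm_eq_abs, abs_mul, abs_mul, abs_div, abs_pow, abs_pow, abs_neg,
      abs_of_nonneg (wt_nonneg hx s), Nat.abs_cast, ← mul_assoc]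
    apply mul_le_mul_of_nonneg_right _ (wt_nonneg hx s)
    apply mul_le_mul_of_nonneg_left _ (by positivity)
    exact pow_le_pow_left₀ (abs_nonneg _) h2 _
  · simp only [tsum_mul_right]
    apply Continuous.intervalIntegrable
    fun_prop
  · have h1 : HasSum (fun k : ℕ => (-t * (y - s ^ 2)) ^ k / (k.factorial : ℝ))
        (Real.exp (-t * (y - s ^ 2))) := by
      have := NormedSpace.expSeries_div_hasSum_exp (-t * (y - s ^ 2))
      rwa [← Real.exp_eq_exp_ℝ] at this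
    have h2 := (h1.mul_left ((y - s ^ 2) ^ n)).mul_right (wt x s)
    refine h2.congr_fun ?_ |> fun h => h
    intro k
    rw [mul_pow, pow_add]; ring

lemma pw_tsum_nonneg {x y : ℝ} (hx : 0 < x) (hy : 0 < y) (n : ℕ) (t : ℝ) :
    0 ≤ F (pw x) (pw y) n t := by
  unfold F
  have h1 := (half_hasSum hx hy n t).add (half_hasSum hy hx n t)
  have h2 : (fun k : ℕ => (-t) ^ k / (k.factorial : ℝ) * mu (pw x) (pw y) (k + n)) =
      fun k : ℕ => (-t) ^ k / (k.factorial : ℝ) *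
      (∫ s in (0 : ℝ)..√y, (y - s ^ 2) ^ (k + n) * wt x s) + (-t) ^ k / (k.factorial : ℝ) *
      ∫ s in (0 : ℝ)..√x, (x - s ^ 2) ^ (k + n) * wt y s := by
    funext k
    rw [mu_pw hx hy, mm]; ring
  rw [h2, h1.tsum_eq]
  have key : ∀ {x y : ℝ}, 0 < x → 0 < y →
      0 ≤ ∫ s in (0 : ℝ)..√y, (y - s ^ 2) ^ n * Real.exp (-t * (y - s ^ 2)) * wt x s := by
    intro x y hx hy
    apply intervalIntegral.integral_nonneg (Real.sqrt_nonneg y)
    intro s hs
    have h1 : s ^ 2 ≤ y := by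
      have := Real.sq_sqrt hy.le
      nlinarith [hs.1, hs.2, Real.sqrt_nonneg y]
    have h2 : 0 ≤ y - s ^ 2 := by linarith
    have := wt_nonneg hx s
    positivity
  exact add_nonneg (key hx hy) (key hy hx)

lemma pw_bounds {x y R : ℝ} (hx : 0 < x) (hy : 0 < y) (hxR : x ≤ R) (hyR : y ≤ R) (k : ℕ) :
    0 ≤ mu (pw x) (pw y) k ∧ mu (pw x) (pw y) k ≤ R ^ k := by
  have key : ∀ {x y : ℝ}, 0 < x → 0 < y → y ≤ R →
      0 ≤ (∫ s in (0 : ℝ)..√y, (y - s ^ 2) ^ k * wt x s) ∧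
      (∫ s in (0 : ℝ)..√y, (y - s ^ 2) ^ k * wt x s) ≤
        R ^ k * ∫ s in (0 : ℝ)..√y, (y - s ^ 2) ^ 0 * wt x s := by
    intro x y hx hy hyR
    have hc := wt_continuous hx
    have hin : ∀ s ∈ Icc (0 : ℝ) √y, 0 ≤ y - s ^ 2 ∧ y - s ^ 2 ≤ R := by
      intro s hs
      have := Real.sq_sqrt hy.le
      constructor
      · nlinarith [hs.1, hs.2, Real.sqrt_nonneg y]
      · nlinarith [sq_nonneg s]
    constructor
    · apply intervalIntegral.integral_nonneg (Real.sqrt_nonneg y)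
      intro s hs
      have h1 := (hin s hs).1
      have := wt_nonneg hx s
      positivity
    · rw [← intervalIntegral.integral_const_mul]
      apply intervalIntegral.integral_mono_on (Real.sqrt_nonneg y)
      · apply Continuous.intervalIntegrable; fun_prop
      · apply Continuous.intervalIntegrable; fun_prop
      · intro s hs
        rw [pow_zero, one_mul]
        exact mul_le_mul_of_nonneg_right (pow_le_pow_left₀ (hin s hs).1 (hin s hs).2 k)
          (wt_nonneg hx s)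
  obtain ⟨h1, h2⟩ := key hx hy hyR
  obtain ⟨h3, h4⟩ := key hy hx hxR
  have h5 : mu (pw x) (pw y) 0 = 1 := by
    unfold mu; rw [pos_pw]; simp [neg]
  rw [mu_pw hx hy] at h5 ⊢
  unfold mm at h5 ⊢
  refine ⟨add_nonneg h1 h3, ?_⟩
  calc _ ≤ R ^ k * (∫ s in (0 : ℝ)..√y, (y - s ^ 2) ^ 0 * wt x s) +
        R ^ k * ∫ s in (0 : ℝ)..√x, (x - s ^ 2) ^ 0 * wt y s := add_le_add h2 h4
    _ = R ^ k := by rw [← mul_add, h5, mul_one]

/-- moment functions of finite measures on `(0, R]` -/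
def Mom (m : ℝ → ℝ) : Prop :=
  ∃ (R : ℝ) (μ : Measure ℝ), IsFiniteMeasure μ ∧ (∀ᵐ x ∂μ, x ∈ Ioc 0 R) ∧
    ∀ s, 0 ≤ s → m s = ∫ x, x ^ s ∂μ

lemma integrable_pw {μ : Measure ℝ} [IsFiniteMeasure μ] {R : ℝ} (h : ∀ᵐ x ∂μ, x ∈ Ioc 0 R)
    {s : ℝ} (hs : 0 ≤ s) : Integrable (fun x : ℝ => x ^ s) μ := by
  apply Integrable.of_bound (Measurable.aestronglyMeasurable (by fun_prop)) (R ^ s)
  filter_upwards [h] with x hx
  rw [Real.norm_eq_abs, abs_of_nonneg (Real.rpow_nonneg hx.1.le s)]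
  exact Real.rpow_le_rpow hx.1.le hx.2 hs

section prod

variable {μ ν : Measure ℝ} [IsFiniteMeasure μ] [IsFiniteMeasure ν] {R S : ℝ}
  (hμ : ∀ᵐ x ∂μ, x ∈ Ioc 0 R) (hν : ∀ᵐ x ∂ν, x ∈ Ioc 0 S) {m m' : ℝ → ℝ}
  (hm : ∀ s, 0 ≤ s → m s = ∫ x, x ^ s ∂μ) (hm' : ∀ s, 0 ≤ s → m' s = ∫ x, x ^ s ∂ν)

include hμ hν hm hm'

lemma prod_mom {s s' : ℝ} (hs : 0 ≤ s) (hs' : 0 ≤ s') :
    Integrable (fun z : ℝ × ℝ => z.1 ^ s * z.2 ^ s') (μ.prod ν) ∧
    m s * m' s' = ∫ z, z.1 ^ s * z.2 ^ s' ∂(μ.prod ν) := by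
  refine ⟨(integrable_pw hμ hs).mul_prod (integrable_pw hν hs'), ?_⟩
  rw [hm s hs, hm' s' hs']
  exact (integral_prod_mul (fun x : ℝ => x ^ s) (fun x : ℝ => x ^ s')).symm

lemma mu_eq_integral (k : ℕ) : Integrable (fun z : ℝ × ℝ => mu (pw z.1) (pw z.2) k) (μ.prod ν) ∧
    mu m m' k = ∫ z, mu (pw z.1) (pw z.2) k ∂(μ.prod ν) := by
  have hp : Integrable (fun z : ℝ × ℝ => pos (pw z.1) (pw z.2) k) (μ.prod ν) ∧
      pos m m' k = ∫ z, pos (pw z.1) (pw z.2) k ∂(μ.prod ν) := by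
    unfold pos pw
    have h1 : ∀ p ∈ Finset.HasAntidiagonal.antidiagonal k, Integrable (fun z : ℝ × ℝ =>
        (z.1 ^ (p.1 : ℝ) / (p.1.factorial : ℝ)) * (z.2 ^ (p.2 : ℝ) / (p.2.factorial : ℝ)))
        (μ.prod ν) := by
      intro p _
      refine ((prod_mom hμ hν hm hm' (Nat.cast_nonneg p.1) (Nat.cast_nonneg p.2)).1.div_const
        ((p.1.factorial : ℝ) * (p.2.factorial : ℝ))).congr (Eventually.of_forall fun z => ?_)
      simp only
      rw [div_mul_div_comm]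
    refine ⟨(integrable_finsetSum _ h1).const_mul _, ?_⟩
    rw [integral_const_mul, integral_finsetSum _ h1]
    congr 1
    apply Finset.sum_congr rfl
    intro p _
    rw [div_mul_div_comm, (prod_mom hμ hν hm hm' (Nat.cast_nonneg p.1) (Nat.cast_nonneg p.2)).2,
      ← integral_div]
    apply integral_congr_ae
    refine Eventually.of_forall fun z => ?_
    simp only
    rw [div_mul_div_comm]
  have hn : Integrable (fun z : ℝ × ℝ => neg (pw z.1) (pw z.2) k) (μ.prod ν) ∧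
      neg m m' k = ∫ z, neg (pw z.1) (pw z.2) k ∂(μ.prod ν) := by
    rcases k with _ | k
    · simp only [neg]
      exact ⟨integrable_zero _ _ _, by simp⟩
    simp only [neg, pw]
    have h0 : ∀ i : ℕ, (0 : ℝ) ≤ (i : ℝ) + 1 / 2 := fun i => by positivity
    have h1 : ∀ p ∈ Finset.HasAntidiagonal.antidiagonal k, Integrable (fun z : ℝ × ℝ =>
        (z.1 ^ ((p.1 : ℝ) + 1 / 2) / Real.Gamma ((p.1 : ℝ) + 3 / 2)) *
        (z.2 ^ ((p.2 : ℝ) + 1 / 2) / Real.Gamma ((p.2 : ℝ) + 3 / 2)))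
        (μ.prod ν) := by
      intro p _
      refine ((prod_mom hμ hν hm hm' (h0 p.1) (h0 p.2)).1.div_const
        (Real.Gamma ((p.1 : ℝ) + 3 / 2) * Real.Gamma ((p.2 : ℝ) + 3 / 2))).congr
        (Eventually.of_forall fun z => ?_)
      simp only
      rw [div_mul_div_comm]
    refine ⟨(integrable_finsetSum _ h1).const_mul _, ?_⟩
    rw [integral_const_mul, integral_finsetSum _ h1]
    congr 1
    apply Finset.sum_congr rfl
    intro p _
    rw [div_mul_div_comm, (prod_mom hμ hν hm hm' (h0 p.1) (h0 p.2)).2, ← integral_div]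
    apply integral_congr_ae
    refine Eventually.of_forall fun z => ?_
    simp only
    rw [div_mul_div_comm]
  unfold mu
  exact ⟨hp.1.sub hn.1, by rw [integral_sub hp.1 hn.1, hp.2, hn.2]⟩

end prod

/-- **Positivity** -/
theorem F_nonneg {m m' : ℝ → ℝ} (hm : Mom m) (hm' : Mom m') (n : ℕ) (t : ℝ) : 0 ≤ F m m' n t := by
  obtain ⟨R, μ, hfin, hμ, hm⟩ := hm
  obtain ⟨S, ν, hfin', hν, hm'⟩ := hm'
  set Q := max R S with hQ
  have hae : ∀ᵐ z ∂(μ.prod ν), z.1 ∈ Ioc 0 Q ∧ z.2 ∈ Ioc 0 Q := by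
    have h1 : ∀ᵐ z ∂(μ.prod ν), z.1 ∈ Ioc 0 R := Measure.quasiMeasurePreserving_fst.ae hμ
    have h2 : ∀ᵐ z ∂(μ.prod ν), z.2 ∈ Ioc 0 S := Measure.quasiMeasurePreserving_snd.ae hν
    filter_upwards [h1, h2] with z h3 h4
    exact ⟨⟨h3.1, h3.2.trans (le_max_left _ _)⟩, ⟨h4.1, h4.2.trans (le_max_right _ _)⟩⟩
  have hint : ∀ k, Integrable (fun z : ℝ × ℝ => (-t) ^ k / (k.factorial : ℝ) *
      mu (pw z.1) (pw z.2) (k + n)) (μ.prod ν) := fun k =>
    (mu_eq_integral hμ hν hm hm' (k + n)).1.const_mul _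
  have hsum : Summable fun k => ∫ z : ℝ × ℝ, ‖(-t) ^ k / (k.factorial : ℝ) *
      mu (pw z.1) (pw z.2) (k + n)‖ ∂(μ.prod ν) := by
    refine Summable.of_nonneg_of_le (fun k => integral_nonneg fun z => norm_nonneg _) (fun k => ?_)
      ((summable_exp_bound t Q n).mul_right ((μ.prod ν).real univ))
    have h1 : ∫ z : ℝ × ℝ, ‖(-t) ^ k / (k.factorial : ℝ) *
      mu (pw z.1) (pw z.2) (k + n)‖ ∂(μ.prod ν) ≤
        ∫ _z : ℝ × ℝ, (|t| ^ k / (k.factorial : ℝ) * Q ^ (k + n)) ∂(μ.prod ν) := by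
      apply integral_mono_ae (hint k).norm (integrable_const _)
      filter_upwards [hae] with z hz
      obtain ⟨h2, h3⟩ := pw_bounds hz.1.1 hz.2.1 hz.1.2 hz.2.2 (k + n)
      rw [Real.norm_eq_abs, abs_mul, abs_div, abs_pow, abs_neg, Nat.abs_cast, abs_of_nonneg h2]
      exact mul_le_mul_of_nonneg_left h3 (by positivity)
    rw [integral_const, smul_eq_mul, mul_comm] at h1
    exact h1
  have h := hasSum_integral_of_summable_integral_norm hint hsum
  have h2 : F m m' n t = ∫ z : ℝ × ℝ, F (pw z.1) (pw z.2) n t ∂(μ.prod ν) := by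
    have h3 : (fun k : ℕ => (-t) ^ k / (k.factorial : ℝ) * mu m m' (k + n)) = fun k : ℕ =>
        ∫ z : ℝ × ℝ, (-t) ^ k / (k.factorial : ℝ) * mu (pw z.1) (pw z.2) (k + n) ∂(μ.prod ν) := by
      funext k
      rw [integral_const_mul, (mu_eq_integral hμ hν hm hm' (k + n)).2]
    unfold F
    rw [h3]
    exact h.tsum_eq
  rw [h2]
  apply integral_nonneg_of_ae
  filter_upwards [hae] with z hz
  exact pw_tsum_nonneg hz.1.1 hz.2.1 n t

/-! ### Closure properties of `Mom` -/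

lemma mom_nonneg {m : ℝ → ℝ} (hm : Mom m) {s : ℝ} (hs : 0 ≤ s) : 0 ≤ m s := by
  obtain ⟨R, μ, hfin, hμ, hm⟩ := hm
  rw [hm s hs]
  apply integral_nonneg_of_ae
  filter_upwards [hμ] with x hx
  exact Real.rpow_nonneg hx.1.le s

lemma mom_congr {m m' : ℝ → ℝ} (hm : Mom m) (h : ∀ s, 0 ≤ s → m' s = m s) : Mom m' := by
  obtain ⟨R, μ, hfin, hμ, hm⟩ := hm
  exact ⟨R, μ, hfin, hμ, fun s hs => (h s hs).trans (hm s hs)⟩

lemma mom_pow {c : ℝ} (hc : 0 < c) : Mom fun s => c ^ s := by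
  refine ⟨c, Measure.dirac c, inferInstance, ?_, fun s _ => ?_⟩
  · exact (ae_dirac_iff (p := fun x => x ∈ Ioc 0 c) measurableSet_Ioc).2 ⟨hc, le_refl _⟩
  · rw [integral_dirac]

lemma mom_add {m m' : ℝ → ℝ} (hm : Mom m) (hm' : Mom m') : Mom fun s => m s + m' s := by
  obtain ⟨R, μ, hfin, hμ, hm⟩ := hm
  obtain ⟨S, ν, hfin', hν, hm'⟩ := hm'
  refine ⟨max R S, μ + ν, inferInstance, ?_, fun s hs => ?_⟩
  · rw [ae_add_measure_iff]
    constructor
    · filter_upwards [hμ] with x hx using ⟨hx.1, hx.2.trans (le_max_left _ _)⟩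
    · filter_upwards [hν] with x hx using ⟨hx.1, hx.2.trans (le_max_right _ _)⟩
  · simp only
    rw [integral_add_measure (integrable_pw hμ hs) (integrable_pw hν hs), hm s hs, hm' s hs]

lemma mom_smul {m : ℝ → ℝ} (hm : Mom m) {c : ℝ} (hc : 0 ≤ c) : Mom fun s => c * m s := by
  obtain ⟨R, μ, hfin, hμ, hm⟩ := hm
  refine ⟨R, (ENNReal.ofReal c) • μ, Measure.smul_finite μ ENNReal.ofReal_ne_top, ?_, fun s hs => ?_⟩
  · exact Measure.ae_smul_measure hμ _
  · simp only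
    rw [integral_smul_measure, ENNReal.toReal_ofReal hc, hm s hs, smul_eq_mul]

lemma mom_frac {j : ℝ} (hj : 0 < j) : Mom fun s => j / (j + s) := by
  set ν := volume.restrict (Ioc (0 : ℝ) 1) with hν
  have hmeas : Measurable fun u : ℝ => u ^ (1 / j) := by fun_prop
  refine ⟨1, ν.map (fun u => u ^ (1 / j)), ?_, ?_, fun s hs => ?_⟩
  · infer_instance
  · refine (ae_map_iff (p := fun x => x ∈ Ioc 0 1) hmeas.aemeasurable measurableSet_Ioc).2 ?_
    rw [hν]
    filter_upwards [ae_restrict_mem measurableSet_Ioc] with u hu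
    exact ⟨Real.rpow_pos_of_pos hu.1 _, Real.rpow_le_one hu.1.le hu.2 (by positivity)⟩
  · rw [integral_map hmeas.aemeasurable (Measurable.aestronglyMeasurable (by fun_prop)), hν]
    have h1 : ∫ u in Ioc (0 : ℝ) 1, (u ^ (1 / j)) ^ s = ∫ u in Ioc (0 : ℝ) 1, u ^ (s / j) := by
      apply setIntegral_congr_fun measurableSet_Ioc
      intro u hu
      simp only
      rw [← Real.rpow_mul hu.1.le]
      congr 1; ring
    rw [h1, ← intervalIntegral.integral_of_le zero_le_one, integral_rpow (Or.inl (by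
      have : 0 ≤ s / j := by positivity
      linarith))]
    have h2 : s / j + 1 ≠ 0 := by positivity
    rw [Real.one_rpow, Real.zero_rpow h2]
    field_simp
    ring

lemma mom_mul {m m' : ℝ → ℝ} (hm : Mom m) (hm' : Mom m') : Mom fun s => m s * m' s := by
  obtain ⟨R, μ, hfin, hμ, hm⟩ := hm
  obtain ⟨S, ν, hfin', hν, hm'⟩ := hm'
  have hmeas : Measurable fun z : ℝ × ℝ => z.1 * z.2 := by fun_prop
  have hae : ∀ᵐ z ∂(μ.prod ν), z.1 ∈ Ioc 0 R ∧ z.2 ∈ Ioc 0 S := by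
    have h1 : ∀ᵐ z ∂(μ.prod ν), z.1 ∈ Ioc 0 R := Measure.quasiMeasurePreserving_fst.ae hμ
    have h2 : ∀ᵐ z ∂(μ.prod ν), z.2 ∈ Ioc 0 S := Measure.quasiMeasurePreserving_snd.ae hν
    filter_upwards [h1, h2] with z h3 h4 using ⟨h3, h4⟩
  refine ⟨R * S, (μ.prod ν).map (fun z => z.1 * z.2), inferInstance, ?_, fun s hs => ?_⟩
  · refine (ae_map_iff (p := fun x => x ∈ Ioc 0 (R * S)) hmeas.aemeasurable measurableSet_Ioc).2 ?_
    filter_upwards [hae] with z hz
    exact ⟨mul_pos hz.1.1 hz.2.1, mul_le_mul hz.1.2 hz.2.2 hz.2.1.le (hz.1.1.le.trans hz.1.2)⟩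
  · simp only
    rw [integral_map hmeas.aemeasurable (Measurable.aestronglyMeasurable (by fun_prop)),
      (prod_mom hμ hν hm hm' hs hs).2]
    apply integral_congr_ae
    filter_upwards [hae] with z hz
    rw [Real.mul_rpow hz.1.1.le hz.2.1.le]

end Q80.ML
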