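import Mathlib
import Pool.Agent.Q80.MLb

/-!
# The Mittag-Leffler moments `Γ(1+s)/Γ(1+as)` as limits of moment functions of measures
-/

open Filter Topology Set MeasureTheory

namespace Q80.ML

/-- the approximating moment functions -/
noncomputable def mN (a : ℝ) (N : ℕ) (s : ℝ) : ℝ :=
  (((N : ℝ) + 1) ^ (1 - a)) ^ s * ∏ j ∈ Finset.range N, (((j : ℝ) + 1 + a * s) / ((j : ℝ) + 1 + s))

lemma mom_prod {ι : Type*} (s : Finset ι) (f : ι → ℝ → ℝ) (h : ∀ i ∈ s, Mom (f i)) :
    Mom fun t => ∏ i ∈ s, f i t := by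
  classical
  induction s using Finset.induction_on with
  | empty =>
    simp only [Finset.prod_empty]
    exact mom_congr (mom_pow one_pos) fun s _ => (Real.one_rpow s).symm
  | insert i s hi ih =>
    simp only [Finset.prod_insert hi]
    exact mom_mul (h i (Finset.mem_insert_self _ _)) (ih fun j hj => h j (Finset.mem_insert_of_mem hj))

lemma mom_mN {a : ℝ} (ha0 : 0 ≤ a) (ha1 : a ≤ 1) (N : ℕ) : Mom (mN a N) := by
  unfold mN
  apply mom_mul
  · exact mom_pow (Real.rpow_pos_of_pos (by positivity) _)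
  · apply mom_prod
    intro j _
    have hj : (0 : ℝ) < (j : ℝ) + 1 := by positivity
    have h1 := mom_smul (mom_frac hj) (sub_nonneg.2 ha1)
    have h2 := mom_smul (mom_pow one_pos) ha0
    refine mom_congr (mom_add h2 h1) fun s hs => ?_
    rw [Real.one_rpow]
    have : (j : ℝ) + 1 + s ≠ 0 := by positivity
    field_simp
    ring

/-- the limit moment function -/
noncomputable def mI (a s : ℝ) : ℝ := Real.Gamma (1 + s) / Real.Gamma (1 + a * s)

lemma mN_zero (a : ℝ) (N : ℕ) : mN a N 0 = 1 := by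
  unfold mN
  rw [Real.rpow_zero, one_mul]
  apply Finset.prod_eq_one
  intro j _
  have : (j : ℝ) + 1 ≠ 0 := by positivity
  simp [this]

lemma prod_gammaSeq {s : ℝ} (hs : 0 < s) {N : ℕ} (hN : 0 < N) :
    ∏ j ∈ Finset.range N, ((j : ℝ) + 1 + s) =
      (N : ℝ) ^ s * (N.factorial : ℝ) / (s * Real.GammaSeq s N) := by
  have hN' : (0 : ℝ) < N := by exact_mod_cast hN
  unfold Real.GammaSeq
  have h1 : ∏ j ∈ Finset.range (N + 1), (s + (j : ℝ)) = (∏ j ∈ Finset.range N, ((j : ℝ) + 1 + s)) * s := by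
    rw [Finset.prod_range_succ']
    congr 1
    · apply Finset.prod_congr rfl
      intro j _
      push_cast; ring
    · simp
  rw [h1]
  have h2 : ∏ j ∈ Finset.range N, ((j : ℝ) + 1 + s) ≠ 0 :=
    Finset.prod_ne_zero_iff.2 fun j _ => by positivity
  have h3 : (N : ℝ) ^ s ≠ 0 := (Real.rpow_pos_of_pos hN' s).ne'
  have h4 : (N.factorial : ℝ) ≠ 0 := by positivity
  field_simp

lemma mN_tendsto {a : ℝ} (ha0 : 0 < a) (ha1 : a ≤ 1) {s : ℝ} (hs : 0 ≤ s) :
    Tendsto (fun N => mN a N s) atTop (𝓝 (mI a s)) := by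
  rcases hs.eq_or_lt with rfl | hs
  · simp only [mN_zero]
    have : mI a 0 = 1 := by unfold mI; simp
    rw [this]
    exact tendsto_const_nhds
  have has : 0 < a * s := mul_pos ha0 hs
  have h1 : Tendsto (fun N : ℕ => ((1 + 1 / (N : ℝ)) ^ (1 - a)) ^ s *
      (Real.GammaSeq s N / (a * Real.GammaSeq (a * s) N))) atTop
      (𝓝 (((1 + 0) ^ (1 - a)) ^ s * (Real.Gamma s / (a * Real.Gamma (a * s))))) := by
    apply Tendsto.mul
    · have h2 : Tendsto (fun N : ℕ => 1 + 1 / (N : ℝ)) atTop (𝓝 (1 + 0)) :=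
        tendsto_const_nhds.add tendsto_one_div_atTop_nhds_zero_nat
      exact (h2.rpow_const (Or.inl (by norm_num))).rpow_const (Or.inr hs.le)
    · apply (Real.GammaSeq_tendsto_Gamma s).div ((Real.GammaSeq_tendsto_Gamma (a * s)).const_mul a)
      exact mul_ne_zero ha0.ne' (Real.Gamma_pos_of_pos has).ne'
  have h3 : (((1 : ℝ) + 0) ^ (1 - a)) ^ s * (Real.Gamma s / (a * Real.Gamma (a * s))) = mI a s := by
    unfold mI
    rw [add_zero, Real.one_rpow, Real.one_rpow, one_mul, add_comm 1 s, add_comm 1 (a * s),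
      Real.Gamma_add_one hs.ne', Real.Gamma_add_one has.ne']
    have := (Real.Gamma_pos_of_pos has).ne'
    field_simp
  rw [h3] at h1
  refine h1.congr' ?_
  filter_upwards [eventually_gt_atTop 0] with N hN
  have hN' : (0 : ℝ) < N := by exact_mod_cast hN
  unfold mN
  have hG : ∀ {s : ℝ}, 0 < s → 0 < Real.GammaSeq s N := by
    intro s hs
    unfold Real.GammaSeq
    have h5 : 0 < ∏ j ∈ Finset.range (N + 1), (s + (j : ℝ)) := Finset.prod_pos fun j _ => by positivity
    have h6 := Real.rpow_pos_of_pos hN' s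
    positivity
  rw [Finset.prod_div_distrib]
  have h7 : ∏ j ∈ Finset.range N, ((j : ℝ) + 1 + a * s) = _ := prod_gammaSeq has hN
  rw [h7, prod_gammaSeq hs hN]
  have h8 : (1 : ℝ) + 1 / (N : ℝ) = ((N : ℝ) + 1) / N := by field_simp
  rw [h8, Real.div_rpow (by positivity) hN'.le, Real.div_rpow (by positivity) (by positivity),
    ← Real.rpow_mul hN'.le (1 - a) s]
  have h9 : (N : ℝ) ^ (a * s) = (N : ℝ) ^ s / (N : ℝ) ^ ((1 - a) * s) := by
    rw [← Real.rpow_sub hN']
    congr 1; ring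
  rw [h9]
  have g1 := (hG hs).ne'
  have g2 := (hG has).ne'
  have g3 : (N : ℝ) ^ s ≠ 0 := (Real.rpow_pos_of_pos hN' s).ne'
  have g4 : (N : ℝ) ^ ((1 - a) * s) ≠ 0 := (Real.rpow_pos_of_pos hN' _).ne'
  have g5 : (N.factorial : ℝ) ≠ 0 := by positivity
  field_simp

lemma mN_step {a : ℝ} (ha0 : 0 < a) (ha1 : a ≤ 1) {s : ℝ} (hs : 1 ≤ s) (N : ℕ) :
    mN a N s ≤ mN a (N + 1) s := by
  unfold mN
  rw [Finset.prod_range_succ]
  set P := ∏ j ∈ Finset.range N, (((j : ℝ) + 1 + a * s) / ((j : ℝ) + 1 + s)) with hP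
  have hP0 : 0 ≤ P := Finset.prod_nonneg fun j _ => by positivity
  set n : ℝ := (N : ℝ) + 1 with hn
  have hn0 : 0 < n := by positivity
  have hn1 : 1 ≤ n := by rw [hn]; linarith [(Nat.cast_nonneg N : (0 : ℝ) ≤ N)]
  have e1 : (((N + 1 : ℕ) : ℝ) + 1) = n + 1 := by push_cast; rw [hn]
  rw [e1]
  -- ((n+1)/n)^(1-a) ≥ (n+1)/(n+a)
  have h1 : (n / (n + 1)) ^ (1 - a) ≤ (n + a) / (n + 1) := by
    have h2 := rpow_one_add_le_one_add_mul_self (s := -(1 / (n + 1))) (by
      have : 1 / (n + 1) ≤ 1 := by rw [div_le_one (by positivity)]; linarith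
      linarith) (sub_nonneg.2 ha1) (by linarith)
    have h3 : 1 + -(1 / (n + 1)) = n / (n + 1) := by field_simp; ring
    have h4 : 1 + (1 - a) * -(1 / (n + 1)) = (n + a) / (n + 1) := by field_simp; ring
    rwa [h3, h4] at h2
  have h5 : (n + 1) / (n + a) * n ^ (1 - a) ≤ (n + 1) ^ (1 - a) := by
    rw [Real.div_rpow hn0.le (by positivity)] at h1
    have g1 : 0 < n ^ (1 - a) := Real.rpow_pos_of_pos hn0 _
    have g2 : 0 < (n + 1) ^ (1 - a) := Real.rpow_pos_of_pos (by positivity) _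
    rw [div_le_div_iff₀ g2 (by positivity)] at h1
    rw [div_mul_eq_mul_div, div_le_iff₀ (by positivity)]
    linarith
  have h6 : ((n + s) / (n + a * s)) * (n ^ (1 - a)) ^ s ≤ ((n + 1) ^ (1 - a)) ^ s := by
    have h7 : (n + s) / (n + a * s) ≤ ((n + 1) / (n + a)) ^ s := by
      have h8 := one_add_mul_self_le_rpow_one_add (s := (1 - a) / (n + a)) (by
        have : 0 ≤ (1 - a) / (n + a) := div_nonneg (sub_nonneg.2 ha1) (by positivity)
        linarith) hs
      have h9 : 1 + (1 - a) / (n + a) = (n + 1) / (n + a) := by field_simp; ring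
      rw [h9] at h8
      refine le_trans ?_ h8
      have h10 : (n + s) / (n + a * s) = 1 + s * ((1 - a) / (n + a * s)) := by
        field_simp; ring
      rw [h10]
      have h11 : (1 - a) / (n + a * s) ≤ (1 - a) / (n + a) := by
        apply div_le_div_of_nonneg_left (sub_nonneg.2 ha1) (by positivity)
        nlinarith
      nlinarith
    have h12 : 0 ≤ (n ^ (1 - a)) ^ s := by positivity
    calc ((n + s) / (n + a * s)) * (n ^ (1 - a)) ^ s ≤ ((n + 1) / (n + a)) ^ s * (n ^ (1 - a)) ^ s :=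
          mul_le_mul_of_nonneg_right h7 h12
      _ = ((n + 1) / (n + a) * n ^ (1 - a)) ^ s := (Real.mul_rpow (by positivity) (by positivity)).symm
      _ ≤ ((n + 1) ^ (1 - a)) ^ s := Real.rpow_le_rpow (by positivity) h5 (by linarith)
  have h13 : 0 < (n + a * s) / (n + s) := by positivity
  have h14 : (n ^ (1 - a)) ^ s ≤ ((n + 1) ^ (1 - a)) ^ s * ((n + a * s) / (n + s)) := by
    have h15 := mul_le_mul_of_nonneg_right h6 h13.le
    have h16 : (n + s) / (n + a * s) * (n ^ (1 - a)) ^ s * ((n + a * s) / (n + s)) =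
        (n ^ (1 - a)) ^ s := by
      have g1 : n + s ≠ 0 := by positivity
      have g2 : n + a * s ≠ 0 := by positivity
      field_simp
    rwa [h16] at h15
  calc (n ^ (1 - a)) ^ s * P ≤ ((n + 1) ^ (1 - a)) ^ s * ((n + a * s) / (n + s)) * P :=
        mul_le_mul_of_nonneg_right h14 hP0
    _ = _ := by ring

lemma mN_le {a : ℝ} (ha0 : 0 < a) (ha1 : a ≤ 1) (i : ℕ) (N : ℕ) : mN a N i ≤ mI a i := by
  rcases Nat.eq_zero_or_pos i with rfl | hi
  · rw [Nat.cast_zero, mN_zero]
    unfold mI; simp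
  · have hi' : (1 : ℝ) ≤ i := by exact_mod_cast hi
    exact (monotone_nat_of_le_succ fun N => mN_step ha0 ha1 hi' N).ge_of_tendsto
      (mN_tendsto ha0 ha1 (by linarith)) N

/-! ### Growth of the Gamma function -/

lemma Gamma_lower (C : ℝ) (hC : 0 < C) {x : ℝ} (hx : 0 ≤ x) :
    Real.exp (-C) * C ^ x ≤ Real.Gamma (1 + x) := by
  rw [Real.Gamma_eq_integral (by linarith)]
  have h0 : IntegrableOn (fun t : ℝ => Real.exp (-t) * t ^ (1 + x - 1)) (Ioi 0) :=
    Real.GammaIntegral_convergent (by linarith)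
  have h1 : ∫ t in Ioi C, Real.exp (-t) * C ^ x ≤ ∫ t in Ioi C, Real.exp (-t) * t ^ (1 + x - 1) := by
    apply setIntegral_mono_on
    · exact (integrableOn_exp_neg_Ioi C).mul_const _
    · exact h0.mono_set (Ioi_subset_Ioi hC.le)
    · exact measurableSet_Ioi
    · intro t ht
      have : C ≤ t := le_of_lt ht
      rw [add_sub_cancel_left]
      exact mul_le_mul_of_nonneg_left (Real.rpow_le_rpow hC.le this hx) (Real.exp_pos _).le
  have h2 : ∫ t in Ioi C, Real.exp (-t) * t ^ (1 + x - 1) ≤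
      ∫ t in Ioi 0, Real.exp (-t) * t ^ (1 + x - 1) := by
    apply setIntegral_mono_set h0
    · filter_upwards [ae_restrict_mem measurableSet_Ioi] with t ht
      have ht' : (0 : ℝ) < t := ht
      simp only [Pi.zero_apply]
      positivity
    · exact (Ioi_subset_Ioi hC.le).eventuallyLE
  rw [integral_mul_const, integral_exp_neg_Ioi] at h1
  exact h1.trans h2

/-- `∑ R^i / Γ(1 + b + a i) < ∞` -/
lemma summable_gamma {a : ℝ} (ha : 0 < a) {b : ℝ} (hb : 0 ≤ b) (R : ℝ) (hR : 0 ≤ R) :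
    Summable fun i : ℕ => 1 / Real.Gamma (1 + (b + a * i)) * R ^ i := by
  set C : ℝ := (2 * (R + 1)) ^ (1 / a) with hC
  have hR1 : 0 < 2 * (R + 1) := by positivity
  have hC0 : 0 < C := Real.rpow_pos_of_pos hR1 _
  have hCa : C ^ a = 2 * (R + 1) := by
    rw [hC, ← Real.rpow_mul hR1.le, one_div, inv_mul_cancel₀ ha.ne', Real.rpow_one]
  have hgeo : Summable fun i : ℕ => Real.exp C / C ^ b * (1 / 2 : ℝ) ^ i :=
    (summable_geometric_of_lt_one (by norm_num) (by norm_num)).mul_left _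
  refine Summable.of_nonneg_of_le (fun i => ?_) (fun i => ?_) hgeo
  · have : 0 < Real.Gamma (1 + (b + a * i)) := Real.Gamma_pos_of_pos (by positivity)
    positivity
  · have h1 := Gamma_lower C hC0 (x := b + a * i) (by positivity)
    have h2 : C ^ (b + a * (i : ℝ)) = C ^ b * (2 * (R + 1)) ^ i := by
      rw [Real.rpow_add hC0, Real.rpow_mul hC0.le, hCa, Real.rpow_natCast]
    rw [h2] at h1
    have h3 : 0 < Real.exp (-C) * (C ^ b * (2 * (R + 1)) ^ i) := by positivity
    have h4 : 1 / Real.Gamma (1 + (b + a * i)) ≤ 1 / (Real.exp (-C) * (C ^ b * (2 * (R + 1)) ^ i)) :=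
      one_div_le_one_div_of_le h3 h1
    calc 1 / Real.Gamma (1 + (b + a * i)) * R ^ i ≤
          1 / (Real.exp (-C) * (C ^ b * (2 * (R + 1)) ^ i)) * (R + 1) ^ i := by
          apply mul_le_mul h4 (pow_le_pow_left₀ hR (by linarith) i) (by positivity) (by positivity)
      _ = Real.exp C / C ^ b * (1 / 2 : ℝ) ^ i := by
          rw [Real.exp_neg, mul_pow, one_div_pow]
          have g1 : (R + 1) ^ i ≠ 0 := by positivity
          have g2 : C ^ b ≠ 0 := (Real.rpow_pos_of_pos hC0 b).ne'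
          have g3 := (Real.exp_pos C).ne'
          field_simp

end Q80.ML
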