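import Mathlib
import Pool.Agent.Q80.MLc

/-!
# Complete monotonicity and log-convexity of `E_{2α,1}(-t)² + t E_{2α,1+α}(-t)²`
-/

open Filter Topology Set MeasureTheory
open scoped ContDiff

namespace Q80.ML

/-! ### the quadratic form -/

lemma pw_summable {x y : ℝ} (hx : 0 < x) (hy : 0 < y) (n : ℕ) (t : ℝ) :
    Summable fun k : ℕ => (-t) ^ k / (k.factorial : ℝ) * mu (pw x) (pw y) (k + n) := by
  refine Summable.of_norm_bounded (summable_exp_bound t (max x y) n) fun k => ?_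
  obtain ⟨h2, h3⟩ := pw_bounds hx hy (le_max_left x y) (le_max_right x y) (k + n)
  rw [Real.norm_eq_abs, abs_mul, abs_div, abs_pow, abs_neg, Nat.abs_cast, abs_of_nonneg h2]
  exact mul_le_mul_of_nonneg_left h3 (by positivity)

lemma pw_quad {x y : ℝ} (hx : 0 < x) (hy : 0 < y) (t l : ℝ) :
    0 ≤ F (pw x) (pw y) 2 t + 2 * l * F (pw x) (pw y) 1 t + l ^ 2 * F (pw x) (pw y) 0 t := by
  have key : ∀ {x y : ℝ}, 0 < x → 0 < y → 0 ≤
      (∫ s in (0 : ℝ)..√y, (y - s ^ 2) ^ 2 * Real.exp (-t * (y - s ^ 2)) * wt x s) +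
      2 * l * (∫ s in (0 : ℝ)..√y, (y - s ^ 2) ^ 1 * Real.exp (-t * (y - s ^ 2)) * wt x s) +
      l ^ 2 * ∫ s in (0 : ℝ)..√y, (y - s ^ 2) ^ 0 * Real.exp (-t * (y - s ^ 2)) * wt x s := by
    intro x y hx hy
    have hc := wt_continuous hx
    rw [← intervalIntegral.integral_const_mul, ← intervalIntegral.integral_const_mul,
      ← intervalIntegral.integral_add (by apply Continuous.intervalIntegrable; fun_prop)
        (by apply Continuous.intervalIntegrable; fun_prop),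
      ← intervalIntegral.integral_add (by apply Continuous.intervalIntegrable; fun_prop)
        (by apply Continuous.intervalIntegrable; fun_prop)]
    apply intervalIntegral.integral_nonneg (Real.sqrt_nonneg y)
    intro s hs
    have h1 := wt_nonneg hx s
    have h2 := (Real.exp_pos (-t * (y - s ^ 2))).le
    have h3 : (y - s ^ 2) ^ 2 * Real.exp (-t * (y - s ^ 2)) * wt x s +
        2 * l * ((y - s ^ 2) ^ 1 * Real.exp (-t * (y - s ^ 2)) * wt x s) +
        l ^ 2 * ((y - s ^ 2) ^ 0 * Real.exp (-t * (y - s ^ 2)) * wt x s) =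
        ((y - s ^ 2) + l) ^ 2 * Real.exp (-t * (y - s ^ 2)) * wt x s := by ring
    rw [h3]
    positivity
  have hF : ∀ n, F (pw x) (pw y) n t =
      (∫ s in (0 : ℝ)..√y, (y - s ^ 2) ^ n * Real.exp (-t * (y - s ^ 2)) * wt x s) +
      ∫ s in (0 : ℝ)..√x, (x - s ^ 2) ^ n * Real.exp (-t * (x - s ^ 2)) * wt y s := by
    intro n
    have h1 := (half_hasSum hx hy n t).add (half_hasSum hy hx n t)
    have h2 : (fun k : ℕ => (-t) ^ k / (k.factorial : ℝ) * mu (pw x) (pw y) (k + n)) =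
        fun k : ℕ => (-t) ^ k / (k.factorial : ℝ) *
        (∫ s in (0 : ℝ)..√y, (y - s ^ 2) ^ (k + n) * wt x s) + (-t) ^ k / (k.factorial : ℝ) *
        ∫ s in (0 : ℝ)..√x, (x - s ^ 2) ^ (k + n) * wt y s := by
      funext k
      rw [mu_pw hx hy, mm]; ring
    unfold F
    rw [h2, h1.tsum_eq]
  rw [hF, hF, hF]
  have h1 := key hx hy
  have h2 := key hy hx
  linarith

/-- mixtures -/
theorem F_quad {m m' : ℝ → ℝ} (hm : Mom m) (hm' : Mom m') (t l : ℝ)
    (hs : ∀ n, Summable fun k : ℕ => (-t) ^ k / (k.factorial : ℝ) * mu m m' (k + n)) :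
    0 ≤ F m m' 2 t + 2 * l * F m m' 1 t + l ^ 2 * F m m' 0 t := by
  obtain ⟨R, μ, hfin, hμ, hm⟩ := hm
  obtain ⟨S, ν, hfin', hν, hm'⟩ := hm'
  set Q := max R S with hQ
  have hae : ∀ᵐ z ∂(μ.prod ν), z.1 ∈ Ioc 0 Q ∧ z.2 ∈ Ioc 0 Q := by
    have h1 : ∀ᵐ z ∂(μ.prod ν), z.1 ∈ Ioc 0 R := Measure.quasiMeasurePreserving_fst.ae hμ
    have h2 : ∀ᵐ z ∂(μ.prod ν), z.2 ∈ Ioc 0 S := Measure.quasiMeasurePreserving_snd.ae hν
    filter_upwards [h1, h2] with z h3 h4
    exact ⟨⟨h3.1, h3.2.trans (le_max_left _ _)⟩, ⟨h4.1, h4.2.trans (le_max_right _ _)⟩⟩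
  set b : ℕ → ℝ × ℝ → ℝ := fun k z => (-t) ^ k / (k.factorial : ℝ) *
      (mu (pw z.1) (pw z.2) (k + 2) + 2 * l * mu (pw z.1) (pw z.2) (k + 1) +
        l ^ 2 * mu (pw z.1) (pw z.2) (k + 0)) with hb
  have hmi := fun k => mu_eq_integral hμ hν hm hm' k
  have hint : ∀ k, Integrable (b k) (μ.prod ν) := fun k =>
    (((hmi (k + 2)).1.add ((hmi (k + 1)).1.const_mul (2 * l))).add
      ((hmi (k + 0)).1.const_mul (l ^ 2))).const_mul _
  have hsumB : Summable fun k : ℕ => |t| ^ k / (k.factorial : ℝ) * Q ^ (k + 2) +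
      2 * |l| * (|t| ^ k / (k.factorial : ℝ) * Q ^ (k + 1)) +
      l ^ 2 * (|t| ^ k / (k.factorial : ℝ) * Q ^ (k + 0)) :=
    ((summable_exp_bound t Q 2).add ((summable_exp_bound t Q 1).mul_left _)).add
      ((summable_exp_bound t Q 0).mul_left _)
  have hsum : Summable fun k => ∫ z : ℝ × ℝ, ‖b k z‖ ∂(μ.prod ν) := by
    refine Summable.of_nonneg_of_le (fun k => integral_nonneg fun z => norm_nonneg _) (fun k => ?_)
      (hsumB.mul_right ((μ.prod ν).real univ))
    have h1 : ∫ z : ℝ × ℝ, ‖b k z‖ ∂(μ.prod ν) ≤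
        ∫ _z : ℝ × ℝ, (|t| ^ k / (k.factorial : ℝ) * Q ^ (k + 2) +
      2 * |l| * (|t| ^ k / (k.factorial : ℝ) * Q ^ (k + 1)) +
      l ^ 2 * (|t| ^ k / (k.factorial : ℝ) * Q ^ (k + 0))) ∂(μ.prod ν) := by
      apply integral_mono_ae (hint k).norm (integrable_const _)
      filter_upwards [hae] with z hz
      obtain ⟨h2, h3⟩ := pw_bounds hz.1.1 hz.2.1 hz.1.2 hz.2.2 (k + 2)
      obtain ⟨h4, h5⟩ := pw_bounds hz.1.1 hz.2.1 hz.1.2 hz.2.2 (k + 1)
      obtain ⟨h6, h7⟩ := pw_bounds hz.1.1 hz.2.1 hz.1.2 hz.2.2 (k + 0)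
      simp only [hb]
      rw [Real.norm_eq_abs, abs_mul, abs_div, abs_pow, abs_neg, Nat.abs_cast]
      have h8 : |mu (pw z.1) (pw z.2) (k + 2) + 2 * l * mu (pw z.1) (pw z.2) (k + 1) +
          l ^ 2 * mu (pw z.1) (pw z.2) (k + 0)| ≤ Q ^ (k + 2) + 2 * |l| * Q ^ (k + 1) +
          l ^ 2 * Q ^ (k + 0) := by
        refine (abs_add_le _ _).trans (add_le_add ((abs_add_le _ _).trans (add_le_add ?_ ?_)) ?_)
        · rw [abs_of_nonneg h2]; exact h3
        · rw [abs_mul, abs_mul, abs_of_nonneg h4, abs_two]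
          exact mul_le_mul_of_nonneg_left h5 (by positivity)
        · rw [abs_mul, abs_of_nonneg h6, abs_of_nonneg (sq_nonneg l)]
          exact mul_le_mul_of_nonneg_left h7 (by positivity)
      calc _ ≤ |t| ^ k / (k.factorial : ℝ) * (Q ^ (k + 2) + 2 * |l| * Q ^ (k + 1) +
          l ^ 2 * Q ^ (k + 0)) := mul_le_mul_of_nonneg_left h8 (by positivity)
        _ = _ := by ring
    rw [integral_const, smul_eq_mul, mul_comm] at h1
    exact h1
  have h := hasSum_integral_of_summable_integral_norm hint hsum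
  have h2 : F m m' 2 t + 2 * l * F m m' 1 t + l ^ 2 * F m m' 0 t =
      ∑' k, ∫ z : ℝ × ℝ, b k z ∂(μ.prod ν) := by
    have h3 := ((hs 2).hasSum.add ((hs 1).hasSum.mul_left (2 * l))).add
      ((hs 0).hasSum.mul_left (l ^ 2))
    have h4 : (fun k : ℕ => ∫ z : ℝ × ℝ, b k z ∂(μ.prod ν)) = fun k : ℕ =>
        (-t) ^ k / (k.factorial : ℝ) * mu m m' (k + 2) +
        2 * l * ((-t) ^ k / (k.factorial : ℝ) * mu m m' (k + 1)) +
        l ^ 2 * ((-t) ^ k / (k.factorial : ℝ) * mu m m' (k + 0)) := by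
      funext k
      simp only [hb]
      have g2 := hmi (k + 2)
      have g1 := hmi (k + 1)
      have g0 := hmi (k + 0)
      have i1 : Integrable (fun z : ℝ × ℝ => 2 * l * mu (pw z.1) (pw z.2) (k + 1)) (μ.prod ν) :=
        g1.1.const_mul (2 * l)
      have i0 : Integrable (fun z : ℝ × ℝ => l ^ 2 * mu (pw z.1) (pw z.2) (k + 0)) (μ.prod ν) :=
        g0.1.const_mul (l ^ 2)
      have i3 : Integrable (fun z : ℝ × ℝ => mu (pw z.1) (pw z.2) (k + 2) +
          2 * l * mu (pw z.1) (pw z.2) (k + 1)) (μ.prod ν) := g2.1.add i1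
      rw [integral_const_mul, integral_add i3 i0, integral_add g2.1 i1, integral_const_mul,
        integral_const_mul, ← g2.2, ← g1.2, ← g0.2]
      ring
    rw [h4]
    exact h3.tsum_eq.symm
  rw [h2, h.tsum_eq]
  apply integral_nonneg_of_ae
  filter_upwards [hae] with z hz
  have h3 := (((pw_summable hz.1.1 hz.2.1 2 t).hasSum.add
    ((pw_summable hz.1.1 hz.2.1 1 t).hasSum.mul_left (2 * l))).add
    ((pw_summable hz.1.1 hz.2.1 0 t).hasSum.mul_left (l ^ 2)))
  have h4 : (fun k => b k z) = fun k : ℕ =>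
        (-t) ^ k / (k.factorial : ℝ) * mu (pw z.1) (pw z.2) (k + 2) +
        2 * l * ((-t) ^ k / (k.factorial : ℝ) * mu (pw z.1) (pw z.2) (k + 1)) +
        l ^ 2 * ((-t) ^ k / (k.factorial : ℝ) * mu (pw z.1) (pw z.2) (k + 0)) := by
    funext k
    simp only [hb]
    ring
  simp only [Pi.zero_apply]
  rw [h4, h3.tsum_eq]
  exact pw_quad hz.1.1 hz.2.1 t l

/-! ### Alternating exponential series -/

/-- `∑ (-t)^k/k! b_k` -/
noncomputable def S (b : ℕ → ℝ) (t : ℝ) : ℝ := ∑' k : ℕ, (-t) ^ k / (k.factorial : ℝ) * b k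

/-- growth condition -/
def Gr (b : ℕ → ℝ) : Prop := ∀ R : ℝ, 0 ≤ R → Summable fun k : ℕ => |b k| / (k.factorial : ℝ) * R ^ k

lemma shift_le (b : ℕ → ℝ) {R : ℝ} (hR : 0 ≤ R) (k : ℕ) :
    |b (k + 1)| / (k.factorial : ℝ) * R ^ k ≤
      |b (k + 1)| / ((k + 1).factorial : ℝ) * (2 * (R + 1)) ^ (k + 1) := by
  have h1 : ((k : ℝ) + 1) ≤ 2 ^ (k + 1) := by
    have := (Nat.lt_two_pow_self (n := k + 1)).le
    exact_mod_cast this
  have h2 : R ^ k ≤ (R + 1) ^ (k + 1) := by
    calc R ^ k ≤ (R + 1) ^ k := pow_le_pow_left₀ hR (by linarith) k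
      _ ≤ (R + 1) ^ (k + 1) := pow_le_pow_right₀ (by linarith) (by omega)
  have h3 : |b (k + 1)| / (k.factorial : ℝ) * R ^ k =
      |b (k + 1)| / ((k + 1).factorial : ℝ) * (((k : ℝ) + 1) * R ^ k) := by
    rw [Nat.factorial_succ]; push_cast; field_simp
  rw [h3, mul_pow]
  gcongr

lemma Gr.shift {b : ℕ → ℝ} (hb : Gr b) : Gr fun k => b (k + 1) := by
  intro R hR
  have h1 := (summable_nat_add_iff 1).2 (hb (2 * (R + 1)) (by positivity))
  exact Summable.of_nonneg_of_le (fun k => by positivity) (fun k => shift_le b hR k) h1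

lemma Gr.shift_n {b : ℕ → ℝ} (hb : Gr b) (n : ℕ) : Gr fun k => b (k + n) := by
  induction n generalizing b with
  | zero => exact hb
  | succ n ih =>
    have h1 := ih hb.shift
    have : (fun k => b (k + (n + 1))) = fun k => b (k + n + 1) := by funext k; rw [add_assoc]
    rw [this]; exact h1

lemma Gr.summable {b : ℕ → ℝ} (hb : Gr b) (t : ℝ) :
    Summable fun k : ℕ => (-t) ^ k / (k.factorial : ℝ) * b k := by
  refine Summable.of_norm_bounded (hb |t| (abs_nonneg t)) fun k => ?_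
  rw [Real.norm_eq_abs, abs_mul, abs_div, abs_pow, abs_neg, Nat.abs_cast]
  exact le_of_eq (by ring)

lemma S_hasDerivAt {b : ℕ → ℝ} (hb : Gr b) (t : ℝ) :
    HasDerivAt (S b) (-S (fun k => b (k + 1)) t) t := by
  set R : ℝ := |t| + 1 with hR
  have hR0 : 0 ≤ R := by positivity
  have htb : t ∈ Metric.ball (0 : ℝ) R := by
    rw [Metric.mem_ball, dist_zero_right, Real.norm_eq_abs]; linarith
  have hu : Summable fun n : ℕ => |b n| / (n.factorial : ℝ) * (n * R ^ (n - 1)) := by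
    rw [← summable_nat_add_iff 1]
    refine (hb.shift R hR0).congr fun k => ?_
    rw [Nat.add_sub_cancel, Nat.factorial_succ]
    push_cast
    field_simp
  have hd := hasDerivAt_tsum_of_isPreconnected
    (g := fun n (y : ℝ) => (-y) ^ n / (n.factorial : ℝ) * b n)
    (g' := fun n (y : ℝ) => ((n : ℝ) * (-y) ^ (n - 1) * (-1)) / (n.factorial : ℝ) * b n) hu
    Metric.isOpen_ball (convex_ball (0 : ℝ) R).isPreconnected
    (by
      intro n y _
      have h1 := ((hasDerivAt_neg y).pow n)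
      exact (h1.div_const _).mul_const _)
    (by
      intro n y hy
      rw [Metric.mem_ball, dist_zero_right, Real.norm_eq_abs] at hy
      rw [Real.norm_eq_abs, abs_mul, abs_div, abs_mul, abs_mul, abs_pow, abs_neg, abs_neg, abs_one,
        Nat.abs_cast, Nat.abs_cast, mul_one]
      calc (n : ℝ) * |y| ^ (n - 1) / (n.factorial : ℝ) * |b n| =
          |b n| / (n.factorial : ℝ) * ((n : ℝ) * |y| ^ (n - 1)) := by ring
        _ ≤ _ := by gcongr)
    htb (hb.summable t) htb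
  have e : (∑' n : ℕ, ((n : ℝ) * (-t) ^ (n - 1) * (-1)) / (n.factorial : ℝ) * b n) =
      -S (fun k => b (k + 1)) t := by
    have h1 : ∀ m : ℕ, (((m + 1 : ℕ) : ℝ) * (-t) ^ (m + 1 - 1) * (-1)) / ((m + 1).factorial : ℝ) *
        b (m + 1) = -((-t) ^ m / (m.factorial : ℝ) * b (m + 1)) := by
      intro m
      rw [Nat.add_sub_cancel, Nat.factorial_succ]
      push_cast
      field_simp
    have hsum : Summable fun n : ℕ => ((n : ℝ) * (-t) ^ (n - 1) * (-1)) / (n.factorial : ℝ) * b n := by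
      rw [← summable_nat_add_iff 1]
      refine (hb.shift.summable t).neg.congr fun m => ?_
      exact (h1 m).symm
    rw [hsum.tsum_eq_zero_add]
    simp only [h1]
    rw [tsum_neg]
    unfold S
    simp
  rw [e] at hd
  exact hd

lemma iteratedDeriv_S {b : ℕ → ℝ} (hb : Gr b) (n : ℕ) :
    iteratedDeriv n (S b) = fun t => (-1) ^ n * S (fun k => b (k + n)) t := by
  induction n with
  | zero => funext t; simp
  | succ n ih =>
    rw [iteratedDeriv_succ, ih]
    funext t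
    have h1 := (S_hasDerivAt (hb.shift_n n) t).const_mul ((-1 : ℝ) ^ n)
    rw [h1.deriv]
    have : (fun k => b (k + 1 + n)) = fun k => b (k + (n + 1)) := by
      funext k; congr 1; omega
    rw [this]
    ring

lemma S_contDiff {b : ℕ → ℝ} (hb : Gr b) : ContDiff ℝ ∞ (S b) := by
  apply contDiff_of_differentiable_iteratedDeriv
  intro n _
  rw [iteratedDeriv_S hb n]
  intro t
  exact ((S_hasDerivAt (hb.shift_n n) t).differentiableAt).const_mul _

/-! ### The Mittag-Leffler coefficients -/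

/-- `1/Γ(1+ai)` -/
noncomputable def al (a : ℝ) (i : ℕ) : ℝ := 1 / Real.Gamma (1 + (0 + a * i))

/-- `1/Γ(1+a/2+ai)` -/
noncomputable def be (a : ℝ) (i : ℕ) : ℝ := 1 / Real.Gamma (1 + (a / 2 + a * i))

lemma al_pos {a : ℝ} (ha : 0 < a) (i : ℕ) : 0 < al a i :=
  one_div_pos.2 (Real.Gamma_pos_of_pos (by positivity))

lemma be_pos {a : ℝ} (ha : 0 < a) (i : ℕ) : 0 < be a i :=
  one_div_pos.2 (Real.Gamma_pos_of_pos (by positivity))

lemma mI_al {a : ℝ} (ha : 0 < a) (i : ℕ) : mI a i / (i.factorial : ℝ) = al a i := by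
  unfold mI al
  rw [add_comm (1 : ℝ) (i : ℝ), Real.Gamma_nat_eq_factorial, zero_add]
  have h1 : (i.factorial : ℝ) ≠ 0 := by positivity
  have h2 : Real.Gamma (1 + a * i) ≠ 0 := (Real.Gamma_pos_of_pos (by positivity)).ne'
  field_simp

lemma mI_be {a : ℝ} (ha : 0 < a) (i : ℕ) :
    mI a ((i : ℝ) + 1 / 2) / Real.Gamma ((i : ℝ) + 3 / 2) = be a i := by
  unfold mI be
  have h0 : (1 : ℝ) + ((i : ℝ) + 1 / 2) = (i : ℝ) + 3 / 2 := by ring
  have h1 : (1 : ℝ) + a * ((i : ℝ) + 1 / 2) = 1 + (a / 2 + a * i) := by ring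
  rw [h0, h1]
  have h2 := (Gamma_half_pos i).ne'
  have h3 : Real.Gamma (1 + (a / 2 + a * i)) ≠ 0 := (Real.Gamma_pos_of_pos (by positivity)).ne'
  field_simp

/-- Cauchy product coefficients -/
noncomputable def AA (f : ℕ → ℝ) (k : ℕ) : ℝ :=
  ∑ p ∈ Finset.HasAntidiagonal.antidiagonal k, f p.1 * f p.2

lemma pos_mI {a : ℝ} (ha : 0 < a) (k : ℕ) :
    pos (mI a) (mI a) k = (k.factorial : ℝ) * AA (al a) k := by
  unfold pos AA
  simp only [mI_al ha]

lemma neg_mI {a : ℝ} (ha : 0 < a) (k : ℕ) :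
    neg (mI a) (mI a) (k + 1) = ((k + 1).factorial : ℝ) * AA (be a) k := by
  simp only [neg, AA]
  simp only [mI_be ha]

lemma cauchy {f : ℕ → ℝ} (hf0 : ∀ i, 0 ≤ f i) (hf : ∀ R, 0 ≤ R → Summable fun i => f i * R ^ i)
    (t : ℝ) : Summable (fun k => AA f k * t ^ k) ∧
      (∑' i, f i * t ^ i) ^ 2 = ∑' k, AA f k * t ^ k := by
  have h1 : Summable fun i => ‖f i * t ^ i‖ := by
    refine (hf |t| (abs_nonneg t)).congr fun i => ?_
    rw [Real.norm_eq_abs, abs_mul, abs_of_nonneg (hf0 i), abs_pow]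
  have h2 : ∀ k, ∑ p ∈ Finset.HasAntidiagonal.antidiagonal k, (f p.1 * t ^ p.1) * (f p.2 * t ^ p.2) =
      AA f k * t ^ k := by
    intro k
    unfold AA
    rw [Finset.sum_mul]
    apply Finset.sum_congr rfl
    intro p hp
    rw [← Finset.HasAntidiagonal.mem_antidiagonal.1 hp, pow_add]; ring
  have h3 := summable_norm_sum_mul_antidiagonal_of_summable_norm h1 h1
  have h4 := tsum_mul_tsum_eq_tsum_sum_antidiagonal_of_summable_norm h1 h1
  simp only [h2] at h3 h4
  exact ⟨h3.of_norm, by rw [sq]; exact h4⟩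

lemma AA_nonneg {f : ℕ → ℝ} (hf0 : ∀ i, 0 ≤ f i) (k : ℕ) : 0 ≤ AA f k :=
  Finset.sum_nonneg fun p _ => mul_nonneg (hf0 _) (hf0 _)

lemma al_summable {a : ℝ} (ha : 0 < a) (R : ℝ) (hR : 0 ≤ R) : Summable fun i => al a i * R ^ i :=
  summable_gamma ha le_rfl R hR

lemma be_summable {a : ℝ} (ha : 0 < a) (R : ℝ) (hR : 0 ≤ R) : Summable fun i => be a i * R ^ i :=
  summable_gamma ha (by positivity) R hR

/-- the coefficients of the limit -/
noncomputable def cI (a : ℝ) : ℕ → ℝ := fun k => mu (mI a) (mI a) k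

lemma cI_zero {a : ℝ} (ha : 0 < a) : cI a 0 = AA (al a) 0 := by
  unfold cI mu
  rw [pos_mI ha]; simp [neg]

lemma cI_succ {a : ℝ} (ha : 0 < a) (k : ℕ) :
    cI a (k + 1) = ((k + 1).factorial : ℝ) * (AA (al a) (k + 1) - AA (be a) k) := by
  unfold cI mu
  rw [pos_mI ha, neg_mI ha]; ring

lemma gr_cI {a : ℝ} (ha : 0 < a) : Gr (cI a) := by
  intro R hR
  rw [← summable_nat_add_iff 1]
  have h1 := (cauchy (fun i => (al_pos ha i).le) (al_summable ha) R).1
  have h2 := (cauchy (fun i => (be_pos ha i).le) (be_summable ha) R).1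
  have h3 := ((summable_nat_add_iff 1).2 h1).add (h2.mul_left R)
  refine Summable.of_nonneg_of_le (fun k => by positivity) (fun k => ?_) h3
  rw [cI_succ ha, abs_mul, Nat.abs_cast]
  have h4 : ((k + 1).factorial : ℝ) ≠ 0 := by positivity
  have h5 : |AA (al a) (k + 1) - AA (be a) k| ≤ AA (al a) (k + 1) + AA (be a) k := by
    have g1 := AA_nonneg (fun i => (al_pos ha i).le) (k + 1)
    have g2 := AA_nonneg (fun i => (be_pos ha i).le) k
    rw [abs_le]; constructor <;> linarith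
  calc ((k + 1).factorial : ℝ) * |AA (al a) (k + 1) - AA (be a) k| / ((k + 1).factorial : ℝ) *
        R ^ (k + 1) = |AA (al a) (k + 1) - AA (be a) k| * R ^ (k + 1) := by field_simp
    _ ≤ (AA (al a) (k + 1) + AA (be a) k) * R ^ (k + 1) :=
        mul_le_mul_of_nonneg_right h5 (by positivity)
    _ = _ := by rw [pow_succ]; ring

/-- the closed form -/
lemma S_cI {a : ℝ} (ha : 0 < a) (t : ℝ) : S (cI a) t =
    (∑' i, al a i * (-t) ^ i) ^ 2 + t * (∑' i, be a i * (-t) ^ i) ^ 2 := by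
  obtain ⟨h1, h2⟩ := cauchy (fun i => (al_pos ha i).le) (al_summable ha) (-t)
  obtain ⟨h3, h4⟩ := cauchy (fun i => (be_pos ha i).le) (be_summable ha) (-t)
  rw [h2, h4]
  unfold S
  have h5 := (gr_cI ha).summable t
  rw [h5.tsum_eq_zero_add, h1.tsum_eq_zero_add, ← tsum_mul_left]
  have h6 : ∀ k : ℕ, (-t) ^ (k + 1) / ((k + 1).factorial : ℝ) * cI a (k + 1) =
      AA (al a) (k + 1) * (-t) ^ (k + 1) + t * (AA (be a) k * (-t) ^ k) := by
    intro k
    rw [cI_succ ha]
    have h7 : ((k + 1).factorial : ℝ) ≠ 0 := by positivity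
    field_simp
    rw [pow_succ]; ring
  simp only [h6]
  rw [((summable_nat_add_iff 1).2 h1).tsum_add (h3.mul_left t), cI_zero ha]
  simp
  ring

/-! ### Passing to the limit -/

lemma neg_nonneg' {m : ℝ → ℝ} (hm : Mom m) (k : ℕ) : 0 ≤ neg m m k := by
  rcases k with _ | k
  · simp [neg]
  simp only [neg]
  apply mul_nonneg (by positivity)
  apply Finset.sum_nonneg
  intro p _
  have h1 := mom_nonneg hm (s := (p.1 : ℝ) + 1 / 2) (by positivity)
  have h2 := mom_nonneg hm (s := (p.2 : ℝ) + 1 / 2) (by positivity)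
  have h3 := (Gamma_half_pos p.1).le
  have h4 := (Gamma_half_pos p.2).le
  positivity

lemma mu_nonneg {m : ℝ → ℝ} (hm : Mom m) (k : ℕ) : 0 ≤ mu m m k := by
  have h := F_nonneg hm hm k 0
  unfold F at h
  rw [tsum_eq_single 0] at h
  · simpa using h
  · intro j hj
    rw [neg_zero, zero_pow hj]; simp

section limit

variable {a : ℝ} (ha0 : 0 < a) (ha1 : a ≤ 1)
include ha0 ha1

lemma mu_mN_le (N k : ℕ) : mu (mN a N) (mN a N) k ≤ (k.factorial : ℝ) * AA (al a) k := by
  have hm := mom_mN ha0.le ha1 N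
  have h1 := neg_nonneg' hm k
  have h2 : pos (mN a N) (mN a N) k ≤ (k.factorial : ℝ) * AA (al a) k := by
    unfold pos AA
    apply mul_le_mul_of_nonneg_left _ (by positivity)
    apply Finset.sum_le_sum
    intro p _
    rw [← mI_al ha0, ← mI_al ha0]
    have g1 := mom_nonneg hm (s := (p.1 : ℝ)) (Nat.cast_nonneg _)
    have g2 := mom_nonneg hm (s := (p.2 : ℝ)) (Nat.cast_nonneg _)
    have g3 := mN_le ha0 ha1 p.1 N
    have g4 := mN_le ha0 ha1 p.2 N
    have g5 := g1.trans g3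
    gcongr
  unfold mu
  linarith

lemma mu_tendsto (k : ℕ) : Tendsto (fun N => mu (mN a N) (mN a N) k) atTop (𝓝 (cI a k)) := by
  unfold cI mu
  apply Tendsto.sub
  · unfold pos
    apply Tendsto.const_mul
    apply tendsto_finsetSum
    intro p _
    exact ((mN_tendsto ha0 ha1 (Nat.cast_nonneg p.1)).div_const _).mul
      ((mN_tendsto ha0 ha1 (Nat.cast_nonneg p.2)).div_const _)
  · rcases k with _ | k
    · simp only [neg]; exact tendsto_const_nhds
    simp only [neg]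
    apply Tendsto.const_mul
    apply tendsto_finsetSum
    intro p _
    exact ((mN_tendsto ha0 ha1 (s := (p.1 : ℝ) + 1 / 2) (by positivity)).div_const _).mul
      ((mN_tendsto ha0 ha1 (s := (p.2 : ℝ) + 1 / 2) (by positivity)).div_const _)

lemma dom_summable (n : ℕ) (t : ℝ) : Summable fun k : ℕ => |t| ^ k / (k.factorial : ℝ) *
    (((k + n).factorial : ℝ) * AA (al a) (k + n)) := by
  have h1 := (cauchy (fun i => (al_pos ha0 i).le) (al_summable ha0) (2 * (|t| + 1))).1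
  have h2 := ((summable_nat_add_iff n).2 h1).mul_left (n.factorial : ℝ)
  have hA := fun k => AA_nonneg (fun i => (al_pos ha0 i).le) k
  refine Summable.of_nonneg_of_le (fun k => by have := hA (k + n); positivity) (fun k => ?_) h2
  have h3 : ((k + n).factorial : ℝ) ≤ (n.factorial : ℝ) * (k.factorial : ℝ) * 2 ^ (k + n) := by
    have h4 := Nat.add_choose_mul_factorial_mul_factorial k n
    have h5 : (k + n).choose n ≤ 2 ^ (k + n) := Nat.choose_le_two_pow _ _
    rw [← h4]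
    push_cast
    have h6 : (((k + n).choose n : ℕ) : ℝ) ≤ 2 ^ (k + n) := by exact_mod_cast h5
    calc (((k + n).choose n : ℕ) : ℝ) * (k.factorial : ℝ) * (n.factorial : ℝ) ≤
          2 ^ (k + n) * (k.factorial : ℝ) * (n.factorial : ℝ) := by gcongr
      _ = _ := by ring
  have h7 : |t| ^ k ≤ (|t| + 1) ^ (k + n) := by
    have h8 : (0 : ℝ) ≤ |t| := abs_nonneg t
    calc |t| ^ k ≤ (|t| + 1) ^ k := pow_le_pow_left₀ h8 (by linarith) k
      _ ≤ (|t| + 1) ^ (k + n) := pow_le_pow_right₀ (by linarith) (by omega)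
  have h9 := hA (k + n)
  have h10 : (k.factorial : ℝ) ≠ 0 := by positivity
  calc |t| ^ k / (k.factorial : ℝ) * (((k + n).factorial : ℝ) * AA (al a) (k + n)) ≤
        (|t| + 1) ^ (k + n) / (k.factorial : ℝ) *
          (((n.factorial : ℝ) * (k.factorial : ℝ) * 2 ^ (k + n)) * AA (al a) (k + n)) := by gcongr
    _ = _ := by rw [mul_pow]; field_simp

lemma mN_summable (N n : ℕ) (t : ℝ) :
    Summable fun k : ℕ => (-t) ^ k / (k.factorial : ℝ) * mu (mN a N) (mN a N) (k + n) := by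
  have hm := mom_mN ha0.le ha1 N
  refine Summable.of_norm_bounded (dom_summable ha0 ha1 n t) fun k => ?_
  rw [Real.norm_eq_abs, abs_mul, abs_div, abs_pow, abs_neg, Nat.abs_cast,
    abs_of_nonneg (mu_nonneg hm _)]
  exact mul_le_mul_of_nonneg_left (mu_mN_le ha0 ha1 N _) (by positivity)

lemma F_tendsto (n : ℕ) (t : ℝ) : Tendsto (fun N => F (mN a N) (mN a N) n t) atTop
    (𝓝 (S (fun k => cI a (k + n)) t)) := by
  unfold F S
  apply tendsto_tsum_of_dominated_convergence (dom_summable ha0 ha1 n t)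
  · intro k
    exact (mu_tendsto ha0 ha1 (k + n)).const_mul _
  · refine Eventually.of_forall fun N k => ?_
    have hm := mom_mN ha0.le ha1 N
    rw [Real.norm_eq_abs, abs_mul, abs_div, abs_pow, abs_neg, Nat.abs_cast,
      abs_of_nonneg (mu_nonneg hm _)]
    exact mul_le_mul_of_nonneg_left (mu_mN_le ha0 ha1 N _) (by positivity)

theorem S_nonneg (n : ℕ) (t : ℝ) : 0 ≤ S (fun k => cI a (k + n)) t :=
  ge_of_tendsto' (F_tendsto ha0 ha1 n t) fun N =>
    F_nonneg (mom_mN ha0.le ha1 N) (mom_mN ha0.le ha1 N) n t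

theorem S_quad (t : ℝ) : S (fun k => cI a (k + 1)) t ^ 2 ≤
    S (fun k => cI a (k + 0)) t * S (fun k => cI a (k + 2)) t := by
  have h1 : ∀ l : ℝ, 0 ≤ S (fun k => cI a (k + 2)) t + 2 * l * S (fun k => cI a (k + 1)) t +
      l ^ 2 * S (fun k => cI a (k + 0)) t := by
    intro l
    refine ge_of_tendsto' (((F_tendsto ha0 ha1 2 t).add ((F_tendsto ha0 ha1 1 t).const_mul (2 * l))).add
      ((F_tendsto ha0 ha1 0 t).const_mul (l ^ 2))) fun N => ?_
    exact F_quad (mom_mN ha0.le ha1 N) (mom_mN ha0.le ha1 N) t l (fun n => mN_summable ha0 ha1 N n t)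
  have h0 := S_nonneg ha0 ha1 0 t
  have h2 := S_nonneg ha0 ha1 2 t
  set A := S (fun k => cI a (k + 0)) t
  set B := S (fun k => cI a (k + 1)) t
  set D := S (fun k => cI a (k + 2)) t
  rcases h0.eq_or_lt with h | h
  · by_cases hB : B = 0
    · rw [hB]; nlinarith [mul_nonneg h0 h2]
    · exfalso
      have h3 := h1 (-(D + 1) / (2 * B))
      rw [← h] at h3
      have h4 : D + 2 * (-(D + 1) / (2 * B)) * B + (-(D + 1) / (2 * B)) ^ 2 * 0 = -1 := by
        field_simp; ring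
      rw [h4] at h3
      linarith
  · have h3 := h1 (-B / A)
    have h4 : D + 2 * (-B / A) * B + (-B / A) ^ 2 * A = (A * D - B ^ 2) / A := by
      field_simp; ring
    rw [h4] at h3
    have h5 := mul_nonneg h3 h.le
    rw [div_mul_cancel₀ _ h.ne'] at h5
    linarith

end limit

end Q80.ML
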