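import Mathlib
import Pool.Agent.Q80.MLd

/-!
# The numbers `mu m m'` are moments: positivity of all nonnegative power series
-/

open Filter Topology Set MeasureTheory
open scoped ContDiff

namespace Q80.ML

lemma half_gen {om : ℕ → ℝ} (hom : ∀ Q, 0 ≤ Q → Summable fun k => |om k| * Q ^ k) {x y : ℝ} (hx : 0 < x)
    (hy : 0 < y) (hg : ∀ z, 0 ≤ z → 0 ≤ ∑' k, om k * z ^ k) :
    ∃ v, 0 ≤ v ∧ HasSum (fun k : ℕ => om k * ∫ s in (0 : ℝ)..√y, (y - s ^ 2) ^ k * wt x s) v := by
  have hc := wt_continuous hx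
  have hsum := hom y hy.le
  refine ⟨∫ s in (0 : ℝ)..√y, (∑' k, om k * (y - s ^ 2) ^ k) * wt x s, ?_, ?_⟩
  · apply intervalIntegral.integral_nonneg (Real.sqrt_nonneg y)
    intro s hs
    have h1 : s ^ 2 ≤ y := by
      have := Real.sq_sqrt hy.le
      nlinarith [hs.1, hs.2, Real.sqrt_nonneg y]
    exact mul_nonneg (hg _ (by linarith)) (wt_nonneg hx s)
  have h := intervalIntegral.hasSum_integral_of_dominated_convergence (μ := volume) (a := 0)
    (b := √y)
    (F := fun (k : ℕ) (s : ℝ) => om k * ((y - s ^ 2) ^ k * wt x s))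
    (f := fun s => (∑' k, om k * (y - s ^ 2) ^ k) * wt x s)
    (fun k s => (|om k| * y ^ k) * wt x s)
    (fun k => (Continuous.aestronglyMeasurable (by fun_prop)))
    (fun k => Eventually.of_forall fun s hs => ?_)
    (Eventually.of_forall fun s _ => hsum.mul_right _) ?_
    (Eventually.of_forall fun s hs => ?_)
  · simpa only [intervalIntegral.integral_const_mul] using h
  · rw [uIoc_of_le (Real.sqrt_nonneg y)] at hs
    have h1 : s ^ 2 ≤ y := by
      have := Real.sq_sqrt hy.le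
      nlinarith [hs.1, hs.2, Real.sqrt_nonneg y]
    have h2 : |(y - s ^ 2)| ≤ y := by
      rw [abs_of_nonneg (by linarith)]; nlinarith [sq_nonneg s]
    rw [Real.norm_eq_abs, abs_mul, abs_mul, abs_pow, abs_of_nonneg (wt_nonneg hx s), ← mul_assoc]
    apply mul_le_mul_of_nonneg_right _ (wt_nonneg hx s)
    exact mul_le_mul_of_nonneg_left (pow_le_pow_left₀ (abs_nonneg _) h2 _) (abs_nonneg _)
  · simp only [tsum_mul_right]
    apply Continuous.intervalIntegrable
    fun_prop
  · rw [uIoc_of_le (Real.sqrt_nonneg y)] at hs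
    have h1 : s ^ 2 ≤ y := by
      have := Real.sq_sqrt hy.le
      nlinarith [hs.1, hs.2, Real.sqrt_nonneg y]
    have h2 : Summable fun k => om k * (y - s ^ 2) ^ k := by
      refine Summable.of_norm_bounded (hom (y - s ^ 2) (by linarith)) fun k => ?_
      rw [Real.norm_eq_abs, abs_mul, abs_pow, abs_of_nonneg (by linarith : 0 ≤ y - s ^ 2)]
    have h3 := h2.hasSum.mul_right (wt x s)
    simpa only [mul_assoc] using h3

theorem gen_nonneg {om : ℕ → ℝ} (hom : ∀ Q, 0 ≤ Q → Summable fun k => |om k| * Q ^ k)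
    (hg : ∀ z, 0 ≤ z → 0 ≤ ∑' k, om k * z ^ k) {m m' : ℝ → ℝ} (hm : Mom m) (hm' : Mom m') :
    0 ≤ ∑' k, om k * mu m m' k := by
  obtain ⟨R, μ, hfin, hμ, hm⟩ := hm
  obtain ⟨S, ν, hfin', hν, hm'⟩ := hm'
  set Q := max R S with hQ
  have hae : ∀ᵐ z ∂(μ.prod ν), z.1 ∈ Ioc 0 Q ∧ z.2 ∈ Ioc 0 Q := by
    have h1 : ∀ᵐ z ∂(μ.prod ν), z.1 ∈ Ioc 0 R := Measure.quasiMeasurePreserving_fst.ae hμ
    have h2 : ∀ᵐ z ∂(μ.prod ν), z.2 ∈ Ioc 0 S := Measure.quasiMeasurePreserving_snd.ae hν
    filter_upwards [h1, h2] with z h3 h4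
    exact ⟨⟨h3.1, h3.2.trans (le_max_left _ _)⟩, ⟨h4.1, h4.2.trans (le_max_right _ _)⟩⟩
  have hint : ∀ k, Integrable (fun z : ℝ × ℝ => om k * mu (pw z.1) (pw z.2) k) (μ.prod ν) :=
    fun k => (mu_eq_integral hμ hν hm hm' k).1.const_mul _
  have hom2 : Summable fun k => |om k| * |Q| ^ k := hom |Q| (abs_nonneg _)
  have hsum : Summable fun k => ∫ z : ℝ × ℝ, ‖om k * mu (pw z.1) (pw z.2) k‖ ∂(μ.prod ν) := by
    refine Summable.of_nonneg_of_le (fun k => integral_nonneg fun z => norm_nonneg _) (fun k => ?_)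
      (hom2.mul_right ((μ.prod ν).real univ))
    have h1 : ∫ z : ℝ × ℝ, ‖om k * mu (pw z.1) (pw z.2) k‖ ∂(μ.prod ν) ≤
        ∫ _z : ℝ × ℝ, (|om k| * |Q| ^ k) ∂(μ.prod ν) := by
      apply integral_mono_ae (hint k).norm (integrable_const _)
      filter_upwards [hae] with z hz
      obtain ⟨h2, h3⟩ := pw_bounds hz.1.1 hz.2.1 hz.1.2 hz.2.2 k
      rw [Real.norm_eq_abs, abs_mul, abs_of_nonneg h2]
      refine mul_le_mul_of_nonneg_left (h3.trans ?_) (abs_nonneg _)
      exact pow_le_pow_left₀ (hz.1.1.le.trans hz.1.2) (le_abs_self Q) k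
    rw [integral_const, smul_eq_mul, mul_comm] at h1
    exact h1
  have h := hasSum_integral_of_summable_integral_norm hint hsum
  have h3 : (fun k : ℕ => om k * mu m m' k) = fun k : ℕ =>
      ∫ z : ℝ × ℝ, om k * mu (pw z.1) (pw z.2) k ∂(μ.prod ν) := by
    funext k
    rw [integral_const_mul, (mu_eq_integral hμ hν hm hm' k).2]
  rw [h3, h.tsum_eq]
  apply integral_nonneg_of_ae
  filter_upwards [hae] with z hz
  obtain ⟨v, hv, h1⟩ := half_gen hom hz.1.1 hz.2.1 hg
  obtain ⟨w, hw, h2⟩ := half_gen hom hz.2.1 hz.1.1 hg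
  have h4 := h1.add h2
  have h5 : (fun k : ℕ => om k * mu (pw z.1) (pw z.2) k) = fun k : ℕ =>
      om k * (∫ s in (0 : ℝ)..√z.2, (z.2 - s ^ 2) ^ k * wt z.1 s) +
      om k * ∫ s in (0 : ℝ)..√z.1, (z.1 - s ^ 2) ^ k * wt z.2 s := by
    funext k
    rw [mu_pw hz.1.1 hz.2.1, mm]; ring
  simp only [Pi.zero_apply]
  rw [h5, h4.tsum_eq]
  exact add_nonneg hv hw

/-- Jensen's inequality -/
lemma jensen {m m' : ℝ → ℝ} (hm : Mom m) (hm' : Mom m') (t c : ℝ)
    (hs : Summable fun k : ℕ => (-t) ^ k / (k.factorial : ℝ) * mu m m' k) :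
    Real.exp (-t * c) * ((1 + t * c) * mu m m' 0 - t * mu m m' 1) ≤
      ∑' k : ℕ, (-t) ^ k / (k.factorial : ℝ) * mu m m' k := by
  set E := Real.exp (-t * c) with hE
  set δ : ℕ → ℝ := fun k => if k = 0 then E * (1 + t * c) else if k = 1 then -(E * t) else 0 with hδ
  set om : ℕ → ℝ := fun k => (-t) ^ k / (k.factorial : ℝ) - δ k with hom
  have hδs : ∀ b : ℕ → ℝ, HasSum (fun k => δ k * b k) (E * (1 + t * c) * b 0 - E * t * b 1) := by
    intro b
    have : E * (1 + t * c) * b 0 - E * t * b 1 = ∑ k ∈ Finset.range 2, δ k * b k := by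
      rw [Finset.sum_range_succ, Finset.sum_range_one]
      simp only [hδ]
      norm_num
      ring
    rw [this]
    apply hasSum_sum_of_ne_finset_zero
    intro k hk
    rw [Finset.mem_range] at hk
    simp only [hδ]
    rw [if_neg (by omega), if_neg (by omega), zero_mul]
  have hexp : ∀ z : ℝ, HasSum (fun k : ℕ => (-t) ^ k / (k.factorial : ℝ) * z ^ k) (Real.exp (-t * z)) := by
    intro z
    have := NormedSpace.expSeries_div_hasSum_exp (-t * z)
    rw [← Real.exp_eq_exp_ℝ] at this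
    have h2 : (fun k : ℕ => (-t) ^ k / (k.factorial : ℝ) * z ^ k) =
        fun k : ℕ => (-t * z) ^ k / (k.factorial : ℝ) := by
      funext k; rw [mul_pow]; ring
    rw [h2]; exact this
  have h1 := gen_nonneg (om := om) (fun Q hQ => ?_) (fun z hz => ?_) hm hm'
  · have h2 := hs.hasSum.sub (hδs (fun k => mu m m' k))
    have h3 : (fun k => om k * mu m m' k) = fun k : ℕ =>
        (-t) ^ k / (k.factorial : ℝ) * mu m m' k - δ k * mu m m' k := by
      funext k; simp only [hom]; ring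
    rw [h3, h2.tsum_eq] at h1
    linarith
  · have h2 : Summable fun k : ℕ => |t| ^ k / (k.factorial : ℝ) * Q ^ k := by
      refine (Real.summable_pow_div_factorial (|t| * Q)).congr fun k => ?_
      rw [mul_pow]; ring
    have h3 : Summable fun k : ℕ => |δ k| * Q ^ k := by
      apply summable_of_ne_finset_zero (s := Finset.range 2)
      intro k hk
      rw [Finset.mem_range] at hk
      simp only [hδ]
      rw [if_neg (by omega), if_neg (by omega), abs_zero, zero_mul]
    refine Summable.of_nonneg_of_le (fun k => by positivity) (fun k => ?_) (h2.add h3)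
    simp only [hom]
    rw [← add_mul]
    apply mul_le_mul_of_nonneg_right _ (by positivity)
    refine (abs_sub _ _).trans ?_
    rw [abs_div, abs_pow, abs_neg, Nat.abs_cast]
  · have h2 := (hexp z).sub (hδs (fun k => z ^ k))
    have h3 : (fun k => om k * z ^ k) = fun k : ℕ =>
        (-t) ^ k / (k.factorial : ℝ) * z ^ k - δ k * z ^ k := by
      funext k; simp only [hom]; ring
    rw [h3, h2.tsum_eq]
    have h4 : Real.exp (-t * z) = E * Real.exp (-(t * (z - c))) := by
      rw [hE, ← Real.exp_add]; congr 1; ring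
    have h5 := Real.add_one_le_exp (-(t * (z - c)))
    have h6 : 0 < E := Real.exp_pos _
    rw [h4, pow_zero, pow_one]
    nlinarith

theorem S_pos {a : ℝ} (ha0 : 0 < a) (ha1 : a ≤ 1) (t : ℝ) : 0 < S (cI a) t := by
  have h1 : ∀ c : ℝ, Real.exp (-t * c) * ((1 + t * c) * cI a 0 - t * cI a 1) ≤ S (cI a) t := by
    intro c
    have h2 := F_tendsto ha0 ha1 0 t
    have h3 := (((mu_tendsto ha0 ha1 0).const_mul (1 + t * c)).sub
      ((mu_tendsto ha0 ha1 1).const_mul t)).const_mul (Real.exp (-t * c))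
    refine le_of_tendsto_of_tendsto' h3 h2 fun N => ?_
    exact jensen (mom_mN ha0.le ha1 N) (mom_mN ha0.le ha1 N) t c (mN_summable ha0 ha1 N 0 t)
  have h0 : cI a 0 = 1 := by
    rw [cI_zero ha0]
    unfold AA al
    simp
  have h2 := h1 (cI a 1)
  rw [h0] at h2
  have h3 : (1 + t * cI a 1) * 1 - t * cI a 1 = 1 := by ring
  rw [h3, mul_one] at h2
  exact lt_of_lt_of_le (Real.exp_pos _) h2

/-- log-convexity -/
theorem S_logConvex {a : ℝ} (ha0 : 0 < a) (ha1 : a ≤ 1) :
    ConvexOn ℝ (Ioi 0) (fun t => Real.log (S (cI a) t)) := by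
  have hg := gr_cI ha0
  have hd : ∀ t, HasDerivAt (fun t => Real.log (S (cI a) t)) (-S (fun k => cI a (k + 1)) t / S (cI a) t) t :=
    fun t => (S_hasDerivAt hg t).log (S_pos ha0 ha1 t).ne'
  have hd1 : deriv (fun t => Real.log (S (cI a) t)) = fun t =>
      -S (fun k => cI a (k + 1)) t / S (cI a) t := by
    funext t; exact (hd t).deriv
  have hd2 : ∀ t, HasDerivAt (fun t => -S (fun k => cI a (k + 1)) t / S (cI a) t)
      ((S (fun k => cI a (k + 2)) t * S (cI a) t - S (fun k => cI a (k + 1)) t ^ 2) / S (cI a) t ^ 2) t := by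
    intro t
    have h1 := (S_hasDerivAt hg.shift t).neg.div (S_hasDerivAt hg t) (S_pos ha0 ha1 t).ne'
    refine h1.congr_deriv ?_
    have h2 : (fun k => cI a (k + 1 + 1)) = fun k => cI a (k + 2) := rfl
    simp only [Pi.neg_apply, h2]
    ring
  apply convexOn_of_deriv2_nonneg (convex_Ioi 0)
  · exact fun t _ => (hd t).continuousAt.continuousWithinAt
  · exact fun t _ => (hd t).differentiableAt.differentiableWithinAt
  · rw [hd1]
    exact fun t _ => (hd2 t).differentiableAt.differentiableWithinAt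
  · intro t _
    rw [Function.iterate_succ_apply', Function.iterate_one, hd1, (hd2 t).deriv]
    apply div_nonneg _ (sq_nonneg _)
    have := S_quad ha0 ha1 t
    simp only [add_zero] at this
    linarith

end Q80.ML
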