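import Mathlib

/-!
# Holomorphic lifts of harmonic discs in a ball with very thin slabs attached
-/

open Metric Set Filter Topology

namespace Q80.MinMetric

variable {m : ℕ}

/-- the real part of a tuple of holomorphic functions, as a map into `ℝⁿ` -/
noncomputable def Rm (F : Fin m → ℂ → ℂ) (z : ℂ) : EuclideanSpace ℝ (Fin m) :=
  WithLp.toLp 2 fun j => (F j z).re

lemma Rm_apply (F : Fin m → ℂ → ℂ) (z : ℂ) (j : Fin m) : (Rm F z) j = (F j z).re := rfl

/-- all discs in `K` through `0` have `i`-th derivative at most `M` -/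
def Bd (i : Fin m) (K : Set (EuclideanSpace ℝ (Fin m))) (M : ℝ) : Prop :=
  ∀ F : Fin m → ℂ → ℂ, (∀ j, DifferentiableOn ℂ (F j) (ball 0 1)) →
    (∀ z ∈ ball (0 : ℂ) 1, Rm F z ∈ K) → (∀ j, F j 0 = 0) → (deriv (F i) 0).re ≤ M

/-- growth bound -/
lemma growth {B : ℝ} (hB : 0 < B) {F : ℂ → ℂ} (hF : DifferentiableOn ℂ F (ball 0 1))
    (hre : ∀ z ∈ ball (0 : ℂ) 1, (F z).re ≤ B) (h0 : F 0 = 0) {z : ℂ} (hz : z ∈ ball (0 : ℂ) 1) :
    ‖F z‖ ≤ 2 * B * ‖z‖ / (1 - ‖z‖) :=
  Complex.borelCaratheodory_zero hB hF (fun z hz => hre z hz) one_pos hz h0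

/-- Taylor coefficient -/
noncomputable def tc (F : ℂ → ℂ) (k : ℕ) : ℂ := (k.factorial : ℂ)⁻¹ * iteratedDeriv k F 0

lemma tc_bound {B : ℝ} (hB : 0 < B) {F : ℂ → ℂ} (hF : DifferentiableOn ℂ F (ball 0 1))
    (hre : ∀ z ∈ ball (0 : ℂ) 1, (F z).re ≤ B) (h0 : F 0 = 0) {r : ℝ} (hr0 : 0 < r) (hr1 : r < 1)
    (k : ℕ) : ‖tc F k‖ ≤ 2 * B * r / (1 - r) / r ^ k := by
  have h1 : DiffContOnCl ℂ F (ball 0 r) := by
    have h2 : closedBall (0 : ℂ) r ⊆ ball 0 1 := closedBall_subset_ball hr1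
    apply DifferentiableOn.diffContOnCl
    exact hF.mono (closure_ball_subset_closedBall.trans h2)
  have h3 := Complex.norm_iteratedDeriv_le_of_forall_mem_sphere_norm_le k hr0 h1
    (C := 2 * B * r / (1 - r)) (fun z hz => by
      have hz' : ‖z‖ = r := mem_sphere_zero_iff_norm.1 hz
      have := growth hB hF hre h0 (z := z) (by rw [mem_ball_zero_iff, hz']; exact hr1)
      rwa [hz'] at this)
  unfold tc
  rw [norm_mul, norm_inv, Complex.norm_natCast]
  have h4 : (0 : ℝ) < k.factorial := by positivity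
  rw [inv_mul_le_iff₀ h4]
  calc ‖iteratedDeriv k F 0‖ ≤ _ := h3
    _ = _ := by ring

lemma tc_sum {F : ℂ → ℂ} (hF : DifferentiableOn ℂ F (ball 0 1)) {z : ℂ} (hz : z ∈ ball (0 : ℂ) 1) :
    ∑' k : ℕ, tc F k * z ^ k = F z := by
  have := Complex.taylorSeries_eq_on_ball' hz hF
  simpa [tc] using this

lemma tc_one (F : ℂ → ℂ) : tc F 1 = deriv F 0 := by
  unfold tc
  rw [iteratedDeriv_one]; simp

lemma hasDerivAt_tsum_c (u : ℕ → ℝ) (g g' : ℕ → ℂ → ℂ) (t : Set ℂ) (hu : Summable u) (ht : IsOpen t)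
    (h't : IsPreconnected t) (hg : ∀ n y, y ∈ t → HasDerivAt (g n) (g' n y) y)
    (hg' : ∀ n y, y ∈ t → ‖g' n y‖ ≤ u n) (y0 y : ℂ) (hy₀ : y0 ∈ t)
    (hg0 : Summable fun n => g n y0) (hy : y ∈ t) :
    HasDerivAt (fun z => ∑' n, g n z) (∑' n, g' n y) y :=
  hasDerivAt_tsum_of_isPreconnected hu ht h't hg hg' hy₀ hg0 hy

/-- functions given by power series with the growth bounds -/
lemma series_facts {b : ℕ → ℂ} {B : ℝ} (hb : ∀ r : ℝ, 0 < r → r < 1 → ∀ k, ‖b k‖ ≤ 2 * B * r / (1 - r) / r ^ k) :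
    DifferentiableOn ℂ (fun z : ℂ => ∑' k : ℕ, b k * z ^ k) (ball 0 1) ∧
    deriv (fun z : ℂ => ∑' k : ℕ, b k * z ^ k) 0 = b 1 := by
  have key : ∀ ρ : ℝ, 0 < ρ → ρ < 1 → ∀ z ∈ ball (0 : ℂ) ρ,
      HasDerivAt (fun z : ℂ => ∑' k : ℕ, b k * z ^ k) (∑' k : ℕ, b k * (k * z ^ (k - 1))) z := by
    intro ρ h0 h1 z hz
    obtain ⟨r, hr1, hr2⟩ := exists_between h1
    have hr0 : 0 < r := h0.trans hr1
    set C := 2 * B * r / (1 - r) with hC
    have hC0 : 0 ≤ C := by
      have := hb r hr0 hr2 0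
      rw [pow_zero, div_one] at this
      exact (norm_nonneg _).trans this
    have hq0 : 0 ≤ ρ / r := by positivity
    have hq1 : ρ / r < 1 := (div_lt_one hr0).2 hr1
    have hsum0 : Summable (fun k : ℕ => ((k : ℝ) ^ 1 * (ρ / r) ^ k)) :=
      summable_pow_mul_geometric_of_norm_lt_one 1 (by
        rw [Real.norm_of_nonneg hq0]; exact hq1)
    have hsum : Summable (fun k : ℕ => (C / ρ) * ((k : ℝ) ^ 1 * (ρ / r) ^ k)) :=
      hsum0.mul_left (C / ρ)
    have hA : ∀ (k : ℕ) (y : ℂ), y ∈ ball (0 : ℂ) ρ →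
        HasDerivAt (fun z : ℂ => b k * z ^ k) (b k * (k * y ^ (k - 1))) y := fun k y _ =>
      (hasDerivAt_pow k y).const_mul (b k)
    have hBd : ∀ (k : ℕ) (y : ℂ), y ∈ ball (0 : ℂ) ρ → ‖b k * (k * y ^ (k - 1))‖ ≤
        (C / ρ) * ((k : ℝ) ^ 1 * (ρ / r) ^ k) := by
      intro k y hy
      have hy' : ‖y‖ < ρ := mem_ball_zero_iff.1 hy
      rcases k with _ | k
      · simp
      · rw [norm_mul, norm_mul, norm_pow, Complex.norm_natCast, Nat.add_sub_cancel]
        have h2 := hb r hr0 hr2 (k + 1)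
        have h3 : ‖y‖ ^ k ≤ ρ ^ k := pow_le_pow_left₀ (norm_nonneg _) hy'.le k
        calc ‖b (k + 1)‖ * (((k + 1 : ℕ) : ℝ) * ‖y‖ ^ k) ≤
            (C / r ^ (k + 1)) * (((k + 1 : ℕ) : ℝ) * ρ ^ k) := by
              apply mul_le_mul h2 _ (by positivity) (by positivity)
              exact mul_le_mul_of_nonneg_left h3 (by positivity)
          _ = C / ρ * (((k + 1 : ℕ) : ℝ) ^ 1 * (ρ / r) ^ (k + 1)) := by
              rw [div_pow, pow_one]
              field_simp
              ring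
    have hs0 : ∀ k : ℕ, k ≠ 0 → b k * (0 : ℂ) ^ k = 0 := fun k hk => by
      rw [zero_pow hk, mul_zero]
    have hS : Summable (fun k : ℕ => b k * (0 : ℂ) ^ k) := (hasSum_single 0 hs0).summable
    have hop : IsOpen (ball (0 : ℂ) ρ) := isOpen_ball
    have hpre : IsPreconnected (ball (0 : ℂ) ρ) := (convex_ball (0 : ℂ) ρ).isPreconnected
    exact hasDerivAt_tsum_c _ (fun (k : ℕ) (z : ℂ) => b k * z ^ k)
      (fun (k : ℕ) (z : ℂ) => b k * (k * z ^ (k - 1))) (ball 0 ρ) hsum hop hpre hA hBd 0 z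
      (mem_ball_self h0) hS hz
  constructor
  · intro z hz
    have hz' : ‖z‖ < 1 := mem_ball_zero_iff.1 hz
    obtain ⟨ρ, h1, h2⟩ := exists_between hz'
    have h0 : 0 < ρ := (norm_nonneg _).trans_lt h1
    exact (key ρ h0 h2 z (mem_ball_zero_iff.2 h1)).differentiableAt.differentiableWithinAt
  · rw [(key (1 / 2) (by norm_num) (by norm_num) 0 (mem_ball_self (by norm_num))).deriv]
    rw [tsum_eq_single 1]
    · simp
    · intro k hk
      rcases k with _ | _ | k
      · simp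
      · exact absurd rfl hk
      · simp

/-- normal families along an ultrafilter -/
lemma normal {B : ℝ} (hB : 0 < B) {ι : Type*} (U : Ultrafilter ι) (F : ι → ℂ → ℂ)
    (hF : ∀ n, DifferentiableOn ℂ (F n) (ball 0 1))
    (hre : ∀ n, ∀ z ∈ ball (0 : ℂ) 1, (F n z).re ≤ B) (h0 : ∀ n, F n 0 = 0) :
    ∃ G : ℂ → ℂ, DifferentiableOn ℂ G (ball 0 1) ∧ G 0 = 0 ∧
      (∀ z ∈ ball (0 : ℂ) 1, Tendsto (fun n => F n z) U (𝓝 (G z))) ∧
      Tendsto (fun n => deriv (F n) 0) U (𝓝 (deriv G 0)) := by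
  have hex : ∀ k : ℕ, ∃ b : ℂ, Tendsto (fun n => tc (F n) k) U (𝓝 b) := by
    intro k
    have hcomp := isCompact_closedBall (0 : ℂ) (2 * B * (1 / 2) / (1 - 1 / 2) / (1 / 2) ^ k)
    have hmem : ((U.map fun n => tc (F n) k : Ultrafilter ℂ) : Filter ℂ) ≤
        𝓟 (closedBall (0 : ℂ) (2 * B * (1 / 2) / (1 - 1 / 2) / (1 / 2) ^ k)) := by
      rw [le_principal_iff, Ultrafilter.coe_map, mem_map]
      apply Filter.univ_mem'
      intro n
      rw [mem_preimage, mem_closedBall_zero_iff]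
      exact tc_bound hB (hF n) (hre n) (h0 n) (by norm_num) (by norm_num) k
    obtain ⟨b, _, hb⟩ := hcomp.ultrafilter_le_nhds _ hmem
    exact ⟨b, hb⟩
  choose b hb using hex
  have hbb : ∀ r : ℝ, 0 < r → r < 1 → ∀ k, ‖b k‖ ≤ 2 * B * r / (1 - r) / r ^ k := by
    intro r hr0 hr1 k
    refine le_of_tendsto (hb k).norm (Eventually.of_forall fun n => ?_)
    exact tc_bound hB (hF n) (hre n) (h0 n) hr0 hr1 k
  obtain ⟨hd, hd1⟩ := series_facts hbb
  refine ⟨fun z : ℂ => ∑' k : ℕ, b k * z ^ k, hd, ?_, ?_, ?_⟩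
  · have h1 : b 0 = 0 := by
      apply tendsto_nhds_unique (hb 0)
      have : (fun n => tc (F n) 0) = fun _ => (0 : ℂ) := by
        funext n
        unfold tc
        rw [iteratedDeriv_zero, h0]; simp
      rw [this]
      exact tendsto_const_nhds
    simp only
    rw [tsum_eq_single 0]
    · rw [h1]; simp
    · intro k hk
      rw [zero_pow hk, mul_zero]
  · intro z hz
    have hz' : ‖z‖ < 1 := mem_ball_zero_iff.1 hz
    obtain ⟨r, h1, h2⟩ := exists_between hz'
    have hr0 : 0 < r := (norm_nonneg _).trans_lt h1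
    have hq0 : 0 ≤ ‖z‖ / r := by positivity
    have hq1 : ‖z‖ / r < 1 := (div_lt_one hr0).2 h1
    have hlim := tendsto_tsum_of_dominated_convergence (𝓕 := (U : Filter ι))
      (f := fun n k => tc (F n) k * z ^ k) (g := fun k => b k * z ^ k)
      (bound := fun k => (2 * B * r / (1 - r)) * (‖z‖ / r) ^ k)
      ((summable_geometric_of_lt_one hq0 hq1).mul_left _)
      (fun k => (hb k).mul_const _) (Eventually.of_forall fun n k => by
        rw [norm_mul, norm_pow]
        have h3 := tc_bound hB (hF n) (hre n) (h0 n) hr0 h2 k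
        calc ‖tc (F n) k‖ * ‖z‖ ^ k ≤ 2 * B * r / (1 - r) / r ^ k * ‖z‖ ^ k :=
              mul_le_mul_of_nonneg_right h3 (by positivity)
          _ = _ := by rw [div_pow]; ring)
    refine hlim.congr fun n => ?_
    exact tc_sum (hF n) hz
  · rw [hd1]
    refine (hb 1).congr fun n => ?_
    rw [tc_one]

/-- closed slab -/
def cSlab (l : Fin m) (R h ε : ℝ) : Set (EuclideanSpace ℝ (Fin m)) :=
  {x | ‖x‖ ≤ R ∧ |x l - h| ≤ ε}

/-- open slab -/
def oSlab (l : Fin m) (R h ε : ℝ) : Set (EuclideanSpace ℝ (Fin m)) :=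
  {x | ‖x‖ < R ∧ |x l - h| < ε}

lemma abs_apply_le (x : EuclideanSpace ℝ (Fin m)) (j : Fin m) : |x j| ≤ ‖x‖ := by
  rw [← Real.norm_eq_abs]
  exact PiLp.norm_apply_le x j

lemma apply_cont (j : Fin m) : Continuous (fun x : EuclideanSpace ℝ (Fin m) => x j) := by
  fun_prop

lemma cSlab_compact (l : Fin m) (R h ε : ℝ) : IsCompact (cSlab l R h ε) := by
  have h1 : cSlab l R h ε = closedBall 0 R ∩ {x | |x l - h| ≤ ε} := by
    ext x; simp [cSlab]
  rw [h1]
  apply (isCompact_closedBall _ _).inter_right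
  apply isClosed_le _ continuous_const
  have := apply_cont l
  fun_prop

lemma oSlab_open (l : Fin m) (R h ε : ℝ) : IsOpen (oSlab l R h ε) := by
  have h1 : oSlab l R h ε = ball 0 R ∩ {x | |x l - h| < ε} := by
    ext x; simp [oSlab]
  rw [h1]
  apply isOpen_ball.inter
  apply isOpen_lt _ continuous_const
  have := apply_cont l
  fun_prop

/-- the base case -/
lemma base (i : Fin m) : Bd i (closedBall 0 1) 4 := by
  intro F hF hK h0
  have h1 := tc_bound one_pos (hF i) (fun z hz => by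
    have h2 := hK z hz
    rw [mem_closedBall_zero_iff] at h2
    have h3 := abs_apply_le (Rm F z) i
    rw [Rm_apply] at h3
    exact (le_abs_self _).trans (h3.trans h2)) (h0 i) (r := 1 / 2) (by norm_num) (by norm_num) 1
  rw [tc_one] at h1
  norm_num at h1
  exact (Complex.re_le_norm _).trans h1

/-- the inductive step -/
lemma step {i l : Fin m} {K : Set (EuclideanSpace ℝ (Fin m))} {M : ℝ} (hK : IsCompact K)
    (hM : Bd i K M) {R h : ℝ} (hh : h ≠ 0) {δ : ℝ} (hδ : 0 < δ) :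
    ∃ ε > 0, Bd i (K ∪ cSlab l R h ε) (M + δ) := by
  by_contra hcon
  push Not at hcon
  have hex : ∀ n : ℕ, ∃ F : Fin m → ℂ → ℂ, (∀ j, DifferentiableOn ℂ (F j) (ball 0 1)) ∧
      (∀ z ∈ ball (0 : ℂ) 1, Rm F z ∈ K ∪ cSlab l R h (1 / ((n : ℝ) + 1))) ∧ (∀ j, F j 0 = 0) ∧
      M + δ < (deriv (F i) 0).re := by
    intro n
    have h1 := hcon (1 / ((n : ℝ) + 1)) (by positivity)
    unfold Bd at h1
    push Not at h1
    obtain ⟨F, h2, h3, h4, h5⟩ := h1
    exact ⟨F, h2, h3, h4, h5⟩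
  choose F hF hFK hF0 hFd using hex
  -- a common bound
  obtain ⟨B0, hB0⟩ := hK.isBounded.subset_closedBall 0
  set B := max (max B0 R) 1 with hB
  have hBpos : 0 < B := lt_of_lt_of_le one_pos (le_max_right _ _)
  have hre : ∀ n j, ∀ z ∈ ball (0 : ℂ) 1, (F n j z).re ≤ B := by
    intro n j z hz
    have h1 : ‖Rm (F n) z‖ ≤ B := by
      rcases hFK n z hz with h2 | h2
      · have := hB0 h2
        rw [mem_closedBall_zero_iff] at this
        exact this.trans ((le_max_left _ _).trans (le_max_left _ _))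
      · exact h2.1.trans ((le_max_right _ _).trans (le_max_left _ _))
    have h3 := abs_apply_le (Rm (F n) z) j
    rw [Rm_apply] at h3
    exact (le_abs_self _).trans (h3.trans h1)
  -- the limit
  let U : Ultrafilter ℕ := hyperfilter ℕ
  have hUat : (U : Filter ℕ) ≤ atTop := by
    rw [← Nat.cofinite_eq_atTop]
    exact hyperfilter_le_cofinite
  have hnorm := fun j => normal hBpos U (fun n => F n j) (fun n => hF n j) (fun n => hre n j)
    (fun n => hF0 n j)
  choose G hGd hG0 hGlim hGder using hnorm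
  have hRm : ∀ z ∈ ball (0 : ℂ) 1, Tendsto (fun n => Rm (F n) z) U (𝓝 (Rm G z)) := by
    intro z hz
    have h1 : Tendsto (fun n => (fun j => (F n j z).re : Fin m → ℝ)) U (𝓝 fun j => (G j z).re) := by
      rw [tendsto_pi_nhds]
      intro j
      exact (Complex.continuous_re.tendsto _).comp (hGlim j z hz)
    have h2 : Continuous (WithLp.toLp 2 : (Fin m → ℝ) → EuclideanSpace ℝ (Fin m)) :=
      PiLp.continuous_toLp 2 _
    exact (h2.tendsto _).comp h1
  have hdich : ∀ z ∈ ball (0 : ℂ) 1, Rm G z ∈ K ∨ (G l z).re = h := by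
    intro z hz
    by_cases hin : Rm G z ∈ K
    · exact Or.inl hin
    right
    have h1 : ∀ᶠ n in (U : Filter ℕ), Rm (F n) z ∉ K :=
      (hRm z hz).eventually (hK.isClosed.isOpen_compl.mem_nhds hin)
    have h2 : ∀ᶠ n in (U : Filter ℕ), |(F n l z).re - h| ≤ 1 / ((n : ℝ) + 1) := by
      filter_upwards [h1] with n hn
      rcases hFK n z hz with h3 | h3
      · exact absurd h3 hn
      · exact h3.2
    have h3 : Tendsto (fun n => |(F n l z).re - h|) U (𝓝 (|(G l z).re - h|)) :=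
      (((Complex.continuous_re.tendsto _).comp (hGlim l z hz)).sub_const h).abs
    have h4 : Tendsto (fun n : ℕ => 1 / ((n : ℝ) + 1)) U (𝓝 0) :=
      tendsto_one_div_add_atTop_nhds_zero_nat.mono_left hUat
    have h5 := le_of_tendsto_of_tendsto h3 h4 h2
    have h6 := abs_eq_zero.1 (le_antisymm h5 (abs_nonneg _))
    linarith
  have hcont : ContinuousOn (fun z => Rm G z) (ball 0 1) := by
    have h1 : ContinuousOn (fun z => (fun j => (G j z).re : Fin m → ℝ)) (ball 0 1) := by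
      rw [continuousOn_pi]
      intro j
      exact Complex.continuous_re.comp_continuousOn (hGd j).continuousOn
    have h2 : Continuous (WithLp.toLp 2 : (Fin m → ℝ) → EuclideanSpace ℝ (Fin m)) :=
      PiLp.continuous_toLp 2 _
    exact h2.comp_continuousOn h1
  have hGK : ∀ z ∈ ball (0 : ℂ) 1, Rm G z ∈ K := by
    intro z0 hz0
    by_contra hnot
    have h1 : ∀ᶠ z in 𝓝 z0, Rm G z ∉ K := by
      have h2 := (hcont.continuousAt (isOpen_ball.mem_nhds hz0)).eventually
        (hK.isClosed.isOpen_compl.mem_nhds hnot)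
      exact h2
    have h2 : (fun z => (G l z).re) =ᶠ[𝓝 z0] fun _ => h := by
      filter_upwards [h1, isOpen_ball.mem_nhds hz0] with z hz1 hz2
      exact (hdich z hz2).resolve_left hz1
    have h3 : AnalyticOnNhd ℝ (fun z => (G l z).re) (ball 0 1) := by
      intro z hz
      have h4 : AnalyticAt ℂ (G l) z := (hGd l).analyticAt (isOpen_ball.mem_nhds hz)
      exact (Complex.reCLM.analyticAt (G l z)).comp h4.restrictScalars
    have h5 := h3.eqOn_of_preconnected_of_eventuallyEq analyticOnNhd_const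
      (convex_ball (0 : ℂ) 1).isPreconnected hz0 h2
    have h6 := h5 (mem_ball_self one_pos)
    simp only [hG0 l, Complex.zero_re] at h6
    exact hh h6.symm
  have h1 := hM G hGd hGK hG0
  have h2 : Tendsto (fun n => (deriv (F n i) 0).re) U (𝓝 (deriv (G i) 0).re) :=
    (Complex.continuous_re.tendsto _).comp (hGder i)
  have h3 : M + δ ≤ (deriv (G i) 0).re :=
    ge_of_tendsto h2 (Eventually.of_forall fun n => (hFd n).le)
  linarith

end Q80.MinMetric
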