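import Mathlib
import Pool.Agent.Q80.Legendre

/-!
# Sequences of odd polynomial degree are not Legendre multiplier sequences
-/

open Polynomial Filter Topology

namespace Q80.Leg

/-! ### Taylor coordinates at `x = -1` -/

/-- `c f i = 2^i f^{(i)}(-1)` -/
noncomputable def cL : ℝ[X] →ₗ[ℝ] (ℕ → ℝ) where
  toFun f i := 2 ^ i * (derivative^[i] f).eval (-1)
  map_add' f g := by
    funext i
    rw [Pi.add_apply, iterate_map_add, eval_add, mul_add]
  map_smul' a f := by
    funext i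
    rw [Pi.smul_apply, iterate_derivative_smul, eval_smul, RingHom.id_apply, smul_eq_mul, smul_eq_mul]
    ring

lemma cL_apply (f : ℝ[X]) (i : ℕ) : cL f i = 2 ^ i * (derivative^[i] f).eval (-1) := rfl

lemma cL_DL (f : ℝ[X]) (i : ℕ) :
    cL (DL f) i = ((i : ℝ) + 1) * (i * cL f i - cL f (i + 1)) := by
  rw [cL_apply, cL_apply, cL_apply]
  have : DL f = Dop f := rfl
  rw [this, iterate_Dop]
  simp only [eval_add, eval_mul, eval_sub, eval_pow, eval_X, eval_one, eval_C]
  rw [pow_succ]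
  ring

/-- `𝒟 = D + 1/4`, with eigenvalues `(k + 1/2)²` -/
noncomputable def DD : Module.End ℝ ℝ[X] := DL + (1 / 4 : ℝ) • LinearMap.id

/-- the action of `𝒟` on the coordinates -/
noncomputable def SS : Module.End ℝ (ℕ → ℝ) where
  toFun h i := ((i : ℝ) + 1 / 2) ^ 2 * h i - ((i : ℝ) + 1) * h (i + 1)
  map_add' f g := by
    funext i
    simp only [Pi.add_apply]; ring
  map_smul' a f := by
    funext i
    simp only [Pi.smul_apply, smul_eq_mul, RingHom.id_apply]; ring

lemma SS_apply (h : ℕ → ℝ) (i : ℕ) :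
    SS h i = ((i : ℝ) + 1 / 2) ^ 2 * h i - ((i : ℝ) + 1) * h (i + 1) := rfl

lemma cL_DD (f : ℝ[X]) : cL (DD f) = SS (cL f) := by
  funext i
  have : DD f = DL f + (1 / 4 : ℝ) • f := rfl
  rw [this, map_add, map_smul, Pi.add_apply, Pi.smul_apply, cL_DL, SS_apply, smul_eq_mul]
  ring

/-- intertwining passes to polynomials -/
lemma intertwine {V U : Type*} [AddCommGroup V] [Module ℝ V] [AddCommGroup U] [Module ℝ U]
    (A : Module.End ℝ V) (B : Module.End ℝ U) (T : V →ₗ[ℝ] U) (h : ∀ v, T (A v) = B (T v))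
    (O : ℝ[X]) (v : V) : T (aeval A O v) = aeval B O (T v) := by
  induction O using Polynomial.induction_on' with
  | add p q hp hq =>
    rw [map_add, map_add, LinearMap.add_apply, LinearMap.add_apply, map_add, hp, hq]
  | monomial n a =>
    have hpow : ∀ (n : ℕ) (v : V), T ((A ^ n) v) = (B ^ n) (T v) := by
      intro n
      induction n with
      | zero => intro v; simp
      | succ n ih => intro v; rw [pow_succ, pow_succ, Module.End.mul_apply, Module.End.mul_apply, ih, h]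
    rw [← C_mul_X_pow_eq_monomial]
    simp only [map_mul, map_pow, aeval_X, aeval_C, Module.End.mul_apply,
      Module.algebraMap_end_apply, map_smul, hpow]

lemma SS_continuous : Continuous (SS : (ℕ → ℝ) → (ℕ → ℝ)) := by
  apply continuous_pi
  intro i
  have : (fun h : ℕ → ℝ => SS h i) = fun h => ((i : ℝ) + 1 / 2) ^ 2 * h i - ((i : ℝ) + 1) * h (i + 1) := rfl
  rw [this]
  fun_prop

lemma aeval_SS_continuous (O : ℝ[X]) : Continuous (aeval SS O : (ℕ → ℝ) → (ℕ → ℝ)) := by
  induction O using Polynomial.induction_on' with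
  | add p q hp hq =>
    have : (aeval SS (p + q) : (ℕ → ℝ) → (ℕ → ℝ)) = fun h => aeval SS p h + aeval SS q h := by
      funext h; rw [map_add, LinearMap.add_apply]
    rw [this]; exact hp.add hq
  | monomial n a =>
    have hpow : ∀ n : ℕ, Continuous ((SS ^ n : Module.End ℝ (ℕ → ℝ)) : (ℕ → ℝ) → (ℕ → ℝ)) := by
      intro n
      induction n with
      | zero => exact continuous_id
      | succ n ih =>
        have : ((SS ^ (n + 1) : Module.End ℝ (ℕ → ℝ)) : (ℕ → ℝ) → (ℕ → ℝ)) =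
            (SS ^ n : Module.End ℝ (ℕ → ℝ)) ∘ SS := by
          funext h; rw [pow_succ, Module.End.mul_apply]; rfl
        rw [this]; exact ih.comp SS_continuous
    have : (aeval SS (monomial n a) : (ℕ → ℝ) → (ℕ → ℝ)) = fun h => a • (SS ^ n : Module.End ℝ (ℕ → ℝ)) h := by
      funext h
      rw [← C_mul_X_pow_eq_monomial]
      simp only [map_mul, map_pow, aeval_X, aeval_C, Module.End.mul_apply, Module.algebraMap_end_apply]
    rw [this]
    exact (hpow n).const_smul a

/-! ### The operator `κ = k + 1/2` on `(1+x)^n` -/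

/-- `(1 + x)^n` -/
noncomputable def uu (n : ℕ) : ℝ[X] := (X + 1) ^ n

lemma DL_uu (n : ℕ) : DL (uu n) = ((n : ℝ) * (n + 1)) • uu n - (2 * (n : ℝ) ^ 2) • uu (n - 1) := by
  have h : DL (uu n) = Dop (uu n) := rfl
  rw [h]
  unfold Dop uu
  rcases n with _ | _ | n
  · simp
  · simp [smul_eq_C_mul, c2]
    norm_num
  · simp only [smul_eq_C_mul, Nat.add_sub_cancel]
    have e1 : derivative ((X + 1 : ℝ[X]) ^ (n + 1 + 1)) = C ((n : ℝ) + 2) * (X + 1) ^ (n + 1) := by
      rw [derivative_pow]; simp [c2]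
      left; ring
    rw [e1, derivative_mul, derivative_mul, derivative_pow]
    simp
    ring_nf
    simp [c2]
    ring

variable {P : ℕ → ℝ[X]} (hP : IsLegendre P) {K : ℝ[X] →ₗ[ℝ] ℝ[X]}
  (hK : ∀ k, K (P k) = ((k : ℝ) + 1 / 2) • P k)

include hP hK

lemma K_DL (f : ℝ[X]) : K (DL f) = DL (K f) := by
  have : K ∘ₗ DL = DL ∘ₗ K := by
    apply LinearMap.ext_on (span_legendre hP)
    rintro _ ⟨k, rfl⟩
    have h1 : DL (P k) = ((k : ℝ) * (k + 1)) • P k := Dop_legendre hP k
    rw [LinearMap.comp_apply, LinearMap.comp_apply, h1, hK, map_smul, map_smul, hK, h1, smul_smul,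
      smul_smul, mul_comm]
  exact congrFun (congrArg DFunLike.coe this) f

/-- `x n i`: the coordinates of `K (1+x)^n` -/
lemma rec_x (n i : ℕ) : ((n : ℝ) * (n + 1) - i * (i + 1)) * cL (K (uu n)) i +
    ((i : ℝ) + 1) * cL (K (uu n)) (i + 1) = 2 * (n : ℝ) ^ 2 * cL (K (uu (n - 1))) i := by
  have h1 := cL_DL (K (uu n)) i
  rw [← K_DL hP hK, DL_uu, map_sub, map_smul, map_smul, map_sub, map_smul, map_smul, Pi.sub_apply,
    Pi.smul_apply, Pi.smul_apply, smul_eq_mul, smul_eq_mul] at h1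
  linarith

lemma K_coeff (n : ℕ) {p : ℝ[X]} (hp : p.degree ≤ n) :
    (K p).degree ≤ n ∧ (K p).coeff n = ((n : ℝ) + 1 / 2) * p.coeff n := by
  let S : Polynomial.Sequence ℝ := ⟨P, fun k => (hP k).1⟩
  have hu : ∀ i, IsUnit (S i).leadingCoeff := fun i =>
    (leadingCoeff_ne_zero.2 (S.ne_zero i)).isUnit
  have hmem : p ∈ Submodule.span ℝ (S '' Set.Iic n) := by
    rw [S.span_degreeLE (fun i _ => hu i)]
    exact mem_degreeLE.2 hp
  induction hmem using Submodule.span_induction with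
  | mem x hx =>
    obtain ⟨k, hk, rfl⟩ := hx
    have hk' : k ≤ n := hk
    have hSk : S k = P k := rfl
    rw [hSk, hK]
    refine ⟨(degree_smul_le _ _).trans ?_, ?_⟩
    · rw [(hP k).1]; exact_mod_cast hk'
    · rw [coeff_smul, smul_eq_mul]
      rcases hk'.eq_or_lt with h | h
      · rw [h]
      · rw [coeff_eq_zero_of_degree_lt (by rw [(hP k).1]; exact_mod_cast h)]; ring
  | zero => simp
  | add x y hx hy ihx ihy =>
    have hx' : x.degree ≤ n := by
      rw [S.span_degreeLE (fun i _ => hu i)] at hx; exact mem_degreeLE.1 hx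
    have hy' : y.degree ≤ n := by
      rw [S.span_degreeLE (fun i _ => hu i)] at hy; exact mem_degreeLE.1 hy
    obtain ⟨h1, h2⟩ := ihx hx'
    obtain ⟨h3, h4⟩ := ihy hy'
    rw [map_add]
    refine ⟨(degree_add_le _ _).trans (max_le h1 h3), ?_⟩
    rw [coeff_add, coeff_add, h2, h4]; ring
  | smul a x hx ih =>
    have hx' : x.degree ≤ n := by
      rw [S.span_degreeLE (fun i _ => hu i)] at hx; exact mem_degreeLE.1 hx
    obtain ⟨h1, h2⟩ := ih hx'
    rw [map_smul]
    refine ⟨(degree_smul_le _ _).trans h1, ?_⟩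
    rw [coeff_smul, coeff_smul, h2, smul_eq_mul, smul_eq_mul]; ring

lemma top_x (n : ℕ) : cL (K (uu n)) n = 2 ^ n * (n.factorial * ((n : ℝ) + 1 / 2)) := by
  have hdeg : (uu n).degree ≤ n := by
    unfold uu
    have h1 : (X + 1 : ℝ[X]).degree = 1 := by
      have : (X + 1 : ℝ[X]) = X + C 1 := by simp
      rw [this, degree_X_add_C]
    rw [degree_pow, h1]; simp
  obtain ⟨h1, h2⟩ := K_coeff hP hK n hdeg
  have hc : (uu n).coeff n = 1 := by
    unfold uu
    rw [coeff_X_add_one_pow, Nat.choose_self]; simp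
  rw [hc, mul_one] at h2
  have hnat : (K (uu n)).natDegree ≤ n := natDegree_le_of_degree_le h1
  have h3 : derivative^[n] (K (uu n)) = C ((n.factorial : ℝ) * ((n : ℝ) + 1 / 2)) := by
    have h4 : (derivative^[n] (K (uu n))).natDegree ≤ 0 := by
      refine (natDegree_iterate_derivative _ n).trans ?_
      omega
    rw [eq_C_of_natDegree_le_zero h4, coeff_iterate_derivative, zero_add, h2,
      Nat.descFactorial_self, nsmul_eq_mul]
  rw [cL_apply, h3, eval_C]

omit hP hK

/-- the closed form of the coordinates -/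
noncomputable def T (n : ℝ) (i : ℕ) : ℝ :=
  (∏ l ∈ Finset.range i, (2 * (l : ℝ) + 3) * (n - l)) / ∏ l ∈ Finset.range (i + 1), (2 * n - 1 - 2 * l)

lemma den_ne (n l : ℕ) : (2 * (n : ℝ) - 1 - 2 * l) ≠ 0 := by
  intro h
  have h1 : ((2 * (n : ℤ) - 1 - 2 * l : ℤ) : ℝ) = 0 := by push_cast; exact h
  have h2 : (2 * (n : ℤ) - 1 - 2 * l : ℤ) = 0 := by exact_mod_cast h1
  omega

lemma T_succ (n i : ℕ) : T n (i + 1) * (2 * (n : ℝ) - 1 - 2 * ((i : ℝ) + 1)) =
    T n i * ((2 * (i : ℝ) + 3) * (n - i)) := by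
  unfold T
  rw [Finset.prod_range_succ, Finset.prod_range_succ (n := i + 1)]
  have h1 : ∏ l ∈ Finset.range (i + 1), (2 * (n : ℝ) - 1 - 2 * l) ≠ 0 :=
    Finset.prod_ne_zero_iff.2 fun l _ => den_ne n l
  have h2 := den_ne n (i + 1)
  push_cast at h2 ⊢
  field_simp

lemma T_shift (n i : ℕ) : T ((n : ℝ) - 1) i * (n * (2 * (n : ℝ) - 3 - 2 * i)) * 1 =
    T n i * ((n - i) * (2 * n - 1)) := by
  unfold T
  have hn1 : ∀ i : ℕ, (n : ℝ) * ∏ l ∈ Finset.range i, (2 * (l : ℝ) + 3) * ((n : ℝ) - 1 - l) =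
      ((n : ℝ) - i) * ∏ l ∈ Finset.range i, (2 * (l : ℝ) + 3) * ((n : ℝ) - l) := by
    intro i
    induction i with
    | zero => simp
    | succ i ih =>
      rw [Finset.prod_range_succ, Finset.prod_range_succ, ← mul_assoc, ih]
      push_cast; ring
  have hn2 : (∏ l ∈ Finset.range (i + 1), (2 * ((n : ℝ) - 1) - 1 - 2 * l)) * (2 * (n : ℝ) - 1) =
      (∏ l ∈ Finset.range (i + 1), (2 * (n : ℝ) - 1 - 2 * l)) * (2 * (n : ℝ) - 3 - 2 * i) := by
    have h1 : ∏ l ∈ Finset.range (i + 2), (2 * (n : ℝ) - 1 - 2 * l) =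
        (∏ l ∈ Finset.range (i + 1), (2 * ((n : ℝ) - 1) - 1 - 2 * l)) * (2 * (n : ℝ) - 1) := by
      rw [Finset.prod_range_succ']
      congr 1
      · apply Finset.prod_congr rfl
        intro l _
        push_cast; ring
      · push_cast; ring
    rw [← h1, Finset.prod_range_succ]
    push_cast; ring
  have h1 : ∏ l ∈ Finset.range (i + 1), (2 * (n : ℝ) - 1 - 2 * l) ≠ 0 :=
    Finset.prod_ne_zero_iff.2 fun l _ => den_ne n l
  have h3 : ∏ l ∈ Finset.range (i + 1), (2 * ((n : ℝ) - 1) - 1 - 2 * l) ≠ 0 := by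
    apply Finset.prod_ne_zero_iff.2
    intro l _
    have := den_ne n (l + 1)
    push_cast at this
    intro h; apply this; linarith
  rw [mul_one, div_mul_eq_mul_div, div_mul_eq_mul_div, div_eq_div_iff h3 h1]
  have h4 := hn1 i
  set A := ∏ l ∈ Finset.range i, (2 * (l : ℝ) + 3) * ((n : ℝ) - 1 - l)
  set B := ∏ l ∈ Finset.range i, (2 * (l : ℝ) + 3) * ((n : ℝ) - l)
  set D1 := ∏ l ∈ Finset.range (i + 1), (2 * ((n : ℝ) - 1) - 1 - 2 * l)
  set D2 := ∏ l ∈ Finset.range (i + 1), (2 * (n : ℝ) - 1 - 2 * l)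
  calc A * (n * (2 * (n : ℝ) - 3 - 2 * i)) * D2 = (n * A) * (D2 * (2 * (n : ℝ) - 3 - 2 * i)) := by ring
    _ = (((n : ℝ) - i) * B) * (D1 * (2 * (n : ℝ) - 1)) := by rw [h4, hn2]
    _ = _ := by ring

lemma T_top (n : ℕ) : T n n = -(2 * (n : ℝ) + 1) * n.factorial := by
  have h1 : ∏ l ∈ Finset.range n, (2 * (l : ℝ) + 3) * ((n : ℝ) - l) =
      (∏ l ∈ Finset.range n, (2 * (l : ℝ) + 3)) * n.factorial := by
    rw [Finset.prod_mul_distrib]
    congr 1
    rw [← Finset.prod_range_reflect, ← Finset.prod_range_add_one_eq_factorial]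
    push_cast
    apply Finset.prod_congr rfl
    intro l hl
    rw [Finset.mem_range] at hl
    have : ((n - 1 - l : ℕ) : ℝ) = n - 1 - l := by
      rw [Nat.cast_sub (by omega), Nat.cast_sub (by omega)]; simp
    rw [this]; ring
  have h2 : ∏ l ∈ Finset.range (n + 1), (2 * (n : ℝ) - 1 - 2 * l) =
      ∏ j ∈ Finset.range (n + 1), (2 * (j : ℝ) - 1) := by
    rw [← Finset.prod_range_reflect]
    apply Finset.prod_congr rfl
    intro l hl
    rw [Finset.mem_range] at hl
    have : ((n + 1 - 1 - l : ℕ) : ℝ) = n - l := by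
      rw [Nat.add_sub_cancel, Nat.cast_sub (by omega)]
    rw [this]; ring
  have h3 : ∀ m : ℕ, (2 * (m : ℝ) + 1) * ∏ j ∈ Finset.range (m + 1), (2 * (j : ℝ) - 1) =
      -∏ l ∈ Finset.range m, (2 * (l : ℝ) + 3) := by
    intro m
    induction m with
    | zero => simp
    | succ m ih =>
      rw [Finset.prod_range_succ (fun j : ℕ => 2 * (j : ℝ) - 1) (m + 1),
        Finset.prod_range_succ (fun l : ℕ => 2 * (l : ℝ) + 3) m]
      push_cast
      have : (2 * ((m : ℝ) + 1) - 1) = 2 * (m : ℝ) + 1 := by ring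
      rw [this]
      linear_combination (2 * (m : ℝ) + 3) * ih
  have h4 : ∏ j ∈ Finset.range (n + 1), (2 * (j : ℝ) - 1) ≠ 0 := by
    rw [← h2]; exact Finset.prod_ne_zero_iff.2 fun l _ => den_ne n l
  unfold T
  rw [h1, h2, div_eq_iff h4]
  have h5 := h3 n
  linear_combination (n.factorial : ℝ) * h5

include hP hK

/-- the closed form -/
lemma x_eq : ∀ n i : ℕ, i ≤ n → cL (K (uu n)) i = -(2 ^ n / 2) * T n i := by
  intro n
  induction n with
  | zero =>
    intro i hi
    have : i = 0 := by omega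
    subst this
    rw [top_x hP hK, T_top]; simp
  | succ n ih =>
    intro i hi
    -- downward induction on `i`
    obtain ⟨j, hj⟩ : ∃ j, i + j = n + 1 := ⟨n + 1 - i, by omega⟩
    induction j generalizing i with
    | zero =>
      have : i = n + 1 := by omega
      rw [this, top_x hP hK, T_top]
      push_cast
      ring
    | succ j ihj =>
      have h1 := ihj (i + 1) (by omega) (by omega)
      have h2 := ih i (by omega)
      have h3 := rec_x hP hK (n + 1) i
      rw [Nat.add_sub_cancel, h1, h2] at h3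
      have h4 := T_succ (n + 1) i
      have h5 := T_shift (n + 1) i
      push_cast at h3 h4 h5 ⊢
      rw [add_sub_cancel_right] at h5
      have hni : (i : ℝ) < n + 1 := by
        have : i < n + 1 := by omega
        exact_mod_cast this
      have hd := den_ne (n + 1) (i + 1)
      push_cast at hd
      have hne : ((n : ℝ) + 1) * (n + 1 + 1) - i * (i + 1) ≠ 0 := by
        have hi0 : (0 : ℝ) ≤ i := Nat.cast_nonneg i
        nlinarith
      apply mul_left_cancel₀ hne
      apply mul_left_cancel₀ hd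
      have hn0 : (n : ℝ) + 1 ≠ 0 := by positivity
      apply mul_left_cancel₀ hn0
      set A := T ((n : ℝ) + 1) i
      set B := T ((n : ℝ) + 1) (i + 1)
      set D := T (n : ℝ) i
      set x := cL (K (uu (n + 1))) i
      have e1 : (2 * ((n : ℝ) + 1) - 3 - 2 * i) = 2 * ((n : ℝ) + 1) - 1 - 2 * (i + 1) := by ring
      rw [e1] at h5
      have hx : ((n : ℝ) + 1) * ((2 * ((n : ℝ) + 1) - 1 - 2 * (i + 1)) *
          ((((n : ℝ) + 1) * (n + 1 + 1) - i * (i + 1)) * x)) =
          ((n : ℝ) + 1) * ((2 * ((n : ℝ) + 1) - 1 - 2 * (i + 1)) *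
          (2 * ((n : ℝ) + 1) ^ 2 * (-(2 ^ n / 2) * D) - ((i : ℝ) + 1) * (-(2 ^ (n + 1) / 2) * B))) := by
        rw [← h3]; ring
      rw [hx]
      have p2 : (2 : ℝ) ^ (n + 1) = 2 * 2 ^ n := by ring
      rw [p2]
      linear_combination (-(2 ^ n / 2) * 2 * ((n : ℝ) + 1) ^ 2) * h5 +
        (((n : ℝ) + 1) * ((i : ℝ) + 1) * (2 * 2 ^ n / 2)) * h4

omit hP hK

/-! ### The limit sequence -/

/-- the limit of the renormalised coordinates of `K (1+x)^n` -/
noncomputable def W (i : ℕ) : ℝ := ∏ l ∈ Finset.range i, ((l : ℝ) + 3 / 2)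

lemma W_pos (i : ℕ) : 0 < W i := by
  unfold W
  exact Finset.prod_pos fun l _ => by positivity

lemma W_succ (i : ℕ) : W (i + 1) = W i * ((i : ℝ) + 3 / 2) := by
  unfold W; rw [Finset.prod_range_succ]

lemma tendsto_factor (l : ℕ) : Tendsto (fun n : ℕ => ((n : ℝ) - l) / (2 * (n : ℝ) - 1 - 2 * l)) atTop
    (𝓝 (1 / 2)) := by
  have h1 : Tendsto (fun n : ℕ => (1 : ℝ) / 2 + 1 / 2 * (1 / (2 * (n : ℝ) - 1 - 2 * l))) atTop
      (𝓝 (1 / 2 + 1 / 2 * 0)) := by
    apply Tendsto.const_add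
    apply Tendsto.const_mul
    simp only [one_div]
    apply Tendsto.inv_tendsto_atTop
    have h2 : Tendsto (fun n : ℕ => 2 * (n : ℝ) + (- 1 - 2 * l)) atTop atTop :=
      tendsto_atTop_add_const_right _ _ (tendsto_natCast_atTop_atTop.const_mul_atTop (by norm_num))
    refine h2.congr fun n => by ring
  rw [mul_zero, add_zero] at h1
  refine h1.congr fun n => ?_
  have := den_ne n l
  field_simp
  ring

lemma tendsto_factor2 (l : ℕ) : Tendsto (fun n : ℕ => (2 * (n : ℝ)) / (2 * (n : ℝ) - 1 - 2 * l)) atTop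
    (𝓝 1) := by
  have h1 : Tendsto (fun n : ℕ => (1 : ℝ) + (1 + 2 * (l : ℝ)) * (1 / (2 * (n : ℝ) - 1 - 2 * l))) atTop
      (𝓝 (1 + (1 + 2 * (l : ℝ)) * 0)) := by
    apply Tendsto.const_add
    apply Tendsto.const_mul
    simp only [one_div]
    apply Tendsto.inv_tendsto_atTop
    have h2 : Tendsto (fun n : ℕ => 2 * (n : ℝ) + (- 1 - 2 * l)) atTop atTop :=
      tendsto_atTop_add_const_right _ _ (tendsto_natCast_atTop_atTop.const_mul_atTop (by norm_num))
    refine h2.congr fun n => by ring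
  rw [mul_zero, add_zero] at h1
  refine h1.congr fun n => ?_
  have := den_ne n l
  field_simp
  ring

lemma tendsto_T (i : ℕ) : Tendsto (fun n : ℕ => 2 * (n : ℝ) * T n i) atTop (𝓝 (W i)) := by
  have h1 : ∀ n : ℕ, 2 * (n : ℝ) * T n i = (2 * (n : ℝ)) / (2 * (n : ℝ) - 1 - 2 * i) *
      ∏ l ∈ Finset.range i, (2 * (l : ℝ) + 3) * (((n : ℝ) - l) / (2 * (n : ℝ) - 1 - 2 * l)) := by
    intro n
    unfold T
    rw [Finset.prod_range_succ]
    have h2 : ∏ l ∈ Finset.range i, (2 * (l : ℝ) + 3) * (((n : ℝ) - l) / (2 * (n : ℝ) - 1 - 2 * l)) =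
        (∏ l ∈ Finset.range i, (2 * (l : ℝ) + 3) * ((n : ℝ) - l)) /
          ∏ l ∈ Finset.range i, (2 * (n : ℝ) - 1 - 2 * l) := by
      rw [← Finset.prod_div_distrib]
      apply Finset.prod_congr rfl
      intro l _
      rw [mul_div_assoc]
    rw [h2]
    have h3 := den_ne n i
    have h4 : ∏ l ∈ Finset.range i, (2 * (n : ℝ) - 1 - 2 * l) ≠ 0 :=
      Finset.prod_ne_zero_iff.2 fun l _ => den_ne n l
    field_simp
  have h5 : Tendsto (fun n : ℕ => (2 * (n : ℝ)) / (2 * (n : ℝ) - 1 - 2 * i) *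
      ∏ l ∈ Finset.range i, (2 * (l : ℝ) + 3) * (((n : ℝ) - l) / (2 * (n : ℝ) - 1 - 2 * l))) atTop
      (𝓝 (1 * ∏ l ∈ Finset.range i, (2 * (l : ℝ) + 3) * (1 / 2))) :=
    (tendsto_factor2 i).mul (tendsto_finsetProd _ fun l _ => (tendsto_factor l).const_mul _)
  have h6 : 1 * ∏ l ∈ Finset.range i, (2 * (l : ℝ) + 3) * (1 / 2) = W i := by
    unfold W
    rw [one_mul]
    apply Finset.prod_congr rfl
    intro l _
    ring
  rw [h6] at h5
  exact h5.congr fun n => (h1 n).symm

/-- the scaling factor -/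
noncomputable def nu (n : ℕ) : ℝ := -(4 * (n : ℝ) / 2 ^ n)

lemma tendsto_uu : Tendsto (fun n => nu n • cL (uu n)) atTop (𝓝 0) := by
  rw [tendsto_pi_nhds]
  intro i
  apply tendsto_const_nhds.congr'
  filter_upwards [eventually_gt_atTop i] with n hn
  rw [Pi.smul_apply, cL_apply]
  unfold uu
  have : (derivative^[i] ((X + 1 : ℝ[X]) ^ n)) = C ((n.descFactorial i : ℝ)) * (X + 1) ^ (n - i) := by
    have h1 : (X + 1 : ℝ[X]) = X + C 1 := by simp
    rw [h1, iterate_derivative_X_add_pow]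
    simp
  rw [this]
  simp
  right; right
  omega

include hP hK in
lemma tendsto_Kuu : Tendsto (fun n => nu n • cL (K (uu n))) atTop (𝓝 W) := by
  rw [tendsto_pi_nhds]
  intro i
  apply (tendsto_T i).congr'
  filter_upwards [eventually_ge_atTop i] with n hn
  rw [Pi.smul_apply, x_eq hP hK n i hn, smul_eq_mul]
  unfold nu
  field_simp
  ring

/-! ### even and odd parts -/

lemma exists_even_odd (R : ℝ[X]) : ∃ E O : ℝ[X], R = E.comp (X ^ 2) + X * O.comp (X ^ 2) := by
  induction R using Polynomial.induction_on' with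
  | add p q hp hq =>
    obtain ⟨E, O, h⟩ := hp
    obtain ⟨E', O', h'⟩ := hq
    refine ⟨E + E', O + O', ?_⟩
    rw [h, h', add_comp, add_comp]; ring
  | monomial n a =>
    rcases Nat.even_or_odd' n with ⟨m, rfl | rfl⟩
    · refine ⟨C a * X ^ m, 0, ?_⟩
      rw [← C_mul_X_pow_eq_monomial]
      simp [← pow_mul]
    · refine ⟨0, C a * X ^ m, ?_⟩
      rw [← C_mul_X_pow_eq_monomial]
      simp [← pow_mul]
      ring

/-- `φ(i) ↦ (i+1/2)² φ(i) - (i+1)(i+3/2) φ(i+1)` -/
noncomputable def LL : Module.End ℝ ℝ[X] where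
  toFun φ := (X + C (1 / 2)) ^ 2 * φ - (X + 1) * (X + C (3 / 2)) * φ.comp (X + 1)
  map_add' f g := by simp only [add_comp]; ring
  map_smul' a f := by
    simp only [smul_eq_C_mul, mul_comp, C_comp, RingHom.id_apply]; ring

lemma LL_apply (φ : ℝ[X]) :
    LL φ = (X + C (1 / 2)) ^ 2 * φ - (X + 1) * (X + C (3 / 2)) * φ.comp (X + 1) := rfl

/-- `φ ↦ (W i φ(i))` -/
noncomputable def Psi : ℝ[X] →ₗ[ℝ] (ℕ → ℝ) where
  toFun φ i := W i * φ.eval (i : ℝ)
  map_add' f g := by funext i; rw [Pi.add_apply, eval_add, mul_add]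
  map_smul' a f := by
    funext i
    rw [Pi.smul_apply, eval_smul, smul_eq_mul, smul_eq_mul, RingHom.id_apply]; ring

lemma Psi_apply (φ : ℝ[X]) (i : ℕ) : Psi φ i = W i * φ.eval (i : ℝ) := rfl

lemma Psi_LL (φ : ℝ[X]) : Psi (LL φ) = SS (Psi φ) := by
  funext i
  rw [Psi_apply, SS_apply, Psi_apply, Psi_apply, LL_apply, W_succ]
  simp only [eval_sub, eval_mul, eval_add, eval_pow, eval_X, eval_C, eval_one, eval_comp]
  push_cast
  ring

lemma Psi_one : Psi 1 = W := by
  funext i; rw [Psi_apply]; simp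


lemma LL_X_pow_coeff (j t : ℕ) :
    (LL (X ^ j)).coeff (j + t + 1) = if t = 0 then -((j : ℝ) + 3 / 2) else 0 := by
  have h1 : LL (X ^ j) = (X ^ 2 + X + C (1 / 4)) * X ^ j -
      ((X + 1) ^ (j + 1) * X + C (3 / 2) * (X + 1) ^ (j + 1)) := by
    rw [LL_apply, X_pow_comp]
    have : (C (1 / 4 : ℝ)) = C (1 / 2) * C (1 / 2) := by rw [← C_mul]; norm_num
    rw [this]
    have h2 : (2 : ℝ[X]) * C (1 / 2) = 1 := by
      rw [← c2, ← C_mul]; norm_num
    linear_combination X * X ^ j * h2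
  rw [h1, coeff_sub, coeff_add, coeff_mul_X, coeff_C_mul, coeff_X_add_one_pow, coeff_X_add_one_pow]
  have h2 : ((X ^ 2 + X + C (1 / 4 : ℝ)) * X ^ j : ℝ[X]).coeff (j + t + 1) =
      (X ^ 2 + X + C (1 / 4 : ℝ) : ℝ[X]).coeff (t + 1) := by
    have : j + t + 1 = (t + 1) + j := by ring
    rw [this, coeff_mul_X_pow]
  rw [h2]
  rcases t with _ | _ | t
  · simp [coeff_X, coeff_C]
    ring
  · simp [coeff_X, coeff_C]
  · simp [coeff_X, coeff_C]
    have h3 : (j + 1).choose (j + (t + 1 + 1)) = 0 := Nat.choose_eq_zero_of_lt (by omega)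
    have h4 : (j + 1).choose (j + (t + 1 + 1) + 1) = 0 := Nat.choose_eq_zero_of_lt (by omega)
    rw [h3, h4]
    simp [coeff_X_pow]

lemma LL_coeff {k : ℕ} {φ : ℝ[X]} (h : φ.natDegree ≤ k) (t : ℕ) :
    (LL φ).coeff (k + t + 1) = if t = 0 then -((k : ℝ) + 3 / 2) * φ.coeff k else 0 := by
  have h1 : φ = ∑ j ∈ Finset.range (k + 1), φ.coeff j • X ^ j := by
    conv_lhs => rw [as_sum_range_C_mul_X_pow' φ (by omega : φ.natDegree < k + 1)]
    simp only [smul_eq_C_mul]
  have h2 : LL φ = ∑ j ∈ Finset.range (k + 1), φ.coeff j • LL (X ^ j) := by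
    conv_lhs => rw [h1]
    rw [map_sum]
    simp only [map_smul]
  rw [h2, finsetSum_coeff, Finset.sum_range_succ, Finset.sum_eq_zero, zero_add, coeff_smul,
    LL_X_pow_coeff]
  · split_ifs <;> simp [smul_eq_mul]; ring
  · intro j hj
    rw [Finset.mem_range] at hj
    have : k + t + 1 = j + (k - j + t) + 1 := by omega
    rw [coeff_smul, this, LL_X_pow_coeff, if_neg (by omega), smul_zero]

lemma LL_degree (φ : ℝ[X]) : (LL φ).degree = φ.degree + 1 := by
  by_cases h0 : φ = 0
  · rw [h0, map_zero, degree_zero]; rfl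
  have h1 : (LL φ).coeff (φ.natDegree + 1) ≠ 0 := by
    have := LL_coeff (le_refl φ.natDegree) 0
    rw [add_zero, if_pos rfl] at this
    rw [this]
    have h2 : φ.coeff φ.natDegree ≠ 0 := leadingCoeff_ne_zero.2 h0
    have h3 : (0 : ℝ) < (φ.natDegree : ℝ) + 3 / 2 := by positivity
    exact mul_ne_zero (by linarith) h2
  rw [degree_eq_natDegree h0]
  apply le_antisymm
  · rw [degree_le_iff_coeff_zero]
    intro m hm
    have hm' : φ.natDegree + 1 < m := by exact_mod_cast hm
    have := LL_coeff (le_refl φ.natDegree) (m - φ.natDegree - 1)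
    rw [if_neg (by omega)] at this
    have e : φ.natDegree + (m - φ.natDegree - 1) + 1 = m := by omega
    rw [e] at this
    exact this
  · have := le_degree_of_ne_zero h1
    exact_mod_cast this

lemma aeval_LL_degree (O : ℝ[X]) : (aeval LL O (1 : ℝ[X])).degree = O.degree := by
  induction O using Polynomial.recOnHorner with
  | M0 => simp
  | MC p a h0 ha ih =>
    rw [map_add, LinearMap.add_apply, aeval_C, Module.algebraMap_end_apply]
    have hC : a • (1 : ℝ[X]) = C a := by rw [smul_eq_C_mul, mul_one]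
    rw [hC]
    by_cases hp : p = 0
    · rw [hp]; simp
    have hpd : 0 < p.degree := by
      rw [← not_le]
      intro h
      apply hp
      rw [eq_C_of_degree_le_zero h, h0, C_0]
    rw [degree_add_eq_left_of_degree_lt (by rw [ih, degree_C ha]; exact hpd),
      degree_add_eq_left_of_degree_lt (by rw [degree_C ha]; exact hpd), ih]
  | MX p hp ih =>
    rw [mul_comm, map_mul, aeval_X, Module.End.mul_apply, LL_degree, ih, mul_comm, degree_mul_X]

/-! ### the contradiction -/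

lemma shift_tendsto {Ph : ℝ[X]} (h : Ph ≠ 0) :
    Tendsto (fun i : ℕ => Ph.eval ((i : ℝ) + 1) / Ph.eval (i : ℝ)) atTop (𝓝 1) := by
  have h1 : (Ph.comp (X + C 1)).natDegree = Ph.natDegree := by
    rw [natDegree_comp, natDegree_X_add_C, mul_one]
  have h2 : (Ph.comp (X + C 1)).leadingCoeff = Ph.leadingCoeff := by
    rw [leadingCoeff_comp (by rw [natDegree_X_add_C]; norm_num), leadingCoeff_X_add_C]; simp
  have h3 : (Ph.comp (X + C 1)).degree = Ph.degree := by
    have : Ph.comp (X + C 1) ≠ 0 := by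
      rw [← leadingCoeff_ne_zero, h2]; exact leadingCoeff_ne_zero.2 h
    rw [degree_eq_natDegree this, degree_eq_natDegree h, h1]
  have h4 := div_tendsto_leadingCoeff_div_of_degree_eq (Ph.comp (X + C 1)) Ph h3
  rw [h2, div_self (leadingCoeff_ne_zero.2 h)] at h4
  have h5 := h4.comp tendsto_natCast_atTop_atTop
  refine h5.congr fun i => ?_
  simp only [Function.comp_apply, eval_comp, eval_add, eval_X, eval_C]

/-- a sequence `M i = W i Ph(i)` is not log-concave -/
lemma not_logconcave {Ph : ℝ[X]} (h : Ph ≠ 0)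
    (hlc : ∀ i : ℕ, Psi Ph i * Psi Ph (i + 2) ≤ Psi Ph (i + 1) ^ 2) : False := by
  set M := Psi Ph with hM
  have h1 : ∀ᶠ i : ℕ in atTop, 1 / 2 < Ph.eval ((i : ℝ) + 1) / Ph.eval (i : ℝ) :=
    (shift_tendsto h).eventually (lt_mem_nhds (by norm_num))
  obtain ⟨N, hN⟩ := eventually_atTop.1 h1
  have hne : ∀ i ≥ N, M i ≠ 0 := by
    intro i hi h0
    rw [hM, Psi_apply] at h0
    have := hN i hi
    rcases mul_eq_zero.1 h0 with h2 | h2
    · exact (W_pos i).ne' h2
    · rw [h2, div_zero] at this; linarith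
  have hratio : ∀ i ≥ N, ((i : ℝ) + 3 / 2) / 2 < M (i + 1) / M i := by
    intro i hi
    have h2 : M (i + 1) / M i = ((i : ℝ) + 3 / 2) * (Ph.eval ((i : ℝ) + 1) / Ph.eval (i : ℝ)) := by
      rw [hM, Psi_apply, Psi_apply, W_succ]
      have := (W_pos i).ne'
      push_cast
      rw [mul_assoc, mul_div_mul_left _ _ this, mul_div_assoc]
    rw [h2]
    have := hN i hi
    have hp : (0 : ℝ) < (i : ℝ) + 3 / 2 := by positivity
    nlinarith
  have hanti : ∀ i ≥ N, M (i + 2) / M (i + 1) ≤ M (i + 1) / M i := by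
    intro i hi
    have h2 := hratio i hi
    have h3 : 0 < M (i + 1) / M i := lt_trans (by positivity) h2
    have h4 := hne i hi
    have h5 := hne (i + 1) (by omega)
    have h6 : 0 < M (i + 1) * M i := by
      have : M (i + 1) * M i = M (i + 1) / M i * M i ^ 2 := by field_simp
      rw [this]; positivity
    have h7 : M (i + 1) / M i - M (i + 2) / M (i + 1) =
        (M (i + 1) ^ 2 - M i * M (i + 2)) / (M (i + 1) * M i) := by
      field_simp
    have h8 : 0 ≤ (M (i + 1) ^ 2 - M i * M (i + 2)) / (M (i + 1) * M i) :=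
      div_nonneg (by linarith [hlc i]) h6.le
    linarith
  have hbound : ∀ j, M (N + j + 1) / M (N + j) ≤ M (N + 1) / M N := by
    intro j
    induction j with
    | zero => exact le_refl _
    | succ j ih => exact (hanti (N + j) (by omega)).trans ih
  obtain ⟨j, hj⟩ := exists_nat_gt (2 * (M (N + 1) / M N))
  have h9 := hratio (N + j) (by omega)
  have h10 := hbound j
  push_cast at h9
  have hN0 : (0 : ℝ) ≤ N := Nat.cast_nonneg N
  linarith

/-- **Main theorem.** -/
theorem exists_bad {P : ℕ → ℝ[X]} (hP : IsLegendre P) {Q : ℝ[X]} (hQ : Odd Q.natDegree)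
    {Γ : ℝ[X] →ₗ[ℝ] ℝ[X]} (hΓ : ∀ k : ℕ, Γ (P k) = Q.eval (k : ℝ) • P k) :
    ∃ n : ℕ, ¬ RR.OnlyReal (Γ ((X + 1) ^ n)) := by
  by_contra hcon
  push Not at hcon
  obtain ⟨K, hK⟩ := exists_mult hP (fun k => (k : ℝ) + 1 / 2)
  obtain ⟨E, O, hEO⟩ := exists_even_odd (Q.comp (X - C (1 / 2)))
  have hO : O ≠ 0 := by
    rintro rfl
    rw [zero_comp, mul_zero, add_zero] at hEO
    have h1 := congrArg natDegree hEO
    rw [natDegree_comp, natDegree_comp, natDegree_X_sub_C, natDegree_X_pow, mul_one] at h1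
    rw [h1] at hQ
    exact (Nat.not_odd_iff_even.2 (even_two.mul_left _)) hQ
  have hDD : ∀ k, DD (P k) = (((k : ℝ) + 1 / 2) ^ 2) • P k := by
    intro k
    have h1 : DL (P k) = ((k : ℝ) * (k + 1)) • P k := Dop_legendre hP k
    have : DD (P k) = DL (P k) + (1 / 4 : ℝ) • P k := rfl
    rw [this, h1, ← add_smul]
    congr 1; ring
  have haev : ∀ (F : ℝ[X]) (k : ℕ), aeval DD F (P k) = F.eval (((k : ℝ) + 1 / 2) ^ 2) • P k := by
    intro F k
    induction F using Polynomial.induction_on' with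
    | add p q hp hq => rw [map_add, LinearMap.add_apply, hp, hq, eval_add, add_smul]
    | monomial n a =>
      have hpow : ∀ n : ℕ, (DD ^ n) (P k) = ((((k : ℝ) + 1 / 2) ^ 2) ^ n) • P k := by
        intro n
        induction n with
        | zero => simp
        | succ n ih =>
          rw [pow_succ' DD, Module.End.mul_apply, ih, map_smul, hDD, smul_smul,
            pow_succ (((k : ℝ) + 1 / 2) ^ 2) n]
      rw [← C_mul_X_pow_eq_monomial]
      simp only [map_mul, map_pow, aeval_X, aeval_C, Module.End.mul_apply,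
        Module.algebraMap_end_apply, hpow, eval_mul, eval_C, eval_pow, eval_X, smul_smul]
  have hdec : ∀ f, Γ f = aeval DD E f + aeval DD O (K f) := by
    intro f
    have : Γ = aeval DD E + aeval DD O ∘ₗ K := by
      apply LinearMap.ext_on (span_legendre hP)
      rintro _ ⟨k, rfl⟩
      rw [LinearMap.add_apply, LinearMap.comp_apply, hΓ, hK, map_smul, haev, haev, smul_smul,
        ← add_smul]
      congr 1
      have h1 := congrArg (eval ((k : ℝ) + 1 / 2)) hEO
      simp only [eval_comp, eval_add, eval_mul, eval_pow, eval_X, eval_sub, eval_C] at h1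
      rw [← h1]
      congr 1; ring
    rw [this]; rfl
  have hlim : Tendsto (fun n => nu n • cL (Γ (uu n))) atTop (𝓝 (aeval SS O W)) := by
    have h1 : ∀ n, nu n • cL (Γ (uu n)) = aeval SS E (nu n • cL (uu n)) +
        aeval SS O (nu n • cL (K (uu n))) := by
      intro n
      rw [hdec, map_add, intertwine DD SS cL cL_DD, intertwine DD SS cL cL_DD, smul_add, map_smul,
        map_smul]
    have h2 := ((aeval_SS_continuous E).tendsto 0).comp tendsto_uu
    have h3 := ((aeval_SS_continuous O).tendsto W).comp (tendsto_Kuu hP hK)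
    have h4 := h2.add h3
    rw [map_zero, zero_add] at h4
    exact h4.congr fun n => (h1 n).symm
  set Ph : ℝ[X] := aeval LL O 1 with hPh
  have hPh0 : Ph ≠ 0 := by
    rw [← degree_ne_bot, hPh, aeval_LL_degree, degree_ne_bot]
    exact hO
  have hM : aeval SS O W = Psi Ph := by
    rw [← Psi_one, hPh, intertwine LL SS Psi Psi_LL]
  rw [hM] at hlim
  apply not_logconcave hPh0
  intro i
  have l0 := (tendsto_pi_nhds.1 hlim) i
  have l1 := (tendsto_pi_nhds.1 hlim) (i + 1)
  have l2 := (tendsto_pi_nhds.1 hlim) (i + 2)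
  refine le_of_tendsto_of_tendsto' (l0.mul l2) (l1.pow 2) fun n => ?_
  have hr : RR.OnlyReal (derivative^[i] (Γ (uu n))) := RR.onlyReal_iterate_derivative (hcon n) i
  have hl := RR.laguerre hr (-1)
  simp only [Pi.smul_apply, smul_eq_mul, cL_apply, Function.iterate_succ_apply'] at hl ⊢
  have e : nu n * (2 ^ i * eval (-1) (derivative^[i] (Γ (uu n)))) *
      (nu n * (2 ^ (i + 2) * eval (-1) (derivative (derivative (derivative^[i] (Γ (uu n))))))) =
      (nu n * 2 ^ (i + 1)) ^ 2 * (eval (-1) (derivative^[i] (Γ (uu n))) *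
        eval (-1) (derivative (derivative (derivative^[i] (Γ (uu n)))))) := by ring
  rw [e]
  nlinarith [mul_le_mul_of_nonneg_left hl (sq_nonneg (nu n * 2 ^ (i + 1)))]

end Q80.Leg
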