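import Mathlib

set_option autoImplicit false

open Complex Metric Set

namespace Pool.Agent.Q80.Scherk

abbrev E3 := EuclideanSpace ℝ (Fin 3)

/-- conformal harmonic discs (C^2 maps) of the unit disc into a set -/
def CH (Ω : Set E3) (f : ℂ → E3) : Prop :=
  ContDiffOn ℝ 2 f (Metric.ball (0 : ℂ) 1) ∧
    (∀ z ∈ Metric.ball (0 : ℂ) 1, f z ∈ Ω) ∧
    (∀ z ∈ Metric.ball (0 : ℂ) 1,
      ‖fderiv ℝ f z (1 : ℂ)‖ = ‖fderiv ℝ f z Complex.I‖ ∧
      inner ℝ (fderiv ℝ f z (1 : ℂ)) (fderiv ℝ f z Complex.I) = 0) ∧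
    (∀ z ∈ Metric.ball (0 : ℂ) 1,
      fderiv ℝ (fun w => fderiv ℝ f w (1 : ℂ)) z (1 : ℂ) +
        fderiv ℝ (fun w => fderiv ℝ f w Complex.I) z Complex.I = 0)

/-- the map with components the real parts -/
noncomputable def gof (Φ : Fin 3 → ℂ → ℂ) (z : ℂ) : E3 := WithLp.toLp 2 (fun j => (Φ j z).re)

noncomputable def Lof (a : Fin 3 → ℂ) : ℂ →L[ℝ] E3 :=
  (EuclideanSpace.equiv (Fin 3) ℝ).symm.toContinuousLinearMap ∘L
    ContinuousLinearMap.pi (fun j => Complex.reCLM ∘L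
      (ContinuousLinearMap.mul ℝ ℂ (a j)))

lemma Lof_apply (a : Fin 3 → ℂ) (v : ℂ) : Lof a v = WithLp.toLp 2 (fun j => (a j * v).re) := by
  ext j
  simp [Lof]

lemma gof_hasFDerivAt (Φ : Fin 3 → ℂ → ℂ) (a : Fin 3 → ℂ) (z : ℂ)
    (h : ∀ j, HasDerivAt (Φ j) (a j) z) : HasFDerivAt (gof Φ) (Lof a) z := by
  rw [← hasFDerivWithinAt_univ, hasFDerivWithinAt_euclidean]
  intro j
  rw [hasFDerivWithinAt_univ]
  have h1 : HasFDerivAt (Φ j) (ContinuousLinearMap.mul ℝ ℂ (a j)) z := by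
    have h0 := (h j).hasFDerivAt.restrictScalars ℝ
    have heq : ContinuousLinearMap.mul ℝ ℂ (a j) = ContinuousLinearMap.restrictScalars ℝ
        (ContinuousLinearMap.toSpanSingleton ℂ (a j)) := by
      apply ContinuousLinearMap.ext
      intro v
      simp [mul_comm]
    rw [heq]
    exact h0
  have h2 := Complex.reCLM.hasFDerivAt.comp z h1
  have heq2 : PiLp.proj 2 (fun _ : Fin 3 => ℝ) j ∘L Lof a
      = Complex.reCLM ∘L (ContinuousLinearMap.mul ℝ ℂ (a j)) := by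
    apply ContinuousLinearMap.ext
    intro v
    simp [Lof]
  have heq3 : (fun x => (gof Φ x).ofLp j) = ⇑reCLM ∘ Φ j := by
    ext x
    simp [gof]
  rw [heq3]
  exact heq2 ▸ h2

lemma gof_fderiv (Φ : Fin 3 → ℂ → ℂ) (a : Fin 3 → ℂ) (z : ℂ)
    (h : ∀ j, HasDerivAt (Φ j) (a j) z) (v : ℂ) :
    fderiv ℝ (gof Φ) z v = WithLp.toLp 2 (fun j => (a j * v).re) := by
  rw [(gof_hasFDerivAt Φ a z h).fderiv, Lof_apply]

theorem gof_CH (Ω : Set E3) (Φ Φ' Φ'' : Fin 3 → ℂ → ℂ)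
    (h1 : ∀ j, ∀ z ∈ ball (0:ℂ) 1, HasDerivAt (Φ j) (Φ' j z) z)
    (h2 : ∀ j, ∀ z ∈ ball (0:ℂ) 1, HasDerivAt (Φ' j) (Φ'' j z) z)
    (hs : ∀ z ∈ ball (0:ℂ) 1, (Φ' 0 z)^2 + (Φ' 1 z)^2 + (Φ' 2 z)^2 = 0)
    (hm : ∀ z ∈ ball (0:ℂ) 1, gof Φ z ∈ Ω) : CH Ω (gof Φ) := by
  refine ⟨?_, hm, ?_, ?_⟩
  · rw [contDiffOn_euclidean]
    intro j
    have hd : DifferentiableOn ℂ (Φ j) (ball 0 1) :=
      fun z hz => (h1 j z hz).differentiableAt.differentiableWithinAt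
    have hc : ContDiffOn ℂ 2 (Φ j) (ball 0 1) := hd.contDiffOn isOpen_ball
    exact Complex.reCLM.contDiff.comp_contDiffOn (hc.restrict_scalars ℝ)
  · intro z hz
    rw [gof_fderiv Φ (fun j => Φ' j z) z (fun j => h1 j z hz),
      gof_fderiv Φ (fun j => Φ' j z) z (fun j => h1 j z hz)]
    have hsz := hs z hz
    have hre := congrArg Complex.re hsz
    have him := congrArg Complex.im hsz
    simp only [pow_two, add_re, add_im, mul_re, mul_im, zero_re, zero_im] at hre him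
    constructor
    · rw [EuclideanSpace.norm_eq, EuclideanSpace.norm_eq]
      congr 1
      simp only [Fin.sum_univ_three, Real.norm_eq_abs, sq_abs, mul_one, mul_re, I_re, I_im,
        mul_zero, zero_sub]
      nlinarith [hre]
    · simp only [PiLp.inner_apply, Fin.sum_univ_three, mul_one, mul_re, I_re, I_im,
        mul_zero, zero_sub, RCLike.inner_apply, conj_trivial]
      nlinarith [him]
  · intro z hz
    have e1 : (fun w => fderiv ℝ (gof Φ) w (1:ℂ)) =ᶠ[nhds z] gof Φ' := by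
      filter_upwards [isOpen_ball.mem_nhds hz] with w hw
      rw [gof_fderiv Φ (fun j => Φ' j w) w (fun j => h1 j w hw)]
      simp [gof]
    have e2 : (fun w => fderiv ℝ (gof Φ) w I) =ᶠ[nhds z] gof (fun j w => Φ' j w * I) := by
      filter_upwards [isOpen_ball.mem_nhds hz] with w hw
      rw [gof_fderiv Φ (fun j => Φ' j w) w (fun j => h1 j w hw)]
      simp [gof]
    rw [e1.fderiv_eq, e2.fderiv_eq, gof_fderiv Φ' (fun j => Φ'' j z) z (fun j => h2 j z hz),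
      gof_fderiv (fun j w => Φ' j w * I) (fun j => Φ'' j z * I) z
        (fun j => (h2 j z hz).mul_const I)]
    ext j
    simp [mul_assoc]

theorem gof_CH' (Ω : Set E3) (Φ Φ' : Fin 3 → ℂ → ℂ)
    (h1 : ∀ j, ∀ z ∈ ball (0:ℂ) 1, HasDerivAt (Φ j) (Φ' j z) z)
    (hs : ∀ z ∈ ball (0:ℂ) 1, (Φ' 0 z)^2 + (Φ' 1 z)^2 + (Φ' 2 z)^2 = 0)
    (hm : ∀ z ∈ ball (0:ℂ) 1, gof Φ z ∈ Ω) : CH Ω (gof Φ) := by
  refine gof_CH Ω Φ Φ' (fun j => deriv (deriv (Φ j))) h1 ?_ hs hm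
  intro j z hz
  have hd : DifferentiableOn ℂ (Φ j) (ball 0 1) :=
    fun z hz => (h1 j z hz).differentiableAt.differentiableWithinAt
  have hd2 : DifferentiableOn ℂ (deriv (Φ j)) (ball 0 1) := hd.deriv isOpen_ball
  have h3 : HasDerivAt (deriv (Φ j)) (deriv (deriv (Φ j)) z) z :=
    ((hd2 z hz).differentiableAt (isOpen_ball.mem_nhds hz)).hasDerivAt
  refine h3.congr_of_eventuallyEq ?_
  filter_upwards [isOpen_ball.mem_nhds hz] with w hw
  exact ((h1 j w hw).deriv).symm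

/-! ### The Scherk disc -/

lemma re_pos (w : ℂ) (hw : ‖w‖ < 1) : 0 < ((1 + w) / (1 - w)).re := by
  have h1 : w.re ^ 2 + w.im ^ 2 < 1 := by
    have := Complex.sq_norm w
    rw [Complex.normSq_apply] at this
    nlinarith [norm_nonneg w]
  have hN : 0 < Complex.normSq (1 - w) := by
    rw [Complex.normSq_pos]
    intro h
    have : w = 1 := by linear_combination -h
    rw [this] at hw
    simp at hw
  rw [Complex.div_re, ← add_div]
  apply div_pos _ hN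
  simp only [add_re, one_re, sub_re, add_im, one_im, sub_im]
  nlinarith

noncomputable def Lf (w : ℂ) : ℂ := Complex.log ((1 + w) / (1 - w))

lemma Lf_zero : Lf 0 = 0 := by simp [Lf]

lemma Lf_deriv (w : ℂ) (hw : ‖w‖ < 1) : HasDerivAt Lf (2 / (1 - w ^ 2)) w := by
  have h1 : (1 - w) ≠ 0 := by
    intro h
    have : w = 1 := by linear_combination -h
    rw [this] at hw
    simp at hw
  have h2 : (1 + w) ≠ 0 := by
    intro h
    have : w = -1 := by linear_combination h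
    rw [this] at hw
    simp at hw
  have h3 : (1 + w) / (1 - w) ∈ Complex.slitPlane := by
    rw [Complex.mem_slitPlane_iff]
    exact Or.inl (re_pos w hw)
  have h4 : HasDerivAt (fun w : ℂ => (1 + w) / (1 - w)) (2 / (1 - w) ^ 2) w := by
    have ha : HasDerivAt (fun w : ℂ => 1 + w) 1 w := (hasDerivAt_id w).const_add 1
    have hb : HasDerivAt (fun w : ℂ => 1 - w) (-1) w := (hasDerivAt_id w).const_sub 1
    have hc := ha.div hb h1
    have hd : (1 * (1 - w) - (1 + w) * -1) / (1 - w) ^ 2 = 2 / (1 - w) ^ 2 := by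
      congr 1
      ring
    rw [hd] at hc
    exact hc
  have h5 : HasDerivAt Lf (2 / (1 - w) ^ 2 / ((1 + w) / (1 - w))) w := h4.clog h3
  have h6 : 2 / (1 - w) ^ 2 / ((1 + w) / (1 - w)) = 2 / (1 - w ^ 2) := by
    rw [show (1 - w ^ 2 : ℂ) = (1 - w) * (1 + w) by ring]
    field_simp
  rw [h6] at h5
  exact h5

lemma Lf_im (w : ℂ) (hw : ‖w‖ < 1) : |(Lf w).im| < Real.pi / 2 := by
  rw [Lf, Complex.log_im, Complex.abs_arg_lt_pi_div_two_iff]
  exact Or.inl (re_pos w hw)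

lemma Lf_re (w : ℂ) (hw : ‖w‖ ≤ 0.9216) : |(Lf w).re| ≤ 23.52 := by
  rw [Lf, Complex.log_re]
  have h1 : ‖1 + w‖ ≤ 1.9216 := by
    have := norm_add_le (1:ℂ) w
    simp only [norm_one] at this
    linarith
  have h2 : 0.0784 ≤ ‖1 - w‖ := by
    have := norm_sub_norm_le (1:ℂ) w
    simp only [norm_one] at this
    linarith
  have h3 : ‖1 - w‖ ≤ 1.9216 := by
    have := norm_sub_le (1:ℂ) w
    simp only [norm_one] at this
    linarith
  have h4 : 0.0784 ≤ ‖1 + w‖ := by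
    have := norm_sub_norm_le (1:ℂ) (-w)
    simp only [norm_one, norm_neg, sub_neg_eq_add] at this
    linarith
  rw [norm_div]
  have p1 : 0 < ‖1 + w‖ := by linarith
  have p2 : 0 < ‖1 - w‖ := by linarith
  rw [abs_le]
  constructor
  · have h := Real.log_le_sub_one_of_pos (div_pos p2 p1)
    have h5 : ‖1 - w‖ / ‖1 + w‖ ≤ 24.52 := by
      rw [div_le_iff₀ p1]
      linarith
    have h6 : Real.log (‖1 + w‖ / ‖1 - w‖) = - Real.log (‖1 - w‖ / ‖1 + w‖) := by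
      rw [← Real.log_inv, inv_div]
    rw [h6]
    linarith
  · have h := Real.log_le_sub_one_of_pos (div_pos p1 p2)
    have h5 : ‖1 + w‖ / ‖1 - w‖ ≤ 24.52 := by
      rw [div_le_iff₀ p2]
      linarith
    linarith

/-- holomorphic data of the Scherk disc -/
noncomputable def Φs (j : Fin 3) (z : ℂ) : ℂ :=
  match j with
  | 0 => -(2 * I / Real.pi) * Lf (I * (0.96 * z))
  | 1 => -(2 * I / Real.pi) * Lf (0.96 * z)
  | 2 => (2 / Real.pi) * Lf ((0.96 * z) ^ 2)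

noncomputable def Φs' (j : Fin 3) (z : ℂ) : ℂ :=
  match j with
  | 0 => 0.96 * (4 / Real.pi) / (1 + (0.96 * z) ^ 2)
  | 1 => -(0.96 * (4 / Real.pi) * I) / (1 - (0.96 * z) ^ 2)
  | 2 => 0.96 * (8 / Real.pi) * (0.96 * z) / (1 - (0.96 * z) ^ 4)

lemma scaled (z : ℂ) (hz : z ∈ ball (0:ℂ) 1) : ‖(0.96 * z : ℂ)‖ ≤ 0.96 := by
  rw [mem_ball_zero_iff] at hz
  rw [norm_mul]
  have : ‖(0.96 : ℂ)‖ = 0.96 := by
    rw [show (0.96 : ℂ) = ((0.96 : ℝ) : ℂ) by push_cast; norm_num, Complex.norm_real]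
    norm_num
  rw [this]
  nlinarith

lemma Φs_deriv (j : Fin 3) (z : ℂ) (hz : z ∈ ball (0:ℂ) 1) : HasDerivAt (Φs j) (Φs' j z) z := by
  have hw := scaled z hz
  have hpi : (Real.pi : ℂ) ≠ 0 := by exact_mod_cast Real.pi_ne_zero
  have hlin : HasDerivAt (fun z : ℂ => 0.96 * z) 0.96 z := by
    simpa using (hasDerivAt_id z).const_mul (0.96 : ℂ)
  have hI : I ^ 2 = -1 := I_sq
  fin_cases j
  · have h1 : ‖I * (0.96 * z)‖ < 1 := by
      rw [norm_mul, norm_I, one_mul]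
      linarith
    have h2 := (Lf_deriv _ h1).comp z (hlin.const_mul I)
    have h3 := h2.const_mul (-(2 * I / (Real.pi : ℂ)))
    have h4 : HasDerivAt (Φs 0) (-(2 * I / ↑Real.pi) * (2 / (1 - (I * (0.96 * z)) ^ 2) * (I * 0.96))) z := h3
    have h5 : (1 - (I * (0.96 * z)) ^ 2) = 1 + (0.96 * z) ^ 2 := by
      rw [mul_pow, hI]; ring
    have h6 : (-(2 * I / ↑Real.pi) * (2 / (1 - (I * (0.96 * z)) ^ 2) * (I * 0.96)))
        = 0.96 * (4 / (Real.pi:ℂ)) / (1 + (0.96 * z) ^ 2) := by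
      rw [h5]
      linear_combination (-4 * 0.96 / (Real.pi:ℂ) / (1 + (0.96 * z) ^ 2)) * hI
    rw [h6] at h4
    exact h4
  · have h1 : ‖(0.96 * z)‖ < 1 := by linarith
    have h2 := (Lf_deriv _ h1).comp z hlin
    have h3 := h2.const_mul (-(2 * I / (Real.pi : ℂ)))
    have h4 : HasDerivAt (Φs 1) (-(2 * I / ↑Real.pi) * (2 / (1 - (0.96 * z) ^ 2) * 0.96)) z := h3
    have h6 : (-(2 * I / ↑Real.pi) * (2 / (1 - (0.96 * z) ^ 2) * 0.96))
        = -(0.96 * (4 / (Real.pi:ℂ)) * I) / (1 - (0.96 * z) ^ 2) := by ring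
    rw [h6] at h4
    exact h4
  · have h1 : ‖(0.96 * z) ^ 2‖ < 1 := by
      rw [norm_pow]
      nlinarith [norm_nonneg (0.96 * z)]
    have hsq : HasDerivAt (fun z : ℂ => (0.96 * z) ^ 2) (2 * (0.96 * z) * 0.96) z := by
      have h := hlin.mul hlin
      have e : (fun z : ℂ => (0.96 * z) ^ 2) = (fun z : ℂ => 0.96 * z) * (fun z : ℂ => 0.96 * z) := by
        ext t
        simp [pow_two]
      rw [e]
      have e2 : (2 * (0.96 * z) * 0.96 : ℂ) = 0.96 * (0.96 * z) + 0.96 * z * 0.96 := by ring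
      rw [e2]
      exact h
    have h2 := (Lf_deriv _ h1).comp z hsq
    have h3 := h2.const_mul (2 / (Real.pi : ℂ))
    have h4 : HasDerivAt (Φs 2) ((2 / ↑Real.pi) * (2 / (1 - ((0.96 * z) ^ 2) ^ 2) * (2 * (0.96 * z) * 0.96))) z := h3
    have h6 : ((2 / ↑Real.pi) * (2 / (1 - ((0.96 * z) ^ 2) ^ 2) * (2 * (0.96 * z) * 0.96)))
        = 0.96 * (8 / (Real.pi:ℂ)) * (0.96 * z) / (1 - (0.96 * z) ^ 4) := by ring
    rw [h6] at h4
    exact h4

lemma Φs_sq (z : ℂ) (hz : z ∈ ball (0:ℂ) 1) :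
    (Φs' 0 z)^2 + (Φs' 1 z)^2 + (Φs' 2 z)^2 = 0 := by
  have hw := scaled z hz
  have hpi : (Real.pi : ℂ) ≠ 0 := by exact_mod_cast Real.pi_ne_zero
  show (0.96 * (4 / (Real.pi:ℂ)) / (1 + (0.96 * z) ^ 2)) ^ 2 + (-(0.96 * (4 / (Real.pi:ℂ)) * I) / (1 - (0.96 * z) ^ 2)) ^ 2
    + (0.96 * (8 / (Real.pi:ℂ)) * (0.96 * z) / (1 - (0.96 * z) ^ 4)) ^ 2 = 0
  generalize (0.96 * z : ℂ) = w at hw ⊢
  have key : ∀ x : ℂ, ‖x‖ < 1 → (1 : ℂ) - x ≠ 0 := by
    intro x hx h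
    have : x = 1 := by linear_combination -h
    rw [this] at hx
    simp at hx
  have h1 : (1 : ℂ) - w ^ 2 ≠ 0 := by
    apply key
    rw [norm_pow]
    nlinarith [norm_nonneg w]
  have h2 : (1 : ℂ) + w ^ 2 ≠ 0 := by
    have := key (-(w^2)) (by rw [norm_neg, norm_pow]; nlinarith [norm_nonneg w])
    simpa using this
  have h3 : (1 : ℂ) - w ^ 4 = (1 - w ^ 2) * (1 + w ^ 2) := by ring
  rw [h3]
  have hI : I ^ 2 = -1 := I_sq
  generalize hA : (1 : ℂ) - w ^ 2 = A at *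
  generalize hB : (1 : ℂ) + w ^ 2 = B at *
  have hw2 : 4 * w ^ 2 = B ^ 2 - A ^ 2 := by rw [← hA, ← hB]; ring
  field_simp
  rw [hI]
  linear_combination (norm := ring1) (0.96 ^ 2 * 16 : ℂ) * hw2

end Pool.Agent.Q80.Scherk
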