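import Mathlib
import Pool.Agent.Q80.Scherk

set_option autoImplicit false

open Complex Metric Set InnerProductSpace

namespace Pool.Agent.Q80.Scherk

/-! ### The domain -/

noncomputable def q (x : E3) : ℝ := (x 0) ^ 8 + (x 1) ^ 8 + (x 2 / 32) ^ 8

noncomputable def ρ (x : E3) : ℝ := q x - (11 / 10) ^ 8

def Om : Set E3 := {x | q x < (11 / 10 : ℝ) ^ 8}

lemma q_contDiff (n : WithTop ℕ∞) : ContDiff ℝ n q := by
  have h : ∀ j : Fin 3, ContDiff ℝ n (fun x : E3 => x j) := fun j =>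
    (EuclideanSpace.proj (𝕜 := ℝ) (ι := Fin 3) j).contDiff
  unfold q
  exact (((h 0).pow 8).add ((h 1).pow 8)).add (((h 2).div_const 32).pow 8)

lemma q_cont : Continuous q := (q_contDiff 0).continuous

lemma Om_open : IsOpen Om := isOpen_lt q_cont continuous_const

lemma Om_bound {x : E3} (hx : x ∈ Om) : |x 0| < 11 / 10 ∧ |x 1| < 11 / 10 ∧ |x 2| < 176 / 5 := by
  have hx' : (x 0) ^ 8 + (x 1) ^ 8 + (x 2 / 32) ^ 8 < (11 / 10 : ℝ) ^ 8 := hx
  have e0 : 0 ≤ (x 0) ^ 8 := by positivity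
  have e1 : 0 ≤ (x 1) ^ 8 := by positivity
  have e2 : 0 ≤ (x 2 / 32) ^ 8 := by positivity
  have key : ∀ t : ℝ, t ^ 8 < (11 / 10 : ℝ) ^ 8 → |t| < 11 / 10 := by
    intro t ht
    have h1 : |t| ^ 8 < (11 / 10 : ℝ) ^ 8 := by
      rw [show |t| ^ 8 = t ^ 8 by rw [← abs_pow]; exact abs_of_nonneg (by positivity)]
      exact ht
    exact lt_of_pow_lt_pow_left₀ 8 (by norm_num) h1
  refine ⟨key _ (by linarith), key _ (by linarith), ?_⟩
  have h := key (x 2 / 32) (by linarith)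
  rw [abs_div, abs_of_pos (by norm_num : (0:ℝ) < 32)] at h
  rw [div_lt_iff₀ (by norm_num)] at h
  linarith

lemma Om_bdd : Bornology.IsBounded Om := by
  refine (Metric.isBounded_closedBall (x := (0 : E3)) (r := 100)).subset ?_
  intro x hx
  obtain ⟨h0, h1, h2⟩ := Om_bound hx
  rw [mem_closedBall_zero_iff, EuclideanSpace.norm_eq]
  rw [Real.sqrt_le_left (by norm_num)]
  simp only [Fin.sum_univ_three, Real.norm_eq_abs]
  nlinarith [abs_nonneg (x 0), abs_nonneg (x 1), abs_nonneg (x 2)]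

lemma q_convex : ConvexOn ℝ univ q := by
  have h8 : ConvexOn ℝ univ (fun t : ℝ => t ^ 8) := Even.convexOn_pow (by decide)
  refine ⟨convex_univ, ?_⟩
  intro x _ y _ a b ha hb hab
  have k := fun s t : ℝ => h8.2 (mem_univ s) (mem_univ t) ha hb hab
  simp only [smul_eq_mul] at k ⊢
  unfold q
  have k0 := k (x 0) (y 0)
  have k1 := k (x 1) (y 1)
  have k2 := k (x 2 / 32) (y 2 / 32)
  simp only [PiLp.add_apply, PiLp.smul_apply, smul_eq_mul]
  have e : (a * x 2 + b * y 2) / 32 = a * (x 2 / 32) + b * (y 2 / 32) := by ring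
  rw [e]
  linarith

lemma Om_convex : Convex ℝ Om := by
  have := q_convex.convex_lt ((11 / 10 : ℝ) ^ 8)
  simpa [Om] using this

lemma q_hom (t : ℝ) (x : E3) : q (t • x) = t ^ 8 * q x := by
  unfold q
  simp only [PiLp.smul_apply, smul_eq_mul]
  ring

lemma rho_fderiv (x : E3) (hx : x ∈ frontier Om) : fderiv ℝ ρ x ≠ 0 := by
  have h1 : q x = (11 / 10 : ℝ) ^ 8 := frontier_lt_subset_eq q_cont continuous_const hx
  intro h0
  have hd : DifferentiableAt ℝ ρ x :=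
    (((q_contDiff 1).differentiable (by simp)) x).sub_const _
  have h2 : HasDerivAt (fun t : ℝ => t • x) x 1 := by
    simpa using (hasDerivAt_id (1:ℝ)).smul_const x
  have h3 : HasFDerivAt ρ (fderiv ℝ ρ x) ((1:ℝ) • x) := by
    rw [one_smul]
    exact hd.hasFDerivAt
  have h4 := h3.comp_hasDerivAt (1:ℝ) h2
  rw [h0] at h4
  have h5 : HasDerivAt (fun t : ℝ => t ^ 8 * q x - (11 / 10 : ℝ) ^ 8) (8 * q x) 1 := by
    have := (((hasDerivAt_id (1:ℝ)).pow 8).mul_const (q x)).sub_const ((11 / 10 : ℝ) ^ 8)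
    simpa using this
  have h6 : (ρ ∘ fun t : ℝ => t • x) = (fun t : ℝ => t ^ 8 * q x - (11 / 10 : ℝ) ^ 8) := by
    ext t
    simp only [Function.comp, ρ, q_hom]
  rw [h6] at h4
  have h7 := h4.unique h5
  rw [h1] at h7
  norm_num at h7

/-! ### The competitor -/

lemma Φs_mem (z : ℂ) (hz : z ∈ ball (0:ℂ) 1) : gof Φs z ∈ Om := by
  have hw := scaled z hz
  have hpi := Real.pi_pos
  have hpi3 := Real.pi_gt_three
  have e0 : (gof Φs z) 0 = (2 / Real.pi) * (Lf (I * (0.96 * z))).im := by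
    show (Φs 0 z).re = _
    show (-(2 * I / (Real.pi:ℂ)) * Lf (I * (0.96 * z))).re = _
    have : (-(2 * I / (Real.pi:ℂ))) = ((-(2 / Real.pi) : ℝ) : ℂ) * I := by push_cast; ring
    rw [this, mul_assoc, Complex.re_ofReal_mul, Complex.I_mul_re]
    ring
  have e1 : (gof Φs z) 1 = (2 / Real.pi) * (Lf (0.96 * z)).im := by
    show (Φs 1 z).re = _
    show (-(2 * I / (Real.pi:ℂ)) * Lf (0.96 * z)).re = _
    have : (-(2 * I / (Real.pi:ℂ))) = ((-(2 / Real.pi) : ℝ) : ℂ) * I := by push_cast; ring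
    rw [this, mul_assoc, Complex.re_ofReal_mul, Complex.I_mul_re]
    ring
  have e2 : (gof Φs z) 2 = (2 / Real.pi) * (Lf ((0.96 * z) ^ 2)).re := by
    show (Φs 2 z).re = _
    show ((2 / (Real.pi:ℂ)) * Lf ((0.96 * z) ^ 2)).re = _
    have : (2 / (Real.pi:ℂ)) = ((2 / Real.pi : ℝ) : ℂ) := by push_cast; ring
    rw [this, Complex.re_ofReal_mul]
  have b : ∀ t : ℝ, |t| < Real.pi / 2 → |2 / Real.pi * t| < 1 := by
    intro t ht
    rw [abs_mul, abs_of_pos (by positivity : 0 < 2 / Real.pi)]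
    rw [div_mul_eq_mul_div, div_lt_one hpi]
    linarith
  have h0 : |(gof Φs z) 0| < 1 := by
    rw [e0]
    apply b
    apply Lf_im
    rw [norm_mul, norm_I, one_mul]
    linarith
  have h1 : |(gof Φs z) 1| < 1 := by
    rw [e1]
    apply b
    apply Lf_im
    linarith
  have h2 : |(gof Φs z) 2| ≤ 16 := by
    rw [e2, abs_mul, abs_of_pos (by positivity : 0 < 2 / Real.pi)]
    have h3 : |(Lf ((0.96 * z) ^ 2)).re| ≤ 23.52 := by
      apply Lf_re
      rw [norm_pow]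
      nlinarith [norm_nonneg (0.96 * z)]
    rw [div_mul_eq_mul_div, div_le_iff₀ hpi]
    norm_num at h3
    linarith
  have k : ∀ t s : ℝ, 0 ≤ s → |t| ≤ s → t ^ 8 ≤ s ^ 8 := by
    intro t s hs ht
    calc t ^ 8 = |t| ^ 8 := by rw [← abs_pow, abs_of_nonneg (by positivity)]
      _ ≤ s ^ 8 := pow_le_pow_left₀ (abs_nonneg _) ht 8
  show q (gof Φs z) < _
  unfold q
  have g0 := k _ 1 (by norm_num) h0.le
  have g1 := k _ 1 (by norm_num) h1.le
  have g2 := k ((gof Φs z) 2 / 32) (1 / 2) (by norm_num) (by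
    rw [abs_div, abs_of_pos (by norm_num : (0:ℝ) < 32), div_le_iff₀ (by norm_num)]
    linarith)
  have : (1:ℝ) ^ 8 + 1 ^ 8 + (1 / 2) ^ 8 < (11 / 10 : ℝ) ^ 8 := by norm_num
  linarith

theorem scherk_CH : CH Om (gof Φs) := gof_CH' Om Φs Φs' Φs_deriv Φs_sq Φs_mem

lemma scherk_zero : gof Φs 0 = 0 := by
  ext j
  fin_cases j
  · show (Φs 0 0).re = 0
    show (-(2 * I / (Real.pi:ℂ)) * Lf (I * (0.96 * 0))).re = 0
    simp [Lf_zero]
  · show (Φs 1 0).re = 0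
    show (-(2 * I / (Real.pi:ℂ)) * Lf (0.96 * 0)).re = 0
    simp [Lf_zero]
  · show (Φs 2 0).re = 0
    show ((2 / (Real.pi:ℂ)) * Lf ((0.96 * 0) ^ 2)).re = 0
    simp [Lf_zero]

lemma scherk_d1 : fderiv ℝ (gof Φs) 0 (1:ℂ) = (0.96 * (4 / Real.pi)) • EuclideanSpace.single (0 : Fin 3) (1:ℝ) := by
  rw [gof_fderiv Φs (fun j => Φs' j 0) 0 (fun j => Φs_deriv j 0 (by simp))]
  ext j
  fin_cases j
  · show (Φs' 0 0 * 1).re = _
    show ((0.96 * (4 / (Real.pi:ℂ)) / (1 + (0.96 * 0) ^ 2)) * 1).re = _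
    have : ((0.96 * (4 / (Real.pi:ℂ)) / (1 + (0.96 * 0) ^ 2)) * 1) = ((0.96 * (4 / Real.pi) : ℝ) : ℂ) := by
      push_cast; ring
    rw [this, Complex.ofReal_re]
    simp
  · show (Φs' 1 0 * 1).re = _
    show ((-(0.96 * (4 / (Real.pi:ℂ)) * I) / (1 - (0.96 * 0) ^ 2)) * 1).re = _
    have : ((-(0.96 * (4 / (Real.pi:ℂ)) * I) / (1 - (0.96 * 0) ^ 2)) * 1) = ((-(0.96 * (4 / Real.pi)) : ℝ) : ℂ) * I := by
      push_cast; ring
    rw [this, Complex.re_ofReal_mul]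
    simp
  · show (Φs' 2 0 * 1).re = _
    show ((0.96 * (8 / (Real.pi:ℂ)) * (0.96 * 0) / (1 - (0.96 * 0) ^ 4)) * 1).re = _
    simp

lemma scherk_dI : fderiv ℝ (gof Φs) 0 I = (0.96 * (4 / Real.pi)) • EuclideanSpace.single (1 : Fin 3) (1:ℝ) := by
  rw [gof_fderiv Φs (fun j => Φs' j 0) 0 (fun j => Φs_deriv j 0 (by simp))]
  have hI : I ^ 2 = -1 := I_sq
  ext j
  fin_cases j
  · show (Φs' 0 0 * I).re = _
    show ((0.96 * (4 / (Real.pi:ℂ)) / (1 + (0.96 * 0) ^ 2)) * I).re = _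
    have : ((0.96 * (4 / (Real.pi:ℂ)) / (1 + (0.96 * 0) ^ 2)) * I) = ((0.96 * (4 / Real.pi) : ℝ) : ℂ) * I := by
      push_cast; ring
    rw [this, Complex.re_ofReal_mul]
    simp
  · show (Φs' 1 0 * I).re = _
    show ((-(0.96 * (4 / (Real.pi:ℂ)) * I) / (1 - (0.96 * 0) ^ 2)) * I).re = _
    have : ((-(0.96 * (4 / (Real.pi:ℂ)) * I) / (1 - (0.96 * 0) ^ 2)) * I) = (((0.96 * (4 / Real.pi)) : ℝ) : ℂ) := by
      push_cast
      linear_combination (-(0.96 * (4 / (Real.pi:ℂ)))) * hI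
    rw [this, Complex.ofReal_re]
    simp
  · show (Φs' 2 0 * I).re = _
    show ((0.96 * (8 / (Real.pi:ℂ)) * (0.96 * 0) / (1 - (0.96 * 0) ^ 4)) * I).re = _
    simp

end Pool.Agent.Q80.Scherk
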