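import Mathlib
import Pool.Agent.Q80.Scherk2

set_option autoImplicit false

open Complex Metric Set InnerProductSpace

namespace Pool.Agent.Q80.Scherk

/-! ### The planar bound -/

lemma poly_bound (σ P : ℝ) (h0 : 0 ≤ σ) (h2 : σ ≤ 2) (hP : 0 ≤ P) (hP2 : σ - 1 ≤ P) :
    σ * (1 + (σ ^ 2 - 8 * P) / 8 + σ ^ 4 / 256) ≤ 1.21 := by
  rcases le_or_gt σ 1 with h | h
  · have a1 : σ ^ 2 ≤ 1 := by nlinarith
    have a2 : σ ^ 4 ≤ 1 := by nlinarith [sq_nonneg σ]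
    have a3 : (1 + (σ ^ 2 - 8 * P) / 8 + σ ^ 4 / 256) ≤ 1.21 := by
      norm_num
      linarith
    have : σ * (1 + (σ ^ 2 - 8 * P) / 8 + σ ^ 4 / 256) ≤ σ * 1.21 :=
      mul_le_mul_of_nonneg_left a3 h0
    norm_num at this ⊢
    nlinarith
  · have a1 : σ * (1 + (σ ^ 2 - 8 * P) / 8 + σ ^ 4 / 256)
        ≤ σ * (1 + (σ ^ 2 - 8 * (σ - 1)) / 8 + σ ^ 4 / 256) := by
      apply mul_le_mul_of_nonneg_left _ h0
      linarith
    refine a1.trans ?_
    norm_num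
    obtain ⟨t, rfl⟩ : ∃ t, σ = 1 + t := ⟨σ - 1, by ring⟩
    have t0 : 0 ≤ t := by linarith
    have t1 : t ≤ 1 := by linarith
    nlinarith [sq_nonneg (t - 0.42), sq_nonneg (t ^ 2 - 0.42 * t), mul_nonneg t0 (sub_nonneg.mpr t1),
      mul_nonneg (mul_nonneg t0 t0) (sub_nonneg.mpr t1),
      mul_nonneg t0 (sq_nonneg (t - 0.42)), mul_nonneg (mul_nonneg t0 t0) (sq_nonneg (t - 0.42)),
      mul_nonneg (sub_nonneg.mpr t1) (sq_nonneg (t - 0.42))]

/-- the polynomial flattening the corners of the square -/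
noncomputable def hp (w : ℂ) : ℂ := w + (625 / 14641 : ℂ) * w ^ 5

lemma hp_bound (w : ℂ) (h1 : |w.re| < 11 / 10) (h2 : |w.im| < 11 / 10) : ‖hp w‖ ≤ 1.21 := by
  obtain ⟨x, hx⟩ : ∃ x : ℝ, w.re = 11 / 10 * x := ⟨10 / 11 * w.re, by ring⟩
  obtain ⟨y, hy⟩ : ∃ y : ℝ, w.im = 11 / 10 * y := ⟨10 / 11 * w.im, by ring⟩
  rw [hx, abs_mul, abs_of_pos (by norm_num : (0:ℝ) < 11 / 10)] at h1
  rw [hy, abs_mul, abs_of_pos (by norm_num : (0:ℝ) < 11 / 10)] at h2
  have hx1 : |x| ≤ 1 := by linarith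
  have hy1 : |y| ≤ 1 := by linarith
  have hX : x ^ 2 ≤ 1 := by rw [← sq_abs]; nlinarith [abs_nonneg x]
  have hY : y ^ 2 ≤ 1 := by rw [← sq_abs]; nlinarith [abs_nonneg y]
  have hw : w = ((11 / 10 : ℝ) : ℂ) * ((x : ℂ) + (y : ℂ) * I) := by
    apply Complex.ext
    · simp [hx]
    · simp [hy]
  have hv : hp w = ((11 / 10 : ℝ) : ℂ) * ((x : ℂ) + (y : ℂ) * I) *
      (((1 + (x ^ 4 - 6 * x ^ 2 * y ^ 2 + y ^ 4) / 16 : ℝ) : ℂ) +
        (((4 * x ^ 3 * y - 4 * x * y ^ 3) / 16 : ℝ) : ℂ) * I) := by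
    rw [hw, hp]
    push_cast
    have hI2 : I ^ 2 = -1 := I_sq
    have hI3 : I ^ 3 = -I := by rw [pow_succ, hI2]; ring
    have hI4 : I ^ 4 = 1 := I_pow_four
    have hI5 : I ^ 5 = I := by rw [pow_succ, hI4]; ring
    ring_nf
    rw [hI5, hI4, hI3, hI2]
    ring
  have hn : ‖hp w‖ ^ 2 = 1.21 * ((x ^ 2 + y ^ 2) * (1 + ((x ^ 2 + y ^ 2) ^ 2 - 8 * (x ^ 2 * y ^ 2)) / 8
      + (x ^ 2 + y ^ 2) ^ 4 / 256)) := by
    rw [Complex.sq_norm, hv, Complex.normSq_mul, Complex.normSq_mul, Complex.normSq_ofReal,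
      Complex.normSq_add_mul_I, Complex.normSq_add_mul_I]
    norm_num
    ring
  have hb := poly_bound (x ^ 2 + y ^ 2) (x ^ 2 * y ^ 2) (by positivity) (by linarith) (by positivity)
    (by nlinarith [mul_nonneg (sub_nonneg.mpr hX) (sub_nonneg.mpr hY)])
  have hfin : ‖hp w‖ ^ 2 ≤ 1.21 ^ 2 := by
    rw [hn]
    norm_num at hb ⊢
    linarith
  exact le_of_sq_le_sq hfin (by norm_num)

/-! ### Holomorphy of planar conformal harmonic discs -/

lemma CH_harmonic {Ω : Set E3} {f : ℂ → E3} (hf : CH Ω f) (z : ℂ) (hz : z ∈ ball (0:ℂ) 1) :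
    HarmonicAt f z := by
  obtain ⟨hc, -, -, hl⟩ := hf
  have hcd : ∀ w ∈ ball (0:ℂ) 1, ContDiffAt ℝ 2 f w := fun w hw => hc.contDiffAt (isOpen_ball.mem_nhds hw)
  refine ⟨hcd z hz, ?_⟩
  filter_upwards [isOpen_ball.mem_nhds hz] with w hw
  have h1 := hcd w hw
  have hd : DifferentiableAt ℝ (fderiv ℝ f) w := by
    have := h1.fderiv_right (m := 1) (by norm_num)
    exact this.differentiableAt (by simp)
  have h2 := hl w hw
  rw [laplacian_eq_iteratedFDeriv_complexPlane]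
  simp only [iteratedFDeriv_two_apply, Matrix.cons_val_zero, Matrix.cons_val_one,
    Matrix.cons_val_fin_one, Pi.zero_apply]
  rw [← h2]
  congr 1
  · rw [fderiv_clm_apply hd (by fun_prop)]
    simp
  · rw [fderiv_clm_apply hd (by fun_prop)]
    simp

lemma CH_comp {Ω : Set E3} {f : ℂ → E3} (hf : CH Ω f) (j : Fin 3) (z : ℂ) (hz : z ∈ ball (0:ℂ) 1) :
    HarmonicAt (fun w => f w j) z ∧ ∀ v, fderiv ℝ (fun w => f w j) z v = (fderiv ℝ f z v) j := by
  have h1 := CH_harmonic hf z hz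
  constructor
  · exact h1.comp_CLM (EuclideanSpace.proj (𝕜 := ℝ) (ι := Fin 3) j)
  · intro v
    have hd : DifferentiableAt ℝ f z := h1.1.differentiableAt (by norm_num)
    have h2 := ((EuclideanSpace.proj (𝕜 := ℝ) (ι := Fin 3) j).hasFDerivAt.comp z hd.hasFDerivAt).fderiv
    have h3 : fderiv ℝ (fun w => f w j) z = (EuclideanSpace.proj (𝕜 := ℝ) (ι := Fin 3) j) ∘L fderiv ℝ f z := h2
    rw [h3]
    simp

theorem planar_bound {f : ℂ → E3} (hf : CH Om f) (hpl : ∀ z ∈ ball (0:ℂ) 1, f z 2 = 0)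
    (h0 : f 0 = 0) (r : ℝ) (hr : 0 < r)
    (hd1 : fderiv ℝ f 0 (1:ℂ) = r • EuclideanSpace.single (0 : Fin 3) (1:ℝ))
    (hdI : fderiv ℝ f 0 I = r • EuclideanSpace.single (1 : Fin 3) (1:ℝ)) : r ≤ 1.21 := by
  have z0 : (0:ℂ) ∈ ball (0:ℂ) 1 := by simp
  have hk : ∀ (j : Fin 3), ∀ z ∈ ball (0:ℂ) 1, ∀ v, fderiv ℝ (fun w => f w j) z v = (fderiv ℝ f z v) j :=
    fun j z hz v => (CH_comp hf j z hz).2 v
  have hAa : ∀ j : Fin 3, AnalyticOnNhd ℂ
      (fun z => (fderiv ℝ (fun w => f w j) z 1 : ℂ) - I * (fderiv ℝ (fun w => f w j) z I : ℂ)) (ball 0 1) :=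
    fun j z hz => _root_.HarmonicAt.analyticAt_complex_partial (CH_comp hf j z hz).1
  have h2z : ∀ z ∈ ball (0:ℂ) 1, ∀ v, (fderiv ℝ f z v) 2 = 0 := by
    intro z hz v
    rw [← hk 2 z hz v]
    have : (fun w => f w 2) =ᶠ[nhds z] (fun _ => (0:ℝ)) := by
      filter_upwards [isOpen_ball.mem_nhds hz] with w hw
      exact hpl w hw
    rw [this.fderiv_eq]
    simp
  have hprod : ∀ z ∈ ball (0:ℂ) 1,
      (((fderiv ℝ (fun w => f w 0) z 1 : ℂ) - I * (fderiv ℝ (fun w => f w 0) z I : ℂ))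
        + I * ((fderiv ℝ (fun w => f w 1) z 1 : ℂ) - I * (fderiv ℝ (fun w => f w 1) z I : ℂ))) *
      (((fderiv ℝ (fun w => f w 0) z 1 : ℂ) - I * (fderiv ℝ (fun w => f w 0) z I : ℂ))
        - I * ((fderiv ℝ (fun w => f w 1) z 1 : ℂ) - I * (fderiv ℝ (fun w => f w 1) z I : ℂ))) = 0 := by
    intro z hz
    obtain ⟨hc1, hc2⟩ := hf.2.2.1 z hz
    rw [hk 0 z hz, hk 0 z hz, hk 1 z hz, hk 1 z hz]
    have n1 : ‖fderiv ℝ f z 1‖ ^ 2 = ‖fderiv ℝ f z I‖ ^ 2 := by rw [hc1]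
    rw [EuclideanSpace.norm_sq_eq, EuclideanSpace.norm_sq_eq] at n1
    simp only [Fin.sum_univ_three, Real.norm_eq_abs, sq_abs, h2z z hz] at n1
    simp only [PiLp.inner_apply, Fin.sum_univ_three, RCLike.inner_apply, conj_trivial,
      h2z z hz] at hc2
    generalize (fderiv ℝ f z 1) 0 = a at *
    generalize (fderiv ℝ f z 1) 1 = b at *
    generalize (fderiv ℝ f z I) 0 = c at *
    generalize (fderiv ℝ f z I) 1 = d at *
    have n1' : (a:ℂ) ^ 2 + b ^ 2 = c ^ 2 + d ^ 2 := by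
      have : a ^ 2 + b ^ 2 = c ^ 2 + d ^ 2 := by linarith
      exact_mod_cast this
    have n2' : (a:ℂ) * c + b * d = 0 := by
      have : a * c + b * d = 0 := by linarith
      exact_mod_cast this
    have hI2 : I ^ 2 = -1 := I_sq
    have e : (((a:ℂ) - I * c) + I * ((b:ℂ) - I * d)) * (((a:ℂ) - I * c) - I * ((b:ℂ) - I * d))
        = (a:ℂ)^2 + b^2 - (c^2 + d^2) - 2 * I * (a * c + b * d) := by
      have hI3 : I ^ 3 = -I := by rw [pow_succ, hI2]; ring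
      have hI4 : I ^ 4 = 1 := I_pow_four
      ring_nf
      rw [hI4, hI3, hI2]
      ring
    rw [e, n1', n2']
    ring
  have hIa : AnalyticOnNhd ℂ (fun _ : ℂ => I) (ball (0:ℂ) 1) := fun _ _ => analyticAt_const
  have hor := ((hAa 0).add (hIa.mul (hAa 1))).eq_zero_or_eq_zero_of_mul_eq_zero
    ((hAa 0).sub (hIa.mul (hAa 1))) hprod (convex_ball 0 1).isPreconnected
  have v00 : (fderiv ℝ f 0 1) 0 = r := by rw [hd1]; simp
  have v01 : (fderiv ℝ f 0 1) 1 = 0 := by rw [hd1]; simp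
  have vI0 : (fderiv ℝ f 0 I) 0 = 0 := by rw [hdI]; simp
  have vI1 : (fderiv ℝ f 0 I) 1 = r := by rw [hdI]; simp
  have hzero : ∀ z ∈ ball (0:ℂ) 1, (fderiv ℝ f z 1) 0 = (fderiv ℝ f z I) 1 ∧
      (fderiv ℝ f z I) 0 = - (fderiv ℝ f z 1) 1 := by
    rcases hor with h | h
    · exfalso
      have h3 := h 0 z0
      simp only [Pi.add_apply, Pi.mul_apply] at h3
      rw [hk 0 0 z0, hk 0 0 z0, hk 1 0 z0, hk 1 0 z0, v00, v01, vI0, vI1] at h3
      have h4 := congrArg Complex.re h3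
      simp at h4
      linarith
    · intro z hz
      have h3 := h z hz
      simp only [Pi.sub_apply, Pi.mul_apply] at h3
      rw [hk 0 z hz, hk 0 z hz, hk 1 z hz, hk 1 z hz] at h3
      have h4 := congrArg Complex.re h3
      have h5 := congrArg Complex.im h3
      simp at h4 h5
      constructor <;> linarith
  -- the holomorphic function
  set H : ℂ → ℂ := fun z => ((f z 0 : ℝ) : ℂ) + I * ((f z 1 : ℝ) : ℂ) with hH
  have hHd : ∀ z ∈ ball (0:ℂ) 1, HasFDerivAt H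
      (Complex.ofRealCLM ∘L (fderiv ℝ (fun w => f w 0) z) +
        (ContinuousLinearMap.mul ℝ ℂ I) ∘L (Complex.ofRealCLM ∘L (fderiv ℝ (fun w => f w 1) z))) z := by
    intro z hz
    have d0 : HasFDerivAt (fun w => f w 0) (fderiv ℝ (fun w => f w 0) z) z :=
      ((CH_comp hf 0 z hz).1.1.differentiableAt (by norm_num)).hasFDerivAt
    have d1 : HasFDerivAt (fun w => f w 1) (fderiv ℝ (fun w => f w 1) z) z :=
      ((CH_comp hf 1 z hz).1.1.differentiableAt (by norm_num)).hasFDerivAt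
    have c0 := Complex.ofRealCLM.hasFDerivAt.comp z d0
    have c1 := Complex.ofRealCLM.hasFDerivAt.comp z d1
    have c2 := (ContinuousLinearMap.mul ℝ ℂ I).hasFDerivAt.comp z c1
    exact c0.add c2
  have hHv : ∀ z ∈ ball (0:ℂ) 1, ∀ v, fderiv ℝ H z v = (((fderiv ℝ f z v) 0 : ℝ) : ℂ) + I * (((fderiv ℝ f z v) 1 : ℝ) : ℂ) := by
    intro z hz v
    rw [(hHd z hz).fderiv]
    simp only [add_apply, ContinuousLinearMap.comp_apply, Complex.ofRealCLM_apply,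
      ContinuousLinearMap.mul_apply', hk 0 z hz, hk 1 z hz]
  have hHc : ∀ z ∈ ball (0:ℂ) 1, DifferentiableAt ℂ H z := by
    intro z hz
    rw [differentiableAt_complex_iff_differentiableAt_real]
    refine ⟨(hHd z hz).differentiableAt, ?_⟩
    rw [hHv z hz, hHv z hz, (hzero z hz).1, (hzero z hz).2, smul_eq_mul]
    push_cast
    linear_combination (-(((fderiv ℝ f z 1) 1 : ℝ) : ℂ)) * I_sq
  have hH0 : H 0 = 0 := by simp [hH, h0]
  have hHder : HasDerivAt H r 0 := by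
    have h1 := (hHc 0 z0).hasDerivAt
    have h2 : deriv H 0 = r := by
      have h3 := h1.hasFDerivAt.restrictScalars ℝ
      have h4 := congrArg (fun L => L (1:ℂ)) h3.fderiv
      have h5 : fderiv ℝ H 0 1 = deriv H 0 := by simpa using h4
      rw [← h5, hHv 0 z0, v00, v01]
      simp
    rw [h2] at h1
    exact h1
  have hmem : ∀ z ∈ ball (0:ℂ) 1, ‖hp (H z)‖ ≤ 1.21 := by
    intro z hz
    obtain ⟨b0, b1, -⟩ := Om_bound (hf.2.1 z hz)
    apply hp_bound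
    · simpa [hH] using b0
    · simpa [hH] using b1
  have hpd : ∀ w, HasDerivAt hp (1 + (625 / 14641 : ℂ) * (5 * w ^ 4)) w := by
    intro w
    have h1 := (hasDerivAt_id w).add (((hasDerivAt_id w).pow 5).const_mul (625 / 14641 : ℂ))
    have h2 : (1 + (625 / 14641 : ℂ) * (((5 : ℕ) : ℂ) * id w ^ (5 - 1) * 1)) = 1 + (625 / 14641 : ℂ) * (5 * w ^ 4) := by
      simp
    rw [h2] at h1
    exact h1
  have hcomp : HasDerivAt (hp ∘ H) r 0 := by
    have h1 := (hpd (H 0)).comp (0:ℂ) hHder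
    rw [hH0] at h1
    simpa using h1
  have hcd : DifferentiableOn ℂ (hp ∘ H) (ball 0 1) := by
    intro z hz
    exact (((hpd (H z)).comp z (hHc z hz).hasDerivAt).differentiableAt).differentiableWithinAt
  have hp0 : (hp ∘ H) 0 = 0 := by simp [hH0, hp]
  have hS := Complex.norm_deriv_le_div_of_mapsTo_ball (f := hp ∘ H) (c := 0) (R₁ := 1) (R₂ := 1.21) hcd
    (by
      intro z hz
      rw [hp0, mem_closedBall_zero_iff]
      exact hmem z hz) one_pos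
  rw [hcomp.deriv, Complex.norm_real, Real.norm_eq_abs, abs_of_pos hr, div_one] at hS
  exact hS

end Pool.Agent.Q80.Scherk
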