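import Mathlib
import Pool.Agent.Q80.Scherk3

set_option autoImplicit false

open Complex Metric Set InnerProductSpace

namespace Pool.Agent.Q80.Scherk

/-- reflection in the plane `x₂ = 0` -/
noncomputable def Rf : E3 ≃ₗᵢ[ℝ] E3 :=
  LinearIsometryEquiv.piLpCongrRight 2
    (fun j : Fin 3 => if j = 2 then LinearIsometryEquiv.neg ℝ else LinearIsometryEquiv.refl ℝ ℝ)

lemma Rf_0 (x : E3) : (Rf x) 0 = x 0 := by
  simp [Rf]

lemma Rf_1 (x : E3) : (Rf x) 1 = x 1 := by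
  simp [Rf]

lemma Rf_2 (x : E3) : (Rf x) 2 = - x 2 := by
  simp [Rf]

lemma Rf_single0 (r : ℝ) : Rf (r • EuclideanSpace.single (0 : Fin 3) (1:ℝ)) = r • EuclideanSpace.single (0 : Fin 3) (1:ℝ) := by
  ext j
  fin_cases j
  · exact Rf_0 _
  · exact Rf_1 _
  · refine (Rf_2 _).trans ?_
    simp

lemma Rf_single1 (r : ℝ) : Rf (r • EuclideanSpace.single (1 : Fin 3) (1:ℝ)) = r • EuclideanSpace.single (1 : Fin 3) (1:ℝ) := by
  ext j
  fin_cases j
  · exact Rf_0 _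
  · exact Rf_1 _
  · refine (Rf_2 _).trans ?_
    simp

lemma q_Rf (x : E3) : q (Rf x) = q x := by
  unfold q
  rw [Rf_0, Rf_1, Rf_2]
  ring

lemma Rf_fderiv (f : ℂ → E3) (z v : ℂ) : fderiv ℝ (fun w => Rf (f w)) z v = Rf (fderiv ℝ f z v) := by
  have h := Rf.comp_fderiv (f := f) (x := z)
  have h2 : fderiv ℝ (fun w => Rf (f w)) z = _ := h
  rw [h2]
  rfl

lemma Rf_CH {f : ℂ → E3} (hf : CH Om f) : CH Om (fun w => Rf (f w)) := by
  obtain ⟨h1, h2, h3, h4⟩ := hf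
  refine ⟨?_, ?_, ?_, ?_⟩
  · exact Rf.contDiff.comp_contDiffOn h1
  · intro z hz
    show q _ < _
    rw [q_Rf]
    exact h2 z hz
  · intro z hz
    rw [Rf_fderiv, Rf_fderiv, Rf.norm_map, Rf.norm_map, Rf.inner_map_map]
    exact h3 z hz
  · intro z hz
    have e1 : (fun w => fderiv ℝ (fun w => Rf (f w)) w (1:ℂ)) = fun w => Rf (fderiv ℝ f w 1) := by
      ext w : 1
      exact Rf_fderiv f w 1
    have e2 : (fun w => fderiv ℝ (fun w => Rf (f w)) w I) = fun w => Rf (fderiv ℝ f w I) := by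
      ext w : 1
      exact Rf_fderiv f w I
    rw [e1, e2, Rf_fderiv, Rf_fderiv, ← map_add, h4 z hz, map_zero]

/-- the competitor is better than every planar disc: contradiction -/
theorem final (f : ℂ → E3) (r : ℝ) (hr : 0 < r) (hf : CH Om f) (f0 : f 0 = 0)
    (fd1 : fderiv ℝ f 0 (1:ℂ) = r • EuclideanSpace.single (0 : Fin 3) (1:ℝ))
    (fdI : fderiv ℝ f 0 I = r • EuclideanSpace.single (1 : Fin 3) (1:ℝ))
    (hmax : ∀ g : ℂ → E3, ∀ s : ℝ, 0 < s → CH Om g → g 0 = 0 →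
      fderiv ℝ g 0 (1:ℂ) = s • EuclideanSpace.single (0 : Fin 3) (1:ℝ) →
      fderiv ℝ g 0 I = s • EuclideanSpace.single (1 : Fin 3) (1:ℝ) → s ≤ r)
    (hu : ∀ h : ℂ → E3, CH Om h → h 0 = 0 →
      fderiv ℝ h 0 (1:ℂ) = r • EuclideanSpace.single (0 : Fin 3) (1:ℝ) →
      fderiv ℝ h 0 I = r • EuclideanSpace.single (1 : Fin 3) (1:ℝ) →
      EqOn h f (ball 0 1)) : False := by
  have hR : EqOn (fun w => Rf (f w)) f (ball 0 1) := by
    apply hu _ (Rf_CH hf)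
    · simp [f0]
    · rw [Rf_fderiv, fd1, Rf_single0]
    · rw [Rf_fderiv, fdI, Rf_single1]
  have hpl : ∀ z ∈ ball (0:ℂ) 1, f z 2 = 0 := by
    intro z hz
    have h1 := congrArg (fun x : E3 => x 2) (hR hz)
    have h2 : (Rf (f z)) 2 = (f z) 2 := h1
    rw [Rf_2] at h2
    linarith
  have h1 := planar_bound hf hpl f0 r hr fd1 fdI
  have h2 := hmax (gof Φs) (0.96 * (4 / Real.pi)) (by positivity) scherk_CH scherk_zero scherk_d1 scherk_dI
  have h3 : (1.21 : ℝ) < 0.96 * (4 / Real.pi) := by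
    have hp : 0 < Real.pi := Real.pi_pos
    have := Real.pi_lt_d4
    rw [mul_div_assoc', lt_div_iff₀ hp]
    norm_num at this ⊢
    linarith
  linarith

lemma zero_mem : (0 : E3) ∈ Om := by
  show q 0 < _
  unfold q
  simp

end Pool.Agent.Q80.Scherk
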