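import Pool.Agent.W778.UI.A

/-!
Zeros of entire functions of exponential type: division by finitely many zeros, the count of the
zeros in a disc, and the summability of `exp (-3 rho (a n))` over distinct zeros.
-/

set_option autoImplicit false

namespace Pool.Agent.Q80.UnivInt

open Set Filter Topology Metric
open Pool.Agent.W778.UI

/-- Division of an entire function by finitely many distinct zeros. -/
theorem divide (F : ℂ → ℂ) (hF : Differentiable ℂ F) (a : ℕ → ℂ) (ha : Function.Injective a)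
    (h0 : ∀ n, F (a n) = 0) (S : Finset ℕ) :
    ∃ G : ℂ → ℂ, Differentiable ℂ G ∧ ∀ z, F z = (∏ i ∈ S, (z - a i)) * G z := by
  classical
  induction S using Finset.induction_on with
  | empty => exact ⟨F, hF, fun z => by simp⟩
  | insert j S hj ih =>
    obtain ⟨G, hG, hFG⟩ := ih
    have hGj : G (a j) = 0 := by
      have h1 := hFG (a j)
      rw [h0 j] at h1
      have h2 : (∏ i ∈ S, (a j - a i)) ≠ 0 := by
        refine Finset.prod_ne_zero_iff.2 fun i hi => ?_
        intro h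
        have : a j = a i := sub_eq_zero.1 h
        exact hj (ha this ▸ hi)
      rcases mul_eq_zero.1 h1.symm with h | h
      · exact absurd h h2
      · exact h
    refine ⟨dslope G (a j), ?_, fun z => ?_⟩
    · rw [← differentiableOn_univ] at hG ⊢
      exact (Complex.differentiableOn_dslope univ_mem).2 hG
    · rw [Finset.prod_insert hj, hFG z]
      have h3 : (z - a j) * dslope G (a j) z = G z := by
        have := sub_smul_dslope G (a j) z
        rw [hGj, sub_zero, smul_eq_mul] at this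
        exact this
      rw [← h3]
      ring

theorem rho_le_three (z : ℂ) : rho z ≤ 3 * ‖z‖ := by
  unfold rho
  have h1 : |z.im| ≤ ‖z‖ := Complex.abs_im_le_norm z
  have h2 : Real.log (1 + ‖z‖ ^ 2) ≤ 2 * ‖z‖ := by
    have h3 : 1 + ‖z‖ ^ 2 ≤ (Real.exp ‖z‖) ^ 2 := by
      have h4 : 1 + ‖z‖ ≤ Real.exp ‖z‖ := by linarith [Real.add_one_le_exp ‖z‖]
      have h5 : (1 + ‖z‖) ^ 2 ≤ (Real.exp ‖z‖) ^ 2 :=
        pow_le_pow_left₀ (by positivity) h4 2
      nlinarith [norm_nonneg z]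
    calc Real.log (1 + ‖z‖ ^ 2) ≤ Real.log ((Real.exp ‖z‖) ^ 2) :=
          Real.log_le_log (by positivity) h3
      _ = 2 * ‖z‖ := by rw [Real.log_pow, Real.log_exp]; push_cast; ring
  linarith

/-- The count of zeros in a disc. -/
theorem count (F : ℂ → ℂ) (hF : Differentiable ℂ F) (A B : ℝ) (hA : 0 < A) (hB : 0 < B)
    (hb : ∀ z, ‖F z‖ ≤ A * Real.exp (B * rho z)) (a : ℕ → ℂ) (ha : Function.Injective a)
    (h0 : ∀ n, F (a n) = 0) (z0 : ℂ) (hz0 : F z0 ≠ 0) :
    ∃ C : ℝ, 0 < C ∧ ∀ r : ℝ, 1 ≤ r → ∀ S : Finset ℕ, (∀ i ∈ S, ‖a i - z0‖ ≤ r) →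
      (S.card : ℝ) ≤ C * r := by
  have hF0 : 0 < ‖F z0‖ := norm_pos_iff.2 hz0
  set q : ℝ := A / ‖F z0‖ with hq
  have hqp : 0 < q := by positivity
  have hlog2 : 0 < Real.log 2 := Real.log_pos (by norm_num)
  refine ⟨(|Real.log q| + 3 * B * (3 + ‖z0‖)) / Real.log 2, by positivity, ?_⟩
  intro r hr S hS
  obtain ⟨G, hG, hFG⟩ := divide F hF a ha h0 S
  have hr0 : 0 < r := by linarith
  set M : ℝ := A * Real.exp (B * (3 * (3 * r + ‖z0‖))) with hM
  have hsph : ∀ z ∈ sphere z0 (3 * r), ‖G z‖ ≤ M / (2 * r) ^ S.card := by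
    intro z hz
    have hz' : ‖z - z0‖ = 3 * r := by simpa [dist_eq_norm] using hz
    have h1 : ‖z‖ ≤ 3 * r + ‖z0‖ := by
      have : ‖z‖ ≤ ‖z - z0‖ + ‖z0‖ := by simpa using norm_add_le (z - z0) z0
      linarith
    have h2 : ‖F z‖ ≤ M := by
      refine (hb z).trans ?_
      rw [hM]
      have h3 := rho_le_three z
      gcongr
      linarith
    have h4 : (2 * r) ^ S.card ≤ ‖∏ i ∈ S, (z - a i)‖ := by
      rw [norm_prod, ← Finset.prod_const]
      refine Finset.prod_le_prod (fun i _ => by positivity) fun i hi => ?_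
      have h5 : ‖z - z0‖ ≤ ‖z - a i‖ + ‖a i - z0‖ := by
        simpa using norm_add_le (z - a i) (a i - z0)
      have := hS i hi
      linarith
    rw [le_div_iff₀ (by positivity)]
    calc ‖G z‖ * (2 * r) ^ S.card ≤ ‖G z‖ * ‖∏ i ∈ S, (z - a i)‖ := by gcongr
      _ = ‖F z‖ := by rw [hFG z, norm_mul]; ring
      _ ≤ M := h2
  have hGz : ‖G z0‖ ≤ M / (2 * r) ^ S.card := by
    refine Complex.norm_le_of_forall_mem_frontier_norm_le (U := ball z0 (3 * r)) isBounded_ball
      hG.diffContOnCl ?_ (subset_closure (mem_ball_self (by positivity)))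
    intro z hz
    rw [frontier_ball z0 (by positivity : (3 * r) ≠ 0)] at hz
    exact hsph z hz
  have h6 : ‖F z0‖ ≤ r ^ S.card * (M / (2 * r) ^ S.card) := by
    rw [hFG z0, norm_mul]
    refine mul_le_mul ?_ hGz (norm_nonneg _) (by positivity)
    rw [norm_prod, ← Finset.prod_const]
    refine Finset.prod_le_prod (fun i _ => norm_nonneg _) fun i hi => ?_
    rw [norm_sub_rev]
    exact hS i hi
  have h7 : r ^ S.card * (M / (2 * r) ^ S.card) = M / 2 ^ S.card := by
    rw [mul_pow]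
    field_simp
  rw [h7, le_div_iff₀ (by positivity)] at h6
  have h8 : (2:ℝ) ^ S.card ≤ q * Real.exp (B * (3 * (3 * r + ‖z0‖))) := by
    rw [hq, div_mul_eq_mul_div, le_div_iff₀ hF0]
    linarith
  have h9 := Real.log_le_log (by positivity) h8
  rw [Real.log_pow, Real.log_mul hqp.ne' (Real.exp_pos _).ne', Real.log_exp] at h9
  rw [div_mul_eq_mul_div, le_div_iff₀ hlog2]
  have h10 : Real.log q ≤ |Real.log q| * r := by
    have := le_abs_self (Real.log q)
    nlinarith [abs_nonneg (Real.log q)]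
  have h11 : 3 * B * ‖z0‖ ≤ 3 * B * ‖z0‖ * r := by
    have : 0 ≤ 3 * B * ‖z0‖ := by positivity
    nlinarith
  nlinarith

/-- Summability of `exp (-3 rho (a n))`. -/
theorem summable_exp (F : ℂ → ℂ) (hF : Differentiable ℂ F) (A B : ℝ) (hA : 0 < A) (hB : 0 < B)
    (hb : ∀ z, ‖F z‖ ≤ A * Real.exp (B * rho z)) (a : ℕ → ℂ) (ha : Function.Injective a)
    (h0 : ∀ n, F (a n) = 0) (z0 : ℂ) (hz0 : F z0 ≠ 0) :
    Summable fun n => Real.exp (-(3 * rho (a n))) := by
  classical
  obtain ⟨C, hC, hcount⟩ := count F hF A B hA hB hb a ha h0 z0 hz0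
  set m : ℕ → ℕ := fun n => ⌈‖a n - z0‖⌉₊ with hm
  have hs2 : Summable fun j : ℕ => 1 / ((j : ℝ) + 1) ^ 2 := by
    have := (Real.summable_one_div_nat_pow (p := 2)).2 one_lt_two
    exact_mod_cast (summable_nat_add_iff 1).2 this
  have h1 : Summable fun n => 1 / ((m n : ℝ) + 1) ^ 3 := by
    refine summable_of_sum_le (c := C * ∑' j : ℕ, 1 / ((j : ℝ) + 1) ^ 2)
      (fun n => by positivity) fun u => ?_
    rw [Finset.sum_comp (fun j : ℕ => 1 / ((j : ℝ) + 1) ^ 3) m]
    calc ∑ b ∈ u.image m, (u.filter fun n => m n = b).card • (1 / ((b : ℝ) + 1) ^ 3)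
        ≤ ∑ b ∈ u.image m, C * (1 / ((b : ℝ) + 1) ^ 2) := by
          refine Finset.sum_le_sum fun b _ => ?_
          have h2 : ((u.filter fun n => m n = b).card : ℝ) ≤ C * (b + 1) := by
            refine hcount _ (by linarith [Nat.cast_nonneg (α := ℝ) b]) _ fun i hi => ?_
            have h3 : m i = b := (Finset.mem_filter.1 hi).2
            have h4 : ‖a i - z0‖ ≤ m i := Nat.le_ceil _
            rw [h3] at h4
            linarith
          rw [nsmul_eq_mul]
          calc ((u.filter fun n => m n = b).card : ℝ) * (1 / ((b : ℝ) + 1) ^ 3)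
              ≤ C * (b + 1) * (1 / ((b : ℝ) + 1) ^ 3) := by gcongr
            _ = C * (1 / ((b : ℝ) + 1) ^ 2) := by field_simp
      _ = C * ∑ b ∈ u.image m, 1 / ((b : ℝ) + 1) ^ 2 := by rw [Finset.mul_sum]
      _ ≤ C * ∑' j : ℕ, 1 / ((j : ℝ) + 1) ^ 2 := by
          refine mul_le_mul_of_nonneg_left ?_ hC.le
          exact hs2.sum_le_tsum _ fun _ _ => by positivity
  refine Summable.of_nonneg_of_le (fun n => (Real.exp_pos _).le) (fun n => ?_)
    (h1.mul_left ((2 * (2 + ‖z0‖)) ^ 3))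
  have h5 : (m n : ℝ) + 1 ≤ 2 * (2 + ‖z0‖) * Real.exp (rho (a n)) := by
    have h6 : (m n : ℝ) < ‖a n - z0‖ + 1 := Nat.ceil_lt_add_one (norm_nonneg _)
    have h7 : ‖a n - z0‖ ≤ ‖a n‖ + ‖z0‖ := norm_sub_le _ _
    have h8 := one_add_norm_le (a n)
    have h9 : 0 ≤ ‖z0‖ := norm_nonneg _
    have h10 : 0 ≤ ‖a n‖ := norm_nonneg _
    nlinarith [mul_nonneg h9 h10, mul_le_mul_of_nonneg_left h8 (by linarith : 0 ≤ 2 + ‖z0‖)]
  have h11 : ((m n : ℝ) + 1) ^ 3 ≤ (2 * (2 + ‖z0‖)) ^ 3 * Real.exp (3 * rho (a n)) := by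
    have h12 : ((m n : ℝ) + 1) ^ 3 ≤ (2 * (2 + ‖z0‖) * Real.exp (rho (a n))) ^ 3 :=
      pow_le_pow_left₀ (by positivity) h5 3
    rw [mul_pow, ← Real.exp_nat_mul] at h12
    exact_mod_cast h12
  rw [Real.exp_neg, mul_one_div, inv_eq_one_div, div_le_div_iff₀ (Real.exp_pos _) (by positivity)]
  linarith

end Pool.Agent.Q80.UnivInt
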