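import Pool.Agent.W778.UI.A

/-!
The Baire category step: if every bounded family of data can be interpolated with some growth
constants, then the unit data can be interpolated with uniform growth constants.
-/

set_option autoImplicit false

namespace Pool.Agent.Q80.UnivInt

open Set Filter Topology Metric
open Pool.Agent.W778.UI

/-- Entire with growth constants `A` and `B`. -/
def EB (A B : ℝ) (f : ℂ → ℂ) : Prop :=
  Differentiable ℂ f ∧ ∀ z, ‖f z‖ ≤ A * Real.exp (B * rho z)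

theorem EB.mono {A B A' B' : ℝ} {f : ℂ → ℂ} (h : EB A B f) (hA : A ≤ A') (hB : B ≤ B')
    (hA' : 0 ≤ A') : EB A' B' f := by
  refine ⟨h.1, fun z => (h.2 z).trans ?_⟩
  have := rho_nonneg z
  gcongr

/-- The data attached to a sequence of bits. -/
noncomputable def dat (p : ℕ → ℕ) (θ : ℕ → Bool) (n κ : ℕ) : ℂ :=
  if κ + 1 = p n ∧ θ n = true then 1 else 0

/-- Interpolation of the data `lam`. -/
def Interp (a : ℕ → ℂ) (p : ℕ → ℕ) (lam : ℕ → ℕ → ℂ) (g : ℂ → ℂ) : Prop :=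
  ∀ n, ∀ κ < p n, iteratedDeriv κ g (a n) / (κ.factorial : ℂ) = lam n κ

theorem closed_set (a : ℕ → ℂ) (p : ℕ → ℕ) (k : ℕ) :
    IsClosed {θ : ℕ → Bool | ∃ g, EB k k g ∧ Interp a p (dat p θ) g} := by
  refine IsSeqClosed.isClosed ?_
  intro x θ hx hθ
  choose g hg hgi using hx
  obtain ⟨Φ, hΦd, hΦb, hΦ⟩ := montel_entire g (fun n => (hg n).1)
    (fun z => (k : ℝ) * Real.exp ((k : ℝ) * rho z))
    (continuous_const.mul (Real.continuous_exp.comp (continuous_const.mul continuous_rho)))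
    (fun n z => (hg n).2 z) (hyperfilter ℕ)
  refine ⟨Φ, ⟨hΦd, hΦb⟩, fun n κ hκ => ?_⟩
  have h1 := tendsto_iteratedDeriv (fun i => (hg i).1) hΦ κ (a n)
  have h2 : Tendsto (fun i => iteratedDeriv κ (g i) (a n) / (κ.factorial : ℂ)) (hyperfilter ℕ)
      (𝓝 (iteratedDeriv κ Φ (a n) / (κ.factorial : ℂ))) := h1.div_const _
  have h3 : ∀ᶠ i in (hyperfilter ℕ : Filter ℕ), x i n = θ n := by
    have h4 : Tendsto (fun i => x i n) atTop (𝓝 (θ n)) := (tendsto_pi_nhds.1 hθ) n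
    rw [nhds_discrete, tendsto_pure] at h4
    exact h4.filter_mono Nat.hyperfilter_le_atTop
  refine tendsto_nhds_unique h2 ?_
  refine tendsto_const_nhds.congr' ?_
  filter_upwards [h3] with i hi
  rw [hgi i n κ hκ]
  unfold dat
  rw [hi]

theorem interp_sub {a : ℕ → ℂ} {p : ℕ → ℕ} {l1 l2 : ℕ → ℕ → ℂ} {g1 g2 : ℂ → ℂ}
    (h1 : Interp a p l1 g1) (h2 : Interp a p l2 g2) (hd1 : Differentiable ℂ g1)
    (hd2 : Differentiable ℂ g2) : Interp a p (fun n κ => l1 n κ - l2 n κ) (g1 - g2) := by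
  intro n κ hκ
  have : iteratedDeriv κ (g1 - g2) (a n) = iteratedDeriv κ g1 (a n) - iteratedDeriv κ g2 (a n) :=
    iteratedDeriv_sub (hd1.contDiff.contDiffAt) (hd2.contDiff.contDiffAt)
  rw [this, sub_div, h1 n κ hκ, h2 n κ hκ]

/-- Uniform interpolation of the unit data. -/
theorem uniform (a : ℕ → ℂ) (p : ℕ → ℕ)
    (hU : ∀ lam : ℕ → ℕ → ℂ, (∀ n, ∀ κ < p n, ‖lam n κ‖ ≤ 1) →
      ∃ A B : ℝ, ∃ g, EB A B g ∧ Interp a p lam g) :
    ∃ K : ℝ, 0 < K ∧ ∀ n, ∃ g, EB K K g ∧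
      Interp a p (fun m κ => if m = n ∧ κ + 1 = p n then 1 else 0) g := by
  classical
  -- natural constants
  have hN : ∀ lam : ℕ → ℕ → ℂ, (∀ n, ∀ κ < p n, ‖lam n κ‖ ≤ 1) →
      ∃ k : ℕ, ∃ g, EB k k g ∧ Interp a p lam g := by
    intro lam hl
    obtain ⟨A, B, g, hg, hi⟩ := hU lam hl
    obtain ⟨k, hk⟩ := exists_nat_ge (max A B)
    exact ⟨k, g, hg.mono ((le_max_left _ _).trans hk) ((le_max_right _ _).trans hk)
      (Nat.cast_nonneg k), hi⟩
  have hun : (⋃ k : ℕ, {θ : ℕ → Bool | ∃ g, EB k k g ∧ Interp a p (dat p θ) g}) = univ := by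
    refine eq_univ_of_forall fun θ => mem_iUnion.2 ?_
    refine hN (dat p θ) fun n κ _ => ?_
    unfold dat
    split_ifs <;> simp
  obtain ⟨k, θ0, hθ0⟩ := nonempty_interior_of_iUnion_of_closed (fun k => closed_set a p k) hun
  obtain ⟨I, u, hu, hsub⟩ := isOpen_pi_iff.1 isOpen_interior θ0 hθ0
  -- the finitely many exceptional indices
  have hfin : ∀ n, ∃ k : ℕ, ∃ g, EB k k g ∧
      Interp a p (fun m κ => if m = n ∧ κ + 1 = p n then 1 else 0) g := by
    intro n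
    refine hN _ fun m κ _ => ?_
    split_ifs <;> simp
  choose kn hkn using hfin
  refine ⟨(2 * k : ℝ) + 1 + ∑ n ∈ I, (kn n : ℝ), by positivity, fun n => ?_⟩
  have hsum : 0 ≤ ∑ n ∈ I, (kn n : ℝ) := Finset.sum_nonneg fun _ _ => Nat.cast_nonneg _
  have hk0 : (0:ℝ) ≤ k := Nat.cast_nonneg k
  by_cases hn : n ∈ I
  · obtain ⟨g, hg, hi⟩ := hkn n
    have h1 : (kn n : ℝ) ≤ (2 * k : ℝ) + 1 + ∑ n ∈ I, (kn n : ℝ) := by
      have := Finset.single_le_sum (f := fun n => (kn n : ℝ)) (fun _ _ => Nat.cast_nonneg _) hn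
      linarith
    exact ⟨g, hg.mono h1 h1 (by positivity), hi⟩
  · have hmem : ∀ b : Bool, Function.update θ0 n b ∈
        {θ : ℕ → Bool | ∃ g, EB k k g ∧ Interp a p (dat p θ) g} := by
      intro b
      refine interior_subset (hsub ?_)
      intro i hi
      have hne : i ≠ n := fun h => hn (h ▸ hi)
      rw [Function.update_of_ne hne]
      exact (hu i hi).2
    obtain ⟨g1, hg1, hi1⟩ := hmem true
    obtain ⟨g2, hg2, hi2⟩ := hmem false
    refine ⟨g1 - g2, ⟨hg1.1.sub hg2.1, fun z => ?_⟩, ?_⟩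
    · have h1 := hg1.2 z
      have h2 := hg2.2 z
      have h3 := rho_nonneg z
      calc ‖(g1 - g2) z‖ ≤ ‖g1 z‖ + ‖g2 z‖ := norm_sub_le _ _
        _ ≤ (2 * k) * Real.exp (k * rho z) := by linarith
        _ ≤ _ := by
          gcongr
          · linarith
          · linarith
    · have h4 := interp_sub hi1 hi2 hg1.1 hg2.1
      intro m κ hκ
      rw [h4 m κ hκ]
      unfold dat
      by_cases hmn : m = n
      · subst hmn
        simp
      · simp [hmn, Function.update_of_ne hmn]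

end Pool.Agent.Q80.UnivInt
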