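import Mathlib

/-!
A selection lemma: independent choices among `k n + 1` equally spaced values, one for each `n`,
such that infinitely many linear combinations stay away from zero simultaneously.
-/

set_option autoImplicit false

namespace Pool.Agent.Q80.UnivInt

open Set Filter Topology

/-- Counting: if for each `n` there is at most one bad value at the coordinate `n`, given the
others, and the sum of `1 / (k n + 1)` is less than one, then some choice is not bad. -/
theorem pick (k : ℕ → ℕ) (T : Finset ℕ) (bad : ℕ → (∀ n, Fin (k n + 1)) → Prop)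
    (hbad : ∀ n θ θ', (∀ m, m ≠ n → θ m = θ' m) → bad n θ → bad n θ' → θ n = θ' n)
    (hsum : ∑ n ∈ T, (1:ℝ) / (k n + 1) < 1) : ∃ θ, ∀ n ∈ T, ¬ bad n θ := by
  classical
  by_contra hcon
  push Not at hcon
  let X := ∀ n : T, Fin (k n + 1)
  let e : X → ∀ n, Fin (k n + 1) := fun x n => if h : n ∈ T then x ⟨n, h⟩ else 0
  have he : ∀ (x : X) (n : T), e x n = x n := by
    intro x n
    simp only [e, dif_pos n.2]
  let N : T → ℕ := fun n => Fintype.card {x : X // bad n (e x)}
  have hN : ∀ n : T, N n * (k n + 1) ≤ Fintype.card X := by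
    intro n
    have h1 : Fintype.card ({x : X // bad n (e x)} × Fin (k n + 1)) = N n * (k n + 1) := by
      rw [Fintype.card_prod, Fintype.card_fin]
    rw [← h1]
    refine Fintype.card_le_of_injective
      (fun q : {x : X // bad n (e x)} × Fin (k n + 1) => Function.update q.1.1 n q.2) ?_
    rintro ⟨⟨x, hx⟩, v⟩ ⟨⟨y, hy⟩, w⟩ h
    simp only at h
    have hvw : v = w := by
      have := congrFun h n
      simpa using this
    have hoff : ∀ m : T, m ≠ n → x m = y m := by
      intro m hm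
      have := congrFun h m
      rwa [Function.update_of_ne hm, Function.update_of_ne hm] at this
    have hn : e x n = e y n := by
      refine hbad n (e x) (e y) (fun m hm => ?_) hx hy
      simp only [e]
      split_ifs with hmT
      · exact hoff ⟨m, hmT⟩ (fun h => hm (congrArg Subtype.val h))
      · rfl
    rw [he, he] at hn
    have hxy : x = y := by
      funext m
      by_cases hm : m = n
      · rw [hm]; exact hn
      · exact hoff m hm
    subst hxy
    subst hvw
    rfl
  have hcard : (Fintype.card X : ℝ) ≤ ∑ n : T, (N n : ℝ) := by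
    have h2 : Fintype.card X ≤ ∑ n : T, N n := by
      have h3 : (Finset.univ : Finset X) ⊆
          Finset.univ.biUnion fun n : T => Finset.univ.filter fun x : X => bad n (e x) := by
        intro x _
        obtain ⟨n, hnT, hn⟩ := hcon (e x)
        exact Finset.mem_biUnion.2 ⟨⟨n, hnT⟩, Finset.mem_univ _,
          Finset.mem_filter.2 ⟨Finset.mem_univ _, hn⟩⟩
      have h4 := (Finset.card_le_card h3).trans Finset.card_biUnion_le
      rw [Finset.card_univ] at h4
      refine h4.trans (le_of_eq (Finset.sum_congr rfl fun n _ => ?_))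
      simp only [N]
      rw [Fintype.card_subtype]
    exact_mod_cast h2
  have hX : 0 < (Fintype.card X : ℝ) := by
    have : Nonempty X := ⟨fun _ => 0⟩
    exact_mod_cast Fintype.card_pos
  have h5 : ∑ n : T, (N n : ℝ) ≤ ∑ n : T, (Fintype.card X : ℝ) * (1 / (k n + 1)) := by
    refine Finset.sum_le_sum fun n _ => ?_
    rw [mul_one_div, le_div_iff₀ (by positivity)]
    exact_mod_cast hN n
  rw [← Finset.mul_sum] at h5
  have h6 : ∑ n : T, (1:ℝ) / (k n + 1) = ∑ n ∈ T, (1:ℝ) / (k n + 1) :=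
    Finset.sum_coe_sort T fun n => (1:ℝ) / (k n + 1)
  rw [h6] at h5
  have h7 : (Fintype.card X : ℝ) * ∑ n ∈ T, (1:ℝ) / (k n + 1) < Fintype.card X := by
    nlinarith
  linarith

/-- The selection lemma. -/
theorem select (k : ℕ → ℕ) (hk : Summable fun n => (1:ℝ) / (k n + 1))
    (hk1 : ∑' n, (1:ℝ) / (k n + 1) < 1) (w : ℕ → ℝ) (hw : ∀ n, 0 < w n) (D : ℕ → ℕ → ℂ)
    (hD : ∀ n, D n n = 1) (hs : ∀ n, Summable fun m => w m * ‖D n m‖) :
    ∃ t : ℕ → ℝ, (∀ m, 0 ≤ t m ∧ t m ≤ w m) ∧
      ∀ n, w n / (2 * (k n + 1)) ≤ ‖∑' m, (t m : ℂ) * D n m‖ := by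
  classical
  let Θ := ∀ n, Fin (k n + 1)
  let t : Θ → ℕ → ℝ := fun θ m => w m * ((θ m : ℕ) / (k m + 1))
  have ht0 : ∀ θ m, 0 ≤ t θ m := fun θ m => by
    have := hw m
    positivity
  have ht1 : ∀ θ m, t θ m ≤ w m := by
    intro θ m
    have h1 : ((θ m : ℕ) : ℝ) / (k m + 1) ≤ 1 := by
      rw [div_le_one (by positivity)]
      have : (θ m : ℕ) ≤ k m + 1 := (θ m).2.le
      exact_mod_cast this
    calc t θ m ≤ w m * 1 := mul_le_mul_of_nonneg_left h1 (hw m).le
      _ = w m := mul_one _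
  have hbd : ∀ n θ m, ‖(t θ m : ℂ) * D n m‖ ≤ w m * ‖D n m‖ := by
    intro n θ m
    rw [norm_mul, Complex.norm_real, Real.norm_eq_abs, abs_of_nonneg (ht0 θ m)]
    exact mul_le_mul_of_nonneg_right (ht1 θ m) (norm_nonneg _)
  have hsm : ∀ n θ, Summable fun m => (t θ m : ℂ) * D n m := fun n θ =>
    Summable.of_norm_bounded (hs n) (hbd n θ)
  let S : ℕ → Θ → ℂ := fun n θ => ∑' m, (t θ m : ℂ) * D n m
  have hcont : ∀ n, Continuous (S n) := by
    intro n
    refine continuous_tsum (fun m => ?_) (hs n) (fun m θ => hbd n θ m)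
    refine Continuous.mul ?_ continuous_const
    refine Complex.continuous_ofReal.comp ?_
    exact (continuous_of_discreteTopology (f := fun i : Fin (k m + 1) =>
      w m * (((i : ℕ) : ℝ) / (k m + 1)))).comp (continuous_apply m)
  -- at most one bad value at each coordinate
  have hone : ∀ n (θ θ' : Θ), (∀ m, m ≠ n → θ m = θ' m) → ‖S n θ‖ < w n / (2 * (k n + 1)) →
      ‖S n θ'‖ < w n / (2 * (k n + 1)) → θ n = θ' n := by
    intro n θ θ' hoff h1 h2
    by_contra hne
    have h3 : S n θ - S n θ' = ((t θ n - t θ' n : ℝ) : ℂ) := by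
      have h4 : S n θ - S n θ' = ∑' m, ((t θ m : ℂ) * D n m - (t θ' m : ℂ) * D n m) :=
        ((hsm n θ).tsum_sub (hsm n θ')).symm
      rw [h4, tsum_eq_single n]
      · rw [hD n]; push_cast; ring
      · intro m hm
        have : t θ m = t θ' m := by simp only [t]; rw [hoff m hm]
        rw [this, sub_self]
    have h5 : ‖S n θ - S n θ'‖ < w n / (k n + 1) := by
      calc ‖S n θ - S n θ'‖ ≤ ‖S n θ‖ + ‖S n θ'‖ := norm_sub_le _ _
        _ < w n / (2 * (k n + 1)) + w n / (2 * (k n + 1)) := by linarith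
        _ = w n / (k n + 1) := by field_simp; ring
    rw [h3, Complex.norm_real, Real.norm_eq_abs] at h5
    have h6 : t θ n - t θ' n = (w n / (k n + 1)) * (((θ n : ℕ) : ℝ) - ((θ' n : ℕ) : ℝ)) := by
      simp only [t]; ring
    rw [h6, abs_mul, abs_of_pos (div_pos (hw n) (by positivity))] at h5
    have h7 : (1:ℝ) ≤ |((θ n : ℕ) : ℝ) - ((θ' n : ℕ) : ℝ)| := by
      have h8 : (θ n : ℕ) ≠ (θ' n : ℕ) := fun h => hne (Fin.ext h)
      have h9 : ((θ n : ℕ) : ℤ) - ((θ' n : ℕ) : ℤ) ≠ 0 := by omega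
      have h10 : (1:ℤ) ≤ |((θ n : ℕ) : ℤ) - ((θ' n : ℕ) : ℤ)| := Int.one_le_abs h9
      exact_mod_cast h10
    have h11 : 0 < w n / (k n + 1) := div_pos (hw n) (by positivity)
    nlinarith
  have hne : (⋂ n, {θ : Θ | w n / (2 * (k n + 1)) ≤ ‖S n θ‖}).Nonempty := by
    refine CompactSpace.iInter_nonempty
      (fun n => isClosed_le continuous_const (hcont n).norm) fun T => ?_
    obtain ⟨θ, hθ⟩ := pick k T (fun n θ => ‖S n θ‖ < w n / (2 * (k n + 1)))
      (fun n θ θ' h h1 h2 => hone n θ θ' h h1 h2)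
      (lt_of_le_of_lt (hk.sum_le_tsum _ fun _ _ => by positivity) hk1)
    refine ⟨θ, ?_⟩
    simp only [mem_iInter]
    exact fun n hn => not_lt.1 (hθ n hn)
  obtain ⟨θ, hθ⟩ := hne
  exact ⟨t θ, fun m => ⟨ht0 θ m, ht1 θ m⟩, fun n => mem_iInter.1 hθ n⟩

end Pool.Agent.Q80.UnivInt
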