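import Pool.Agent.Q80.UnivInt1
import Pool.Agent.Q80.UnivInt2
import Pool.Agent.Q80.UnivInt3

/-!
Assembly: a universal interpolating sequence admits one function with exact zeros.
-/

set_option autoImplicit false

namespace Pool.Agent.Q80.UnivInt

open Set Filter Topology Metric
open Pool.Agent.W778.UI

/-- Derivatives of `(z - c) g z`. -/
theorem iter_mul (g : ℂ → ℂ) (hg : Differentiable ℂ g) (c : ℂ) (k : ℕ) (w : ℂ) :
    iteratedDeriv (k + 1) (fun z => (z - c) * g z) w =
      (w - c) * iteratedDeriv (k + 1) g w + (k + 1) * iteratedDeriv k g w := by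
  have hd : ∀ k, Differentiable ℂ (iteratedDeriv k g) := fun k => by
    have : ContDiff ℂ (k + 1 : ℕ) g := hg.contDiff
    exact this.differentiable_iteratedDeriv k (by exact_mod_cast Nat.lt_succ_self k)
  induction k generalizing w with
  | zero =>
    rw [zero_add, iteratedDeriv_one, iteratedDeriv_one, iteratedDeriv_zero]
    have h1 : HasDerivAt (fun z => (z - c) * g z) (1 * g w + (w - c) * deriv g w) w :=
      ((hasDerivAt_id w).sub_const c).mul (hg w).hasDerivAt
    rw [h1.deriv]
    push_cast
    ring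
  | succ k ih =>
    rw [iteratedDeriv_succ]
    have h2 : iteratedDeriv (k + 1) (fun z => (z - c) * g z) = fun w =>
        (w - c) * iteratedDeriv (k + 1) g w + (k + 1) * iteratedDeriv k g w := funext ih
    rw [h2]
    have h3 : HasDerivAt (fun w => (w - c) * iteratedDeriv (k + 1) g w +
        (k + 1) * iteratedDeriv k g w)
        ((1 * iteratedDeriv (k + 1) g w + (w - c) * deriv (iteratedDeriv (k + 1) g) w) +
          (k + 1) * deriv (iteratedDeriv k g) w) w :=
      (((hasDerivAt_id w).sub_const c).mul (hd (k + 1) w).hasDerivAt).add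
        ((hd k w).hasDerivAt.const_mul _)
    rw [h3.deriv, iteratedDeriv_succ (n := k + 1), iteratedDeriv_succ (n := k)]
    push_cast
    ring

theorem taylor_mul (g : ℂ → ℂ) (hg : Differentiable ℂ g) (c : ℂ) (k : ℕ) (w : ℂ) :
    iteratedDeriv (k + 1) (fun z => (z - c) * g z) w / ((k + 1).factorial : ℂ) =
      (w - c) * (iteratedDeriv (k + 1) g w / ((k + 1).factorial : ℂ)) +
        iteratedDeriv k g w / (k.factorial : ℂ) := by
  rw [iter_mul g hg c k w, Nat.factorial_succ]
  have h1 : (k.factorial : ℂ) ≠ 0 := by exact_mod_cast k.factorial_ne_zero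
  have h2 : ((k : ℂ) + 1) ≠ 0 := by exact_mod_cast k.succ_ne_zero
  push_cast
  field_simp

/-- The main theorem, with the weight `rho`. -/
theorem main (a : ℕ → ℂ) (p : ℕ → ℕ) (ha : Function.Injective a) (hp : ∀ n, 1 ≤ p n)
    (F : ℂ → ℂ) (A B : ℝ) (hA : 0 < A) (hB : 0 < B) (hF : EB A B F) (z0 : ℂ) (hz0 : F z0 ≠ 0)
    (hF0 : ∀ n, F (a n) = 0)
    (hU : ∀ lam : ℕ → ℕ → ℂ, (∀ n, ∀ κ < p n, ‖lam n κ‖ ≤ 1) →
      ∃ A B : ℝ, ∃ g, EB A B g ∧ Interp a p lam g) :
    ∃ f : ℂ → ℂ, (∃ A B : ℝ, 0 < A ∧ 0 < B ∧ EB A B f) ∧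
      (∀ n, ∀ k < p n, iteratedDeriv k f (a n) = 0) ∧
      ∃ ε > (0:ℝ), ∃ c > (0:ℝ), ∀ n, ε * Real.exp (-(c * rho (a n))) ≤
        ‖iteratedDeriv (p n) f (a n)‖ / ((p n).factorial : ℝ) := by
  classical
  obtain ⟨K, hK, hun⟩ := uniform a p hU
  choose g hg hgi using hun
  have hsum : Summable fun n => Real.exp (-(3 * rho (a n))) :=
    summable_exp F hF.1 A B hA hB hF.2 a ha hF0 z0 hz0
  set σ : ℝ := ∑' n, Real.exp (-(3 * rho (a n))) with hσ
  have hσ0 : 0 ≤ σ := tsum_nonneg fun _ => (Real.exp_pos _).le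
  -- the functions `h m`
  set h : ℕ → ℂ → ℂ := fun m z => (z - a m) * g m z with hh
  have hhd : ∀ m, Differentiable ℂ (h m) := fun m =>
    (differentiable_id.sub_const (a m)).mul (hg m).1
  have hhb : ∀ m z, ‖h m z‖ ≤ (4 * K * Real.exp ((K + 1) * rho z)) * Real.exp (rho (a m)) := by
    intro m z
    simp only [hh]
    rw [norm_mul]
    have h1 : ‖z - a m‖ ≤ (1 + ‖z‖) * (1 + ‖a m‖) := by
      have := norm_sub_le z (a m)
      nlinarith [norm_nonneg z, norm_nonneg (a m), mul_nonneg (norm_nonneg z) (norm_nonneg (a m))]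
    have h2 : (1 + ‖z‖) * (1 + ‖a m‖) ≤ (2 * Real.exp (rho z)) * (2 * Real.exp (rho (a m))) :=
      mul_le_mul (one_add_norm_le z) (one_add_norm_le (a m)) (by positivity) (by positivity)
    have h3 : Real.exp ((K + 1) * rho z) = Real.exp (K * rho z) * Real.exp (rho z) := by
      rw [← Real.exp_add]; ring_nf
    calc ‖z - a m‖ * ‖g m z‖
        ≤ ((2 * Real.exp (rho z)) * (2 * Real.exp (rho (a m)))) * (K * Real.exp (K * rho z)) :=
          mul_le_mul (h1.trans h2) ((hg m).2 z) (norm_nonneg _) (by positivity)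
      _ = _ := by rw [h3]; ring
  -- Taylor coefficients of `h m` at `a n`
  have hT0 : ∀ n m, ∀ κ < p n, iteratedDeriv κ (h m) (a n) = 0 := by
    intro n m κ hκ
    have hz : iteratedDeriv κ (h m) (a n) / (κ.factorial : ℂ) = 0 := by
      cases κ with
      | zero =>
        simp only [iteratedDeriv_zero, hh, Nat.factorial_zero, Nat.cast_one, div_one]
        by_cases hnm : n = m
        · rw [hnm, sub_self, zero_mul]
        · have h1 := hgi m n 0 hκ
          simp only [iteratedDeriv_zero, Nat.factorial_zero, Nat.cast_one, div_one, hnm,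
            false_and, if_false] at h1
          rw [h1, mul_zero]
      | succ j =>
        simp only [hh]
        rw [taylor_mul (g m) (hg m).1, hgi m n (j + 1) hκ, hgi m n j (by omega)]
        by_cases hnm : n = m
        · subst hnm
          have h2 : ¬ (n = n ∧ j + 1 = p n) := by omega
          rw [sub_self, zero_mul, zero_add]
          exact if_neg h2
        · simp [hnm]
    have hfac : (κ.factorial : ℂ) ≠ 0 := by exact_mod_cast κ.factorial_ne_zero
    exact (div_eq_zero_iff.1 hz).resolve_right hfac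
  set D : ℕ → ℕ → ℂ := fun n m => iteratedDeriv (p n) (h m) (a n) / ((p n).factorial : ℂ) with hD
  have hDn : ∀ n, D n n = 1 := by
    intro n
    obtain ⟨j, hj⟩ : ∃ j, p n = j + 1 := ⟨p n - 1, by have := hp n; omega⟩
    simp only [hD, hh]
    rw [hj, taylor_mul (g n) (hg n).1, hgi n n j (by omega), sub_self, zero_mul, zero_add]
    exact if_pos ⟨rfl, hj.symm⟩
  have hDb : ∀ n m, ‖D n m‖ ≤
      (4 * K * Real.exp ((K + 1) * (rho (a n) + 5))) * Real.exp (rho (a m)) := by
    intro n m
    simp only [hD]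
    rw [norm_div, Complex.norm_natCast, div_le_iff₀ (by exact_mod_cast (p n).factorial_pos)]
    have h1 := Complex.norm_iteratedDeriv_le_of_forall_mem_sphere_norm_le (F := ℂ) (c := a n)
      (R := 1) (C := (4 * K * Real.exp ((K + 1) * (rho (a n) + 5))) * Real.exp (rho (a m)))
      (f := h m) (p n) one_pos (hhd m).diffContOnCl ?_
    · rw [one_pow, div_one] at h1
      rw [mul_comm]
      exact h1
    · intro z hz
      have hz' : ‖z - a n‖ = 1 := by simpa [dist_eq_norm] using hz
      refine (hhb m z).trans ?_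
      have h2 := rho_le (z := a n) (w := z) (by rw [hz']; norm_num)
      gcongr
  -- weights
  set w : ℕ → ℝ := fun n => Real.exp (-(4 * rho (a n))) with hw
  have hwexp : ∀ m, w m * Real.exp (rho (a m)) = Real.exp (-(3 * rho (a m))) := by
    intro m
    simp only [hw]
    rw [← Real.exp_add]
    ring_nf
  have hws : ∀ n, Summable fun m => w m * ‖D n m‖ := by
    intro n
    refine Summable.of_nonneg_of_le (fun m => by positivity) (fun m => ?_)
      (hsum.mul_left (4 * K * Real.exp ((K + 1) * (rho (a n) + 5))))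
    calc w m * ‖D n m‖
        ≤ w m * ((4 * K * Real.exp ((K + 1) * (rho (a n) + 5))) * Real.exp (rho (a m))) := by
          have := hDb n m
          gcongr
      _ = (4 * K * Real.exp ((K + 1) * (rho (a n) + 5))) * (w m * Real.exp (rho (a m))) := by ring
      _ = _ := by rw [hwexp]
  -- the numbers `k n`
  set k : ℕ → ℕ := fun n => ⌈(σ + 1) * Real.exp (3 * rho (a n))⌉₊ with hk
  have hkb : ∀ n, (1:ℝ) / (k n + 1) ≤ 1 / (σ + 1) * Real.exp (-(3 * rho (a n))) := by
    intro n
    have h1 : (σ + 1) * Real.exp (3 * rho (a n)) ≤ (k n : ℝ) + 1 := by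
      have := Nat.le_ceil ((σ + 1) * Real.exp (3 * rho (a n)))
      simp only [hk]
      linarith
    rw [Real.exp_neg, ← one_div, one_div_mul_one_div]
    exact one_div_le_one_div_of_le (by positivity) h1
  have hks : Summable fun n => (1:ℝ) / (k n + 1) :=
    Summable.of_nonneg_of_le (fun n => by positivity) hkb (hsum.mul_left _)
  have hk1 : ∑' n, (1:ℝ) / (k n + 1) < 1 := by
    calc ∑' n, (1:ℝ) / (k n + 1) ≤ ∑' n, 1 / (σ + 1) * Real.exp (-(3 * rho (a n))) :=
          hks.tsum_le_tsum hkb (hsum.mul_left _)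
      _ = 1 / (σ + 1) * σ := by rw [tsum_mul_left]
      _ < 1 := by rw [div_mul_eq_mul_div, one_mul, div_lt_one (by linarith)]; linarith
  obtain ⟨t, ht, htD⟩ := select k hks hk1 w (fun n => Real.exp_pos _) D hDn hws
  -- the function
  have htb : ∀ m z, ‖(t m : ℂ) * h m z‖ ≤
      (4 * K * Real.exp ((K + 1) * rho z)) * Real.exp (-(3 * rho (a m))) := by
    intro m z
    rw [norm_mul, Complex.norm_real, Real.norm_eq_abs, abs_of_nonneg (ht m).1]
    calc t m * ‖h m z‖
        ≤ w m * ((4 * K * Real.exp ((K + 1) * rho z)) * Real.exp (rho (a m))) :=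
          mul_le_mul (ht m).2 (hhb m z) (norm_nonneg _) (Real.exp_pos _).le
      _ = (4 * K * Real.exp ((K + 1) * rho z)) * (w m * Real.exp (rho (a m))) := by ring
      _ = _ := by rw [hwexp]
  set f : ℂ → ℂ := fun z => ∑' m, (t m : ℂ) * h m z with hf
  set P : ℕ → ℂ → ℂ := fun N z => ∑ m ∈ Finset.range N, (t m : ℂ) * h m z with hP
  have hPd : ∀ N, Differentiable ℂ (P N) := fun N =>
    Differentiable.fun_sum fun m _ => (hhd m).const_mul _
  have hconv : TendstoLocallyUniformlyOn P f atTop univ := by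
    rw [tendstoLocallyUniformlyOn_iff_forall_isCompact isOpen_univ]
    intro C _ hC
    have hcont : Continuous fun z => 4 * K * Real.exp ((K + 1) * rho z) :=
      continuous_const.mul (Real.continuous_exp.comp (continuous_const.mul continuous_rho))
    obtain ⟨M, hM⟩ := hC.bddAbove_image hcont.continuousOn
    refine tendstoUniformlyOn_tsum_nat (u := fun m => M * Real.exp (-(3 * rho (a m))))
      (hsum.mul_left M) fun m z hz => (htb m z).trans ?_
    exact mul_le_mul_of_nonneg_right (hM ⟨z, hz, rfl⟩) (Real.exp_pos _).le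
  have hfd : Differentiable ℂ f := by
    rw [← differentiableOn_univ]
    exact hconv.differentiableOn (Eventually.of_forall fun N => (hPd N).differentiableOn)
      isOpen_univ
  have hPi : ∀ N κ z, iteratedDeriv κ (P N) z =
      ∑ m ∈ Finset.range N, (t m : ℂ) * iteratedDeriv κ (h m) z := by
    intro N κ z
    induction N with
    | zero =>
      have : P 0 = fun _ => (0:ℂ) := by funext z; simp [hP]
      rw [this]
      simp [iteratedDeriv_const]
    | succ N ih =>
      have h1 : P (N + 1) = P N + fun z => (t N : ℂ) * h N z := by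
        funext z; simp [hP, Finset.sum_range_succ]
      have h2 : iteratedDeriv κ (fun z => (t N : ℂ) * h N z) z =
          (t N : ℂ) * iteratedDeriv κ (h N) z :=
        iteratedDeriv_const_mul _ ((hhd N).contDiff.contDiffAt)
      rw [h1, iteratedDeriv_add ((hPd N).contDiff.contDiffAt)
        (((hhd N).const_mul _).contDiff.contDiffAt), ih, h2, Finset.sum_range_succ]
  have hlim : ∀ κ z, Tendsto (fun N => ∑ m ∈ Finset.range N, (t m : ℂ) * iteratedDeriv κ (h m) z)
      atTop (𝓝 (iteratedDeriv κ f z)) := by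
    intro κ z
    have h1 := tendsto_iteratedDeriv hPd hconv κ z
    simpa only [hPi] using h1
  refine ⟨f, ⟨4 * K * (σ + 1), K + 1, by positivity, by positivity, hfd, fun z => ?_⟩, ?_, ?_⟩
  · have h1 : Summable fun m => (4 * K * Real.exp ((K + 1) * rho z)) *
        Real.exp (-(3 * rho (a m))) := hsum.mul_left _
    calc ‖f z‖ ≤ ∑' m, (4 * K * Real.exp ((K + 1) * rho z)) * Real.exp (-(3 * rho (a m))) :=
          tsum_of_norm_bounded h1.hasSum fun m => htb m z
      _ = (4 * K * Real.exp ((K + 1) * rho z)) * σ := by rw [tsum_mul_left]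
      _ ≤ 4 * K * (σ + 1) * Real.exp ((K + 1) * rho z) := by
          have : 0 < 4 * K * Real.exp ((K + 1) * rho z) := by positivity
          nlinarith
  · intro n κ hκ
    have h1 := hlim κ (a n)
    have h2 : (fun N => ∑ m ∈ Finset.range N, (t m : ℂ) * iteratedDeriv κ (h m) (a n)) =
        fun _ => 0 := by
      funext N
      refine Finset.sum_eq_zero fun m _ => ?_
      rw [hT0 n m κ hκ, mul_zero]
    rw [h2] at h1
    exact tendsto_nhds_unique h1 tendsto_const_nhds
  · refine ⟨1 / (4 * (σ + 2)), by positivity, 7, by norm_num, fun n => ?_⟩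
    have h1 : ‖iteratedDeriv (p n) f (a n)‖ / ((p n).factorial : ℝ) =
        ‖∑' m, (t m : ℂ) * D n m‖ := by
      have h2 : Tendsto (fun N => ∑ m ∈ Finset.range N, (t m : ℂ) * D n m) atTop
          (𝓝 (iteratedDeriv (p n) f (a n) / ((p n).factorial : ℂ))) := by
        have h3 := (hlim (p n) (a n)).div_const ((p n).factorial : ℂ)
        refine h3.congr fun N => ?_
        rw [Finset.sum_div]
        refine Finset.sum_congr rfl fun m _ => ?_
        simp only [hD]
        rw [mul_div_assoc]
      have h4 : Summable fun m => (t m : ℂ) * D n m := by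
        refine Summable.of_norm_bounded (hws n) fun m => ?_
        rw [norm_mul, Complex.norm_real, Real.norm_eq_abs, abs_of_nonneg (ht m).1]
        exact mul_le_mul_of_nonneg_right (ht m).2 (norm_nonneg _)
      have h5 := tendsto_nhds_unique h2 h4.hasSum.tendsto_sum_nat
      rw [← h5, norm_div, Complex.norm_natCast]
    rw [h1]
    refine le_trans ?_ (htD n)
    have h6 : (k n : ℝ) + 1 ≤ (2 * (σ + 2)) * Real.exp (3 * rho (a n)) := by
      have h7 : (k n : ℝ) < (σ + 1) * Real.exp (3 * rho (a n)) + 1 :=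
        Nat.ceil_lt_add_one (by positivity)
      have h8 : 1 ≤ Real.exp (3 * rho (a n)) :=
        Real.one_le_exp (by have := rho_nonneg (a n); positivity)
      nlinarith
    have h9 : Real.exp (-(7 * rho (a n))) = w n / Real.exp (3 * rho (a n)) := by
      simp only [hw]
      rw [← Real.exp_sub]
      ring_nf
    rw [h9, div_mul_div_comm, one_mul, div_le_div_iff₀ (by positivity) (by positivity)]
    have h10 : 0 < w n := Real.exp_pos _
    nlinarith

end Pool.Agent.Q80.UnivInt
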